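import Mathlib

/-!
# GRH and multiplicativity for the exponential sum with multiplicative coefficients: definitions
-/

set_option autoImplicit false

namespace Pool.Agent.Helper92.GB

open Finset

/-- `n ^ (i t)`. -/
noncomputable def npi (n : ℕ) (t : ℝ) : ℂ := (n : ℂ) ^ ((t : ℂ) * Complex.I)

/-- `e(x) = exp (2 π i x)`. -/
noncomputable def e (x : ℝ) : ℂ := Complex.exp (2 * Real.pi * Complex.I * x)

/-- The twisted sum `∑ g(n) χ(n) n ^ (i t)` over `1 ≤ n ≤ N`. -/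
noncomputable def tw (g : ℕ → ℤ) {q : ℕ} (χ : DirichletCharacter ℂ q) (t : ℝ) (N : ℕ) : ℂ :=
  ∑ n ∈ Icc 1 N, (g n : ℂ) * χ (n : ZMod q) * npi n t

/-- The exponential sum `∑ g(n) e(n x)` over `1 ≤ n ≤ N`. -/
noncomputable def F (g : ℕ → ℤ) (N : ℕ) (x : ℝ) : ℂ :=
  ∑ n ∈ Icc 1 N, (g n : ℂ) * e (n * x)

/-- Multiplicative functions with `g ^ 2 = μ ^ 2` whose twists by `χ(n) n ^ (i t)` satisfy the bounds
which the generalised Riemann hypothesis gives for the Moebius function. -/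
structure GRHClass (g : ℕ → ℤ) : Prop where
  mul : ∀ m n : ℕ, m.Coprime n → g (m * n) = g m * g n
  sq : ∀ n : ℕ, g n ^ 2 = ArithmeticFunction.moebius n ^ 2
  bound : ∀ ε : ℝ, 0 < ε → ∃ C : ℝ, ∀ (q : ℕ) (χ : DirichletCharacter ℂ q) (t : ℝ) (N : ℕ),
    1 ≤ q → 1 ≤ N → ‖tw g χ t N‖ ≤ C * ((q : ℝ) * (1 + |t|) * N) ^ ε * (N : ℝ) ^ (1 / 2 : ℝ)

/-- The multiplicative function supported on squarefree numbers with the values `f p` at primes. -/
noncomputable def ext (f : ℕ → ℤ) (n : ℕ) : ℤ :=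
  open Classical in if Squarefree n then ∏ p ∈ n.primeFactors, f p else 0

/-- Square root cancellation of the prime sums of `f`, uniformly in the twists. -/
def PS (f : ℕ → ℤ) : Prop :=
  ∀ ε : ℝ, 0 < ε → ∃ C : ℝ, ∀ (q : ℕ) (χ : DirichletCharacter ℂ q) (t : ℝ) (y : ℕ), 1 ≤ q →
    ‖∑ p ∈ (Icc 1 y).filter Nat.Prime, (f p : ℂ) * χ (p : ZMod q) * npi p t‖
      ≤ C * (y : ℝ) ^ (1 / 2 + ε) * Real.log (q * (2 + |t|))

/-- Probability of the sign vector `η` when the signs are independent with means `h s`. -/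
noncomputable def wt {S : Type} [Fintype S] (h : S → ℝ) (η : S → ℤˣ) : ℝ :=
  ∏ s, (1 + (((η s : ℤ) : ℝ)) * h s) / 2

/-- The sign function on `ℕ` given by finitely many signs. -/
def sg {M : ℕ} (ω : Fin (M + 1) → ℤˣ) (n : ℕ) : ℤ := if h : n < M + 1 then (ω ⟨n, h⟩ : ℤ) else 1

end Pool.Agent.Helper92.GB
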