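import Pool.Agent.Helper92.GB.Defs

/-!
# Block GB-PV (MP_b6b996_nt)
Parseval. Proof. `cos` and `sin` are `(e(θ) ± e(-θ))/2` (up to `1/i`), `|(a ± b)/2|² ≤ (|a|² + |b|²)/2`, extend the sum over `l ∈ L` to all `l < Q`
(`range Q`), `∑_{l < Q} |∑_p c_p e(± p l / Q)|² = Q ∑_p |c_p|²` since the `p < Q` are distinct modulo `Q`
(geometric sums / orthogonality of additive characters of `ZMod Q`).
-/

set_option autoImplicit false

namespace Pool.Agent.Helper92.GB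

open Finset

theorem PV_parseval (Q : ℕ) [NeZero Q] (B : Finset ℕ) (hB : ∀ p ∈ B, p < Q) (c : ℕ → ℂ) :
    ∑ l : ZMod Q, ‖∑ p ∈ B, c p * ZMod.stdAddChar ((p : ZMod Q) * l)‖ ^ 2 =
      Q * ∑ p ∈ B, ‖c p‖ ^ 2 := by
  have hconj : ∀ x : ZMod Q, (starRingEnd ℂ) (ZMod.stdAddChar x) = ZMod.stdAddChar (-x) := by
    intro x
    rw [ZMod.stdAddChar_apply, ZMod.stdAddChar_apply, AddChar.map_neg_eq_inv, Circle.coe_inv_eq_conj]
  have hC : (∑ l : ZMod Q, ((‖∑ p ∈ B, c p * ZMod.stdAddChar ((p : ZMod Q) * l)‖ ^ 2 : ℝ) : ℂ)) =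
      (((Q : ℝ) * ∑ p ∈ B, ‖c p‖ ^ 2 : ℝ) : ℂ) := by
    have h1 : ∀ l : ZMod Q, ((‖∑ p ∈ B, c p * ZMod.stdAddChar ((p : ZMod Q) * l)‖ ^ 2 : ℝ) : ℂ)
        = ∑ p ∈ B, ∑ q ∈ B, (c p * (starRingEnd ℂ) (c q)) *
          ZMod.stdAddChar (l * ((p : ZMod Q) - (q : ZMod Q))) := by
      intro l
      rw [Complex.ofReal_pow, ← Complex.mul_conj', map_sum, Finset.sum_mul_sum]
      refine Finset.sum_congr rfl fun p _ => Finset.sum_congr rfl fun q _ => ?_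
      rw [(starRingEnd ℂ).map_mul, hconj]
      have : l * ((p : ZMod Q) - (q : ZMod Q)) = (p : ZMod Q) * l + -((q : ZMod Q) * l) := by ring
      rw [this, AddChar.map_add_eq_mul]
      ring
    rw [Finset.sum_congr rfl fun l _ => h1 l, Finset.sum_comm]
    push_cast
    rw [Finset.mul_sum]
    refine Finset.sum_congr rfl fun p hp => ?_
    rw [Finset.sum_comm]
    rw [Finset.sum_eq_single p]
    · rw [← Finset.mul_sum, AddChar.sum_mulShift _ (ZMod.isPrimitive_stdAddChar Q)]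
      simp only [sub_self, if_true, ZMod.card]
      rw [Complex.mul_conj']
      push_cast
      ring
    · intro q hq hqp
      rw [← Finset.mul_sum, AddChar.sum_mulShift _ (ZMod.isPrimitive_stdAddChar Q)]
      rw [if_neg, Nat.cast_zero, mul_zero]
      intro h
      rw [sub_eq_zero] at h
      have := (ZMod.natCast_eq_natCast_iff' p q Q).1 h
      rw [Nat.mod_eq_of_lt (hB p hp), Nat.mod_eq_of_lt (hB q hq)] at this
      exact hqp this.symm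
    · intro h; exact absurd hp h
  exact_mod_cast hC

theorem PV_exp (Q : ℕ) [NeZero Q] (p l : ℕ) :
    (ZMod.stdAddChar ((p : ZMod Q) * (l : ZMod Q)) : ℂ) =
      Complex.exp (((2 * Real.pi * ((p : ℝ) * l / Q) : ℝ) : ℂ) * Complex.I) := by
  have h := ZMod.stdAddChar_coe (N := Q) ((p : ℤ) * l)
  push_cast at h
  rw [h]
  congr 1
  push_cast
  ring

theorem PV_exp_neg (Q : ℕ) [NeZero Q] (p l : ℕ) :
    (ZMod.stdAddChar ((p : ZMod Q) * (-(l : ZMod Q))) : ℂ) =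
      Complex.exp (-(((2 * Real.pi * ((p : ℝ) * l / Q) : ℝ) : ℂ)) * Complex.I) := by
  have h := ZMod.stdAddChar_coe (N := Q) ((p : ℤ) * (-l))
  push_cast at h
  rw [h]
  congr 1
  push_cast
  ring

theorem PV (Q : ℕ) (hQ : 1 ≤ Q) (L B : Finset ℕ) (hL : ∀ l ∈ L, l < Q) (hB : ∀ p ∈ B, p < Q)
    (c : ℕ → ℂ) (τ : ℝ → ℝ)
    (hτ : τ = (fun x => Real.cos (2 * Real.pi * x)) ∨ τ = (fun x => Real.sin (2 * Real.pi * x))) :
    ∑ l ∈ L, ‖∑ p ∈ B, c p * ((τ (p * l / Q) : ℝ) : ℂ)‖ ^ 2 ≤ Q * ∑ p ∈ B, ‖c p‖ ^ 2 := by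
  have : NeZero Q := ⟨by omega⟩
  set G : ZMod Q → ℂ := fun l => ∑ p ∈ B, c p * ZMod.stdAddChar ((p : ZMod Q) * l) with hG
  have hpt : ∀ l : ℕ, ‖∑ p ∈ B, c p * ((τ (p * l / Q) : ℝ) : ℂ)‖ ^ 2 ≤
      (‖G l‖ ^ 2 + ‖G (-l)‖ ^ 2) / 2 := by
    intro l
    have hsq : ∀ x y : ℝ, ((x + y) / 2) ^ 2 ≤ (x ^ 2 + y ^ 2) / 2 := by
      intro x y; nlinarith [sq_nonneg (x - y)]
    rcases hτ with h | h
    · have e1 : ∑ p ∈ B, c p * ((τ (p * l / Q) : ℝ) : ℂ) = (G l + G (-l)) / 2 := by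
        rw [hG]
        simp only
        rw [← Finset.sum_add_distrib, Finset.sum_div]
        refine Finset.sum_congr rfl fun p _ => ?_
        rw [PV_exp, PV_exp_neg, h]
        simp only [Complex.ofReal_cos]
        rw [Complex.cos]
        ring
      rw [e1, norm_div]
      have : ‖(2 : ℂ)‖ = 2 := by simp
      rw [this]
      refine le_trans ?_ (hsq _ _)
      gcongr
      exact norm_add_le _ _
    · have e1 : ∑ p ∈ B, c p * ((τ (p * l / Q) : ℝ) : ℂ) = (G (-l) - G l) * Complex.I / 2 := by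
        rw [hG]
        simp only
        rw [← Finset.sum_sub_distrib, Finset.sum_mul, Finset.sum_div]
        refine Finset.sum_congr rfl fun p _ => ?_
        rw [PV_exp, PV_exp_neg, h]
        simp only [Complex.ofReal_sin]
        rw [Complex.sin]
        ring
      rw [e1, norm_div, norm_mul, Complex.norm_I, mul_one]
      have : ‖(2 : ℂ)‖ = 2 := by simp
      rw [this]
      refine le_trans ?_ (hsq _ _)
      gcongr
      rw [add_comm]
      exact norm_sub_le _ _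
  calc ∑ l ∈ L, ‖∑ p ∈ B, c p * ((τ (p * l / Q) : ℝ) : ℂ)‖ ^ 2
      ≤ ∑ l ∈ L, (‖G l‖ ^ 2 + ‖G (-l)‖ ^ 2) / 2 := Finset.sum_le_sum fun l _ => hpt l
    _ = ∑ x ∈ L.image (fun l : ℕ => (l : ZMod Q)), (‖G x‖ ^ 2 + ‖G (-x)‖ ^ 2) / 2 := by
        rw [Finset.sum_image]
        intro l hl m hm hlm
        have := (ZMod.natCast_eq_natCast_iff' l m Q).1 hlm
        rwa [Nat.mod_eq_of_lt (hL l hl), Nat.mod_eq_of_lt (hL m hm)] at this
    _ ≤ ∑ x : ZMod Q, (‖G x‖ ^ 2 + ‖G (-x)‖ ^ 2) / 2 :=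
        Finset.sum_le_sum_of_subset_of_nonneg (Finset.subset_univ _) fun x _ _ => by positivity
    _ = (∑ x : ZMod Q, ‖G x‖ ^ 2 + ∑ x : ZMod Q, ‖G (-x)‖ ^ 2) / 2 := by
        rw [← Finset.sum_add_distrib, Finset.sum_div]
    _ = ∑ x : ZMod Q, ‖G x‖ ^ 2 := by
        have : ∑ x : ZMod Q, ‖G (-x)‖ ^ 2 = ∑ x : ZMod Q, ‖G x‖ ^ 2 :=
          Fintype.sum_equiv (Equiv.neg _) _ _ (fun x => rfl)
        rw [this]; ring
    _ = Q * ∑ p ∈ B, ‖c p‖ ^ 2 := PV_parseval Q B hB c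

end Pool.Agent.Helper92.GB
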