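import Pool.Agent.Helper92.GB.Defs

/-!
# Block GB-R1 (MP_b6b996_nt)
Hoeffding and union bound for independent signs with means `h s`, in finite counting form.
Proof. `∑_η wt h η = 1`, `wt ≥ 0`, `wt` is a product. For real `r : S → ℝ`, `∑ r² ≤ V`, `λ' ≥ 0`:
weight of `{∑ (η_s - h_s) r_s ≥ λ'}` is at most `exp(-λ'² / (2 V))` by the exponential moment with parameter `λ' / V` and Hoeffding's lemma
`(1+h)/2 · exp(u(1-h)) + (1-h)/2 · exp(-u(1+h)) ≤ exp(u²/2)` for `|h| ≤ 1` (Mathlib: `ProbabilityTheory.hasSubgaussianMGF_of_mem_Icc` and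
neighbours, or directly). Real and imaginary parts: `‖z‖ ≥ λ` implies `|Re z| ≥ λ/√2` or `|Im z| ≥ λ/√2`, total `4 exp(-λ²/(4V))`. Then the union bound over `j`.
-/

set_option autoImplicit false

namespace Pool.Agent.Helper92.GB

open Finset

namespace R1Aux

open MeasureTheory ProbabilityTheory

/-- Hoeffding's lemma for a two point distribution on `{1, -1}` with mean `h`. -/
theorem two_point (h u : ℝ) (hh : |h| ≤ 1) :
    (1 + h) / 2 * Real.exp (u * (1 - h)) + (1 - h) / 2 * Real.exp (u * (-1 - h))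
      ≤ Real.exp (u ^ 2 / 2) := by
  have h1 : 0 ≤ (1 + h) / 2 := by have := (abs_le.1 hh).1; linarith
  have h2 : 0 ≤ (1 - h) / 2 := by have := (abs_le.1 hh).2; linarith
  let μ : Measure ℝ := (ENNReal.ofReal ((1 + h) / 2)) • Measure.dirac (1 : ℝ) +
    (ENNReal.ofReal ((1 - h) / 2)) • Measure.dirac (-1 : ℝ)
  have hμ : IsProbabilityMeasure μ := by
    constructor
    simp only [μ, Measure.coe_add, Measure.coe_smul, Pi.add_apply, Pi.smul_apply, smul_eq_mul,
      measure_univ, mul_one]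
    rw [← ENNReal.ofReal_add h1 h2]
    have : (1 + h) / 2 + (1 - h) / 2 = 1 := by ring
    rw [this, ENNReal.ofReal_one]
  have hint : ∀ f : ℝ → ℝ, Measurable f →
      ∫ x, f x ∂μ = (1 + h) / 2 * f 1 + (1 - h) / 2 * f (-1) := by
    intro f hf
    have i1 : Integrable f (Measure.dirac (1 : ℝ)) :=
      integrable_dirac (by simp)
    have i2 : Integrable f (Measure.dirac (-1 : ℝ)) :=
      integrable_dirac (by simp)
    rw [integral_add_measure (i1.smul_measure ENNReal.ofReal_ne_top)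
      (i2.smul_measure ENNReal.ofReal_ne_top), integral_smul_measure, integral_smul_measure,
      integral_dirac, integral_dirac, ENNReal.toReal_ofReal h1, ENNReal.toReal_ofReal h2]
    simp [smul_eq_mul]
  have hmean : ∫ x, (id x : ℝ) ∂μ = h := by
    rw [hint id measurable_id]; simp only [id]; ring
  have key := hasSubgaussianMGF_of_mem_Icc (μ := μ) (X := (id : ℝ → ℝ)) (a := -1) (b := 1)
    measurable_id.aemeasurable (by
      simp only [μ]
      rw [Filter.eventually_iff, mem_ae_iff]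
      simp [Set.indicator])
  have k2 := key.mgf_le u
  rw [hmean] at k2
  rw [mgf, hint _ (by fun_prop)] at k2
  simp only [id] at k2
  refine k2.trans (le_of_eq ?_)
  congr 1
  norm_num

theorem wt_nonneg {S : Type} [Fintype S] (h : S → ℝ) (hh : ∀ s, |h s| ≤ 1) (η : S → ℤˣ) :
    0 ≤ wt h η := by
  refine Finset.prod_nonneg fun s _ => ?_
  have := abs_le.1 (hh s)
  rcases Int.units_eq_one_or (η s) with e | e <;> rw [e] <;> push_cast <;> linarith

/-- Exponential moment. -/
theorem moment {S : Type} [Fintype S] [DecidableEq S] (h : S → ℝ) (hh : ∀ s, |h s| ≤ 1)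
    (r : S → ℝ) :
    ∑ η : S → ℤˣ, wt h η * Real.exp (∑ s, ((((η s : ℤ) : ℝ)) - h s) * r s)
      ≤ Real.exp ((∑ s, r s ^ 2) / 2) := by
  have e1 : ∀ η : S → ℤˣ, wt h η * Real.exp (∑ s, ((((η s : ℤ) : ℝ)) - h s) * r s)
      = ∏ s, ((1 + (((η s : ℤ) : ℝ)) * h s) / 2 *
        Real.exp (((((η s : ℤ) : ℝ)) - h s) * r s)) := by
    intro η
    rw [wt, Real.exp_sum, ← Finset.prod_mul_distrib]
  simp_rw [e1]
  have e2 := Finset.prod_univ_sum (fun _ : S => (Finset.univ : Finset ℤˣ))
    (fun s e => ((1 + (((e : ℤ) : ℝ)) * h s) / 2 *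
        Real.exp (((((e : ℤ) : ℝ)) - h s) * r s)))
  rw [Fintype.piFinset_univ] at e2
  rw [← e2, Finset.sum_div, Real.exp_sum]
  refine Finset.prod_le_prod (fun s _ => ?_) (fun s _ => ?_)
  · refine Finset.sum_nonneg fun e _ => mul_nonneg ?_ (Real.exp_pos _).le
    have := abs_le.1 (hh s)
    rcases Int.units_eq_one_or e with e | e <;> rw [e] <;> push_cast <;> linarith
  · have := two_point (h s) (r s) (hh s)
    have hu : (Finset.univ : Finset ℤˣ) = {1, -1} := by decide
    rw [hu, Finset.sum_pair (by decide)]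
    push_cast
    refine le_trans (le_of_eq ?_) this
    rw [mul_comm (1 - h s) (r s), mul_comm (-1 - h s) (r s)]
    ring_nf

/-- One sided tail. -/
theorem tail {S : Type} [Fintype S] [DecidableEq S] (h : S → ℝ) (hh : ∀ s, |h s| ≤ 1)
    (r : S → ℝ) (V lam : ℝ) (hV : 0 < V) (hr : ∑ s, r s ^ 2 ≤ V) (hlam : 0 ≤ lam) :
    open Classical in
    ∑ η : S → ℤˣ, wt h η * (if lam ≤ ∑ s, ((((η s : ℤ) : ℝ)) - h s) * r s then 1 else 0)
      ≤ Real.exp (-lam ^ 2 / (2 * V)) := by
  classical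
  set t := lam / V with ht
  have ht0 : 0 ≤ t := div_nonneg hlam hV.le
  have m := moment h hh (fun s => t * r s)
  have b1 : ∀ η : S → ℤˣ,
      wt h η * (if lam ≤ ∑ s, ((((η s : ℤ) : ℝ)) - h s) * r s then (1 : ℝ) else 0)
      ≤ Real.exp (-(t * lam)) *
        (wt h η * Real.exp (∑ s, ((((η s : ℤ) : ℝ)) - h s) * (t * r s))) := by
    intro η
    have w := wt_nonneg h hh η
    split_ifs with hc
    · rw [mul_one, mul_left_comm, ← Real.exp_add]
      have : (1 : ℝ) ≤ Real.exp (-(t * lam) + ∑ s, ((((η s : ℤ) : ℝ)) - h s) * (t * r s)) := by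
        apply Real.one_le_exp
        have e : ∑ s, ((((η s : ℤ) : ℝ)) - h s) * (t * r s)
            = t * ∑ s, ((((η s : ℤ) : ℝ)) - h s) * r s := by
          rw [Finset.mul_sum]; exact Finset.sum_congr rfl fun s _ => by ring
        rw [e]
        have := mul_le_mul_of_nonneg_left hc ht0
        linarith
      exact le_mul_of_one_le_right w this
    · rw [mul_zero]
      positivity
  refine (Finset.sum_le_sum fun η _ => b1 η).trans ?_
  rw [← Finset.mul_sum]
  refine (mul_le_mul_of_nonneg_left m (Real.exp_pos _).le).trans ?_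
  rw [← Real.exp_add]
  apply Real.exp_le_exp.2
  have e : ∑ s, (t * r s) ^ 2 = t ^ 2 * ∑ s, r s ^ 2 := by
    rw [Finset.mul_sum]; exact Finset.sum_congr rfl fun s _ => by ring
  have h3 : ∑ s, (t * r s) ^ 2 ≤ t ^ 2 * V := by
    rw [e]; exact mul_le_mul_of_nonneg_left hr (sq_nonneg t)
  have h4 : -(t * lam) + t ^ 2 * V / 2 = -lam ^ 2 / (2 * V) := by
    rw [ht]; field_simp; ring
  linarith

end R1Aux

open R1Aux in
theorem R1 {S J : Type} [Fintype S] [DecidableEq S] [Fintype J] (h : S → ℝ)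
    (hh : ∀ s, |h s| ≤ 1) (c : J → S → ℂ) (V lam : J → ℝ) (hV : ∀ j, 0 < V j)
    (hc : ∀ j, ∑ s, ‖c j s‖ ^ 2 ≤ V j) (hlam : ∀ j, 0 ≤ lam j) :
    open Classical in
    ∑ η : S → ℤˣ, wt h η *
        (if ∃ j, lam j ≤ ‖∑ s, ((((η s : ℤ) : ℝ) - h s : ℝ) : ℂ) * c j s‖ then 1 else 0)
      ≤ ∑ j, 4 * Real.exp (-(lam j) ^ 2 / (4 * V j)) := by
  classical
  -- single index
  have single : ∀ j, ∑ η : S → ℤˣ, wt h η *
        (if lam j ≤ ‖∑ s, ((((η s : ℤ) : ℝ) - h s : ℝ) : ℂ) * c j s‖ then (1 : ℝ) else 0)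
      ≤ 4 * Real.exp (-(lam j) ^ 2 / (4 * V j)) := by
    intro j
    have s2 : (0 : ℝ) < √2 := by positivity
    have hs2 : (√2 : ℝ) ^ 2 = 2 := Real.sq_sqrt (by norm_num)
    have tl : ∀ r : S → ℝ, (∀ s, r s ^ 2 ≤ ‖c j s‖ ^ 2) →
        ∑ η : S → ℤˣ, wt h η *
          (if lam j / √2 ≤ ∑ s, ((((η s : ℤ) : ℝ)) - h s) * r s then (1 : ℝ) else 0)
        ≤ Real.exp (-(lam j) ^ 2 / (4 * V j)) := by
      intro r hr
      have := tail h hh r (V j) (lam j / √2) (hV j)
        ((Finset.sum_le_sum fun s _ => hr s).trans (hc j)) (div_nonneg (hlam j) s2.le)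
      refine this.trans (le_of_eq ?_)
      congr 1
      rw [div_pow, hs2]
      have := (hV j).ne'
      field_simp
      ring
    have hre : ∀ s, (c j s).re ^ 2 ≤ ‖c j s‖ ^ 2 := fun s => by
      rw [← sq_abs (c j s).re]
      exact pow_le_pow_left₀ (abs_nonneg _) (Complex.abs_re_le_norm _) 2
    have him : ∀ s, (c j s).im ^ 2 ≤ ‖c j s‖ ^ 2 := fun s => by
      rw [← sq_abs (c j s).im]
      exact pow_le_pow_left₀ (abs_nonneg _) (Complex.abs_im_le_norm _) 2
    have t1 := tl (fun s => (c j s).re) hre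
    have t2 := tl (fun s => -(c j s).re) (fun s => by rw [neg_sq]; exact hre s)
    have t3 := tl (fun s => (c j s).im) him
    have t4 := tl (fun s => -(c j s).im) (fun s => by rw [neg_sq]; exact him s)
    have pt : ∀ η : S → ℤˣ, wt h η *
        (if lam j ≤ ‖∑ s, ((((η s : ℤ) : ℝ) - h s : ℝ) : ℂ) * c j s‖ then (1 : ℝ) else 0)
        ≤ wt h η * (if lam j / √2 ≤ ∑ s, ((((η s : ℤ) : ℝ)) - h s) * (c j s).re then (1 : ℝ) else 0)
        + wt h η * (if lam j / √2 ≤ ∑ s, ((((η s : ℤ) : ℝ)) - h s) * (-(c j s).re) then (1 : ℝ) else 0)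
        + wt h η * (if lam j / √2 ≤ ∑ s, ((((η s : ℤ) : ℝ)) - h s) * (c j s).im then (1 : ℝ) else 0)
        + wt h η * (if lam j / √2 ≤ ∑ s, ((((η s : ℤ) : ℝ)) - h s) * (-(c j s).im) then (1 : ℝ) else 0) := by
      intro η
      have w := wt_nonneg h hh η
      rw [← mul_add, ← mul_add, ← mul_add]
      refine mul_le_mul_of_nonneg_left ?_ w
      set z : ℂ := ∑ s, ((((η s : ℤ) : ℝ) - h s : ℝ) : ℂ) * c j s with hz
      have zre : ∑ s, ((((η s : ℤ) : ℝ)) - h s) * (c j s).re = z.re := by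
        rw [hz, Complex.re_sum]
        exact Finset.sum_congr rfl fun s _ => by rw [Complex.re_ofReal_mul]
      have zim : ∑ s, ((((η s : ℤ) : ℝ)) - h s) * (c j s).im = z.im := by
        rw [hz, Complex.im_sum]
        exact Finset.sum_congr rfl fun s _ => by rw [Complex.im_ofReal_mul]
      have zre' : ∑ s, ((((η s : ℤ) : ℝ)) - h s) * (-(c j s).re) = -z.re := by
        rw [← zre, ← Finset.sum_neg_distrib]
        exact Finset.sum_congr rfl fun s _ => by ring
      have zim' : ∑ s, ((((η s : ℤ) : ℝ)) - h s) * (-(c j s).im) = -z.im := by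
        rw [← zim, ← Finset.sum_neg_distrib]
        exact Finset.sum_congr rfl fun s _ => by ring
      rw [zre, zim, zre', zim']
      have i0 : ∀ (p : Prop) [Decidable p], (0 : ℝ) ≤ if p then (1 : ℝ) else 0 := by
        intro p _; split_ifs <;> norm_num
      by_cases hl : lam j ≤ ‖z‖
      · rw [if_pos hl]
        by_cases a1 : lam j / √2 ≤ z.re
        · rw [if_pos a1]
          have := i0 (lam j / √2 ≤ -z.re); have := i0 (lam j / √2 ≤ z.im)
          have := i0 (lam j / √2 ≤ -z.im); linarith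
        by_cases a2 : lam j / √2 ≤ -z.re
        · rw [if_pos a2]
          have := i0 (lam j / √2 ≤ z.re); have := i0 (lam j / √2 ≤ z.im)
          have := i0 (lam j / √2 ≤ -z.im); linarith
        by_cases a3 : lam j / √2 ≤ z.im
        · rw [if_pos a3]
          have := i0 (lam j / √2 ≤ z.re); have := i0 (lam j / √2 ≤ -z.re)
          have := i0 (lam j / √2 ≤ -z.im); linarith
        by_cases a4 : lam j / √2 ≤ -z.im
        · rw [if_pos a4]
          have := i0 (lam j / √2 ≤ z.re); have := i0 (lam j / √2 ≤ -z.re)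
          have := i0 (lam j / √2 ≤ z.im); linarith
        exfalso
        rw [not_le] at a1 a2 a3 a4
        have b1 : z.re ^ 2 < (lam j / √2) ^ 2 := by
          apply sq_lt_sq'
          · linarith
          · exact a1
        have b2 : z.im ^ 2 < (lam j / √2) ^ 2 := by
          apply sq_lt_sq'
          · linarith
          · exact a3
        have b3 : ‖z‖ ^ 2 = z.re ^ 2 + z.im ^ 2 := by
          rw [Complex.sq_norm, Complex.normSq_apply]; ring
        have b4 : (lam j / √2) ^ 2 = lam j ^ 2 / 2 := by rw [div_pow, hs2]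
        have b5 : lam j ^ 2 ≤ ‖z‖ ^ 2 := pow_le_pow_left₀ (hlam j) hl 2
        rw [b4] at b1 b2
        linarith
      · rw [if_neg hl]
        have := i0 (lam j / √2 ≤ z.re); have := i0 (lam j / √2 ≤ -z.re)
        have := i0 (lam j / √2 ≤ z.im); have := i0 (lam j / √2 ≤ -z.im); linarith
    refine (Finset.sum_le_sum fun η _ => pt η).trans ?_
    rw [Finset.sum_add_distrib, Finset.sum_add_distrib, Finset.sum_add_distrib]
    linarith
  calc ∑ η : S → ℤˣ, wt h η *
        (if ∃ j, lam j ≤ ‖∑ s, ((((η s : ℤ) : ℝ) - h s : ℝ) : ℂ) * c j s‖ then (1 : ℝ) else 0)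
      ≤ ∑ η : S → ℤˣ, ∑ j, wt h η *
        (if lam j ≤ ‖∑ s, ((((η s : ℤ) : ℝ) - h s : ℝ) : ℂ) * c j s‖ then (1 : ℝ) else 0) := by
        refine Finset.sum_le_sum fun η _ => ?_
        rw [← Finset.mul_sum]
        refine mul_le_mul_of_nonneg_left ?_ (wt_nonneg h hh η)
        split_ifs with he
        · obtain ⟨j, hj⟩ := he
          have := Finset.single_le_sum (f := fun j => if lam j ≤
            ‖∑ s, ((((η s : ℤ) : ℝ) - h s : ℝ) : ℂ) * c j s‖ then (1 : ℝ) else 0)
            (fun i _ => by split_ifs <;> norm_num) (Finset.mem_univ j)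
          rw [if_pos hj] at this
          exact this
        · exact Finset.sum_nonneg fun i _ => by split_ifs <;> norm_num
    _ = ∑ j, ∑ η : S → ℤˣ, wt h η *
        (if lam j ≤ ‖∑ s, ((((η s : ℤ) : ℝ) - h s : ℝ) : ℂ) * c j s‖ then (1 : ℝ) else 0) :=
        Finset.sum_comm
    _ ≤ ∑ j, 4 * Real.exp (-(lam j) ^ 2 / (4 * V j)) := Finset.sum_le_sum fun j _ => single j

end Pool.Agent.Helper92.GB
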