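import Pool.Agent.Helper92.GB.Defs
import Pool.Agent.Helper92.GB.R1

/-!
# Block GB-UR (MP_b6b996_nt)
Uniform rounding (imports R1).
Proof. `X = q (2 + |t|) ≥ 2`. Trivially `‖∑ (η-h) w‖ ≤ 2 √M √V` (Cauchy-Schwarz), so the event is impossible if `A² log X log M ≥ 4 M`; in particular only
`q ≤ exp(4M)`, `|t| ≤ exp(4M)` matter (`A ≥ 1`, `M ≥ 3`). Put `t' = k / M^6` nearest to `t` with `|t'| ≤ |t|` (round towards 0): the sum changes by at most
`2 M · M^4 · M^(-6) = 2/M ≤ 1 ≤ half of the threshold` (if `A √(log 2 log M) ≥ 2`). So R1 for the finite family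
`J = {(q, χ, k, y) : 1 ≤ q ≤ exp(4M), |k| ≤ M^6 exp(4M), y ≤ 4M}` with `λ = (A/2) √V √(log X' log M)`,
`X' = q (2 + |t'|)`: `4 exp(-λ²/(4V)) = 4 exp(-(A²/16) log X' log M) ≤ 4 X' ^ (-4) M ^ (-20)` for `A` large and `M ≥ M₀`
(`log X' ≥ log 2`). Sum: number of `χ` mod `q` is at most `q`, `∑_q q · q^(-4) ≤ 2`, `∑_k (2 + |k|/M^6)^(-4) ≤ 4 M^6`, number of `y` is `4M+1`: total `≤ M^(-10)`.
-/

set_option autoImplicit false

namespace Pool.Agent.Helper92.GB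

open Finset

namespace UR

lemma wt_nonneg {S : Type} [Fintype S] {h : S → ℝ} (hh : ∀ s, |h s| ≤ 1) (η : S → ℤˣ) :
    0 ≤ wt h η := by
  unfold wt
  apply Finset.prod_nonneg
  intro s _
  have h1 := abs_le.1 (hh s)
  rcases Int.units_eq_one_or (η s) with h2 | h2
  · rw [h2]; push_cast; linarith [h1.1]
  · rw [h2]; push_cast; linarith [h1.2]

lemma eta_sub_le {S : Type} {h : S → ℝ} (hh : ∀ s, |h s| ≤ 1) (η : S → ℤˣ) (s : S) :
    ‖((((η s : ℤ) : ℝ) - h s : ℝ) : ℂ)‖ ≤ 2 := by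
  rw [Complex.norm_real, Real.norm_eq_abs]
  have h1 := abs_le.1 (hh s)
  rcases Int.units_eq_one_or (η s) with h2 | h2
  · rw [h2, abs_le]; push_cast; constructor <;> linarith [h1.1, h1.2]
  · rw [h2, abs_le]; push_cast; constructor <;> linarith [h1.1, h1.2]

/-- Cauchy–Schwarz bound of the sum -/
lemma sum_le {S : Type} [Fintype S] {h : S → ℝ} (hh : ∀ s, |h s| ≤ 1) (η : S → ℤˣ)
    {V : ℝ} (u : S → ℂ) (hu : ∑ s, ‖u s‖ ^ 2 ≤ V) {M : ℕ} (hM : Fintype.card S ≤ M) :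
    ‖∑ s, ((((η s : ℤ) : ℝ) - h s : ℝ) : ℂ) * u s‖ ≤ 2 * (Real.sqrt M * Real.sqrt V) := by
  have h1 : ‖∑ s, ((((η s : ℤ) : ℝ) - h s : ℝ) : ℂ) * u s‖ ≤ ∑ s, 2 * ‖u s‖ := by
    refine (norm_sum_le _ _).trans (Finset.sum_le_sum fun s _ => ?_)
    rw [norm_mul]
    exact mul_le_mul_of_nonneg_right (eta_sub_le hh η s) (norm_nonneg _)
  have h2 : ∑ s, 1 * ‖u s‖ ≤ Real.sqrt (∑ _s : S, (1 : ℝ) ^ 2) * Real.sqrt (∑ s, ‖u s‖ ^ 2) :=
    Real.sum_mul_le_sqrt_mul_sqrt _ _ _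
  have h3 : ∑ _s : S, (1 : ℝ) ^ 2 ≤ M := by
    simp only [one_pow, Finset.sum_const, Finset.card_univ, nsmul_eq_mul, mul_one]
    exact_mod_cast hM
  have h4 : Real.sqrt (∑ _s : S, (1 : ℝ) ^ 2) * Real.sqrt (∑ s, ‖u s‖ ^ 2) ≤
      Real.sqrt M * Real.sqrt V :=
    mul_le_mul (Real.sqrt_le_sqrt h3) (Real.sqrt_le_sqrt hu) (Real.sqrt_nonneg _)
      (Real.sqrt_nonneg _)
  simp only [one_mul] at h2
  rw [← Finset.mul_sum] at h1
  linarith

/-- the Lipschitz step -/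
lemma sum_sub_le {S : Type} [Fintype S] {h : S → ℝ} (hh : ∀ s, |h s| ≤ 1) (η : S → ℤˣ)
    {M : ℕ} (hM : Fintype.card S ≤ M) (u v : S → ℂ) {δ : ℝ} (hδ : 0 ≤ δ)
    (huv : ∀ s, ‖u s - v s‖ ≤ δ) :
    ‖∑ s, ((((η s : ℤ) : ℝ) - h s : ℝ) : ℂ) * u s‖ ≤
      ‖∑ s, ((((η s : ℤ) : ℝ) - h s : ℝ) : ℂ) * v s‖ + 2 * M * δ := by
  have h1 : ∑ s, ((((η s : ℤ) : ℝ) - h s : ℝ) : ℂ) * u s =
      ∑ s, ((((η s : ℤ) : ℝ) - h s : ℝ) : ℂ) * v s +
        ∑ s, ((((η s : ℤ) : ℝ) - h s : ℝ) : ℂ) * (u s - v s) := by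
    rw [← Finset.sum_add_distrib]
    apply Finset.sum_congr rfl
    intro s _
    ring
  have h2 : ‖∑ s, ((((η s : ℤ) : ℝ) - h s : ℝ) : ℂ) * (u s - v s)‖ ≤ 2 * M * δ := by
    calc ‖∑ s, ((((η s : ℤ) : ℝ) - h s : ℝ) : ℂ) * (u s - v s)‖
        ≤ ∑ _s : S, 2 * δ := by
          refine (norm_sum_le _ _).trans (Finset.sum_le_sum fun s _ => ?_)
          rw [norm_mul]
          exact mul_le_mul (eta_sub_le hh η s) (huv s) (norm_nonneg _) (by norm_num)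
      _ = (Fintype.card S : ℝ) * (2 * δ) := by
          rw [Finset.sum_const, Finset.card_univ, nsmul_eq_mul]
      _ ≤ M * (2 * δ) := by
          apply mul_le_mul_of_nonneg_right _ (by positivity)
          exact_mod_cast hM
      _ = 2 * M * δ := by ring
  rw [h1]
  exact (norm_add_le _ _).trans (by linarith)

lemma sum_inv_sq_aux (n : ℕ) :
    ∑ q ∈ Finset.range (n + 1), 1 / ((q : ℝ) + 1) ^ 2 ≤ 2 - 1 / ((n : ℝ) + 1) := by
  induction n with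
  | zero => norm_num
  | succ n ih =>
    rw [Finset.sum_range_succ]
    have hn : (0 : ℝ) ≤ n := Nat.cast_nonneg n
    have h2 : 1 / (((n + 1 : ℕ) : ℝ) + 1) ^ 2 ≤ 1 / ((n : ℝ) + 1) - 1 / (((n + 1 : ℕ) : ℝ) + 1) := by
      push_cast
      have h3 : 1 / ((n : ℝ) + 1) - 1 / ((n : ℝ) + 1 + 1) =
          1 / (((n : ℝ) + 1) * ((n : ℝ) + 1 + 1)) := by
        field_simp
        ring
      rw [h3]
      apply one_div_le_one_div_of_le (by positivity)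
      nlinarith
    linarith

lemma sum_inv_sq (n : ℕ) : ∑ q : Fin n, (1 : ℝ) / (((q : ℕ) : ℝ) + 1) ^ 2 ≤ 2 := by
  rw [Fin.sum_univ_eq_sum_range (fun q : ℕ => 1 / ((q : ℝ) + 1) ^ 2) n]
  rcases n with _ | n
  · simp
  · have h := sum_inv_sq_aux n
    have h2 : (0 : ℝ) ≤ 1 / ((n : ℝ) + 1) := by positivity
    linarith

/-- the index set of the finite family -/
abbrev JJ (Q K L : ℕ) : Type :=
  (Σ q : Fin Q, DirichletCharacter ℂ ((q : ℕ) + 1)) × (Fin K × Bool) × Fin L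

noncomputable instance (n : ℕ) : Fintype (DirichletCharacter ℂ (n + 1)) := Fintype.ofFinite _

lemma card_char (n : ℕ) : (Fintype.card (DirichletCharacter ℂ (n + 1)) : ℝ) ≤ (n : ℝ) + 1 := by
  have h := DirichletCharacter.card_eq_totient_of_hasEnoughRootsOfUnity ℂ (n + 1)
  rw [Nat.card_eq_fintype_card] at h
  rw [h]
  exact_mod_cast Nat.totient_le (n + 1)

/-- the sum over the finite family -/
lemma sum_JJ (Q K L : ℕ) :
    ∑ j : JJ Q K L, (1 : ℝ) / ((((j.1.1 : Fin Q) : ℕ) : ℝ) + 1) ^ 3 *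
      ((1 : ℝ) / ((((j.2.1.1 : Fin K) : ℕ) : ℝ) + 1) ^ 2) ≤ 8 * (L : ℝ) := by
  rw [Fintype.sum_prod_type]
  have h1 : ∀ x : (Σ q : Fin Q, DirichletCharacter ℂ ((q : ℕ) + 1)),
      ∑ y : (Fin K × Bool) × Fin L, (1 : ℝ) / ((((x.1 : Fin Q) : ℕ) : ℝ) + 1) ^ 3 *
          ((1 : ℝ) / ((((y.1.1 : Fin K) : ℕ) : ℝ) + 1) ^ 2) ≤
        (1 : ℝ) / ((((x.1 : Fin Q) : ℕ) : ℝ) + 1) ^ 3 * (4 * (L : ℝ)) := by
    intro x
    rw [← Finset.mul_sum]
    apply mul_le_mul_of_nonneg_left _ (by positivity)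
    rw [Fintype.sum_prod_type]
    simp only [Finset.sum_const, Finset.card_univ, Fintype.card_fin, nsmul_eq_mul]
    rw [Fintype.sum_prod_type]
    simp only [Finset.sum_const, Finset.card_univ, Fintype.card_bool, nsmul_eq_mul]
    rw [← Finset.mul_sum, ← Finset.mul_sum]
    have h2 := sum_inv_sq K
    have hL : (0 : ℝ) ≤ L := Nat.cast_nonneg L
    push_cast
    nlinarith
  refine (Finset.sum_le_sum fun x _ => h1 x).trans ?_
  rw [← Finset.sum_mul, Fintype.sum_sigma]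
  simp only [Finset.sum_const, Finset.card_univ, nsmul_eq_mul]
  have h3 : ∑ q : Fin Q, (Fintype.card (DirichletCharacter ℂ ((q : ℕ) + 1)) : ℝ) *
      ((1 : ℝ) / (((q : ℕ) : ℝ) + 1) ^ 3) ≤ 2 := by
    refine le_trans (Finset.sum_le_sum fun q _ => ?_) (sum_inv_sq Q)
    have hq : (0 : ℝ) < ((q : ℕ) : ℝ) + 1 := by positivity
    calc (Fintype.card (DirichletCharacter ℂ ((q : ℕ) + 1)) : ℝ) * (1 / (((q : ℕ) : ℝ) + 1) ^ 3)
        ≤ (((q : ℕ) : ℝ) + 1) * (1 / (((q : ℕ) : ℝ) + 1) ^ 3) :=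
          mul_le_mul_of_nonneg_right (card_char _) (by positivity)
      _ = 1 / (((q : ℕ) : ℝ) + 1) ^ 2 := by field_simp
  have hL : (0 : ℝ) ≤ 4 * L := by positivity
  calc _ ≤ 2 * (4 * (L : ℝ)) := mul_le_mul_of_nonneg_right h3 hL
    _ = 8 * L := by ring

/-- the exponential bound of one term -/
lemma exp_le {M : ℕ} (hM : 3 ≤ M) (q k : ℕ) :
    Real.exp (-(256 * (Real.log (((q : ℝ) + 1) * (2 + (k : ℝ) / (M : ℝ) ^ 6)) * Real.log M))) ≤
      1 / ((q : ℝ) + 1) ^ 3 * (1 / ((k : ℝ) + 1) ^ 2) * (1 / (M : ℝ) ^ 20) := by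
  have hM3 : (3 : ℝ) ≤ M := by exact_mod_cast hM
  have hM0 : (0 : ℝ) < M := by linarith
  set X := ((q : ℝ) + 1) * (2 + (k : ℝ) / (M : ℝ) ^ 6) with hX
  have hk : (0 : ℝ) ≤ k := Nat.cast_nonneg k
  have hq : (1 : ℝ) ≤ (q : ℝ) + 1 := by
    have : (0 : ℝ) ≤ q := Nat.cast_nonneg q
    linarith
  have hM6 : (1 : ℝ) ≤ (M : ℝ) ^ 6 := one_le_pow₀ (by linarith)
  have hY : (2 : ℝ) ≤ 2 + (k : ℝ) / (M : ℝ) ^ 6 := by
    have : (0 : ℝ) ≤ (k : ℝ) / (M : ℝ) ^ 6 := by positivity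
    linarith
  have hX2 : (2 : ℝ) ≤ X := by nlinarith
  have hX0 : (0 : ℝ) < X := by linarith
  have hlogX : (1 / 2 : ℝ) ≤ Real.log X := by
    have h1 : Real.log 2 ≤ Real.log X := Real.log_le_log (by norm_num) hX2
    have h2 := Real.log_two_gt_d9
    linarith
  have hlogM : (1 : ℝ) ≤ Real.log M := by
    rw [Real.le_log_iff_exp_le hM0]
    have := Real.exp_one_lt_d9
    linarith
  have h1 : Real.exp (-(256 * (Real.log X * Real.log M))) ≤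
      Real.exp (-(3 * Real.log X + 32 * Real.log M)) := by
    apply Real.exp_le_exp.2
    nlinarith
  refine h1.trans ?_
  have h2 : Real.exp (-(3 * Real.log X + 32 * Real.log M)) = 1 / (X ^ 3 * (M : ℝ) ^ 32) := by
    rw [Real.exp_neg, one_div]
    congr 1
    rw [Real.exp_add]
    congr 1
    · rw [show (3 : ℝ) * Real.log X = ((3 : ℕ) : ℝ) * Real.log X by norm_num, ← Real.log_pow,
        Real.exp_log (by positivity)]
    · rw [show (32 : ℝ) * Real.log M = ((32 : ℕ) : ℝ) * Real.log M by norm_num, ← Real.log_pow,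
        Real.exp_log (by positivity)]
  rw [h2, one_div_mul_one_div, one_div_mul_one_div]
  apply one_div_le_one_div_of_le (by positivity)
  -- `(q+1)^3 (k+1)^2 M^20 ≤ X^3 M^32`
  have h3 : ((k : ℝ) + 1) / (M : ℝ) ^ 6 ≤ 2 + (k : ℝ) / (M : ℝ) ^ 6 := by
    rw [add_div]
    have : 1 / (M : ℝ) ^ 6 ≤ 1 := by
      rw [div_le_one (by positivity)]; exact hM6
    linarith
  have h4 : (k : ℝ) + 1 ≤ (2 + (k : ℝ) / (M : ℝ) ^ 6) * (M : ℝ) ^ 6 := by
    rwa [div_le_iff₀ (by positivity)] at h3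
  set Y := 2 + (k : ℝ) / (M : ℝ) ^ 6 with hYdef
  have hY0 : 0 < Y := by linarith
  have h5 : ((k : ℝ) + 1) ^ 2 ≤ (Y * (M : ℝ) ^ 6) ^ 2 :=
    pow_le_pow_left₀ (by positivity) h4 2
  have h6 : Y ^ 2 ≤ Y ^ 3 := pow_le_pow_right₀ (by linarith) (by norm_num)
  calc ((q : ℝ) + 1) ^ 3 * ((k : ℝ) + 1) ^ 2 * (M : ℝ) ^ 20
      ≤ ((q : ℝ) + 1) ^ 3 * (Y * (M : ℝ) ^ 6) ^ 2 * (M : ℝ) ^ 20 := by gcongr
    _ = ((q : ℝ) + 1) ^ 3 * Y ^ 2 * (M : ℝ) ^ 32 := by ring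
    _ ≤ ((q : ℝ) + 1) ^ 3 * Y ^ 3 * (M : ℝ) ^ 32 := by gcongr
    _ = X ^ 3 * (M : ℝ) ^ 32 := by rw [hX]; ring

end UR

theorem UR : ∃ (A : ℝ) (M₀ : ℕ), 0 < A ∧ 2 ≤ M₀ ∧ ∀ M : ℕ, M₀ ≤ M →
    ∀ (S : Type) [Fintype S] [DecidableEq S], Fintype.card S ≤ M → ∀ h : S → ℝ,
    (∀ s, |h s| ≤ 1) → ∀ V : ℝ, 1 ≤ V → V ≤ (M : ℝ) ^ 4 →
    ∀ w : (q : ℕ) → DirichletCharacter ℂ q → ℝ → ℕ → S → ℂ,
    (∀ q χ t y, ∑ s, ‖w q χ t y s‖ ^ 2 ≤ V) →
    (∀ q χ t t' y s, ‖w q χ t y s - w q χ t' y s‖ ≤ (M : ℝ) ^ 4 * |t - t'|) →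
    open Classical in
    ∑ η : S → ℤˣ, wt h η *
        (if ∃ (q : ℕ) (χ : DirichletCharacter ℂ q) (t : ℝ) (y : ℕ), 1 ≤ q ∧ y ≤ 4 * M ∧
          A * Real.sqrt V * Real.sqrt (Real.log (q * (2 + |t|)) * Real.log M) <
            ‖∑ s, ((((η s : ℤ) : ℝ) - h s : ℝ) : ℂ) * w q χ t y s‖ then 1 else 0)
      ≤ 1 / (M : ℝ) ^ 10 := by
  classical
  refine ⟨64, 3, by norm_num, by norm_num, ?_⟩
  intro M hM S _ _ hcard h hh V hV1 hV4 w hw hlip
  have hM3 : (3 : ℝ) ≤ M := by exact_mod_cast hM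
  have hM0 : (0 : ℝ) < M := by linarith
  have hM6 : (1 : ℝ) ≤ (M : ℝ) ^ 6 := one_le_pow₀ (by linarith)
  have hlogM : (1 : ℝ) ≤ Real.log M := by
    rw [Real.le_log_iff_exp_le hM0]
    have := Real.exp_one_lt_d9
    linarith
  obtain ⟨Q, hQ⟩ := exists_nat_ge (Real.exp (4 * M))
  obtain ⟨K, hK⟩ := exists_nat_gt ((M : ℝ) ^ 6 * Real.exp (4 * M))
  -- the grid
  let tt : UR.JJ Q K (4 * M + 1) → ℝ := fun j =>
    (if j.2.1.2 then 1 else -1) * ((j.2.1.1 : ℝ) / (M : ℝ) ^ 6)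
  let c : UR.JJ Q K (4 * M + 1) → S → ℂ := fun j => w ((j.1.1 : ℕ) + 1) j.1.2 (tt j) j.2.2
  let X : UR.JJ Q K (4 * M + 1) → ℝ := fun j =>
    ((j.1.1 : ℝ) + 1) * (2 + (j.2.1.1 : ℝ) / (M : ℝ) ^ 6)
  let lam : UR.JJ Q K (4 * M + 1) → ℝ := fun j =>
    32 * Real.sqrt V * Real.sqrt (Real.log (X j) * Real.log M)
  have hV0 : (0 : ℝ) < V := by linarith
  have hlamnn : ∀ j, 0 ≤ lam j := fun j => by positivity
  have hXge : ∀ j, 2 ≤ X j := by
    intro j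
    have h1 : (1 : ℝ) ≤ (j.1.1 : ℝ) + 1 := by
      have : (0 : ℝ) ≤ ((j.1.1 : ℕ) : ℝ) := Nat.cast_nonneg _
      linarith
    have h2 : (0 : ℝ) ≤ (j.2.1.1 : ℝ) / (M : ℝ) ^ 6 := by positivity
    show 2 ≤ ((j.1.1 : ℝ) + 1) * (2 + (j.2.1.1 : ℝ) / (M : ℝ) ^ 6)
    nlinarith
  have hR1 := R1 h hh c (fun _ => V) lam (fun _ => hV0) (fun j => hw _ _ _ _) hlamnn
  -- comparison of the events
  have hev : ∀ η : S → ℤˣ,
      (∃ (q : ℕ) (χ : DirichletCharacter ℂ q) (t : ℝ) (y : ℕ), 1 ≤ q ∧ y ≤ 4 * M ∧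
          64 * Real.sqrt V * Real.sqrt (Real.log (q * (2 + |t|)) * Real.log M) <
            ‖∑ s, ((((η s : ℤ) : ℝ) - h s : ℝ) : ℂ) * w q χ t y s‖) →
      ∃ j, lam j ≤ ‖∑ s, ((((η s : ℤ) : ℝ) - h s : ℝ) : ℂ) * c j s‖ := by
    rintro η ⟨q, χ, t, y, hq, hy, hlt⟩
    have hq1 : (1 : ℝ) ≤ q := by exact_mod_cast hq
    set Z := (q : ℝ) * (2 + |t|) with hZ
    have habs := abs_nonneg t
    have hZ2 : (2 : ℝ) ≤ Z := by nlinarith
    have hlogZ : (1 / 2 : ℝ) ≤ Real.log Z := by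
      have h1 : Real.log 2 ≤ Real.log Z := Real.log_le_log (by norm_num) hZ2
      have h2 := Real.log_two_gt_d9
      linarith
    -- the range of `q` and `t`
    have hb := UR.sum_le hh η (w q χ t y) (hw q χ t y) hcard
    have hlogZ4 : Real.log Z ≤ 4 * M := by
      have h1 : 64 * Real.sqrt V * Real.sqrt (Real.log Z * Real.log M) <
          2 * (Real.sqrt M * Real.sqrt V) := hlt.trans_le hb
      have hsV : 0 < Real.sqrt V := Real.sqrt_pos.2 hV0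
      have h2 : 32 * Real.sqrt (Real.log Z * Real.log M) < Real.sqrt M := by nlinarith
      have h3 : Real.sqrt (Real.log Z * Real.log M) ^ 2 = Real.log Z * Real.log M :=
        Real.sq_sqrt (by nlinarith)
      have h4 : Real.sqrt (M : ℝ) ^ 2 = M := Real.sq_sqrt hM0.le
      have h5 : 0 ≤ Real.sqrt (Real.log Z * Real.log M) := Real.sqrt_nonneg _
      have h6 : Real.log Z ≤ Real.log Z * Real.log M := by nlinarith
      nlinarith
    have hZexp : Z ≤ Real.exp (4 * M) := by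
      rw [← Real.log_le_iff_le_exp (by linarith)]
      exact hlogZ4
    have hqQ : q ≤ Q := by
      have : (q : ℝ) ≤ Q := by nlinarith
      exact_mod_cast this
    have htexp : |t| ≤ Real.exp (4 * M) := by nlinarith
    obtain ⟨q', rfl⟩ : ∃ q', q = q' + 1 := ⟨q - 1, by omega⟩
    -- the grid point
    set k := ⌊|t| * (M : ℝ) ^ 6⌋₊ with hk
    have hk1 : (k : ℝ) ≤ |t| * (M : ℝ) ^ 6 := Nat.floor_le (by positivity)
    have hk2 : |t| * (M : ℝ) ^ 6 < k + 1 := Nat.lt_floor_add_one _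
    have hkK : k < K := by
      have : (k : ℝ) < K := by
        refine lt_of_le_of_lt hk1 (lt_of_le_of_lt ?_ hK)
        rw [mul_comm]
        exact mul_le_mul_of_nonneg_left htexp (by positivity)
      exact_mod_cast this
    let j : UR.JJ Q K (4 * M + 1) :=
      (⟨⟨q', by omega⟩, χ⟩, (⟨k, hkK⟩, decide (0 ≤ t)), ⟨y, by omega⟩)
    refine ⟨j, ?_⟩
    have htt : |t - tt j| ≤ 1 / (M : ℝ) ^ 6 := by
      have hkM : (k : ℝ) / (M : ℝ) ^ 6 ≤ |t| := by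
        rw [div_le_iff₀ (by positivity)]; exact hk1
      have hkM2 : |t| - (k : ℝ) / (M : ℝ) ^ 6 ≤ 1 / (M : ℝ) ^ 6 := by
        rw [sub_le_iff_le_add, ← add_div, le_div_iff₀ (by positivity)]
        linarith
      by_cases ht : 0 ≤ t
      · have e1 : tt j = (k : ℝ) / (M : ℝ) ^ 6 := by
          simp [tt, j, ht]
        rw [e1]
        rw [abs_of_nonneg ht] at hkM hkM2
        rw [abs_of_nonneg (by linarith)]
        exact hkM2
      · have e1 : tt j = -((k : ℝ) / (M : ℝ) ^ 6) := by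
          simp [tt, j, ht]
        rw [e1]
        push Not at ht
        rw [abs_of_neg ht] at hkM hkM2
        rw [abs_of_nonpos (by linarith)]
        linarith
    have hXj : X j ≤ Z := by
      have hkM : (k : ℝ) / (M : ℝ) ^ 6 ≤ |t| := by
        rw [div_le_iff₀ (by positivity)]; exact hk1
      show ((q' : ℝ) + 1) * (2 + (k : ℝ) / (M : ℝ) ^ 6) ≤ Z
      rw [hZ]
      push_cast
      apply mul_le_mul_of_nonneg_left _ (by positivity)
      linarith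
    have hlogX : Real.log (X j) ≤ Real.log Z :=
      Real.log_le_log (by linarith [hXge j]) hXj
    have hmono : lam j ≤ 32 * Real.sqrt V * Real.sqrt (Real.log Z * Real.log M) := by
      apply mul_le_mul_of_nonneg_left _ (by positivity)
      apply Real.sqrt_le_sqrt
      exact mul_le_mul_of_nonneg_right hlogX (by linarith)
    have hstep := UR.sum_sub_le hh η hcard (w (q' + 1) χ t y) (c j)
      (δ := (M : ℝ) ^ 4 * (1 / (M : ℝ) ^ 6)) (by positivity) (fun s => by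
        refine (hlip (q' + 1) χ t (tt j) y s).trans ?_
        exact mul_le_mul_of_nonneg_left htt (by positivity))
    have hsmall : 2 * (M : ℝ) * ((M : ℝ) ^ 4 * (1 / (M : ℝ) ^ 6)) ≤ 1 := by
      have : 2 * (M : ℝ) * ((M : ℝ) ^ 4 * (1 / (M : ℝ) ^ 6)) = 2 / M := by field_simp
      rw [this, div_le_one hM0]
      linarith
    have hbig : 1 ≤ 32 * Real.sqrt V * Real.sqrt (Real.log Z * Real.log M) := by
      have h1 : 1 ≤ Real.sqrt V := by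
        rw [Real.one_le_sqrt]; exact hV1
      have h2 : 1 / 2 ≤ Real.sqrt (Real.log Z * Real.log M) := by
        apply Real.le_sqrt_of_sq_le
        nlinarith
      nlinarith [Real.sqrt_nonneg (Real.log Z * Real.log M)]
    linarith
  -- conclusion
  have hle : ∑ η : S → ℤˣ, wt h η *
        (if ∃ (q : ℕ) (χ : DirichletCharacter ℂ q) (t : ℝ) (y : ℕ), 1 ≤ q ∧ y ≤ 4 * M ∧
          64 * Real.sqrt V * Real.sqrt (Real.log (q * (2 + |t|)) * Real.log M) <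
            ‖∑ s, ((((η s : ℤ) : ℝ) - h s : ℝ) : ℂ) * w q χ t y s‖ then (1 : ℝ) else 0)
      ≤ ∑ η : S → ℤˣ, wt h η *
        (if ∃ j, lam j ≤ ‖∑ s, ((((η s : ℤ) : ℝ) - h s : ℝ) : ℂ) * c j s‖ then (1 : ℝ) else 0) := by
    apply Finset.sum_le_sum
    intro η _
    apply mul_le_mul_of_nonneg_left _ (UR.wt_nonneg hh η)
    by_cases he : ∃ (q : ℕ) (χ : DirichletCharacter ℂ q) (t : ℝ) (y : ℕ), 1 ≤ q ∧ y ≤ 4 * M ∧
          64 * Real.sqrt V * Real.sqrt (Real.log (q * (2 + |t|)) * Real.log M) <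
            ‖∑ s, ((((η s : ℤ) : ℝ) - h s : ℝ) : ℂ) * w q χ t y s‖
    · rw [if_pos he, if_pos (hev η he)]
    · rw [if_neg he]
      split_ifs <;> norm_num
  refine hle.trans (hR1.trans ?_)
  have hterm : ∀ j : UR.JJ Q K (4 * M + 1), 4 * Real.exp (-(lam j) ^ 2 / (4 * V)) ≤
      4 * (1 / (M : ℝ) ^ 20) *
        (1 / ((j.1.1 : ℝ) + 1) ^ 3 * (1 / ((j.2.1.1 : ℝ) + 1) ^ 2)) := by
    intro j
    have hlogXj : 0 ≤ Real.log (X j) := Real.log_nonneg (by linarith [hXge j])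
    have e1 : -(lam j) ^ 2 / (4 * V) = -(256 * (Real.log (X j) * Real.log M)) := by
      have h1 : (lam j) ^ 2 = 1024 * V * (Real.log (X j) * Real.log M) := by
        show (32 * Real.sqrt V * Real.sqrt (Real.log (X j) * Real.log M)) ^ 2 = _
        rw [mul_pow, mul_pow, Real.sq_sqrt hV0.le,
          Real.sq_sqrt (mul_nonneg hlogXj (by linarith))]
        ring
      rw [h1]
      field_simp
      ring
    rw [e1]
    have h2 := UR.exp_le hM j.1.1 j.2.1.1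
    calc 4 * Real.exp (-(256 * (Real.log (X j) * Real.log M)))
        ≤ 4 * (1 / ((j.1.1 : ℝ) + 1) ^ 3 * (1 / ((j.2.1.1 : ℝ) + 1) ^ 2) * (1 / (M : ℝ) ^ 20)) := by
          apply mul_le_mul_of_nonneg_left h2 (by norm_num)
      _ = _ := by ring
  refine (Finset.sum_le_sum fun j _ => hterm j).trans ?_
  rw [← Finset.mul_sum]
  have h3 := UR.sum_JJ Q K (4 * M + 1)
  calc 4 * (1 / (M : ℝ) ^ 20) * ∑ j : UR.JJ Q K (4 * M + 1),
        (1 / ((j.1.1 : ℝ) + 1) ^ 3 * (1 / ((j.2.1.1 : ℝ) + 1) ^ 2))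
      ≤ 4 * (1 / (M : ℝ) ^ 20) * (8 * ((4 * M + 1 : ℕ) : ℝ)) :=
        mul_le_mul_of_nonneg_left h3 (by positivity)
    _ ≤ 1 / (M : ℝ) ^ 10 := by
        push_cast
        have h4 : 4 * (1 / (M : ℝ) ^ 20) * (8 * (4 * (M : ℝ) + 1)) =
            (32 * (4 * (M : ℝ) + 1)) / (M : ℝ) ^ 20 := by ring
        rw [h4, div_le_div_iff₀ (by positivity) (by positivity), one_mul]
        have h5 : 32 * (4 * (M : ℝ) + 1) ≤ (M : ℝ) ^ 10 := by
          have h6 : (3 : ℝ) ^ 8 ≤ (M : ℝ) ^ 8 := pow_le_pow_left₀ (by norm_num) hM3 8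
          have h7 : (M : ℝ) ^ 10 = (M : ℝ) ^ 8 * (M : ℝ) ^ 2 := by ring
          rw [h7]
          nlinarith
        calc 32 * (4 * (M : ℝ) + 1) * (M : ℝ) ^ 10 ≤ (M : ℝ) ^ 10 * (M : ℝ) ^ 10 :=
              mul_le_mul_of_nonneg_right h5 (by positivity)
          _ = (M : ℝ) ^ 20 := by ring

end Pool.Agent.Helper92.GB
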