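import Pool.Agent.Helper92.GB.Defs
import Pool.Agent.Helper92.GB.UR
import Pool.Agent.Helper92.GB.PV

/-!
# Block GB-RB (MP_b6b996_nt)
Biased block (imports UR, PV). The heart of the construction.
Proof. `Q = 4 z + 1`, `M = z`. Let `τ = cos(2π ·)` or `sin(2π ·)` with `T := ∑_{p ∈ B, l ∈ L} τ(p l / Q)² ≥ |B||L| / 2` (the two sums add up to `|B||L|`).
STAGE 1. Uniform signs `ξ : L → ℤˣ` (`S = L`, `h = 0`). Apply UR three times: (s1) `w_l = χ(l) l^{it} 1_{l ≤ y}`, `V = z`; (s2)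
`w_l = ∑_{p ∈ B, p ≤ y} χ(p) p^{it} τ(p l / Q)`, `V = Q |B| ≤ 5 z²` (PV), Lipschitz constant `≤ z log(4z) ≤ z^4`; (s3) `w_l = τ(y l / Q)` (no dependence on
`q, χ, t`), `V = z`: with `q = 1`, `t = 0` this gives `|c_p| ≤ A √z √(log 2 log z)` for `c_p = ∑_l ξ_l τ(p l / Q)`. The bad `ξ` have weight at most
`3 z^(-10)`. The mean of `∑_p c_p²` is `T`, and `∑_p c_p² ≤ Q |L| ≤ 5 z²` always (PV), so some good `ξ` has `∑_p c_p² ≥ T - 15 z^(-8) ≥ T/2`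
(`T ≥ z^(2-2δ)/32`).
STAGE 2. Independent signs `η_p`, `p ∈ B`, with means `h_p = λ c_p`, `λ = z^(-1/2-δ)` (`|h_p| ≤ 1` for `z` large). UR with `w_p = χ(p) p^{it} 1_{p ≤ y}`,
`V = z`, and with `w_p = c_p` (`V = 5 z²`): some `η` has (t1) `‖∑_{p ≤ y} (η_p - h_p) χ(p) p^{it}‖ ≤ A √z √(log X log z)` and (t2)
`|∑ (η_p - h_p) c_p| ≤ A √5 z √(log 2 log z)`. Also `‖∑_{p ≤ y} h_p χ(p) p^{it}‖ = λ ‖∑_l ξ_l w_l‖ ≤ λ A √5 z √(log X log z)` by (s2). So both prime sum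
bounds hold with one constant `C` (for `y > 4z` replace `y` by `4z`). Finally
`∑_{p,l} η_p ξ_l τ(p l / Q) = ∑_p η_p c_p ≥ λ T / 2 - A √5 z √(log z) ≥ z^(3/2 - 4δ)` for `z` large, and it is the real or imaginary part of the double sum.
`f = ξ` on `L`, `η` on `B`, `1` elsewhere.
-/

set_option autoImplicit false

namespace Pool.Agent.Helper92.GB

open Finset

namespace RBaux

lemma wt_nonneg {S : Type} [Fintype S] (h : S → ℝ) (hh : ∀ s, |h s| ≤ 1) (η : S → ℤˣ) :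
    0 ≤ wt h η := by
  unfold wt
  refine Finset.prod_nonneg fun s _ => ?_
  have h1 := abs_le.1 (hh s)
  rcases Int.units_eq_one_or (η s) with h2 | h2
  · rw [h2]; push_cast; linarith
  · rw [h2]; push_cast; linarith

lemma wt_sum {S : Type} [Fintype S] [DecidableEq S] (h : S → ℝ) :
    ∑ η : S → ℤˣ, wt h η = 1 := by
  unfold wt
  have := Finset.prod_univ_sum (fun _ : S => (Finset.univ : Finset ℤˣ))
    (fun s u => (1 + (((u : ℤ) : ℝ)) * h s) / 2)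
  rw [Fintype.piFinset_univ] at this
  rw [← this]
  refine Finset.prod_eq_one fun s _ => ?_
  rw [show (Finset.univ : Finset ℤˣ) = {1, -1} from rfl, Finset.sum_pair (by decide)]
  push_cast
  ring

lemma corr {S : Type} [Fintype S] [DecidableEq S] (s t : S) (hst : s ≠ t) :
    ∑ η : S → ℤˣ, (((η s : ℤ) : ℝ)) * ((η t : ℤ) : ℝ) = 0 := by
  have h := Fintype.sum_equiv (Equiv.mulLeft (Pi.mulSingle s (-1) : S → ℤˣ))
    (fun η : S → ℤˣ => -((((η s : ℤ) : ℝ)) * ((η t : ℤ) : ℝ)))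
    (fun η : S → ℤˣ => (((η s : ℤ) : ℝ)) * ((η t : ℤ) : ℝ)) (by
      intro η
      simp [Pi.mulSingle_eq_of_ne (Ne.symm hst)])
  rw [Finset.sum_neg_distrib] at h
  linarith

lemma second {S : Type} [Fintype S] [DecidableEq S] (a : S → ℝ) :
    ∑ η : S → ℤˣ, wt (fun _ => 0) η * (∑ s, ((η s : ℤ) : ℝ) * a s) ^ 2 = ∑ s, a s ^ 2 := by
  have hw : ∀ η : S → ℤˣ, wt (fun _ : S => (0 : ℝ)) η = (1 / 2) ^ Fintype.card S := by
    intro η
    unfold wt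
    simp
  have hexp : ∀ η : S → ℤˣ, (∑ s, ((η s : ℤ) : ℝ) * a s) ^ 2 =
      ∑ s, ∑ t, a s * a t * ((((η s : ℤ) : ℝ)) * ((η t : ℤ) : ℝ)) := by
    intro η
    rw [sq, Finset.sum_mul_sum]
    refine Finset.sum_congr rfl fun s _ => Finset.sum_congr rfl fun t _ => by ring
  simp_rw [hw, hexp]
  rw [← Finset.mul_sum, Finset.sum_comm]
  have h1 : ∀ s : S, ∑ η : S → ℤˣ, ∑ t, a s * a t * ((((η s : ℤ) : ℝ)) * ((η t : ℤ) : ℝ)) =
      a s ^ 2 * 2 ^ Fintype.card S := by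
    intro s
    rw [Finset.sum_comm]
    rw [Finset.sum_eq_single s]
    · have : ∀ η : S → ℤˣ, a s * a s * ((((η s : ℤ) : ℝ)) * ((η s : ℤ) : ℝ)) = a s ^ 2 := by
        intro η
        rcases Int.units_eq_one_or (η s) with h2 | h2 <;> rw [h2] <;> push_cast <;> ring
      simp_rw [this]
      rw [Finset.sum_const, Finset.card_univ, Fintype.card_fun, Fintype.card_units_int]
      simp
      ring
    · intro t _ hts
      rw [← Finset.mul_sum, corr s t (Ne.symm hts), mul_zero]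
    · intro h; exact absurd (Finset.mem_univ _) h
  simp_rw [h1]
  rw [← Finset.sum_mul, mul_comm, mul_assoc, ← mul_pow]
  norm_num

lemma exists_good {Ω : Type} [Fintype Ω] (w : Ω → ℝ) (hw : ∀ x, 0 ≤ w x) (hsum : ∑ x, w x = 1)
    (P₁ P₂ P₃ : Ω → Prop) (ε : ℝ)
    (h₁ : open Classical in ∑ x, w x * (if P₁ x then 1 else 0) ≤ ε)
    (h₂ : open Classical in ∑ x, w x * (if P₂ x then 1 else 0) ≤ ε)
    (h₃ : open Classical in ∑ x, w x * (if P₃ x then 1 else 0) ≤ ε)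
    (f : Ω → ℝ) (K T T' : ℝ) (hf : ∀ x, f x ≤ K) (hK : 0 ≤ K) (hT' : 0 ≤ T')
    (hE : T ≤ ∑ x, w x * f x) (hlt : T' + 3 * ε * K < T) :
    ∃ x, ¬ P₁ x ∧ ¬ P₂ x ∧ ¬ P₃ x ∧ T' ≤ f x := by
  classical
  by_contra hcon
  push Not at hcon
  have key : ∀ x, w x * f x ≤ w x * T' + K * (w x * (if P₁ x then 1 else 0)) +
      K * (w x * (if P₂ x then 1 else 0)) + K * (w x * (if P₃ x then 1 else 0)) := by
    intro x
    have a1 : 0 ≤ K * (w x * (if P₁ x then (1 : ℝ) else 0)) := by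
      have := hw x
      split_ifs <;> positivity
    have a2 : 0 ≤ K * (w x * (if P₂ x then (1 : ℝ) else 0)) := by
      have := hw x
      split_ifs <;> positivity
    have a3 : 0 ≤ K * (w x * (if P₃ x then (1 : ℝ) else 0)) := by
      have := hw x
      split_ifs <;> positivity
    have a0 : 0 ≤ w x * T' := mul_nonneg (hw x) hT'
    have a4 : w x * f x ≤ K * (w x * 1) := by
      have := mul_le_mul_of_nonneg_left (hf x) (hw x)
      linarith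
    by_cases c1 : P₁ x
    · rw [if_pos c1] at a1 ⊢; linarith
    by_cases c2 : P₂ x
    · rw [if_pos c2] at a2 ⊢; linarith
    by_cases c3 : P₃ x
    · rw [if_pos c3] at a3 ⊢; linarith
    have := mul_le_mul_of_nonneg_left (hcon x c1 c2 c3).le (hw x)
    linarith
  have hs := Finset.sum_le_sum fun x (_ : x ∈ Finset.univ) => key x
  rw [Finset.sum_add_distrib, Finset.sum_add_distrib, Finset.sum_add_distrib, ← Finset.mul_sum,
    ← Finset.mul_sum, ← Finset.mul_sum, ← Finset.sum_mul, hsum] at hs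
  have b1 := mul_le_mul_of_nonneg_left h₁ hK
  have b2 := mul_le_mul_of_nonneg_left h₂ hK
  have b3 := mul_le_mul_of_nonneg_left h₃ hK
  nlinarith [hs, b1, b2, b3, hE, hlt]

lemma npi_norm (n : ℕ) (t : ℝ) : ‖npi n t‖ ≤ 1 := by
  unfold npi
  rcases Nat.eq_zero_or_pos n with h | h
  · subst h
    by_cases ht : ((t : ℂ) * Complex.I) = 0
    · rw [ht]; simp
    · rw [Nat.cast_zero, Complex.zero_cpow ht]; simp
  · rw [← Complex.ofReal_natCast, Complex.norm_cpow_eq_rpow_re_of_pos (by exact_mod_cast h)]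
    simp

lemma npi_lip (n : ℕ) (hn : 1 ≤ n) (t t' : ℝ) : ‖npi n t - npi n t'‖ ≤ Real.log n * |t - t'| := by
  unfold npi
  have hn0 : (n : ℂ) ≠ 0 := by exact_mod_cast (by omega : n ≠ 0)
  have hlog : 0 ≤ Real.log n := Real.log_natCast_nonneg n
  rw [Complex.cpow_def_of_ne_zero hn0, Complex.cpow_def_of_ne_zero hn0, ← Complex.natCast_log]
  have h1 : Complex.exp ((Real.log n : ℂ) * ((t : ℂ) * Complex.I)) -
      Complex.exp ((Real.log n : ℂ) * ((t' : ℂ) * Complex.I)) =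
      Complex.exp (((Real.log n * t' : ℝ) : ℂ) * Complex.I) *
        (Complex.exp (Complex.I * ((Real.log n * (t - t') : ℝ) : ℂ)) - 1) := by
    rw [mul_sub, ← Complex.exp_add]
    push_cast
    congr 1
    · congr 1; ring
    · rw [mul_one]; congr 1; ring
  rw [h1, norm_mul, Complex.norm_exp_ofReal_mul_I, one_mul]
  refine (Real.norm_exp_I_mul_ofReal_sub_one_le).trans ?_
  rw [Real.norm_eq_abs, abs_mul, abs_of_nonneg hlog]

/-- The bad event of `UR`. -/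
def Bad (A V : ℝ) (M : ℕ) {S : Type} [Fintype S] (h : S → ℝ)
    (w : (q : ℕ) → DirichletCharacter ℂ q → ℝ → ℕ → S → ℂ) (η : S → ℤˣ) : Prop :=
  ∃ (q : ℕ) (χ : DirichletCharacter ℂ q) (t : ℝ) (y : ℕ), 1 ≤ q ∧ y ≤ 4 * M ∧
    A * Real.sqrt V * Real.sqrt (Real.log (q * (2 + |t|)) * Real.log M) <
      ‖∑ s, ((((η s : ℤ) : ℝ) - h s : ℝ) : ℂ) * w q χ t y s‖

/-- The conclusion of `UR` for given constants. -/
def URP (A : ℝ) (M₀ : ℕ) : Prop := ∀ M : ℕ, M₀ ≤ M →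
    ∀ (S : Type) [Fintype S] [DecidableEq S], Fintype.card S ≤ M → ∀ h : S → ℝ,
    (∀ s, |h s| ≤ 1) → ∀ V : ℝ, 1 ≤ V → V ≤ (M : ℝ) ^ 4 →
    ∀ w : (q : ℕ) → DirichletCharacter ℂ q → ℝ → ℕ → S → ℂ,
    (∀ q χ t y, ∑ s, ‖w q χ t y s‖ ^ 2 ≤ V) →
    (∀ q χ t t' y s, ‖w q χ t y s - w q χ t' y s‖ ≤ (M : ℝ) ^ 4 * |t - t'|) →
    open Classical in
    ∑ η : S → ℤˣ, wt h η * (if Bad A V M h w η then 1 else 0) ≤ 1 / (M : ℝ) ^ 10

/-- extension of signs to `ℕ` -/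
def xt {L : Finset ℕ} (ξ : {x // x ∈ L} → ℤˣ) (n : ℕ) : ℤ :=
  if h : n ∈ L then ((ξ ⟨n, h⟩ : ℤˣ) : ℤ) else 1

lemma xt_mem {L : Finset ℕ} (ξ : {x // x ∈ L} → ℤˣ) (n : ℕ) : xt ξ n = 1 ∨ xt ξ n = -1 := by
  unfold xt
  split_ifs with h
  · rcases Int.units_eq_one_or (ξ ⟨n, h⟩) with h2 | h2 <;> rw [h2] <;> simp
  · exact Or.inl rfl

lemma xt_val {L : Finset ℕ} (ξ : {x // x ∈ L} → ℤˣ) (l : {x // x ∈ L}) :
    xt ξ (l : ℕ) = ((ξ l : ℤˣ) : ℤ) := by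
  unfold xt
  rw [dif_pos l.2]

lemma sum_xt {R : Type} [AddCommMonoid R] {L : Finset ℕ} (g : {x // x ∈ L} → R) (g' : ℕ → R)
    (h : ∀ l : {x // x ∈ L}, g l = g' l) : ∑ l : {x // x ∈ L}, g l = ∑ l ∈ L, g' l := by
  rw [← Finset.sum_coe_sort L g']
  exact Finset.sum_congr rfl fun l _ => h l

lemma tau_le (τ : ℝ → ℝ)
    (hτ : τ = (fun x => Real.cos (2 * Real.pi * x)) ∨ τ = (fun x => Real.sin (2 * Real.pi * x)))
    (x : ℝ) : |τ x| ≤ 1 := by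
  rcases hτ with h | h <;> rw [h]
  · exact Real.abs_cos_le_one _
  · exact Real.abs_sin_le_one _

lemma chi_npi {q : ℕ} (χ : DirichletCharacter ℂ q) (t : ℝ) (y n : ℕ) :
    ‖(if n ≤ y then χ (n : ZMod q) * npi n t else 0 : ℂ)‖ ≤ 1 := by
  split_ifs
  · rw [norm_mul]
    exact mul_le_one₀ (DirichletCharacter.norm_le_one χ _) (norm_nonneg _) (npi_norm n t)
  · simp

lemma chi_lip {q : ℕ} (χ : DirichletCharacter ℂ q) (t t' : ℝ) (y n : ℕ) (hn : 1 ≤ n) :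
    ‖(if n ≤ y then χ (n : ZMod q) * npi n t else 0 : ℂ) -
      (if n ≤ y then χ (n : ZMod q) * npi n t' else 0 : ℂ)‖ ≤ n * |t - t'| := by
  have h0 : (0 : ℝ) ≤ n * |t - t'| := by positivity
  split_ifs
  · rw [← mul_sub, norm_mul]
    have h1 := npi_lip n hn t t'
    have h2 : Real.log n ≤ n := (Real.log_le_self (by positivity))
    have h3 : Real.log n * |t - t'| ≤ n * |t - t'| :=
      mul_le_mul_of_nonneg_right h2 (abs_nonneg _)
    calc _ ≤ 1 * ‖npi n t - npi n t'‖ :=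
          mul_le_mul_of_nonneg_right (DirichletCharacter.norm_le_one χ _) (norm_nonneg _)
      _ ≤ _ := by linarith
  · simpa using h0

variable {z : ℕ} {L B : Finset ℕ}

lemma card_le (hL : L ⊆ Ioc (3 * z) (4 * z)) : L.card ≤ z := by
  have := Finset.card_le_card hL
  rw [Nat.card_Ioc] at this
  omega

lemma sumsq (hz : 3 ≤ z) (hL : L ⊆ Ioc (3 * z) (4 * z)) (hB : B ⊆ Ioc (3 * z) (4 * z))
    (τ : ℝ → ℝ)
    (hτ : τ = (fun x => Real.cos (2 * Real.pi * x)) ∨ τ = (fun x => Real.sin (2 * Real.pi * x)))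
    (c : ℕ → ℂ) (hc : ∀ p ∈ B, ‖c p‖ ≤ 1) :
    ∑ l ∈ L, ‖∑ p ∈ B, c p * ((τ (p * l / ((4 * z + 1 : ℕ) : ℝ)) : ℝ) : ℂ)‖ ^ 2 ≤
      5 * (z : ℝ) ^ 2 := by
  have h1 := PV (4 * z + 1) (by omega) L B
    (fun l hl => by have := Finset.mem_Ioc.1 (hL hl); omega)
    (fun l hl => by have := Finset.mem_Ioc.1 (hB hl); omega) c τ hτ
  refine h1.trans ?_
  have h2 : ∑ p ∈ B, ‖c p‖ ^ 2 ≤ z := by
    calc ∑ p ∈ B, ‖c p‖ ^ 2 ≤ ∑ p ∈ B, (1 : ℝ) :=
          Finset.sum_le_sum fun p hp => pow_le_one₀ (norm_nonneg _) (hc p hp)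
      _ = B.card := by simp
      _ ≤ z := by exact_mod_cast card_le hB
  have h3 : (3 : ℝ) ≤ z := by exact_mod_cast hz
  calc ((4 * z + 1 : ℕ) : ℝ) * ∑ p ∈ B, ‖c p‖ ^ 2 ≤ ((4 * z + 1 : ℕ) : ℝ) * z :=
        mul_le_mul_of_nonneg_left h2 (by positivity)
    _ ≤ 5 * (z : ℝ) ^ 2 := by push_cast; nlinarith

lemma sumsq' (hz : 3 ≤ z) (hL : L ⊆ Ioc (3 * z) (4 * z)) (hB : B ⊆ Ioc (3 * z) (4 * z))
    (τ : ℝ → ℝ)
    (hτ : τ = (fun x => Real.cos (2 * Real.pi * x)) ∨ τ = (fun x => Real.sin (2 * Real.pi * x)))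
    (ξ : {x // x ∈ L} → ℤˣ) :
    ∑ p ∈ B, (∑ l : {x // x ∈ L}, ((ξ l : ℤ) : ℝ) * τ (p * l / ((4 * z + 1 : ℕ) : ℝ))) ^ 2 ≤
      5 * (z : ℝ) ^ 2 := by
  have h1 := sumsq hz hB hL τ hτ (fun l => ((xt ξ l : ℤ) : ℂ)) (fun l _ => by
    rcases xt_mem ξ l with h | h <;> simp [h])
  refine le_trans (le_of_eq ?_) h1
  refine Finset.sum_congr rfl fun p _ => ?_
  rw [← sum_xt (fun l : {x // x ∈ L} => (((ξ l : ℤ) : ℝ) * τ (p * l / ((4 * z + 1 : ℕ) : ℝ)) : ℂ))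
    (fun l => ((xt ξ l : ℤ) : ℂ) * ((τ (l * p / ((4 * z + 1 : ℕ) : ℝ)) : ℝ) : ℂ)) (fun l => by
      rw [xt_val, mul_comm (p : ℝ) (l : ℝ)]; push_cast; ring)]
  rw [← sq_abs, ← Real.norm_eq_abs, ← Complex.norm_real]
  push_cast
  rfl

lemma stage1 (A : ℝ) (M₀ : ℕ) (hU : URP A M₀) (hz0 : M₀ ≤ z) (hz : 3 ≤ z)
    (hL : L ⊆ Ioc (3 * z) (4 * z)) (hB : B ⊆ Ioc (3 * z) (4 * z)) (τ : ℝ → ℝ)
    (hτ : τ = (fun x => Real.cos (2 * Real.pi * x)) ∨ τ = (fun x => Real.sin (2 * Real.pi * x)))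
    (T : ℝ) (hT0 : 0 ≤ T)
    (hT : T ≤ ∑ p ∈ B, ∑ l ∈ L, τ (p * l / ((4 * z + 1 : ℕ) : ℝ)) ^ 2)
    (hbig : T / 2 + 3 * (1 / (z : ℝ) ^ 10) * (5 * (z : ℝ) ^ 2) < T) :
    ∃ ξ : {x // x ∈ L} → ℤˣ,
      (∀ (q : ℕ) (χ : DirichletCharacter ℂ q) (t : ℝ) (y : ℕ), 1 ≤ q → y ≤ 4 * z →
        ‖∑ l ∈ L, ((xt ξ l : ℤ) : ℂ) * (if l ≤ y then χ (l : ZMod q) * npi l t else 0)‖ ≤
          A * Real.sqrt z * Real.sqrt (Real.log (q * (2 + |t|)) * Real.log z)) ∧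
      (∀ (q : ℕ) (χ : DirichletCharacter ℂ q) (t : ℝ) (y : ℕ), 1 ≤ q → y ≤ 4 * z →
        ‖∑ p ∈ B, ((∑ l ∈ L, ((xt ξ l : ℤ) : ℝ) * τ (p * l / ((4 * z + 1 : ℕ) : ℝ)) : ℝ) : ℂ) *
            (if p ≤ y then χ (p : ZMod q) * npi p t else 0)‖ ≤
          A * Real.sqrt (5 * (z : ℝ) ^ 2) *
            Real.sqrt (Real.log (q * (2 + |t|)) * Real.log z)) ∧
      (∀ p ∈ B, |∑ l ∈ L, ((xt ξ l : ℤ) : ℝ) * τ (p * l / ((4 * z + 1 : ℕ) : ℝ))| ≤
          A * Real.sqrt z * Real.sqrt (Real.log 2 * Real.log z)) ∧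
      T / 2 ≤ ∑ p ∈ B,
        (∑ l ∈ L, ((xt ξ l : ℤ) : ℝ) * τ (p * l / ((4 * z + 1 : ℕ) : ℝ))) ^ 2 ∧
      (∑ p ∈ B,
        (∑ l ∈ L, ((xt ξ l : ℤ) : ℝ) * τ (p * l / ((4 * z + 1 : ℕ) : ℝ))) ^ 2 ≤
          5 * (z : ℝ) ^ 2) := by
  classical
  have hzr : (3 : ℝ) ≤ z := by exact_mod_cast hz
  have hcard : Fintype.card {x // x ∈ L} ≤ z := by
    rw [Fintype.card_coe]; exact card_le hL
  have hcardB : (B.card : ℝ) ≤ z := by exact_mod_cast card_le hB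
  have hcardL : (L.card : ℝ) ≤ z := by exact_mod_cast card_le hL
  have hz4 : 4 * (z : ℝ) ≤ (z : ℝ) ^ 4 := by
    have : (27 : ℝ) ≤ (z : ℝ) ^ 3 := by
      calc (27 : ℝ) = 3 ^ 3 := by norm_num
        _ ≤ _ := pow_le_pow_left₀ (by norm_num) hzr 3
    nlinarith
  have hz5 : 5 * (z : ℝ) ^ 2 ≤ (z : ℝ) ^ 4 := by
    have : (9 : ℝ) ≤ (z : ℝ) ^ 2 := by nlinarith
    nlinarith
  set w1 : (q : ℕ) → DirichletCharacter ℂ q → ℝ → ℕ → {x // x ∈ L} → ℂ :=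
    fun q χ t y l => if (l : ℕ) ≤ y then χ ((l : ℕ) : ZMod q) * npi l t else 0 with hw1
  set w2 : (q : ℕ) → DirichletCharacter ℂ q → ℝ → ℕ → {x // x ∈ L} → ℂ :=
    fun q χ t y l => ∑ p ∈ B, (if p ≤ y then χ (p : ZMod q) * npi p t else 0) *
      ((τ (p * l / ((4 * z + 1 : ℕ) : ℝ)) : ℝ) : ℂ) with hw2
  set w3 : (q : ℕ) → DirichletCharacter ℂ q → ℝ → ℕ → {x // x ∈ L} → ℂ :=
    fun q χ t y l => ((τ (y * l / ((4 * z + 1 : ℕ) : ℝ)) : ℝ) : ℂ) with hw3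
  have h1 := hU z hz0 {x // x ∈ L} hcard (fun _ => 0) (fun _ => by simp) (z : ℝ)
    (by linarith) (by linarith) w1
    (by
      intro q χ t y
      calc ∑ s, ‖w1 q χ t y s‖ ^ 2 ≤ ∑ s : {x // x ∈ L}, (1 : ℝ) :=
            Finset.sum_le_sum fun s _ => pow_le_one₀ (norm_nonneg _) (chi_npi χ t y s)
        _ ≤ z := by simpa using hcardL)
    (by
      intro q χ t t' y s
      have hs := Finset.mem_Ioc.1 (hL s.2)
      refine (chi_lip χ t t' y (s : ℕ) (by omega)).trans ?_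
      refine mul_le_mul_of_nonneg_right ?_ (abs_nonneg _)
      have : ((s : ℕ) : ℝ) ≤ 4 * z := by exact_mod_cast hs.2
      linarith)
  have h2 := hU z hz0 {x // x ∈ L} hcard (fun _ => 0) (fun _ => by simp) (5 * (z : ℝ) ^ 2)
    (by nlinarith) hz5 w2
    (by
      intro q χ t y
      rw [sum_xt (fun s => ‖w2 q χ t y s‖ ^ 2) (fun l => ‖∑ p ∈ B,
        (if p ≤ y then χ (p : ZMod q) * npi p t else 0) *
        ((τ (p * l / ((4 * z + 1 : ℕ) : ℝ)) : ℝ) : ℂ)‖ ^ 2) (fun l => rfl)]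
      exact sumsq hz hL hB τ hτ _ (fun p _ => chi_npi χ t y p))
    (by
      intro q χ t t' y s
      rw [hw2]
      simp only
      rw [← Finset.sum_sub_distrib]
      calc _ ≤ ∑ p ∈ B, (4 * (z : ℝ)) * |t - t'| := by
            refine (norm_sum_le _ _).trans (Finset.sum_le_sum fun p hp => ?_)
            rw [← sub_mul, norm_mul, Complex.norm_real, Real.norm_eq_abs]
            have hp' := Finset.mem_Ioc.1 (hB hp)
            have a1 := chi_lip χ t t' y p (by omega)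
            have a2 : ((p : ℕ) : ℝ) ≤ 4 * z := by exact_mod_cast hp'.2
            have a3 : (p : ℝ) * |t - t'| ≤ 4 * (z : ℝ) * |t - t'| :=
              mul_le_mul_of_nonneg_right a2 (abs_nonneg _)
            calc _ ≤ (4 * (z : ℝ) * |t - t'|) * 1 :=
                  mul_le_mul (a1.trans a3) (tau_le τ hτ _) (abs_nonneg _) (by positivity)
              _ = _ := mul_one _
        _ = B.card * (4 * (z : ℝ)) * |t - t'| := by
            rw [Finset.sum_const, nsmul_eq_mul]; ring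
        _ ≤ (z : ℝ) ^ 4 * |t - t'| := by
            refine mul_le_mul_of_nonneg_right ?_ (abs_nonneg _)
            have : (B.card : ℝ) * (4 * (z : ℝ)) ≤ z * (4 * (z : ℝ)) :=
              mul_le_mul_of_nonneg_right hcardB (by positivity)
            nlinarith)
  have h3 := hU z hz0 {x // x ∈ L} hcard (fun _ => 0) (fun _ => by simp) (z : ℝ)
    (by linarith) (by linarith) w3
    (by
      intro q χ t y
      calc ∑ s, ‖w3 q χ t y s‖ ^ 2 ≤ ∑ s : {x // x ∈ L}, (1 : ℝ) :=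
            Finset.sum_le_sum fun s _ => pow_le_one₀ (norm_nonneg _) (by
              rw [hw3]
              simp only
              rw [Complex.norm_real, Real.norm_eq_abs]
              exact tau_le τ hτ _)
        _ ≤ z := by simpa using hcardL)
    (by
      intro q χ t t' y s
      rw [hw3]
      simp only [sub_self, norm_zero]
      positivity)
  set f : ({x // x ∈ L} → ℤˣ) → ℝ := fun ξ => ∑ p ∈ B,
    (∑ l : {x // x ∈ L}, ((ξ l : ℤ) : ℝ) * τ (p * l / ((4 * z + 1 : ℕ) : ℝ))) ^ 2 with hf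
  have hE : T ≤ ∑ ξ : {x // x ∈ L} → ℤˣ, wt (fun _ => 0) ξ * f ξ := by
    have e0 : ∑ ξ : {x // x ∈ L} → ℤˣ, wt (fun _ => 0) ξ * f ξ =
        ∑ p ∈ B, ∑ ξ : {x // x ∈ L} → ℤˣ, wt (fun _ => 0) ξ *
          (∑ l : {x // x ∈ L}, ((ξ l : ℤ) : ℝ) * τ (p * l / ((4 * z + 1 : ℕ) : ℝ))) ^ 2 := by
      rw [hf]
      simp only [Finset.mul_sum]
      exact Finset.sum_comm
    rw [e0]
    refine hT.trans (le_of_eq ?_)
    refine Finset.sum_congr rfl fun p _ => ?_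
    rw [second (fun l : {x // x ∈ L} => τ (p * l / ((4 * z + 1 : ℕ) : ℝ)))]
    exact (sum_xt (fun l : {x // x ∈ L} => τ (p * l / ((4 * z + 1 : ℕ) : ℝ)) ^ 2)
      (fun l => τ (p * l / ((4 * z + 1 : ℕ) : ℝ)) ^ 2) (fun l => rfl)).symm
  obtain ⟨ξ, g1, g2, g3, g4⟩ := exists_good (wt (fun _ : {x // x ∈ L} => (0 : ℝ)))
    (wt_nonneg _ (fun _ => by simp)) (wt_sum _) _ _ _ (1 / (z : ℝ) ^ 10) h1 h2 h3 f
    (5 * (z : ℝ) ^ 2) T (T / 2) (fun ξ => sumsq' hz hL hB τ hτ ξ) (by positivity)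
    (by linarith) hE hbig
  have hc : ∀ p : ℕ, ∑ l : {x // x ∈ L}, ((ξ l : ℤ) : ℝ) * τ (p * l / ((4 * z + 1 : ℕ) : ℝ)) =
      ∑ l ∈ L, ((xt ξ l : ℤ) : ℝ) * τ (p * l / ((4 * z + 1 : ℕ) : ℝ)) := by
    intro p
    exact sum_xt (R := ℝ)
      (fun l : {x // x ∈ L} => ((ξ l : ℤ) : ℝ) * τ (p * l / ((4 * z + 1 : ℕ) : ℝ)))
      (fun l => ((xt ξ l : ℤ) : ℝ) * τ (p * l / ((4 * z + 1 : ℕ) : ℝ)))
      (fun l => by rw [xt_val])
  refine ⟨ξ, ?_, ?_, ?_, ?_, ?_⟩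
  · intro q χ t y hq hy
    by_contra hcon
    push Not at hcon
    refine g1 ⟨q, χ, t, y, hq, hy, ?_⟩
    rw [sum_xt _ (fun l => ((xt ξ l : ℤ) : ℂ) * (if l ≤ y then χ (l : ZMod q) * npi l t else 0))
      (fun l => by rw [xt_val, hw1]; push_cast; simp)]
    exact hcon
  · intro q χ t y hq hy
    by_contra hcon
    push Not at hcon
    refine g2 ⟨q, χ, t, y, hq, hy, ?_⟩
    rw [sum_xt _ (fun l => ((xt ξ l : ℤ) : ℂ) * ∑ p ∈ B,
      (if p ≤ y then χ (p : ZMod q) * npi p t else 0) *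
      ((τ (p * l / ((4 * z + 1 : ℕ) : ℝ)) : ℝ) : ℂ))
      (fun l => by rw [xt_val, hw2]; push_cast; simp)]
    refine lt_of_lt_of_eq hcon ?_
    congr 1
    simp only [Finset.mul_sum]
    rw [Finset.sum_comm]
    refine Finset.sum_congr rfl fun p _ => ?_
    push_cast
    rw [Finset.sum_mul]
    refine Finset.sum_congr rfl fun l _ => ?_
    ring
  · intro p hp
    by_contra hcon
    push Not at hcon
    have hp' := Finset.mem_Ioc.1 (hB hp)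
    refine g3 ⟨1, 1, 0, p, le_refl _, hp'.2, ?_⟩
    rw [sum_xt _ (fun l => ((xt ξ l : ℤ) : ℂ) * ((τ (p * l / ((4 * z + 1 : ℕ) : ℝ)) : ℝ) : ℂ))
      (fun l => by rw [xt_val, hw3]; push_cast; simp)]
    have e1 : (∑ l ∈ L, ((xt ξ l : ℤ) : ℂ) * ((τ (p * l / ((4 * z + 1 : ℕ) : ℝ)) : ℝ) : ℂ)) =
      ((∑ l ∈ L, ((xt ξ l : ℤ) : ℝ) * τ (p * l / ((4 * z + 1 : ℕ) : ℝ)) : ℝ) : ℂ) := by
      push_cast; rfl
    rw [e1, Complex.norm_real, Real.norm_eq_abs]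
    have e2 : (((1 : ℕ) : ℝ) * (2 + |(0 : ℝ)|)) = 2 := by simp
    rw [e2]
    exact hcon
  · have := g4
    rw [hf] at this
    simp only [hc] at this
    exact this
  · have := sumsq' hz hL hB τ hτ ξ
    simp only [hc] at this
    exact this

lemma stage2 (A : ℝ) (M₀ : ℕ) (hU : URP A M₀) (hz0 : M₀ ≤ z) (hz : 3 ≤ z)
    (hB : B ⊆ Ioc (3 * z) (4 * z)) (c : ℕ → ℝ) (lam : ℝ) (hc : ∀ p ∈ B, |lam * c p| ≤ 1)
    (hcs : ∑ p ∈ B, c p ^ 2 ≤ 5 * (z : ℝ) ^ 2) :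
    ∃ η : {x // x ∈ B} → ℤˣ,
      (∀ (q : ℕ) (χ : DirichletCharacter ℂ q) (t : ℝ) (y : ℕ), 1 ≤ q → y ≤ 4 * z →
        ‖∑ p ∈ B, ((((xt η p : ℤ) : ℝ) - lam * c p : ℝ) : ℂ) *
            (if p ≤ y then χ (p : ZMod q) * npi p t else 0)‖ ≤
          A * Real.sqrt z * Real.sqrt (Real.log (q * (2 + |t|)) * Real.log z)) ∧
      |∑ p ∈ B, (((xt η p : ℤ) : ℝ) - lam * c p) * c p| ≤
          A * Real.sqrt (5 * (z : ℝ) ^ 2) * Real.sqrt (Real.log 2 * Real.log z) := by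
  classical
  have hzr : (3 : ℝ) ≤ z := by exact_mod_cast hz
  have hcard : Fintype.card {x // x ∈ B} ≤ z := by
    rw [Fintype.card_coe]; exact card_le hB
  have hcardB : (B.card : ℝ) ≤ z := by exact_mod_cast card_le hB
  have hz4 : 4 * (z : ℝ) ≤ (z : ℝ) ^ 4 := by
    have : (27 : ℝ) ≤ (z : ℝ) ^ 3 := by
      calc (27 : ℝ) = 3 ^ 3 := by norm_num
        _ ≤ _ := pow_le_pow_left₀ (by norm_num) hzr 3
    nlinarith
  have hz5 : 5 * (z : ℝ) ^ 2 ≤ (z : ℝ) ^ 4 := by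
    have : (9 : ℝ) ≤ (z : ℝ) ^ 2 := by nlinarith
    nlinarith
  set w1 : (q : ℕ) → DirichletCharacter ℂ q → ℝ → ℕ → {x // x ∈ B} → ℂ :=
    fun q χ t y l => if (l : ℕ) ≤ y then χ ((l : ℕ) : ZMod q) * npi l t else 0 with hw1
  set w2 : (q : ℕ) → DirichletCharacter ℂ q → ℝ → ℕ → {x // x ∈ B} → ℂ :=
    fun q χ t y p => ((c p : ℝ) : ℂ) with hw2
  have h1 := hU z hz0 {x // x ∈ B} hcard (fun p => lam * c p) (fun p => hc p p.2) (z : ℝ)
    (by linarith) (by linarith) w1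
    (by
      intro q χ t y
      calc ∑ s, ‖w1 q χ t y s‖ ^ 2 ≤ ∑ s : {x // x ∈ B}, (1 : ℝ) :=
            Finset.sum_le_sum fun s _ => pow_le_one₀ (norm_nonneg _) (chi_npi χ t y s)
        _ ≤ z := by simpa using hcardB)
    (by
      intro q χ t t' y s
      have hs := Finset.mem_Ioc.1 (hB s.2)
      refine (chi_lip χ t t' y (s : ℕ) (by omega)).trans ?_
      refine mul_le_mul_of_nonneg_right ?_ (abs_nonneg _)
      have : ((s : ℕ) : ℝ) ≤ 4 * z := by exact_mod_cast hs.2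
      linarith)
  have h2 := hU z hz0 {x // x ∈ B} hcard (fun p => lam * c p) (fun p => hc p p.2)
    (5 * (z : ℝ) ^ 2) (by nlinarith) hz5 w2
    (by
      intro q χ t y
      rw [sum_xt (fun s => ‖w2 q χ t y s‖ ^ 2) (fun p => c p ^ 2) (fun l => by
        rw [hw2]; simp only; rw [Complex.norm_real, Real.norm_eq_abs, sq_abs])]
      exact hcs)
    (by
      intro q χ t t' y s
      rw [hw2]
      simp only [sub_self, norm_zero]
      positivity)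
  have hz10 : 1 / (z : ℝ) ^ 10 ≤ 1 / 9 := by
    apply one_div_le_one_div_of_le (by norm_num)
    calc (9 : ℝ) ≤ 3 ^ 10 := by norm_num
      _ ≤ _ := pow_le_pow_left₀ (by norm_num) hzr 10
  obtain ⟨η, g1, g2, g3, g4⟩ := exists_good (wt (fun p : {x // x ∈ B} => lam * c p))
    (wt_nonneg _ (fun p => hc p p.2)) (wt_sum _) _ _ (fun _ => False) (1 / (z : ℝ) ^ 10) h1 h2
    (by simp) (fun _ => 1)
    1 1 (1 / 2) (fun η => le_refl _) (by norm_num)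
    (by norm_num) (by simp [wt_sum]) (by linarith)
  refine ⟨η, ?_, ?_⟩
  · intro q χ t y hq hy
    by_contra hcon
    push Not at hcon
    refine g1 ⟨q, χ, t, y, hq, hy, ?_⟩
    rw [sum_xt _ (fun p => ((((xt η p : ℤ) : ℝ) - lam * c p : ℝ) : ℂ) *
      (if p ≤ y then χ (p : ZMod q) * npi p t else 0))
      (fun l => by rw [xt_val, hw1])]
    exact hcon
  · by_contra hcon
    push Not at hcon
    refine g2 ⟨1, 1, 0, 0, le_refl _, by omega, ?_⟩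
    rw [sum_xt _ (fun p => ((((xt η p : ℤ) : ℝ) - lam * c p : ℝ) : ℂ) * ((c p : ℝ) : ℂ))
      (fun l => by rw [xt_val, hw2])]
    have e1 : (∑ p ∈ B, ((((xt η p : ℤ) : ℝ) - lam * c p : ℝ) : ℂ) * ((c p : ℝ) : ℂ)) =
      ((∑ p ∈ B, (((xt η p : ℤ) : ℝ) - lam * c p) * c p : ℝ) : ℂ) := by
      push_cast; rfl
    rw [e1, Complex.norm_real, Real.norm_eq_abs]
    have e2 : (((1 : ℕ) : ℝ) * (2 + |(0 : ℝ)|)) = 2 := by simp
    rw [e2]
    exact hcon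

lemma e_re (x : ℝ) : (e x).re = Real.cos (2 * Real.pi * x) := by
  unfold e
  rw [show (2 * Real.pi * Complex.I * x : ℂ) = ((2 * Real.pi * x : ℝ) : ℂ) * Complex.I by
    push_cast; ring]
  exact Complex.exp_ofReal_mul_I_re _

lemma e_im (x : ℝ) : (e x).im = Real.sin (2 * Real.pi * x) := by
  unfold e
  rw [show (2 * Real.pi * Complex.I * x : ℂ) = ((2 * Real.pi * x : ℝ) : ℂ) * Complex.I by
    push_cast; ring]
  exact Complex.exp_ofReal_mul_I_im _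

lemma tau_norm (L B : Finset ℕ) (f : ℕ → ℤ) (τ : ℝ → ℝ)
    (hτ : τ = (fun x => Real.cos (2 * Real.pi * x)) ∨ τ = (fun x => Real.sin (2 * Real.pi * x))) :
    ∑ p ∈ B, ∑ l ∈ L, (f p : ℝ) * (f l : ℝ) * τ (p * l / ((4 * z + 1 : ℕ) : ℝ)) ≤
    ‖∑ p ∈ B, ∑ l ∈ L, (f p : ℂ) * (f l : ℂ) * e ((p * l : ℕ) * (1 / (4 * z + 1)))‖ := by
  have harg : ∀ p l : ℕ, (((p * l : ℕ) : ℝ) * (1 / (4 * (z : ℝ) + 1))) =
      p * l / ((4 * z + 1 : ℕ) : ℝ) := by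
    intro p l; push_cast; ring
  rcases hτ with h | h
  · refine le_trans (le_of_eq ?_) (Complex.re_le_norm _)
    rw [Complex.re_sum]
    refine Finset.sum_congr rfl fun p _ => ?_
    rw [Complex.re_sum]
    refine Finset.sum_congr rfl fun l _ => ?_
    rw [← Complex.ofReal_intCast, ← Complex.ofReal_intCast, ← Complex.ofReal_mul,
      Complex.re_ofReal_mul, e_re, h, harg]
  · refine le_trans (le_of_eq ?_) (Complex.im_le_norm _)
    rw [Complex.im_sum]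
    refine Finset.sum_congr rfl fun p _ => ?_
    rw [Complex.im_sum]
    refine Finset.sum_congr rfl fun l _ => ?_
    rw [← Complex.ofReal_intCast, ← Complex.ofReal_intCast, ← Complex.ofReal_mul,
      Complex.im_ofReal_mul, e_im, h, harg]

lemma core (A : ℝ) (M₀ : ℕ) (hA : 0 < A) (hU : URP A M₀) (δ : ℝ) (hδ : 0 < δ) (hδ' : δ ≤ 1 / 10)
    (hz0 : M₀ ≤ z) (hz : 3 ≤ z) (hlog : Real.log z ≤ (1 / A ^ 2) * (z : ℝ) ^ δ)
    (h256 : 256 ≤ (z : ℝ) ^ δ)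
    (hL : L ⊆ Ioc (3 * z) (4 * z)) (hB : B ⊆ Ioc (3 * z) (4 * z)) (hdis : Disjoint L B)
    (hLc : (z : ℝ) ^ (1 - δ) ≤ 4 * L.card) (hBc : (z : ℝ) ^ (1 - δ) ≤ 4 * B.card) :
    ∃ f : ℕ → ℤ, (∀ n, f n = 1 ∨ f n = -1) ∧
      (∀ (q : ℕ) (χ : DirichletCharacter ℂ q) (t : ℝ) (y : ℕ), 1 ≤ q →
        ‖∑ p ∈ L.filter (· ≤ y), (f p : ℂ) * χ (p : ZMod q) * npi p t‖ ≤
          (4 * A) * Real.sqrt z * Real.sqrt (Real.log (q * (2 + |t|)) * Real.log z)) ∧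
      (∀ (q : ℕ) (χ : DirichletCharacter ℂ q) (t : ℝ) (y : ℕ), 1 ≤ q →
        ‖∑ p ∈ B.filter (· ≤ y), (f p : ℂ) * χ (p : ZMod q) * npi p t‖ ≤
          (4 * A) * Real.sqrt z * Real.sqrt (Real.log (q * (2 + |t|)) * Real.log z)) ∧
      (z : ℝ) ^ (3 / 2 - 4 * δ) ≤
        ‖∑ p ∈ B, ∑ l ∈ L, (f p : ℂ) * (f l : ℂ) * e ((p * l : ℕ) * (1 / (4 * z + 1)))‖ := by
  classical
  have hzr : (3 : ℝ) ≤ z := by exact_mod_cast hz
  have hzpos : (0 : ℝ) < z := by linarith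
  have hz1 : (1 : ℝ) ≤ z := by linarith
  have hlogz : 0 ≤ Real.log z := Real.log_nonneg hz1
  set s : ℝ := Real.sqrt (Real.log 2 * Real.log z) with hs
  have hs0 : 0 ≤ s := Real.sqrt_nonneg _
  have hssq : s ^ 2 ≤ Real.log z := by
    rw [hs, Real.sq_sqrt (mul_nonneg (Real.log_nonneg (by norm_num)) hlogz)]
    have : Real.log 2 ≤ 1 := by
      have := Real.log_two_lt_d9; linarith
    nlinarith
  set r : ℝ := (z : ℝ) ^ (δ / 2) with hr
  have hr0 : 0 < r := Real.rpow_pos_of_pos hzpos _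
  have hrr : r ^ 2 = (z : ℝ) ^ δ := by
    rw [hr, ← Real.rpow_natCast, ← Real.rpow_mul hzpos.le]; congr 1; push_cast; ring
  have hAs : A * s ≤ r := by
    have h1 : (A * s) ^ 2 ≤ r ^ 2 := by
      rw [hrr, mul_pow]
      calc A ^ 2 * s ^ 2 ≤ A ^ 2 * ((1 / A ^ 2) * (z : ℝ) ^ δ) :=
            mul_le_mul_of_nonneg_left (hssq.trans hlog) (by positivity)
        _ = (z : ℝ) ^ δ := by field_simp
    exact (pow_le_pow_iff_left₀ (by positivity) hr0.le (by norm_num)).1 h1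
  -- choice of tau
  have hchoice : ∃ τ : ℝ → ℝ, (τ = (fun x => Real.cos (2 * Real.pi * x)) ∨
      τ = (fun x => Real.sin (2 * Real.pi * x))) ∧
      (z : ℝ) ^ (2 - 2 * δ) / 32 ≤ ∑ p ∈ B, ∑ l ∈ L, τ (p * l / ((4 * z + 1 : ℕ) : ℝ)) ^ 2 := by
    have hsum : ∑ p ∈ B, ∑ l ∈ L, (Real.cos (2 * Real.pi * (p * l / ((4 * z + 1 : ℕ) : ℝ)))) ^ 2 +
        ∑ p ∈ B, ∑ l ∈ L, (Real.sin (2 * Real.pi * (p * l / ((4 * z + 1 : ℕ) : ℝ)))) ^ 2 =
        B.card * L.card := by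
      rw [← Finset.sum_add_distrib]
      simp_rw [← Finset.sum_add_distrib, Real.cos_sq_add_sin_sq]
      simp
    have hprod : (z : ℝ) ^ (2 - 2 * δ) ≤ 16 * (B.card * L.card) := by
      have e1 : (z : ℝ) ^ (2 - 2 * δ) = (z : ℝ) ^ (1 - δ) * (z : ℝ) ^ (1 - δ) := by
        rw [← Real.rpow_add hzpos]; congr 1; ring
      rw [e1]
      calc _ ≤ (4 * (B.card : ℝ)) * (4 * L.card) :=
            mul_le_mul hBc hLc (Real.rpow_nonneg hzpos.le _) (by positivity)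
        _ = _ := by ring
    by_cases hcs : (z : ℝ) ^ (2 - 2 * δ) / 32 ≤
        ∑ p ∈ B, ∑ l ∈ L, (Real.cos (2 * Real.pi * (p * l / ((4 * z + 1 : ℕ) : ℝ)))) ^ 2
    · exact ⟨_, Or.inl rfl, hcs⟩
    · refine ⟨_, Or.inr rfl, ?_⟩
      push Not at hcs
      linarith
  obtain ⟨τ, hτ, hT⟩ := hchoice
  set T : ℝ := (z : ℝ) ^ (2 - 2 * δ) / 32 with hTdef
  have hTz : (z : ℝ) ≤ (z : ℝ) ^ (2 - 2 * δ) := by
    calc (z : ℝ) = (z : ℝ) ^ (1 : ℝ) := (Real.rpow_one _).symm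
      _ ≤ _ := Real.rpow_le_rpow_of_exponent_le hz1 (by linarith)
  have hbig : T / 2 + 3 * (1 / (z : ℝ) ^ 10) * (5 * (z : ℝ) ^ 2) < T := by
    have e1 : 3 * (1 / (z : ℝ) ^ 10) * (5 * (z : ℝ) ^ 2) = 15 / (z : ℝ) ^ 8 := by
      field_simp; ring
    have e2 : 15 / (z : ℝ) ^ 8 ≤ 15 / 3 ^ 8 :=
      div_le_div_of_nonneg_left (by norm_num) (by norm_num)
        (pow_le_pow_left₀ (by norm_num) hzr 8)
    rw [e1]
    have e3 : 3 / 32 ≤ T := by rw [hTdef]; linarith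
    have e4 : (15 : ℝ) / 3 ^ 8 < 3 / 64 := by norm_num
    linarith
  obtain ⟨ξ, x1, x2, x3, x4, x5⟩ := stage1 A M₀ hU hz0 hz hL hB τ hτ T
    (by rw [hTdef]; positivity) hT hbig
  set c : ℕ → ℝ := fun p => ∑ l ∈ L, ((xt ξ l : ℤ) : ℝ) * τ (p * l / ((4 * z + 1 : ℕ) : ℝ))
    with hc
  set lam : ℝ := (z : ℝ) ^ (-(1 / 2) - δ) with hlam
  have hlam0 : 0 < lam := Real.rpow_pos_of_pos hzpos _
  have hsqz : Real.sqrt z = (z : ℝ) ^ (1 / 2 : ℝ) := Real.sqrt_eq_rpow _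
  have hc1 : ∀ p ∈ B, |lam * c p| ≤ 1 := by
    intro p hp
    rw [abs_mul, abs_of_pos hlam0]
    have h1 : |c p| ≤ A * Real.sqrt z * s := x3 p hp
    calc lam * |c p| ≤ lam * (A * Real.sqrt z * s) := mul_le_mul_of_nonneg_left h1 hlam0.le
      _ = (lam * Real.sqrt z) * (A * s) := by ring
      _ ≤ (lam * Real.sqrt z) * r := mul_le_mul_of_nonneg_left hAs (by positivity)
      _ = (z : ℝ) ^ (-(δ / 2)) := by
          rw [hlam, hsqz, hr, ← Real.rpow_add hzpos, ← Real.rpow_add hzpos]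
          congr 1; ring
      _ ≤ 1 := Real.rpow_le_one_of_one_le_of_nonpos hz1 (by linarith)
  obtain ⟨η, y1, y2⟩ := stage2 A M₀ hU hz0 hz hB c lam hc1 x5
  set f : ℕ → ℤ := fun n => if n ∈ L then xt ξ n else xt η n with hf
  have hfL : ∀ n ∈ L, f n = xt ξ n := fun n hn => by rw [hf]; simp [hn]
  have hfB : ∀ n ∈ B, f n = xt η n := fun n hn => by
    have : n ∉ L := fun h => (Finset.disjoint_left.1 hdis h hn)
    rw [hf]; simp [this]
  have hs5 : Real.sqrt (5 * (z : ℝ) ^ 2) ≤ 3 * z := by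
    apply Real.sqrt_le_iff.2
    constructor
    · positivity
    · nlinarith
  refine ⟨f, ?_, ?_, ?_, ?_⟩
  · intro n
    rw [hf]
    simp only
    split_ifs
    · exact xt_mem _ _
    · exact xt_mem _ _
  · intro q χ t y hq
    set R : ℝ := Real.sqrt (Real.log (q * (2 + |t|)) * Real.log z) with hR
    have hR0 : 0 ≤ R := Real.sqrt_nonneg _
    have e1 : ∑ p ∈ L.filter (· ≤ y), (f p : ℂ) * χ (p : ZMod q) * npi p t =
        ∑ l ∈ L, ((xt ξ l : ℤ) : ℂ) *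
          (if l ≤ min y (4 * z) then χ (l : ZMod q) * npi l t else 0) := by
      rw [Finset.sum_filter]
      refine Finset.sum_congr rfl fun l hl => ?_
      have h4 := (Finset.mem_Ioc.1 (hL hl)).2
      by_cases h : l ≤ y
      · rw [if_pos h, if_pos (le_min h h4), hfL l hl]; ring
      · rw [if_neg h, if_neg (fun h' => h (h'.trans (min_le_left _ _))), mul_zero]
    rw [e1]
    refine (x1 q χ t (min y (4 * z)) hq (min_le_right _ _)).trans ?_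
    have : 0 ≤ A * Real.sqrt z * R := by positivity
    linarith
  · intro q χ t y hq
    set R : ℝ := Real.sqrt (Real.log (q * (2 + |t|)) * Real.log z) with hR
    have hR0 : 0 ≤ R := Real.sqrt_nonneg _
    have e1 : ∑ p ∈ B.filter (· ≤ y), (f p : ℂ) * χ (p : ZMod q) * npi p t =
        ∑ p ∈ B, ((((xt η p : ℤ) : ℝ) - lam * c p : ℝ) : ℂ) *
          (if p ≤ min y (4 * z) then χ (p : ZMod q) * npi p t else 0) +
        (lam : ℂ) * ∑ p ∈ B, ((c p : ℝ) : ℂ) *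
          (if p ≤ min y (4 * z) then χ (p : ZMod q) * npi p t else 0) := by
      rw [Finset.sum_filter, Finset.mul_sum, ← Finset.sum_add_distrib]
      refine Finset.sum_congr rfl fun p hp => ?_
      have h4 := (Finset.mem_Ioc.1 (hB hp)).2
      by_cases h : p ≤ y
      · rw [if_pos h, if_pos (le_min h h4), hfB p hp]; push_cast; ring
      · rw [if_neg h, if_neg (fun h' => h (h'.trans (min_le_left _ _)))]; simp
    rw [e1]
    have e2 := y1 q χ t (min y (4 * z)) hq (min_le_right _ _)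
    have e3 := x2 q χ t (min y (4 * z)) hq (min_le_right _ _)
    have e4 : lam * (3 * z) ≤ 3 * Real.sqrt z := by
      have : lam * z ≤ Real.sqrt z := by
        rw [hlam, hsqz]
        calc (z : ℝ) ^ (-(1 / 2) - δ) * z = (z : ℝ) ^ (-(1 / 2) - δ) * (z : ℝ) ^ (1 : ℝ) := by
              rw [Real.rpow_one]
          _ = (z : ℝ) ^ (1 / 2 - δ) := by rw [← Real.rpow_add hzpos]; congr 1; ring
          _ ≤ _ := Real.rpow_le_rpow_of_exponent_le hz1 (by linarith)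
      linarith
    calc _ ≤ _ := norm_add_le _ _
      _ ≤ A * Real.sqrt z * R + lam * (A * (3 * z) * R) := by
          refine add_le_add e2 ?_
          rw [norm_mul, Complex.norm_real, Real.norm_eq_abs, abs_of_pos hlam0]
          refine mul_le_mul_of_nonneg_left (e3.trans ?_) hlam0.le
          exact mul_le_mul_of_nonneg_right (mul_le_mul_of_nonneg_left hs5 hA.le) hR0
      _ = A * Real.sqrt z * R + (A * R) * (lam * (3 * z)) := by ring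
      _ ≤ A * Real.sqrt z * R + (A * R) * (3 * Real.sqrt z) := by
          have := mul_le_mul_of_nonneg_left e4 (mul_nonneg hA.le hR0)
          linarith
      _ = _ := by ring
  · refine le_trans ?_ (tau_norm L B f τ hτ)
    have e1 : ∑ p ∈ B, ∑ l ∈ L, (f p : ℝ) * (f l : ℝ) * τ (p * l / ((4 * z + 1 : ℕ) : ℝ)) =
        lam * (∑ p ∈ B, c p ^ 2) + ∑ p ∈ B, (((xt η p : ℤ) : ℝ) - lam * c p) * c p := by
      rw [Finset.mul_sum, ← Finset.sum_add_distrib]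
      refine Finset.sum_congr rfl fun p hp => ?_
      have : ∑ l ∈ L, (f p : ℝ) * (f l : ℝ) * τ (p * l / ((4 * z + 1 : ℕ) : ℝ)) =
          (xt η p : ℝ) * c p := by
        rw [hc]
        simp only
        rw [Finset.mul_sum]
        refine Finset.sum_congr rfl fun l hl => ?_
        rw [hfL l hl, hfB p hp]; ring
      rw [this]; ring
    rw [e1]
    have e2 := (abs_le.1 y2).1
    have e3 : A * Real.sqrt (5 * (z : ℝ) ^ 2) * s ≤ 3 * (z : ℝ) ^ (3 / 2 - 4 * δ) := by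
      calc A * Real.sqrt (5 * (z : ℝ) ^ 2) * s = (A * s) * Real.sqrt (5 * (z : ℝ) ^ 2) := by ring
        _ ≤ r * (3 * z) := mul_le_mul hAs hs5 (Real.sqrt_nonneg _) hr0.le
        _ = 3 * ((z : ℝ) ^ (δ / 2) * (z : ℝ) ^ (1 : ℝ)) := by rw [hr, Real.rpow_one]; ring
        _ = 3 * (z : ℝ) ^ (δ / 2 + 1) := by rw [← Real.rpow_add hzpos]
        _ ≤ _ := by
          refine mul_le_mul_of_nonneg_left ?_ (by norm_num)
          exact Real.rpow_le_rpow_of_exponent_le hz1 (by linarith)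
    have e4 : lam * (T / 2) = (z : ℝ) ^ (3 / 2 - 4 * δ) * ((z : ℝ) ^ δ / 64) := by
      rw [hlam, hTdef]
      have a1 : (z : ℝ) ^ (-(1 / 2) - δ) * (z : ℝ) ^ (2 - 2 * δ) =
          (z : ℝ) ^ (3 / 2 - 4 * δ) * (z : ℝ) ^ δ := by
        rw [← Real.rpow_add hzpos, ← Real.rpow_add hzpos]; congr 1; ring
      linear_combination (1 / 64) * a1
    have e5 : lam * (T / 2) ≤ lam * ∑ p ∈ B, c p ^ 2 := mul_le_mul_of_nonneg_left x4 hlam0.le
    have e6 : 4 * (z : ℝ) ^ (3 / 2 - 4 * δ) ≤ (z : ℝ) ^ (3 / 2 - 4 * δ) * ((z : ℝ) ^ δ / 64) := by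
      have : 0 ≤ (z : ℝ) ^ (3 / 2 - 4 * δ) := Real.rpow_nonneg hzpos.le _
      nlinarith
    linarith

end RBaux

theorem RB : ∃ C : ℝ, 0 < C ∧ ∀ δ : ℝ, 0 < δ → δ ≤ 1 / 10 → ∃ z₀ : ℕ, ∀ z : ℕ, z₀ ≤ z →
    ∀ L B : Finset ℕ, L ⊆ Ioc (3 * z) (4 * z) → B ⊆ Ioc (3 * z) (4 * z) → Disjoint L B →
    (z : ℝ) ^ (1 - δ) ≤ 4 * L.card → (z : ℝ) ^ (1 - δ) ≤ 4 * B.card →
    ∃ f : ℕ → ℤ, (∀ n, f n = 1 ∨ f n = -1) ∧
      (∀ (q : ℕ) (χ : DirichletCharacter ℂ q) (t : ℝ) (y : ℕ), 1 ≤ q →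
        ‖∑ p ∈ L.filter (· ≤ y), (f p : ℂ) * χ (p : ZMod q) * npi p t‖ ≤
          C * Real.sqrt z * Real.sqrt (Real.log (q * (2 + |t|)) * Real.log z)) ∧
      (∀ (q : ℕ) (χ : DirichletCharacter ℂ q) (t : ℝ) (y : ℕ), 1 ≤ q →
        ‖∑ p ∈ B.filter (· ≤ y), (f p : ℂ) * χ (p : ZMod q) * npi p t‖ ≤
          C * Real.sqrt z * Real.sqrt (Real.log (q * (2 + |t|)) * Real.log z)) ∧
      (z : ℝ) ^ (3 / 2 - 4 * δ) ≤
        ‖∑ p ∈ B, ∑ l ∈ L, (f p : ℂ) * (f l : ℂ) * e ((p * l : ℕ) * (1 / (4 * z + 1)))‖ := by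
  obtain ⟨A, M₀, hA, _, hU⟩ := UR
  refine ⟨4 * A, by positivity, fun δ hδ hδ' => ?_⟩
  have h1 : ∀ᶠ x : ℝ in Filter.atTop, Real.log x ≤ (1 / A ^ 2) * x ^ δ := by
    have := (isLittleO_log_rpow_atTop hδ).bound (by positivity : 0 < 1 / A ^ 2)
    filter_upwards [this, Filter.eventually_ge_atTop 1] with x hx hx1
    rw [Real.norm_eq_abs, Real.norm_eq_abs, abs_of_nonneg (Real.log_nonneg hx1),
      abs_of_nonneg (Real.rpow_nonneg (by linarith) _)] at hx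
    exact hx
  have h2 : ∀ᶠ x : ℝ in Filter.atTop, 256 ≤ x ^ δ :=
    (tendsto_rpow_atTop hδ).eventually_ge_atTop 256
  have h3 : ∀ᶠ n : ℕ in Filter.atTop, M₀ ≤ n ∧ 3 ≤ n ∧
      Real.log (n : ℝ) ≤ (1 / A ^ 2) * (n : ℝ) ^ δ ∧ 256 ≤ (n : ℝ) ^ δ := by
    filter_upwards [Filter.eventually_ge_atTop M₀, Filter.eventually_ge_atTop 3,
      tendsto_natCast_atTop_atTop.eventually h1, tendsto_natCast_atTop_atTop.eventually h2]
      with n a b c d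
    exact ⟨a, b, c, d⟩
  obtain ⟨z₀, hz₀⟩ := Filter.eventually_atTop.1 h3
  refine ⟨z₀, fun z hz L B hL hB hdis hLc hBc => ?_⟩
  obtain ⟨a, b, c, d⟩ := hz₀ z hz
  exact RBaux.core A M₀ hA hU δ hδ hδ' a b c d hL hB hdis hLc hBc

end Pool.Agent.Helper92.GB
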