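import Pool.Agent.Helper92.GB.Defs

/-!
# Block GB-A1 (MP_b6b996_nt)
Many primes in some intervals `(3z, 4z]`.
Proof. Otherwise `#primes in (3z, 4z] < z^(1-δ)` for all `z ≥ Z₀`. Divide by `z²` and sum over all `z ≥ W`: the right side converges, the left
side is at least `∑_p ∑_{p/4 ≤ z < p/3} 1/z² ≥ c ∑_p 1/p`, contradiction with the divergence of `∑ 1/p`.
-/

set_option autoImplicit false

namespace Pool.Agent.Helper92.GB

open Finset

theorem A1 (δ : ℝ) (hδ : 0 < δ) (Z₀ : ℕ) : ∃ z : ℕ, Z₀ ≤ z ∧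
    (z : ℝ) ^ (1 - δ) ≤ ((Ioc (3 * z) (4 * z)).filter Nat.Prime).card := by
  by_contra hcon
  push Not at hcon
  obtain ⟨W, hW0, hWZ⟩ : ∃ W : ℕ, 6 ≤ W ∧ Z₀ ≤ W := ⟨max 6 Z₀, le_max_left _ _, le_max_right _ _⟩
  have hsum : Summable (fun n : ℕ => (1 : ℝ) / (n : ℝ) ^ (1 + δ)) :=
    Real.summable_one_div_nat_rpow.2 (by linarith)
  apply not_summable_one_div_on_primes
  refine summable_of_sum_le (c := (4 * W : ℝ) + 24 * ∑' n : ℕ, (1 : ℝ) / (n : ℝ) ^ (1 + δ)) ?_ ?_
  · intro n
    exact Set.indicator_nonneg (fun _ _ => by positivity) _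
  · intro u
    classical
    rw [← Finset.sum_filter_add_sum_filter_not u (fun n => n < 4 * W)]
    refine add_le_add ?_ ?_
    · calc ∑ n ∈ u.filter (fun n => n < 4 * W), Set.indicator {p : ℕ | p.Prime} (fun n : ℕ => (1 : ℝ) / n) n
          ≤ ∑ n ∈ u.filter (fun n => n < 4 * W), (1 : ℝ) := by
            refine Finset.sum_le_sum fun n _ => ?_
            by_cases hn : n.Prime
            · rw [Set.indicator_of_mem (by exact hn)]
              have : (1 : ℝ) ≤ n := by exact_mod_cast hn.one_lt.le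
              rw [div_le_one (by positivity)]
              exact this
            · rw [Set.indicator_of_notMem (by exact hn)]
              norm_num
        _ = ((u.filter (fun n => n < 4 * W)).card : ℝ) := by simp
        _ ≤ ((Finset.range (4 * W)).card : ℝ) := by
            have : (u.filter (fun n => n < 4 * W)) ⊆ Finset.range (4 * W) := by
              intro n hn
              rw [Finset.mem_filter] at hn
              exact Finset.mem_range.2 hn.2
            exact_mod_cast Finset.card_le_card this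
        _ = 4 * W := by simp
    · set v := (u.filter (fun n => ¬ n < 4 * W)).filter Nat.Prime with hv
      have hvm : ∀ p ∈ v, 4 * W ≤ p ∧ p.Prime := by
        intro p hp
        rw [hv, Finset.mem_filter, Finset.mem_filter] at hp
        exact ⟨by omega, hp.2⟩
      obtain ⟨M, hM⟩ : ∃ M : ℕ, ∀ p ∈ v, p ≤ M := ⟨v.sup id, fun p hp => Finset.le_sup (f := id) hp⟩
      have h1 : ∑ n ∈ u.filter (fun n => ¬ n < 4 * W),
          Set.indicator {p : ℕ | p.Prime} (fun n : ℕ => (1 : ℝ) / n) n = ∑ p ∈ v, (1 : ℝ) / p := by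
        rw [hv, Finset.sum_filter (p := Nat.Prime)]
        refine Finset.sum_congr rfl fun n _ => ?_
        by_cases hn : n.Prime
        · rw [Set.indicator_of_mem (by exact hn), if_pos hn]
        · rw [Set.indicator_of_notMem (by exact hn), if_neg hn]
      rw [h1]
      have h2 : ∀ p ∈ v, (1 : ℝ) / p ≤ 24 * ∑ z ∈ (Finset.Icc W M).filter (fun z => 3 * z < p ∧ p ≤ 4 * z),
          (1 : ℝ) / (z : ℝ) ^ 2 := by
        intro p hp
        obtain ⟨hp4, hpp⟩ := hvm p hp
        have hpM := hM p hp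
        have hp0 : (0 : ℝ) < p := by exact_mod_cast hpp.pos
        have hsub : Finset.Icc ((p + 3) / 4) ((p - 1) / 3) ⊆
            (Finset.Icc W M).filter (fun z => 3 * z < p ∧ p ≤ 4 * z) := by
          intro z hz
          rw [Finset.mem_Icc] at hz
          rw [Finset.mem_filter, Finset.mem_Icc]
          omega
        have hcard : p ≤ 24 * (Finset.Icc ((p + 3) / 4) ((p - 1) / 3)).card := by
          rw [Nat.card_Icc]
          omega
        have hcard' : (p : ℝ) ≤ 24 * ((Finset.Icc ((p + 3) / 4) ((p - 1) / 3)).card : ℝ) := by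
          exact_mod_cast hcard
        have h3 : ((Finset.Icc ((p + 3) / 4) ((p - 1) / 3)).card : ℝ) * (1 / (p : ℝ) ^ 2) ≤
            ∑ z ∈ Finset.Icc ((p + 3) / 4) ((p - 1) / 3), (1 : ℝ) / (z : ℝ) ^ 2 := by
          rw [← nsmul_eq_mul]
          refine Finset.card_nsmul_le_sum _ _ _ ?_
          intro z hz
          rw [Finset.mem_Icc] at hz
          have hz1 : 1 ≤ z := by omega
          have hzp : z ≤ p := by omega
          have hz0 : (0 : ℝ) < z := by exact_mod_cast hz1
          have hzp' : (z : ℝ) ≤ p := by exact_mod_cast hzp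
          exact one_div_le_one_div_of_le (by positivity) (by gcongr)
        have h4 : ∑ z ∈ Finset.Icc ((p + 3) / 4) ((p - 1) / 3), (1 : ℝ) / (z : ℝ) ^ 2 ≤
            ∑ z ∈ (Finset.Icc W M).filter (fun z => 3 * z < p ∧ p ≤ 4 * z), (1 : ℝ) / (z : ℝ) ^ 2 :=
          Finset.sum_le_sum_of_subset_of_nonneg hsub (fun _ _ _ => by positivity)
        calc (1 : ℝ) / p = (p : ℝ) * (1 / (p : ℝ) ^ 2) := by field_simp
          _ ≤ (24 * ((Finset.Icc ((p + 3) / 4) ((p - 1) / 3)).card : ℝ)) * (1 / (p : ℝ) ^ 2) := by gcongr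
          _ = 24 * (((Finset.Icc ((p + 3) / 4) ((p - 1) / 3)).card : ℝ) * (1 / (p : ℝ) ^ 2)) := by ring
          _ ≤ _ := by
            refine mul_le_mul_of_nonneg_left (h3.trans h4) (by norm_num)
      calc ∑ p ∈ v, (1 : ℝ) / p
          ≤ ∑ p ∈ v, 24 * ∑ z ∈ (Finset.Icc W M).filter (fun z => 3 * z < p ∧ p ≤ 4 * z), (1 : ℝ) / (z : ℝ) ^ 2 :=
            Finset.sum_le_sum h2
        _ = 24 * ∑ p ∈ v, ∑ z ∈ (Finset.Icc W M).filter (fun z => 3 * z < p ∧ p ≤ 4 * z), (1 : ℝ) / (z : ℝ) ^ 2 := by
            rw [Finset.mul_sum]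
        _ = 24 * ∑ z ∈ Finset.Icc W M, ∑ p ∈ v.filter (fun p => 3 * z < p ∧ p ≤ 4 * z), (1 : ℝ) / (z : ℝ) ^ 2 := by
            congr 1
            simp_rw [Finset.sum_filter]
            rw [Finset.sum_comm]
        _ ≤ 24 * ∑ z ∈ Finset.Icc W M, (1 : ℝ) / (z : ℝ) ^ (1 + δ) := by
            refine mul_le_mul_of_nonneg_left (Finset.sum_le_sum fun z hz => ?_) (by norm_num)
            rw [Finset.mem_Icc] at hz
            rw [Finset.sum_const, nsmul_eq_mul]
            have hz0 : (0 : ℝ) < z := by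
              have : 0 < z := by omega
              exact_mod_cast this
            have h5 : ((v.filter (fun p => 3 * z < p ∧ p ≤ 4 * z)).card : ℝ) ≤ (z : ℝ) ^ (1 - δ) := by
              refine le_trans ?_ (hcon z (by omega)).le
              have : v.filter (fun p => 3 * z < p ∧ p ≤ 4 * z) ⊆ (Ioc (3 * z) (4 * z)).filter Nat.Prime := by
                intro p hp
                rw [Finset.mem_filter] at hp
                rw [Finset.mem_filter, Finset.mem_Ioc]
                exact ⟨hp.2, (hvm p hp.1).2⟩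
              exact_mod_cast Finset.card_le_card this
            calc ((v.filter (fun p => 3 * z < p ∧ p ≤ 4 * z)).card : ℝ) * (1 / (z : ℝ) ^ 2)
                ≤ (z : ℝ) ^ (1 - δ) * (1 / (z : ℝ) ^ 2) := by gcongr
              _ = 1 / (z : ℝ) ^ (1 + δ) := by
                rw [mul_one_div, div_eq_div_iff (by positivity) (by positivity), ← Real.rpow_add hz0]
                norm_num
        _ ≤ 24 * ∑' n : ℕ, (1 : ℝ) / (n : ℝ) ^ (1 + δ) := by
            refine mul_le_mul_of_nonneg_left ?_ (by norm_num)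
            exact hsum.sum_le_tsum _ (fun _ _ => by positivity)

end Pool.Agent.Helper92.GB
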