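import Pool.Agent.Helper92.GB.Defs

/-!
# Block GB-GLU (MP_b6b996_nt)
Gluing of the blocks.
Proof. The primes `≤ y` are the disjoint union of the off-special primes in dyadic blocks `(2^k, 2^(k+1)]`, `2^k < y`, and of `L j`, `B j` with `3 z_j < y`.
Sum of the bounds: `≤ C √(log X) [∑_{2^k < y} √(2^k) (k+1) + 2 ∑_{z_j < y} √(z_j log z_j)]`; there are at most `log₂ y + 1` values `k` and at most
`log₂ y + 1` values `j` (`z_{j+1} ≥ 2 z_j`, `z_0 ≥ 16`), each term is at most `√y (log₂ y + 2)`; so `≤ C' y^(1/2+ε) √(log X) ≤ C'' y^(1/2+ε) log X` as `log X ≥ log 2`.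
-/

set_option autoImplicit false

namespace Pool.Agent.Helper92.GB

open Finset

theorem GLU (z : ℕ → ℕ) (hz : ∀ j, 16 * z j ^ 2 < z (j + 1)) (hz1 : ∀ j, 16 ≤ z j)
    (L B : ℕ → Finset ℕ)
    (hLB : ∀ j, L j ∪ B j = (Ioc (3 * z j) (4 * z j)).filter Nat.Prime)
    (hd : ∀ j, Disjoint (L j) (B j)) (f : ℕ → ℤ) (C : ℝ)
    (h1 : ∀ (j q : ℕ) (χ : DirichletCharacter ℂ q) (t : ℝ) (y : ℕ), 1 ≤ q →
      ‖∑ p ∈ (L j).filter (· ≤ y), (f p : ℂ) * χ (p : ZMod q) * npi p t‖ ≤
          C * Real.sqrt (z j) * Real.sqrt (Real.log (q * (2 + |t|)) * Real.log (z j)))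
    (h2 : ∀ (j q : ℕ) (χ : DirichletCharacter ℂ q) (t : ℝ) (y : ℕ), 1 ≤ q →
      ‖∑ p ∈ (B j).filter (· ≤ y), (f p : ℂ) * χ (p : ZMod q) * npi p t‖ ≤
          C * Real.sqrt (z j) * Real.sqrt (Real.log (q * (2 + |t|)) * Real.log (z j)))
    (h3 : ∀ (k q : ℕ) (χ : DirichletCharacter ℂ q) (t : ℝ) (y : ℕ), 1 ≤ q →
      open Classical in
      ‖∑ p ∈ (Ioc (2 ^ k) (2 ^ (k + 1))).filter
          (fun p => p.Prime ∧ p ∉ {n : ℕ | ∃ j, 3 * z j < n ∧ n ≤ 4 * z j} ∧ p ≤ y),
          (f p : ℂ) * χ (p : ZMod q) * npi p t‖ ≤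
        C * Real.sqrt (2 ^ k) * (k + 1) * Real.sqrt (Real.log (q * (2 + |t|)))) :
    PS f := by
  classical
  have hmono : StrictMono z := strictMono_nat_of_lt_succ fun j => by
    have := hz j
    have := hz1 j
    nlinarith
  have hpow : ∀ j, 2 ^ j ≤ z j := by
    intro j
    induction j with
    | zero => have := hz1 0; omega
    | succ j ih =>
      have := hz j
      have := hz1 j
      rw [pow_succ]
      nlinarith
  have huniq : ∀ i j p, 3 * z i < p → p ≤ 4 * z i → 3 * z j < p → p ≤ 4 * z j → i = j := by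
    have key : ∀ i j p, i < j → p ≤ 4 * z i → ¬ 3 * z j < p := by
      intro i j p hij h hlt
      have h4 : z (i + 1) ≤ z j := hmono.monotone hij
      have := hz i
      have := hz1 i
      nlinarith
    intro i j p ha hb hc hd'
    rcases lt_trichotomy i j with h | h | h
    · exact absurd hc (key i j p h hb)
    · exact h
    · exact absurd ha (key j i p h hd')
  intro ε hε
  refine ⟨16 * |C| * (1 + 2 / ε) ^ 2, ?_⟩
  intro q χ t y hq
  set a : ℕ → ℂ := fun p => (f p : ℂ) * χ (p : ZMod q) * npi p t with ha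
  rcases Nat.eq_zero_or_pos y with rfl | hy
  · simp only [Finset.Icc_eq_empty_of_lt Nat.zero_lt_one, Finset.filter_empty,
      Finset.sum_empty, norm_zero, Nat.cast_zero]
    rw [Real.zero_rpow (by positivity)]
    simp
  have hyR : (1 : ℝ) ≤ (y : ℝ) := by exact_mod_cast hy
  set X : ℝ := (q : ℝ) * (2 + |t|) with hX
  have hX2 : 2 ≤ X := by
    have h5 : (1 : ℝ) ≤ (q : ℝ) := by exact_mod_cast hq
    have h6 := abs_nonneg t
    rw [hX]
    nlinarith
  have hlogX : 1 / 4 ≤ Real.log X := by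
    have h5 := Real.log_two_gt_d9
    have h6 : Real.log 2 ≤ Real.log X := Real.log_le_log (by norm_num) hX2
    linarith
  have hlogy : 0 ≤ Real.log y := Real.log_nonneg hyR
  set D : Set ℕ := {n : ℕ | ∃ j, 3 * z j < n ∧ n ≤ 4 * z j} with hD
  set K : ℕ := Nat.log 2 y + 1 with hK
  have hKy : y < 2 ^ K := Nat.lt_pow_succ_log_self (by norm_num) y
  set P := (Icc 1 y).filter Nat.Prime with hP
  -- the off-special part
  have hoff : ∑ p ∈ P.filter (fun p => p ∉ D), a p =
      ∑ k ∈ range K, ∑ p ∈ (Ioc (2 ^ k) (2 ^ (k + 1))).filter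
          (fun p => p.Prime ∧ p ∉ D ∧ p ≤ y), a p := by
    rw [← Finset.sum_fiberwise_of_maps_to (s := P.filter (fun p => p ∉ D)) (t := range K)
      (g := fun p => Nat.log 2 (p - 1))]
    · refine Finset.sum_congr rfl fun k _ => ?_
      refine Finset.sum_congr ?_ fun _ _ => rfl
      ext p
      simp only [hP, mem_filter, mem_Icc, mem_Ioc]
      constructor
      · rintro ⟨⟨⟨⟨_, h6⟩, h7⟩, h8⟩, h9⟩
        have h10 := h7.two_le
        have h11 : p - 1 ≠ 0 := by omega
        have h12 := (Nat.log_eq_iff (b := 2) (m := k) (n := p - 1) (Or.inr ⟨by norm_num, h11⟩)).1 h9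
        refine ⟨⟨by omega, by omega⟩, h7, h8, h6⟩
      · rintro ⟨⟨h5, h6⟩, h7, h8, h9⟩
        have h10 := h7.two_le
        have h11 : p - 1 ≠ 0 := by omega
        refine ⟨⟨⟨⟨by omega, h9⟩, h7⟩, h8⟩, ?_⟩
        exact (Nat.log_eq_iff (b := 2) (m := k) (n := p - 1) (Or.inr ⟨by norm_num, h11⟩)).2
          ⟨by omega, by omega⟩
    · intro p hp
      simp only [hP, mem_filter, mem_Icc] at hp
      rw [mem_range]
      have h10 := hp.1.2.two_le
      have h11 : p - 1 ≠ 0 := by omega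
      refine Nat.log_lt_of_lt_pow h11 ?_
      have := hp.1.1.2
      omega
  -- the special part
  have hon : ∑ p ∈ P.filter (fun p => p ∈ D), a p =
      ∑ j ∈ range K, (∑ p ∈ (L j).filter (· ≤ y), a p + ∑ p ∈ (B j).filter (· ≤ y), a p) := by
    set g : ℕ → ℕ := fun p => if h : ∃ j, 3 * z j < p ∧ p ≤ 4 * z j then Nat.find h else 0 with hg
    have hgs : ∀ p, p ∈ D → 3 * z (g p) < p ∧ p ≤ 4 * z (g p) := by
      intro p hp
      have hp' : ∃ j, 3 * z j < p ∧ p ≤ 4 * z j := hp
      have : g p = Nat.find hp' := by rw [hg]; exact dif_pos hp'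
      rw [this]
      exact Nat.find_spec hp'
    rw [← Finset.sum_fiberwise_of_maps_to (s := P.filter (fun p => p ∈ D)) (t := range K) (g := g)]
    · refine Finset.sum_congr rfl fun j _ => ?_
      rw [← Finset.sum_union (Finset.disjoint_filter_filter (hd j))]
      refine Finset.sum_congr ?_ fun _ _ => rfl
      rw [← Finset.filter_union, hLB j]
      ext p
      simp only [hP, mem_filter, mem_Icc, mem_Ioc]
      constructor
      · rintro ⟨⟨⟨⟨_, h6⟩, h7⟩, h8⟩, h9⟩
        have := hgs p h8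
        rw [h9] at this
        exact ⟨⟨this, h7⟩, h6⟩
      · rintro ⟨⟨⟨h5, h6⟩, h7⟩, h8⟩
        have h9 : p ∈ D := ⟨j, h5, h6⟩
        have h10 := hgs p h9
        refine ⟨⟨⟨⟨h7.one_lt.le, h8⟩, h7⟩, h9⟩, huniq _ _ p h10.1 h10.2 h5 h6⟩
    · intro p hp
      simp only [hP, mem_filter, mem_Icc] at hp
      rw [mem_range]
      have h10 := hgs p hp.2
      have h11 := hpow (g p)
      have h12 := hp.1.1.2
      have h13 : 2 ^ (g p) < 2 ^ K := by omega
      exact (Nat.pow_lt_pow_iff_right (by norm_num)).1 h13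
  have hsplit : ∑ p ∈ P, a p = ∑ p ∈ P.filter (fun p => p ∈ D), a p +
      ∑ p ∈ P.filter (fun p => p ∉ D), a p :=
    (Finset.sum_filter_add_sum_filter_not P (fun p => p ∈ D) a).symm
  -- bounds
  have hKreal : (K : ℝ) ≤ 2 * (1 + Real.log y) := by
    have h5 : (2 : ℝ) ^ (Nat.log 2 y) ≤ y := by
      exact_mod_cast Nat.pow_log_le_self 2 (by omega)
    have h6 : (Nat.log 2 y : ℝ) * Real.log 2 ≤ Real.log y := by
      rw [← Real.log_pow]
      exact Real.log_le_log (by positivity) h5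
    have h7 := Real.log_two_gt_d9
    rw [hK]
    push_cast
    have h8 : (0 : ℝ) ≤ (Nat.log 2 y : ℝ) := Nat.cast_nonneg _
    nlinarith
  have hterm1 : ∀ k ∈ range K, ‖∑ p ∈ (Ioc (2 ^ k) (2 ^ (k + 1))).filter
          (fun p => p.Prime ∧ p ∉ D ∧ p ≤ y), a p‖ ≤
      |C| * Real.sqrt y * (2 * (1 + Real.log y)) * Real.sqrt (Real.log X) := by
    intro k hk
    have h5 : ‖∑ p ∈ (Ioc (2 ^ k) (2 ^ (k + 1))).filter
          (fun p => p.Prime ∧ p ∉ D ∧ p ≤ y), a p‖ ≤
        C * Real.sqrt (2 ^ k) * (k + 1) * Real.sqrt (Real.log (q * (2 + |t|))) := by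
      convert h3 k q χ t y hq
    rw [← hX] at h5
    refine h5.trans ?_
    have hkK : k + 1 ≤ K := by
      have := mem_range.1 hk
      omega
    have h6 : ((k : ℝ) + 1) ≤ 2 * (1 + Real.log y) := by
      refine le_trans ?_ hKreal
      exact_mod_cast hkK
    have h7 : (2 : ℝ) ^ k ≤ y := by
      have : 2 ^ k ≤ 2 ^ (Nat.log 2 y) := Nat.pow_le_pow_right (by norm_num) (by omega)
      exact_mod_cast this.trans (Nat.pow_log_le_self 2 (by omega))
    have h8 : Real.sqrt (2 ^ k) ≤ Real.sqrt y := Real.sqrt_le_sqrt h7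
    have h9 := Real.sqrt_nonneg ((2 : ℝ) ^ k)
    have h10 := Real.sqrt_nonneg (Real.log X)
    calc C * Real.sqrt (2 ^ k) * (k + 1) * Real.sqrt (Real.log X)
        ≤ |C| * Real.sqrt (2 ^ k) * (k + 1) * Real.sqrt (Real.log X) := by
          have := le_abs_self C
          gcongr
      _ ≤ |C| * Real.sqrt y * (2 * (1 + Real.log y)) * Real.sqrt (Real.log X) := by
          have := abs_nonneg C
          gcongr
  have hterm2 : ∀ (A : ℕ → Finset ℕ), (∀ j, A j ⊆ (Ioc (3 * z j) (4 * z j))) →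
      (∀ j, ‖∑ p ∈ (A j).filter (· ≤ y), a p‖ ≤
          C * Real.sqrt (z j) * Real.sqrt (Real.log X * Real.log (z j))) →
      ∀ j, ‖∑ p ∈ (A j).filter (· ≤ y), a p‖ ≤
        |C| * Real.sqrt y * (1 + Real.log y) * Real.sqrt (Real.log X) := by
    intro A hA hbd j
    have hRHS : 0 ≤ |C| * Real.sqrt y * (1 + Real.log y) * Real.sqrt (Real.log X) := by
      have := abs_nonneg C
      have := Real.sqrt_nonneg (Real.log X)
      positivity
    by_cases hzy : z j ≤ y
    · refine (hbd j).trans ?_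
      have hzR : (1 : ℝ) ≤ (z j : ℝ) := by
        have := hz1 j
        exact_mod_cast (by omega : 1 ≤ z j)
      have hzyR : (z j : ℝ) ≤ (y : ℝ) := by exact_mod_cast hzy
      have h8 : Real.sqrt (z j) ≤ Real.sqrt y := Real.sqrt_le_sqrt hzyR
      have h9 : Real.log (z j) ≤ Real.log y := Real.log_le_log (by linarith) hzyR
      have h10 : 0 ≤ Real.log (z j) := Real.log_nonneg hzR
      rw [Real.sqrt_mul (by linarith)]
      have h11 : Real.sqrt (Real.log (z j)) ≤ 1 + Real.log y := by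
        rw [Real.sqrt_le_left (by linarith)]
        nlinarith
      have h12 := Real.sqrt_nonneg (z j : ℝ)
      have h13 := Real.sqrt_nonneg (Real.log X)
      have h14 := Real.sqrt_nonneg (Real.log (z j))
      calc C * Real.sqrt (z j) * (Real.sqrt (Real.log X) * Real.sqrt (Real.log (z j)))
          ≤ |C| * Real.sqrt (z j) * (Real.sqrt (Real.log X) * Real.sqrt (Real.log (z j))) := by
            have := le_abs_self C
            gcongr
        _ ≤ |C| * Real.sqrt y * (Real.sqrt (Real.log X) * (1 + Real.log y)) := by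
            have := abs_nonneg C
            gcongr
        _ = |C| * Real.sqrt y * (1 + Real.log y) * Real.sqrt (Real.log X) := by ring
    · have h5 : (A j).filter (· ≤ y) = ∅ := by
        rw [Finset.filter_eq_empty_iff]
        intro p hp hpy
        have := mem_Ioc.1 (hA j hp)
        omega
      rw [h5, Finset.sum_empty, norm_zero]
      exact hRHS
  have hLs : ∀ j, L j ⊆ (Ioc (3 * z j) (4 * z j)) := fun j p hp => by
    have : p ∈ L j ∪ B j := mem_union_left _ hp
    rw [hLB j] at this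
    exact (mem_filter.1 this).1
  have hBs : ∀ j, B j ⊆ (Ioc (3 * z j) (4 * z j)) := fun j p hp => by
    have : p ∈ L j ∪ B j := mem_union_right _ hp
    rw [hLB j] at this
    exact (mem_filter.1 this).1
  have hL := hterm2 L hLs (fun j => h1 j q χ t y hq)
  have hB := hterm2 B hBs (fun j => h2 j q χ t y hq)
  have hn1 : ‖∑ p ∈ P.filter (fun p => p ∉ D), a p‖ ≤
      K * (|C| * Real.sqrt y * (2 * (1 + Real.log y)) * Real.sqrt (Real.log X)) := by
    rw [hoff]
    refine (norm_sum_le _ _).trans ((Finset.sum_le_sum hterm1).trans ?_)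
    rw [Finset.sum_const, card_range, nsmul_eq_mul]
  have hn2 : ‖∑ p ∈ P.filter (fun p => p ∈ D), a p‖ ≤
      K * (2 * (|C| * Real.sqrt y * (1 + Real.log y) * Real.sqrt (Real.log X))) := by
    rw [hon]
    refine (norm_sum_le _ _).trans ((Finset.sum_le_sum (fun j _ =>
      (norm_add_le _ _).trans (add_le_add (hL j) (hB j)))).trans ?_)
    rw [Finset.sum_const, card_range, nsmul_eq_mul]
    apply le_of_eq
    ring
  have hsq : Real.sqrt (Real.log X) ≤ 2 * Real.log X := by
    rw [Real.sqrt_le_left (by linarith)]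
    nlinarith
  have hlog1 : 1 + Real.log y ≤ (1 + 2 / ε) * (y : ℝ) ^ (ε / 2) := by
    have h5 : Real.log y ≤ (y : ℝ) ^ (ε / 2) / (ε / 2) :=
      Real.log_le_rpow_div (by positivity) (by positivity)
    have h6 : (1 : ℝ) ≤ (y : ℝ) ^ (ε / 2) := Real.one_le_rpow hyR (by positivity)
    have h7 : (y : ℝ) ^ (ε / 2) / (ε / 2) = 2 / ε * (y : ℝ) ^ (ε / 2) := by
      field_simp
    rw [h7] at h5
    linarith
  have hlog2 : (1 + Real.log y) ^ 2 ≤ (1 + 2 / ε) ^ 2 * (y : ℝ) ^ ε := by
    have h5 := pow_le_pow_left₀ (by positivity) hlog1 2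
    rw [mul_pow] at h5
    have h6 : ((y : ℝ) ^ (ε / 2)) ^ 2 = (y : ℝ) ^ ε := by
      rw [← Real.rpow_natCast, ← Real.rpow_mul (by positivity)]
      congr 1
      push_cast
      ring
    rwa [h6] at h5
  calc ‖∑ p ∈ P, a p‖ ≤ K * (2 * (|C| * Real.sqrt y * (1 + Real.log y) * Real.sqrt (Real.log X))) +
        K * (|C| * Real.sqrt y * (2 * (1 + Real.log y)) * Real.sqrt (Real.log X)) := by
        rw [hsplit]
        exact (norm_add_le _ _).trans (add_le_add hn2 hn1)
    _ = K * (4 * (|C| * Real.sqrt y * (1 + Real.log y) * Real.sqrt (Real.log X))) := by ring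
    _ ≤ (2 * (1 + Real.log y)) * (4 * (|C| * Real.sqrt y * (1 + Real.log y) * (2 * Real.log X))) := by
        have := abs_nonneg C
        have h5 : 0 ≤ Real.log X := by linarith
        gcongr
    _ = 16 * |C| * (1 + Real.log y) ^ 2 * Real.sqrt y * Real.log X := by ring
    _ ≤ 16 * |C| * ((1 + 2 / ε) ^ 2 * (y : ℝ) ^ ε) * Real.sqrt y * Real.log X := by
        have := abs_nonneg C
        have h5 : 0 ≤ Real.log X := by linarith
        gcongr
    _ = 16 * |C| * (1 + 2 / ε) ^ 2 * (y : ℝ) ^ (1 / 2 + ε) * Real.log X := by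
        rw [Real.rpow_add (by linarith), ← Real.sqrt_eq_rpow]
        ring

end Pool.Agent.Helper92.GB
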