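import Mathlib

set_option autoImplicit false

open Real Complex Set MeasureTheory

namespace Pool.Agent.Helper92.GB.Kern

/-- the tent function `(1-u)_+` -/
noncomputable def tent (u : ℝ) : ℂ := ((max (1 - u) 0 : ℝ) : ℂ)

theorem tent_hasMellin {s : ℂ} (hs : 0 < s.re) : HasMellin tent s (1 / (s * (s + 1))) := by
  have h1 := hasMellin_one_Ioc hs
  have h2 := hasMellin_cpow_Ioc (1 : ℂ) (s := s) (by simpa using (by linarith : (0:ℝ) < s.re + 1))
  have h3 := hasMellin_sub h1.1 h2.1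
  have hs0 : s ≠ 0 := by intro h; rw [h] at hs; simp at hs
  have hs1 : s + 1 ≠ 0 := by
    intro h
    have := congrArg Complex.re h
    simp at this
    linarith
  have hval : (1 / s - 1 / (s + 1) : ℂ) = 1 / (s * (s + 1)) := by
    field_simp
    ring
  have hfun : ∀ t ∈ Ioi (0:ℝ), (indicator (Ioc (0:ℝ) 1) (fun _ => (1:ℂ)) t
      - indicator (Ioc (0:ℝ) 1) (fun t : ℝ => (t:ℂ) ^ (1:ℂ)) t) = tent t := by
    intro t ht
    have ht0 : 0 < t := ht
    by_cases h : t ≤ 1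
    · have hm : t ∈ Ioc (0:ℝ) 1 := ⟨ht0, h⟩
      rw [indicator_of_mem hm, indicator_of_mem hm, tent, max_eq_left (by linarith)]
      push_cast
      rw [cpow_one]
    · have hm : t ∉ Ioc (0:ℝ) 1 := fun h' => h h'.2
      rw [indicator_of_notMem hm, indicator_of_notMem hm, tent, max_eq_right (by linarith)]
      simp
  constructor
  · refine (h3.1).congr_fun (fun t ht => ?_) measurableSet_Ioi
    simp only
    rw [hfun t ht]
  · have e : mellin tent s = mellin (fun t => indicator (Ioc (0:ℝ) 1) (fun _ => (1:ℂ)) t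
      - indicator (Ioc (0:ℝ) 1) (fun t : ℝ => (t:ℂ) ^ (1:ℂ)) t) s := by
      unfold mellin
      refine setIntegral_congr_fun measurableSet_Ioi (fun t ht => ?_)
      simp only
      rw [hfun t ht]
    rw [e, h3.2, h1.2, h2.2, hval]

theorem norm_lower {σ v : ℝ} (hσ : 0 < σ) :
    min σ 1 * (1 + v ^ 2) * min σ 1 ≤ ‖((σ:ℂ) + v * I) * ((σ:ℂ) + v * I + 1)‖ := by
  have hm0 : 0 < min σ 1 := lt_min hσ one_pos
  have hm1 : min σ 1 ≤ 1 := min_le_right _ _
  have hmσ : min σ 1 ≤ σ := min_le_left _ _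
  set m := min σ 1 with hm
  have h1 : ‖((σ:ℂ) + v * I)‖ ^ 2 = σ ^ 2 + v ^ 2 := by
    rw [← Complex.normSq_eq_norm_sq, Complex.normSq_add_mul_I]
  have h2 : ‖((σ:ℂ) + v * I + 1)‖ ^ 2 = (σ + 1) ^ 2 + v ^ 2 := by
    have : ((σ:ℂ) + v * I + 1) = (((σ + 1 : ℝ)) : ℂ) + v * I := by push_cast; ring
    rw [this, ← Complex.normSq_eq_norm_sq, Complex.normSq_add_mul_I]
  have h3 : (m * (1 + v ^ 2) * m) ^ 2 ≤ ‖((σ:ℂ) + v * I) * ((σ:ℂ) + v * I + 1)‖ ^ 2 := by
    rw [norm_mul, mul_pow ‖_‖, h1, h2]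
    have hv : 0 ≤ v ^ 2 := sq_nonneg v
    have a1 : m ^ 2 ≤ σ ^ 2 := pow_le_pow_left₀ hm0.le hmσ 2
    have a2 : m ^ 2 ≤ 1 := pow_le_one₀ hm0.le hm1
    have a3 : m ^ 2 * v ^ 2 ≤ v ^ 2 := mul_le_of_le_one_left hv a2
    have e1 : m ^ 2 * (1 + v ^ 2) ≤ σ ^ 2 + v ^ 2 := by nlinarith
    have e2 : m ^ 2 * (1 + v ^ 2) ≤ (σ + 1) ^ 2 + v ^ 2 := by nlinarith
    have e0 : 0 ≤ m ^ 2 * (1 + v ^ 2) := by positivity
    calc (m * (1 + v ^ 2) * m) ^ 2 = (m ^ 2 * (1 + v ^ 2)) * (m ^ 2 * (1 + v ^ 2)) := by ring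
      _ ≤ _ := mul_le_mul e1 e2 e0 (by positivity)
  exact abs_le_of_sq_le_sq' h3 (norm_nonneg _) |>.2

theorem ne_zero_s {σ v : ℝ} (hσ : 0 < σ) : ((σ:ℂ) + v * I) ≠ 0 := by
  intro h
  have := congrArg Complex.re h
  simp at this
  linarith

theorem ne_zero_s1 {σ v : ℝ} (hσ : 0 < σ) : ((σ:ℂ) + v * I + 1) ≠ 0 := by
  intro h
  have := congrArg Complex.re h
  simp at this
  linarith

theorem kernel_integrable {σ : ℝ} (hσ : 0 < σ) :
    Integrable (fun v : ℝ => (1 / (((σ:ℂ) + v * I) * ((σ:ℂ) + v * I + 1)) : ℂ)) := by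
  have hm0 : 0 < min σ 1 := lt_min hσ one_pos
  have hc : Continuous (fun v : ℝ => (1 / (((σ:ℂ) + v * I) * ((σ:ℂ) + v * I + 1)) : ℂ)) := by
    refine Continuous.div continuous_const (by fun_prop) (fun v => ?_)
    exact mul_ne_zero (ne_zero_s hσ) (ne_zero_s1 hσ)
  refine Integrable.mono' (g := fun v : ℝ => (1 / (min σ 1) ^ 2) * (1 + v ^ 2)⁻¹)
    (integrable_inv_one_add_sq.const_mul _) hc.aestronglyMeasurable (Filter.Eventually.of_forall fun v => ?_)
  have h := norm_lower (v := v) hσ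
  rw [norm_div, norm_one]
  have hp : 0 < min σ 1 * (1 + v ^ 2) * min σ 1 := by positivity
  calc 1 / ‖((σ:ℂ) + v * I) * ((σ:ℂ) + v * I + 1)‖ ≤ 1 / (min σ 1 * (1 + v ^ 2) * min σ 1) :=
        one_div_le_one_div_of_le hp h
    _ = _ := by field_simp

theorem tent_continuous : Continuous tent := by
  unfold tent
  fun_prop

/-- Mellin inversion for the tent function. -/
theorem tent_inversion {σ u : ℝ} (hσ : 0 < σ) (hu : 0 < u) :
    ∫ v : ℝ, (u:ℂ) ^ (-((σ:ℂ) + v * I)) * (1 / (((σ:ℂ) + v * I) * ((σ:ℂ) + v * I + 1)))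
      = 2 * π * tent u := by
  have hm : ∀ v : ℝ, mellin tent ((σ:ℂ) + v * I)
      = 1 / (((σ:ℂ) + v * I) * ((σ:ℂ) + v * I + 1)) := fun v =>
    (tent_hasMellin (s := (σ:ℂ) + v * I) (by simpa using hσ)).2
  have h := mellinInv_mellin_eq σ tent hu
    (by simpa using (tent_hasMellin (s := (σ:ℂ)) (by simpa using hσ)).1)
    (by
      unfold VerticalIntegrable
      refine (kernel_integrable hσ).congr (Filter.Eventually.of_forall fun v => ?_)
      simp only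
      rw [hm v])
    tent_continuous.continuousAt
  rw [mellinInv] at h
  simp_rw [hm, smul_eq_mul] at h
  rw [← h, Complex.real_smul]
  have hpi : (π : ℂ) ≠ 0 := by exact_mod_cast Real.pi_ne_zero
  push_cast
  rw [← mul_assoc]
  rw [show (2 * (π:ℂ)) * (1 / (2 * (π:ℂ))) = 1 by field_simp, one_mul]

end Pool.Agent.Helper92.GB.Kern
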