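import Mathlib
import Pool.Agent.Helper92.GB.Kernel

set_option autoImplicit false

open Real Complex Set MeasureTheory

namespace Pool.Agent.Helper92.GB.Kern

/-- `∫ n^{-s} x^{s+1}/(s(s+1)) dv = 2π (x-n)_+` -/
theorem kernel_integral {σ x n : ℝ} (hσ : 0 < σ) (hx : 0 < x) (hn : 0 < n) :
    ∫ v : ℝ, (n:ℂ) ^ (-((σ:ℂ) + v * I)) * ((x:ℂ) ^ (((σ:ℂ) + v * I) + 1)
      * (1 / (((σ:ℂ) + v * I) * ((σ:ℂ) + v * I + 1)))) = 2 * π * ((max (x - n) 0 : ℝ) : ℂ) := by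
  have h := tent_inversion hσ (div_pos hn hx)
  have hxc : (x:ℂ) ≠ 0 := by exact_mod_cast hx.ne'
  have e1 : ∀ v : ℝ, (n:ℂ) ^ (-((σ:ℂ) + v * I)) * ((x:ℂ) ^ (((σ:ℂ) + v * I) + 1)
      * (1 / (((σ:ℂ) + v * I) * ((σ:ℂ) + v * I + 1))))
      = (x:ℂ) * ((((n / x : ℝ)) : ℂ) ^ (-((σ:ℂ) + v * I))
        * (1 / (((σ:ℂ) + v * I) * ((σ:ℂ) + v * I + 1)))) := by
    intro v
    have : (((n / x : ℝ)) : ℂ) ^ (-((σ:ℂ) + v * I))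
        = (n:ℂ) ^ (-((σ:ℂ) + v * I)) * (x:ℂ) ^ ((σ:ℂ) + v * I) := by
      rw [div_eq_mul_inv]
      rw [Complex.ofReal_mul, Complex.mul_cpow_ofReal_nonneg hn.le (inv_nonneg.mpr hx.le)]
      congr 1
      rw [Complex.ofReal_inv, Complex.inv_cpow, Complex.cpow_neg, inv_inv]
      rw [Complex.arg_ofReal_of_nonneg hx.le]
      exact Real.pi_pos.ne
    rw [this, Complex.cpow_add _ _ hxc, Complex.cpow_one]
    ring
  simp_rw [e1]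
  rw [integral_const_mul, h, tent]
  have : (max (x - n) 0 : ℝ) = x * max (1 - n / x) 0 := by
    rw [mul_max_of_nonneg _ _ hx.le]
    congr 1
    · field_simp
    · simp
  rw [this]
  push_cast
  ring

theorem kernel_integrable' {σ x n : ℝ} (hσ : 0 < σ) (hx : 0 < x) (hn : 0 < n) :
    Integrable (fun v : ℝ => (n:ℂ) ^ (-((σ:ℂ) + v * I)) * ((x:ℂ) ^ (((σ:ℂ) + v * I) + 1)
      * (1 / (((σ:ℂ) + v * I) * ((σ:ℂ) + v * I + 1))))) := by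
  have hxc : (x:ℂ) ≠ 0 := by exact_mod_cast hx.ne'
  have hnc : (n:ℂ) ≠ 0 := by exact_mod_cast hn.ne'
  have h0 := kernel_integrable hσ
  have hc1 : Continuous (fun v : ℝ => (n:ℂ) ^ (-((σ:ℂ) + v * I))) := by
    refine Continuous.const_cpow (by fun_prop) (Or.inl hnc)
  have hc2 : Continuous (fun v : ℝ => (x:ℂ) ^ (((σ:ℂ) + v * I) + 1)) := by
    refine Continuous.const_cpow (by fun_prop) (Or.inl hxc)
  have h1 : Integrable (fun v : ℝ => ((n:ℂ) ^ (-((σ:ℂ) + v * I)) * (x:ℂ) ^ (((σ:ℂ) + v * I) + 1))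
      * (1 / (((σ:ℂ) + v * I) * ((σ:ℂ) + v * I + 1)))) := by
    refine h0.bdd_mul (c := n ^ (-σ) * x ^ (σ + 1)) (hc1.mul hc2).aestronglyMeasurable
      (Filter.Eventually.of_forall fun v => ?_)
    rw [norm_mul, Complex.norm_cpow_eq_rpow_re_of_pos hn, Complex.norm_cpow_eq_rpow_re_of_pos hx]
    simp
  refine h1.congr (Filter.Eventually.of_forall fun v => ?_)
  simp only
  ring

/-- the difference kernel picks out `n ≤ N` exactly -/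
theorem kernel_diff {σ : ℝ} (hσ : 0 < σ) {N n : ℕ} (hN : 1 ≤ N) (hn : 1 ≤ n) :
    ∫ v : ℝ, (n:ℂ) ^ (-((σ:ℂ) + v * I)) * (((((N:ℝ) + 1 : ℝ)) : ℂ) ^ (((σ:ℂ) + v * I) + 1)
        - (((N:ℝ)) : ℂ) ^ (((σ:ℂ) + v * I) + 1))
      / (((σ:ℂ) + v * I) * ((σ:ℂ) + v * I + 1)) = if n ≤ N then 2 * (π:ℂ) else 0 := by
  have hN' : (0:ℝ) < N := by exact_mod_cast hN
  have hn' : (0:ℝ) < n := by exact_mod_cast hn
  have h1 := kernel_integral (σ := σ) (x := (N:ℝ) + 1) (n := n) hσ (by positivity) hn'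
  have h2 := kernel_integral (σ := σ) (x := (N:ℝ)) (n := n) hσ hN' hn'
  have i1 := kernel_integrable' (σ := σ) (x := (N:ℝ) + 1) (n := n) hσ (by positivity) hn'
  have i2 := kernel_integrable' (σ := σ) (x := (N:ℝ)) (n := n) hσ hN' hn'
  have e := integral_sub i1 i2
  rw [h1, h2] at e
  have e2 : (2 * (π:ℂ) * ((max ((N:ℝ) + 1 - n) 0 : ℝ) : ℂ) - 2 * π * ((max ((N:ℝ) - n) 0 : ℝ) : ℂ))
      = if n ≤ N then 2 * (π:ℂ) else 0 := by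
    split_ifs with h
    · have h' : (n:ℝ) ≤ N := by exact_mod_cast h
      rw [max_eq_left (by linarith), max_eq_left (by linarith)]
      push_cast
      ring
    · have h' : (N:ℝ) + 1 ≤ n := by exact_mod_cast (not_le.mp h)
      rw [max_eq_right (by linarith), max_eq_right (by linarith)]
      simp
  rw [e2] at e
  rw [← e]
  refine integral_congr_ae (Filter.Eventually.of_forall fun v => ?_)
  simp only [Complex.ofReal_natCast]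
  ring

theorem kernel_diff_integrable {σ : ℝ} (hσ : 0 < σ) {N n : ℕ} (hN : 1 ≤ N) (hn : 1 ≤ n) :
    Integrable (fun v : ℝ => (n:ℂ) ^ (-((σ:ℂ) + v * I)) * (((((N:ℝ) + 1 : ℝ)) : ℂ) ^ (((σ:ℂ) + v * I) + 1)
        - (((N:ℝ)) : ℂ) ^ (((σ:ℂ) + v * I) + 1))
      / (((σ:ℂ) + v * I) * ((σ:ℂ) + v * I + 1))) := by
  have hN' : (0:ℝ) < N := by exact_mod_cast hN
  have hn' : (0:ℝ) < n := by exact_mod_cast hn
  have i1 := kernel_integrable' (σ := σ) (x := (N:ℝ) + 1) (n := n) hσ (by positivity) hn'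
  have i2 := kernel_integrable' (σ := σ) (x := (N:ℝ)) (n := n) hσ hN' hn'
  refine (i1.sub i2).congr (Filter.Eventually.of_forall fun v => ?_)
  simp only [Pi.sub_apply, Complex.ofReal_natCast]
  ring

/-- exact Perron formula for a finite family of coefficients -/
theorem perron_exact {ι : Type*} (S : Finset ι) (c : ι → ℂ) (m : ι → ℕ) (hm : ∀ i ∈ S, 1 ≤ m i)
    {σ : ℝ} (hσ : 0 < σ) {N : ℕ} (hN : 1 ≤ N) :
    ∫ v : ℝ, (∑ i ∈ S, c i * ((m i : ℕ) : ℂ) ^ (-((σ:ℂ) + v * I)))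
        * ((((((N:ℝ) + 1 : ℝ)) : ℂ) ^ (((σ:ℂ) + v * I) + 1)
        - (((N:ℝ)) : ℂ) ^ (((σ:ℂ) + v * I) + 1))
      / (((σ:ℂ) + v * I) * ((σ:ℂ) + v * I + 1)))
      = 2 * π * ∑ i ∈ S.filter (fun i => m i ≤ N), c i := by
  have e1 : ∀ v : ℝ, (∑ i ∈ S, c i * ((m i : ℕ) : ℂ) ^ (-((σ:ℂ) + v * I)))
        * ((((((N:ℝ) + 1 : ℝ)) : ℂ) ^ (((σ:ℂ) + v * I) + 1)
        - (((N:ℝ)) : ℂ) ^ (((σ:ℂ) + v * I) + 1))
      / (((σ:ℂ) + v * I) * ((σ:ℂ) + v * I + 1)))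
      = ∑ i ∈ S, c i * (((m i : ℕ) : ℂ) ^ (-((σ:ℂ) + v * I)) * (((((N:ℝ) + 1 : ℝ)) : ℂ) ^ (((σ:ℂ) + v * I) + 1)
        - (((N:ℝ)) : ℂ) ^ (((σ:ℂ) + v * I) + 1))
      / (((σ:ℂ) + v * I) * ((σ:ℂ) + v * I + 1))) := by
    intro v
    rw [Finset.sum_mul]
    refine Finset.sum_congr rfl fun i _ => ?_
    ring
  simp_rw [e1]
  rw [integral_finsetSum]
  · rw [Finset.mul_sum, Finset.sum_filter]
    refine Finset.sum_congr rfl fun i hi => ?_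
    rw [integral_const_mul, kernel_diff hσ hN (hm i hi)]
    split_ifs
    · ring
    · simp
  · intro i hi
    exact (kernel_diff_integrable hσ hN (hm i hi)).const_mul _

theorem cpow_diff_bound1 {σ v : ℝ} (hσ : 0 < σ) {N : ℕ} (hN : 1 ≤ N) :
    ‖((((N:ℝ) + 1 : ℝ)) : ℂ) ^ (((σ:ℂ) + v * I) + 1) - (((N:ℝ)) : ℂ) ^ (((σ:ℂ) + v * I) + 1)‖
      ≤ ‖(σ:ℂ) + v * I + 1‖ * ((N:ℝ) + 1) ^ σ := by
  have hN' : (0:ℝ) < N := by exact_mod_cast hN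
  have hd : ∀ x ∈ Set.Icc (N:ℝ) ((N:ℝ) + 1), HasDerivWithinAt
      (fun y : ℝ => (y:ℂ) ^ (((σ:ℂ) + v * I) + 1))
      ((((σ:ℂ) + v * I) + 1) * (x:ℂ) ^ ((σ:ℂ) + v * I)) (Set.Icc (N:ℝ) ((N:ℝ) + 1)) x := by
    intro x hx
    have hx0 : 0 < x := lt_of_lt_of_le hN' hx.1
    have h := hasDerivAt_ofReal_cpow_const (x := x) hx0.ne' (r := ((σ:ℂ) + v * I) + 1) (ne_zero_s1 hσ)
    rw [add_sub_cancel_right] at h
    exact h.hasDerivWithinAt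
  have hb : ∀ x ∈ Set.Icc (N:ℝ) ((N:ℝ) + 1), ‖(((σ:ℂ) + v * I) + 1) * (x:ℂ) ^ ((σ:ℂ) + v * I)‖
      ≤ ‖(σ:ℂ) + v * I + 1‖ * ((N:ℝ) + 1) ^ σ := by
    intro x hx
    have hx0 : 0 < x := lt_of_lt_of_le hN' hx.1
    rw [norm_mul, Complex.norm_cpow_eq_rpow_re_of_pos hx0]
    refine mul_le_mul_of_nonneg_left ?_ (norm_nonneg _)
    have : ((σ:ℂ) + v * I).re = σ := by simp
    rw [this]
    exact Real.rpow_le_rpow hx0.le hx.2 hσ.le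
  have h := (convex_Icc (N:ℝ) ((N:ℝ) + 1)).norm_image_sub_le_of_norm_hasDerivWithin_le hd hb
    (x := (N:ℝ)) (y := (N:ℝ) + 1) ⟨le_rfl, by linarith⟩ ⟨by linarith, le_rfl⟩
  simpa using h

theorem cpow_diff_bound2 {σ v : ℝ} (hσ : 0 < σ) {N : ℕ} (hN : 1 ≤ N) :
    ‖((((N:ℝ) + 1 : ℝ)) : ℂ) ^ (((σ:ℂ) + v * I) + 1) - (((N:ℝ)) : ℂ) ^ (((σ:ℂ) + v * I) + 1)‖
      ≤ 2 * ((N:ℝ) + 1) ^ (σ + 1) := by
  have hN' : (0:ℝ) < N := by exact_mod_cast hN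
  have hre : (((σ:ℂ) + v * I) + 1).re = σ + 1 := by simp
  calc _ ≤ ‖((((N:ℝ) + 1 : ℝ)) : ℂ) ^ (((σ:ℂ) + v * I) + 1)‖ + ‖(((N:ℝ)) : ℂ) ^ (((σ:ℂ) + v * I) + 1)‖ :=
        norm_sub_le _ _
    _ = ((N:ℝ) + 1) ^ (σ + 1) + (N:ℝ) ^ (σ + 1) := by
        rw [Complex.norm_cpow_eq_rpow_re_of_pos (by positivity), Complex.norm_cpow_eq_rpow_re_of_pos hN', hre]
    _ ≤ ((N:ℝ) + 1) ^ (σ + 1) + ((N:ℝ) + 1) ^ (σ + 1) := by
        gcongr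
        linarith
    _ = _ := by ring

theorem interp {b A B e : ℝ} (hb : 0 ≤ b) (hA : b ≤ A) (hB : b ≤ B) (he0 : 0 ≤ e) (he1 : e ≤ 1) :
    b ≤ A ^ (1 - e) * B ^ e := by
  have h1 : b ^ (1 - e) ≤ A ^ (1 - e) := Real.rpow_le_rpow hb hA (by linarith)
  have h2 : b ^ e ≤ B ^ e := Real.rpow_le_rpow hb hB he0
  rcases hb.eq_or_lt with h | h
  · rw [← h]
    exact mul_nonneg (Real.rpow_nonneg (hb.trans hA) _) (Real.rpow_nonneg (hb.trans hB) _)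
  · calc b = b ^ ((1 - e) + e) := by simp
      _ = b ^ (1 - e) * b ^ e := Real.rpow_add h _ _
      _ ≤ _ := mul_le_mul h1 h2 (Real.rpow_nonneg hb _) (Real.rpow_nonneg (hb.trans hA) _)

theorem abs_s_lower {σ v : ℝ} (hσ : 1 / 2 ≤ σ) : (1 + |v|) / 3 ≤ ‖((σ:ℂ) + v * I)‖ := by
  have h1 : ‖((σ:ℂ) + v * I)‖ ^ 2 = σ ^ 2 + v ^ 2 := by
    rw [← Complex.normSq_eq_norm_sq, Complex.normSq_add_mul_I]
  refine (abs_le_of_sq_le_sq' ?_ (norm_nonneg _)).2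
  rw [h1]
  have hv : |v| ^ 2 = v ^ 2 := sq_abs v
  nlinarith [sq_nonneg (|v| - 1), abs_nonneg v, sq_nonneg (|v|)]

theorem abs_s1_lower {σ v : ℝ} (hσ : 1 / 2 ≤ σ) : (1 + |v|) / 3 ≤ ‖((σ:ℂ) + v * I + 1)‖ := by
  have : ((σ:ℂ) + v * I + 1) = (((σ + 1 : ℝ)) : ℂ) + v * I := by push_cast; ring
  rw [this]
  exact abs_s_lower (by linarith)

/-- bound of the kernel with interpolation -/
theorem kernel_bound {σ v e : ℝ} (hσ : 1 / 2 ≤ σ) (he0 : 0 ≤ e) (he1 : e ≤ 1) {N : ℕ} (hN : 1 ≤ N) :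
    ‖(((((N:ℝ) + 1 : ℝ)) : ℂ) ^ (((σ:ℂ) + v * I) + 1) - (((N:ℝ)) : ℂ) ^ (((σ:ℂ) + v * I) + 1))
      / (((σ:ℂ) + v * I) * ((σ:ℂ) + v * I + 1))‖ ≤ 18 * ((N:ℝ) + 1) ^ (σ + e) * (1 + |v|) ^ (-(1 + e)) := by
  have hσ0 : 0 < σ := by linarith
  have hN' : (0:ℝ) < N := by exact_mod_cast hN
  have h1 := cpow_diff_bound1 (v := v) hσ0 hN
  have h2 := cpow_diff_bound2 (v := v) hσ0 hN
  have h3 := interp (norm_nonneg _) h1 h2 he0 he1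
  have hs := abs_s_lower (v := v) hσ
  have hs1 := abs_s1_lower (v := v) hσ
  have hv1 : 0 < 1 + |v| := by positivity
  have hsp : 0 < ‖((σ:ℂ) + v * I)‖ := lt_of_lt_of_le (by positivity) hs
  have hs1p : 0 < ‖((σ:ℂ) + v * I + 1)‖ := lt_of_lt_of_le (by positivity) hs1
  rw [norm_div, norm_mul, div_le_iff₀ (by positivity)]
  refine h3.trans ?_
  have hN1 : (0:ℝ) < (N:ℝ) + 1 := by positivity
  have e1 : (‖(σ:ℂ) + v * I + 1‖ * ((N:ℝ) + 1) ^ σ) ^ (1 - e) * (2 * ((N:ℝ) + 1) ^ (σ + 1)) ^ e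
      = 2 ^ e * ((N:ℝ) + 1) ^ (σ + e) * ‖(σ:ℂ) + v * I + 1‖ ^ (1 - e) := by
    rw [Real.mul_rpow (by positivity) (by positivity), Real.mul_rpow (by positivity) (by positivity),
      ← Real.rpow_mul hN1.le, ← Real.rpow_mul hN1.le]
    have : ((N:ℝ) + 1) ^ (σ + e) = ((N:ℝ) + 1) ^ (σ * (1 - e)) * ((N:ℝ) + 1) ^ ((σ + 1) * e) := by
      rw [← Real.rpow_add hN1]
      congr 1
      ring
    rw [this]
    ring
  rw [e1]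
  have e2 : (2:ℝ) ^ e ≤ 2 := by
    calc (2:ℝ) ^ e ≤ (2:ℝ) ^ (1:ℝ) := Real.rpow_le_rpow_of_exponent_le (by norm_num) he1
      _ = 2 := by simp
  have e3 : ‖(σ:ℂ) + v * I + 1‖ ^ (1 - e) = ‖(σ:ℂ) + v * I + 1‖ * ‖(σ:ℂ) + v * I + 1‖ ^ (-e) := by
    rw [sub_eq_add_neg, Real.rpow_add hs1p, Real.rpow_one]
  have e4 : ‖(σ:ℂ) + v * I + 1‖ ^ (-e) ≤ ((1 + |v|) / 3) ^ (-e) :=
    Real.rpow_le_rpow_of_nonpos (by positivity) hs1 (by linarith)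
  have e5 : ((1 + |v|) / 3) ^ (-e) ≤ 3 * (1 + |v|) ^ (-e) := by
    rw [Real.div_rpow hv1.le (by norm_num), Real.rpow_neg (by norm_num : (0:ℝ) ≤ 3), div_inv_eq_mul, mul_comm]
    refine mul_le_mul_of_nonneg_right ?_ (by positivity)
    calc (3:ℝ) ^ e ≤ (3:ℝ) ^ (1:ℝ) := Real.rpow_le_rpow_of_exponent_le (by norm_num) he1
      _ = 3 := by simp
  have e6 : (1 + |v|) ^ (-(1 + e)) = (1 + |v|)⁻¹ * (1 + |v|) ^ (-e) := by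
    rw [neg_add, Real.rpow_add hv1, Real.rpow_neg_one]
  rw [e3, e6]
  calc 2 ^ e * ((N:ℝ) + 1) ^ (σ + e) * (‖(σ:ℂ) + v * I + 1‖ * ‖(σ:ℂ) + v * I + 1‖ ^ (-e))
      ≤ 2 * ((N:ℝ) + 1) ^ (σ + e) * (‖(σ:ℂ) + v * I + 1‖ * (3 * (1 + |v|) ^ (-e))) := by
        gcongr
        exact e4.trans e5
    _ = 18 * ((N:ℝ) + 1) ^ (σ + e) * ((1 + |v|)⁻¹ * (1 + |v|) ^ (-e)) * (((1 + |v|) / 3) * ‖(σ:ℂ) + v * I + 1‖) := by
        field_simp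
        ring
    _ ≤ 18 * ((N:ℝ) + 1) ^ (σ + e) * ((1 + |v|)⁻¹ * (1 + |v|) ^ (-e)) * (‖((σ:ℂ) + v * I)‖ * ‖(σ:ℂ) + v * I + 1‖) := by
        gcongr

end Pool.Agent.Helper92.GB.Kern
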