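import Pool.Agent.Helper92.GB.Defs
import Pool.Agent.Helper92.GB.Perron

/-!
# Block GB-P1 (MP_b6b996_nt)
Riesz kernel formula on an arbitrary line (finite sums, no contour shift). Proof: Mellin inversion
(`mellinInv_mellin_eq`) for the tent function `(1 - u)_+`, file `Kernel.lean`.
-/

set_option autoImplicit false

namespace Pool.Agent.Helper92.GB

open Finset

theorem P1 {ι : Type} (s : Finset ι) (c : ι → ℂ) (n : ι → ℝ) (hn : ∀ i ∈ s, 0 < n i)
    (σ : ℝ) (hσ : 0 < σ) (x : ℝ) (hx : 0 < x) :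
    ∑ i ∈ s, c i * ((max (x - n i) 0 : ℝ) : ℂ) =
      (1 / (2 * Real.pi)) * ∫ v : ℝ,
        (∑ i ∈ s, c i * (n i : ℂ) ^ (-((σ : ℂ) + v * Complex.I))) *
          (x : ℂ) ^ ((σ : ℂ) + 1 + v * Complex.I) /
            (((σ : ℂ) + v * Complex.I) * ((σ : ℂ) + 1 + v * Complex.I)) := by
  have e1 : ∀ v : ℝ, (∑ i ∈ s, c i * (n i : ℂ) ^ (-((σ : ℂ) + v * Complex.I))) *
          (x : ℂ) ^ ((σ : ℂ) + 1 + v * Complex.I) /
            (((σ : ℂ) + v * Complex.I) * ((σ : ℂ) + 1 + v * Complex.I))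
      = ∑ i ∈ s, c i * ((n i : ℂ) ^ (-((σ:ℂ) + v * Complex.I)) * ((x:ℂ) ^ (((σ:ℂ) + v * Complex.I) + 1)
      * (1 / (((σ:ℂ) + v * Complex.I) * ((σ:ℂ) + v * Complex.I + 1))))) := by
    intro v
    rw [Finset.sum_mul, Finset.sum_div]
    refine Finset.sum_congr rfl fun i _ => ?_
    rw [show (σ : ℂ) + 1 + v * Complex.I = (σ:ℂ) + v * Complex.I + 1 by ring]
    ring
  simp_rw [e1]
  rw [MeasureTheory.integral_finsetSum]
  · rw [Finset.mul_sum]
    refine Finset.sum_congr rfl fun i hi => ?_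
    rw [MeasureTheory.integral_const_mul, Kern.kernel_integral hσ hx (hn i hi)]
    have hpi : (Real.pi : ℂ) ≠ 0 := by exact_mod_cast Real.pi_ne_zero
    field_simp
  · intro i hi
    exact (Kern.kernel_integrable' hσ hx (hn i hi)).const_mul _

end Pool.Agent.Helper92.GB
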