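import Pool.Agent.Helper92.GB.Defs

/-!
# Block GB-P2 (MP_b6b996_nt)
Bound of the Euler product from the prime sums.
Proof. `|1 + z| ≤ exp(Re z + |z|² / 2)` (as `|1+z|² = 1 + 2 Re z + |z|²`). With `σ = 1/2 + ε`, `z_p = f(p) χ(p) p ^ (i t - σ)`:
`|∏| ≤ exp(|∑_{p ≤ N} z_p| + (1/2) ∑_p p ^ (-2 σ))`, the last sum is at most a constant (`2 σ > 1`). For `∑ z_p`: the terms with
`p ≤ Y` contribute at most `Y`; for `Y < p ≤ N` use Abel summation with `A(y) = ∑_{p ≤ y} f χ p^{it}`,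
`|A(y)| ≤ C y ^ (1/2 + ε/2) log X`, `X = q (2 + |t|)`, `X ≥ 2`: at most `C' Y ^ (-ε/2) log X` (`C'` depending on `ε`). Choose `Y` with
`C' Y ^ (-ε/2) ≤ η`. Total: `≤ exp(const) X ^ η`.
-/

set_option autoImplicit false

namespace Pool.Agent.Helper92.GB

open Finset

theorem norm_one_add_le_exp (z : ℂ) : ‖1 + z‖ ≤ Real.exp (z.re + ‖z‖ ^ 2 / 2) := by
  have h1 : ‖1 + z‖ ^ 2 = 1 + 2 * z.re + ‖z‖ ^ 2 := by
    rw [← Complex.normSq_eq_norm_sq, ← Complex.normSq_eq_norm_sq, Complex.normSq_apply, Complex.normSq_apply]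
    simp
    ring
  have h2 : ‖1 + z‖ ^ 2 ≤ (Real.exp (z.re + ‖z‖ ^ 2 / 2)) ^ 2 := by
    rw [h1, ← Real.exp_nat_mul]
    have := Real.add_one_le_exp (((2:ℕ):ℝ) * (z.re + ‖z‖ ^ 2 / 2))
    push_cast at this ⊢
    linarith
  exact (abs_le_of_sq_le_sq' h2 (Real.exp_pos _).le).2

/-- Abel summation identity. -/
theorem abel_id (b : ℕ → ℂ) (w : ℕ → ℝ) (Y k : ℕ) :
    ∑ n ∈ Ioc Y (Y + k), b n * w n = (∑ n ∈ Icc 1 (Y + k), b n) * w (Y + k + 1)
      - (∑ n ∈ Icc 1 Y, b n) * w (Y + 1)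
      + ∑ n ∈ Ioc Y (Y + k), (∑ m ∈ Icc 1 n, b m) * ((w n - w (n + 1) : ℝ) : ℂ) := by
  induction k with
  | zero => simp
  | succ k ih =>
    have e1 : Ioc Y (Y + (k + 1)) = insert (Y + k + 1) (Ioc Y (Y + k)) := by
      ext x; simp only [mem_Ioc, mem_insert]; omega
    have e2 : (Y + k + 1) ∉ Ioc Y (Y + k) := by simp
    have e3 : Icc 1 (Y + (k + 1)) = insert (Y + k + 1) (Icc 1 (Y + k)) := by
      ext x; simp only [mem_Icc, mem_insert]; omega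
    have e4 : (Y + k + 1) ∉ Icc 1 (Y + k) := by simp
    have e5 : Icc 1 (Y + k + 1) = insert (Y + k + 1) (Icc 1 (Y + k)) := e3
    rw [e1, sum_insert e2, sum_insert e2, ih, e3, e5, sum_insert e4]
    have : Y + (k + 1) + 1 = Y + k + 1 + 1 := by ring
    rw [this]
    push_cast
    ring

theorem abel_bound (b : ℕ → ℂ) (w B : ℕ → ℝ) (hw0 : ∀ n, 0 ≤ w n) (hw : ∀ n, 1 ≤ n → w (n + 1) ≤ w n)
    (hB : ∀ n, ‖∑ m ∈ Icc 1 n, b m‖ ≤ B n) (Y N : ℕ) (hYN : Y ≤ N) :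
    ‖∑ n ∈ Ioc Y N, b n * w n‖ ≤ B N * w (N + 1) + B Y * w (Y + 1)
      + ∑ n ∈ Ioc Y N, B n * (w n - w (n + 1)) := by
  obtain ⟨k, rfl⟩ := Nat.exists_eq_add_of_le hYN
  rw [abel_id]
  have h1 : ‖(∑ n ∈ Icc 1 (Y + k), b n) * (w (Y + k + 1) : ℂ)‖ ≤ B (Y + k) * w (Y + k + 1) := by
    rw [norm_mul, Complex.norm_real, Real.norm_of_nonneg (hw0 _)]
    exact mul_le_mul_of_nonneg_right (hB _) (hw0 _)
  have h2 : ‖(∑ n ∈ Icc 1 Y, b n) * (w (Y + 1) : ℂ)‖ ≤ B Y * w (Y + 1) := by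
    rw [norm_mul, Complex.norm_real, Real.norm_of_nonneg (hw0 _)]
    exact mul_le_mul_of_nonneg_right (hB _) (hw0 _)
  have h3 : ‖∑ n ∈ Ioc Y (Y + k), (∑ m ∈ Icc 1 n, b m) * ((w n - w (n + 1) : ℝ) : ℂ)‖
      ≤ ∑ n ∈ Ioc Y (Y + k), B n * (w n - w (n + 1)) := by
    refine (norm_sum_le _ _).trans (sum_le_sum fun n hn => ?_)
    have hn1 : 1 ≤ n := by have := (mem_Ioc.mp hn).1; omega
    have hnn : 0 ≤ w n - w (n + 1) := sub_nonneg.mpr (hw n hn1)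
    rw [norm_mul, Complex.norm_real, Real.norm_of_nonneg hnn]
    exact mul_le_mul_of_nonneg_right (hB _) hnn
  exact (norm_add_le _ _).trans (add_le_add ((norm_sub_le _ _).trans (add_le_add h1 h2)) h3)

theorem rpow_diff_le (σ : ℝ) (hσ : 0 ≤ σ) (n : ℕ) (hn : 1 ≤ n) :
    (n:ℝ) ^ (-σ) - ((n + 1 : ℕ):ℝ) ^ (-σ) ≤ σ * (n:ℝ) ^ (-σ - 1) := by
  have hn0 : (0:ℝ) < n := by exact_mod_cast hn
  have h1 : ((n + 1 : ℕ):ℝ) = n * (1 + 1 / n) := by push_cast; field_simp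
  have h2 : (0:ℝ) < 1 + 1 / (n:ℝ) := by positivity
  have h3 : 1 - σ / n ≤ (1 + 1 / (n:ℝ)) ^ (-σ) := by
    have h4 : (1 + 1 / (n:ℝ)) ≤ Real.exp (1 / n) := by
      have := Real.add_one_le_exp (1 / (n:ℝ)); linarith
    have h5 : (Real.exp (1 / n)) ^ (-σ) ≤ (1 + 1 / (n:ℝ)) ^ (-σ) :=
      Real.rpow_le_rpow_of_nonpos h2 h4 (by linarith)
    rw [← Real.exp_mul] at h5
    have h6 := Real.add_one_le_exp (1 / (n:ℝ) * -σ)
    have h7 : 1 / (n:ℝ) * -σ = - (σ / n) := by ring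
    rw [h7] at h5 h6
    linarith
  rw [h1, Real.mul_rpow hn0.le h2.le, sub_eq_add_neg (-σ) 1, Real.rpow_add hn0, Real.rpow_neg_one]
  have h8 : 0 < (n:ℝ) ^ (-σ) := Real.rpow_pos_of_pos hn0 _
  have h9 := mul_le_mul_of_nonneg_left h3 h8.le
  have h10 : σ * ((n:ℝ) ^ (-σ) * (n:ℝ)⁻¹) = (n:ℝ) ^ (-σ) * (σ / n) := by field_simp
  rw [h10]
  nlinarith

/-- Choice of the threshold `Y`. -/
theorem exists_Y (ε δ : ℝ) (hε : 0 < ε) (hδ : 0 < δ) :
    ∃ Y : ℕ, 1 ≤ Y ∧ ((Y:ℝ) ^ (-(ε / 2)) ≤ δ) ∧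
      ∀ N : ℕ, ∑ n ∈ Ioc Y N, (n:ℝ) ^ (-(1 + ε / 2)) ≤ δ := by
  have hs : Summable (fun n : ℕ => (n:ℝ) ^ (-(1 + ε / 2))) :=
    Real.summable_nat_rpow.mpr (by linarith)
  obtain ⟨s, hs'⟩ := summable_iff_vanishing_norm.mp hs δ hδ
  have ht : Filter.Tendsto (fun n : ℕ => (n:ℝ) ^ (-(ε / 2))) Filter.atTop (nhds 0) :=
    (tendsto_rpow_neg_atTop (by linarith : (0:ℝ) < ε / 2)).comp tendsto_natCast_atTop_atTop
  have hev : ∀ᶠ n : ℕ in Filter.atTop, (n:ℝ) ^ (-(ε / 2)) ≤ δ :=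
    (ht.eventually (gt_mem_nhds hδ)).mono fun n hn => le_of_lt hn
  obtain ⟨Y, hY1, hY2, hY3⟩ := (hev.and ((Filter.eventually_ge_atTop 1).and
    (Filter.eventually_ge_atTop (s.sup id)))).exists
  refine ⟨Y, hY2, hY1, fun N => ?_⟩
  have hd : Disjoint (Ioc Y N) s := by
    rw [Finset.disjoint_left]
    intro x hx hxs
    have h1 : x ≤ s.sup id := Finset.le_sup (f := id) hxs
    have h2 := (mem_Ioc.mp hx).1
    omega
  have h := hs' _ hd
  exact (le_abs_self _).trans h.le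

theorem P2 (f : ℕ → ℤ) (hf : ∀ p : ℕ, p.Prime → f p = 1 ∨ f p = -1) (h : PS f) (ε η : ℝ)
    (hε : 0 < ε) (hη : 0 < η) :
    ∃ C : ℝ, ∀ (q : ℕ) (χ : DirichletCharacter ℂ q) (t : ℝ) (N : ℕ), 1 ≤ q →
      ‖∏ p ∈ (Icc 1 N).filter Nat.Prime,
          (1 + (f p : ℂ) * χ (p : ZMod q) * (p : ℂ) ^ (-((1 / 2 + ε : ℝ) : ℂ) + t * Complex.I))‖
        ≤ C * ((q : ℝ) * (2 + |t|)) ^ η := by
  obtain ⟨C0', hC0'⟩ := h (ε / 2) (by linarith)
  set C0 := max C0' 1 with hC0def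
  have hC01 : 1 ≤ C0 := le_max_right _ _
  set σ : ℝ := 1 / 2 + ε with hσ
  have hσ0 : 0 < σ := by rw [hσ]; linarith
  -- threshold
  set δ : ℝ := η / (C0 * (2 + σ)) with hδ
  have hδ0 : 0 < δ := by rw [hδ]; positivity
  obtain ⟨Y, hY1, hY2, hY3⟩ := exists_Y ε δ hε hδ0
  have hsum2 : Summable (fun n : ℕ => (n:ℝ) ^ (-(2 * σ))) :=
    Real.summable_nat_rpow.mpr (by rw [hσ]; linarith)
  set K : ℝ := ∑' n : ℕ, (n:ℝ) ^ (-(2 * σ)) with hK
  refine ⟨Real.exp (Y + K / 2), fun q χ t N hq => ?_⟩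
  have hq0 : (1:ℝ) ≤ q := by exact_mod_cast hq
  set X : ℝ := (q:ℝ) * (2 + |t|) with hX
  have hX2 : 2 ≤ X := by
    rw [hX]
    nlinarith [abs_nonneg t]
  have hX0 : 0 < X := by linarith
  set L : ℝ := Real.log X with hL
  have hL0 : 0 < L := Real.log_pos (by linarith)
  -- the summands
  set z : ℕ → ℂ := fun p => (f p : ℂ) * χ (p : ZMod q) * (p : ℂ) ^ (-(σ : ℂ) + t * Complex.I) with hz
  set b : ℕ → ℂ := fun p => if p.Prime then (f p : ℂ) * χ (p : ZMod q) * npi p t else 0 with hb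
  have hfn : ∀ p : ℕ, p.Prime → ‖(f p : ℂ)‖ = 1 := by
    intro p hp
    rcases hf p hp with h1 | h1 <;> simp [h1]
  have hzn : ∀ p : ℕ, p.Prime → ‖z p‖ ≤ (p:ℝ) ^ (-σ) := by
    intro p hp
    have hp0 : (0:ℝ) < p := by exact_mod_cast hp.pos
    simp only [hz]
    rw [norm_mul, norm_mul, hfn p hp, one_mul]
    have h1 : ‖(p : ℂ) ^ (-(σ : ℂ) + t * Complex.I)‖ = (p:ℝ) ^ (-σ) := by
      have := Complex.norm_cpow_eq_rpow_re_of_pos hp0 (-(σ : ℂ) + t * Complex.I)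
      simpa using this
    rw [h1]
    exact mul_le_of_le_one_left (by positivity) (DirichletCharacter.norm_le_one χ _)
  have hbn : ∀ p : ℕ, ‖b p‖ ≤ 1 := by
    intro p
    simp only [hb]
    split_ifs with hp
    · have hp0 : (0:ℝ) < p := by exact_mod_cast hp.pos
      rw [norm_mul, norm_mul, hfn p hp, one_mul]
      have h1 : ‖npi p t‖ = 1 := by
        unfold npi
        have := Complex.norm_cpow_eq_rpow_re_of_pos hp0 ((t : ℂ) * Complex.I)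
        simpa using this
      rw [h1, mul_one]
      exact DirichletCharacter.norm_le_one χ _
    · simp
  have hzb : ∑ p ∈ (Icc 1 N).filter Nat.Prime, z p
      = ∑ n ∈ Icc 1 N, b n * (((n:ℝ) ^ (-σ) : ℝ) : ℂ) := by
    rw [sum_filter]
    refine sum_congr rfl fun n hn => ?_
    simp only [hb, hz]
    split_ifs with hp
    · have hp0 : (n:ℂ) ≠ 0 := by exact_mod_cast hp.pos.ne'
      have : (n : ℂ) ^ (-(σ : ℂ) + t * Complex.I) = npi n t * (((n:ℝ) ^ (-σ) : ℝ) : ℂ) := by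
        rw [Complex.cpow_add _ _ hp0, npi, Complex.ofReal_cpow (Nat.cast_nonneg n)]
        push_cast
        ring
      rw [this]
      ring
    · simp
  have hA : ∀ n : ℕ, ‖∑ m ∈ Icc 1 n, b m‖ ≤ C0 * (n:ℝ) ^ (1 / 2 + ε / 2) * L := by
    intro n
    have h1 : ∑ m ∈ Icc 1 n, b m
        = ∑ p ∈ (Icc 1 n).filter Nat.Prime, (f p : ℂ) * χ (p : ZMod q) * npi p t := by
      rw [sum_filter]
    rw [h1]
    refine (hC0' q χ t n hq).trans ?_
    have h2 : C0' ≤ C0 := le_max_left _ _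
    have h3 : 0 ≤ (n:ℝ) ^ (1 / 2 + ε / 2) := by positivity
    exact mul_le_mul_of_nonneg_right (mul_le_mul_of_nonneg_right h2 h3) hL0.le
  -- main bound for the sum over primes
  have hmain : ‖∑ p ∈ (Icc 1 N).filter Nat.Prime, z p‖ ≤ Y + η * L := by
    rw [hzb]
    have hsmall : ∀ M : ℕ, ‖∑ n ∈ Icc 1 M, b n * (((n:ℝ) ^ (-σ) : ℝ) : ℂ)‖ ≤ M := by
      intro M
      calc ‖∑ n ∈ Icc 1 M, b n * (((n:ℝ) ^ (-σ) : ℝ) : ℂ)‖
          ≤ ∑ n ∈ Icc 1 M, ‖b n * (((n:ℝ) ^ (-σ) : ℝ) : ℂ)‖ := norm_sum_le _ _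
        _ ≤ ∑ n ∈ Icc 1 M, (1:ℝ) := by
            refine sum_le_sum fun n hn => ?_
            have hn1 : (1:ℝ) ≤ n := by exact_mod_cast (mem_Icc.mp hn).1
            rw [norm_mul, Complex.norm_real, Real.norm_of_nonneg (by positivity)]
            have h1 : (n:ℝ) ^ (-σ) ≤ 1 := Real.rpow_le_one_of_one_le_of_nonpos hn1 (by linarith)
            calc ‖b n‖ * (n:ℝ) ^ (-σ) ≤ 1 * 1 := mul_le_mul (hbn n) h1 (by positivity) (by norm_num)
              _ = 1 := one_mul 1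
        _ = M := by simp
    rcases le_or_gt N Y with hNY | hNY
    · have h1 := hsmall N
      have h2 : (N:ℝ) ≤ Y := by exact_mod_cast hNY
      have h3 : 0 ≤ η * L := by positivity
      linarith
    · have hsplit : Icc 1 N = Icc 1 Y ∪ Ioc Y N := by
        ext x; simp only [mem_Icc, mem_union, mem_Ioc]; omega
      have hdisj : Disjoint (Icc 1 Y) (Ioc Y N) := by
        rw [Finset.disjoint_left]; intro x hx hx'
        have h1 := (mem_Icc.mp hx).2; have h2 := (mem_Ioc.mp hx').1; omega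
      rw [hsplit, sum_union hdisj]
      refine (norm_add_le _ _).trans (add_le_add (hsmall Y) ?_)
      have hab := abel_bound b (fun n => (n:ℝ) ^ (-σ)) (fun n => C0 * (n:ℝ) ^ (1 / 2 + ε / 2) * L)
        (fun n => by positivity)
        (fun n hn => Real.rpow_le_rpow_of_nonpos (by exact_mod_cast hn) (by push_cast; linarith) (by linarith))
        hA Y N hNY.le
      refine hab.trans ?_
      have hgen : ∀ n : ℕ, Y ≤ n → C0 * (n:ℝ) ^ (1 / 2 + ε / 2) * L * ((n + 1 : ℕ) : ℝ) ^ (-σ)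
          ≤ C0 * L * δ := by
        intro n hn
        have hn1 : 1 ≤ n := hY1.trans hn
        have hn0 : (0:ℝ) < n := by exact_mod_cast hn1
        have h1 : ((n + 1 : ℕ) : ℝ) ^ (-σ) ≤ (n:ℝ) ^ (-σ) :=
          Real.rpow_le_rpow_of_nonpos hn0 (by push_cast; linarith) (by linarith)
        have h2 : (n:ℝ) ^ (1 / 2 + ε / 2) * (n:ℝ) ^ (-σ) = (n:ℝ) ^ (-(ε / 2)) := by
          rw [← Real.rpow_add hn0]; congr 1; rw [hσ]; ring
        have h3 : (n:ℝ) ^ (-(ε / 2)) ≤ (Y:ℝ) ^ (-(ε / 2)) :=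
          Real.rpow_le_rpow_of_nonpos (by exact_mod_cast hY1) (by exact_mod_cast hn) (by linarith)
        calc C0 * (n:ℝ) ^ (1 / 2 + ε / 2) * L * ((n + 1 : ℕ) : ℝ) ^ (-σ)
            ≤ C0 * (n:ℝ) ^ (1 / 2 + ε / 2) * L * (n:ℝ) ^ (-σ) :=
              mul_le_mul_of_nonneg_left h1 (by positivity)
          _ = C0 * L * ((n:ℝ) ^ (1 / 2 + ε / 2) * (n:ℝ) ^ (-σ)) := by ring
          _ ≤ C0 * L * δ := by
              rw [h2]
              exact mul_le_mul_of_nonneg_left (h3.trans hY2) (by positivity)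
      have h1 := hgen N hNY.le
      have h2 := hgen Y le_rfl
      have h3 : ∑ n ∈ Ioc Y N, C0 * (n:ℝ) ^ (1 / 2 + ε / 2) * L * ((n:ℝ) ^ (-σ) - ((n + 1 : ℕ) : ℝ) ^ (-σ))
          ≤ C0 * L * σ * δ := by
        calc ∑ n ∈ Ioc Y N, C0 * (n:ℝ) ^ (1 / 2 + ε / 2) * L * ((n:ℝ) ^ (-σ) - ((n + 1 : ℕ) : ℝ) ^ (-σ))
            ≤ ∑ n ∈ Ioc Y N, C0 * L * σ * (n:ℝ) ^ (-(1 + ε / 2)) := by
              refine sum_le_sum fun n hn => ?_
              have hn1 : 1 ≤ n := by have := (mem_Ioc.mp hn).1; omega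
              have hn0 : (0:ℝ) < n := by exact_mod_cast hn1
              have h4 := rpow_diff_le σ hσ0.le n hn1
              have h5 : (n:ℝ) ^ (1 / 2 + ε / 2) * (n:ℝ) ^ (-σ - 1) = (n:ℝ) ^ (-(1 + ε / 2)) := by
                rw [← Real.rpow_add hn0]; congr 1; rw [hσ]; ring
              calc C0 * (n:ℝ) ^ (1 / 2 + ε / 2) * L * ((n:ℝ) ^ (-σ) - ((n + 1 : ℕ) : ℝ) ^ (-σ))
                  ≤ C0 * (n:ℝ) ^ (1 / 2 + ε / 2) * L * (σ * (n:ℝ) ^ (-σ - 1)) :=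
                    mul_le_mul_of_nonneg_left h4 (by positivity)
                _ = C0 * L * σ * ((n:ℝ) ^ (1 / 2 + ε / 2) * (n:ℝ) ^ (-σ - 1)) := by ring
                _ = _ := by rw [h5]
          _ = C0 * L * σ * ∑ n ∈ Ioc Y N, (n:ℝ) ^ (-(1 + ε / 2)) := by rw [mul_sum]
          _ ≤ C0 * L * σ * δ := mul_le_mul_of_nonneg_left (hY3 N) (by positivity)
      have h6 : C0 * L * δ + C0 * L * δ + C0 * L * σ * δ = η * L := by
        rw [hδ]
        field_simp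
        ring
      calc _ ≤ C0 * L * δ + C0 * L * δ + C0 * L * σ * δ := add_le_add (add_le_add h1 h2) h3
        _ = η * L := h6
  -- second moment
  have hsq : ∑ p ∈ (Icc 1 N).filter Nat.Prime, ‖z p‖ ^ 2 ≤ K := by
    calc ∑ p ∈ (Icc 1 N).filter Nat.Prime, ‖z p‖ ^ 2
        ≤ ∑ p ∈ (Icc 1 N).filter Nat.Prime, (p:ℝ) ^ (-(2 * σ)) := by
          refine sum_le_sum fun p hp => ?_
          have hp' := (mem_filter.mp hp).2
          have h1 := pow_le_pow_left₀ (norm_nonneg _) (hzn p hp') 2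
          refine h1.trans (le_of_eq ?_)
          rw [← Real.rpow_natCast, ← Real.rpow_mul (Nat.cast_nonneg p)]
          congr 1
          push_cast
          ring
      _ ≤ K := hsum2.sum_le_tsum _ (fun n _ => by positivity)
  calc ‖∏ p ∈ (Icc 1 N).filter Nat.Prime, (1 + z p)‖
      = ∏ p ∈ (Icc 1 N).filter Nat.Prime, ‖1 + z p‖ := norm_prod _ _
    _ ≤ ∏ p ∈ (Icc 1 N).filter Nat.Prime, Real.exp ((z p).re + ‖z p‖ ^ 2 / 2) :=
        prod_le_prod (fun p _ => norm_nonneg _) (fun p _ => norm_one_add_le_exp _)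
    _ = Real.exp (∑ p ∈ (Icc 1 N).filter Nat.Prime, ((z p).re + ‖z p‖ ^ 2 / 2)) :=
        (Real.exp_sum _ _).symm
    _ ≤ Real.exp (Y + K / 2 + η * L) := by
        rw [Real.exp_le_exp, sum_add_distrib]
        have h1 : ∑ p ∈ (Icc 1 N).filter Nat.Prime, (z p).re ≤ Y + η * L := by
          rw [← Complex.re_sum]
          exact (Complex.re_le_norm _).trans hmain
        have h2 : ∑ p ∈ (Icc 1 N).filter Nat.Prime, ‖z p‖ ^ 2 / 2 ≤ K / 2 := by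
          rw [← sum_div]
          linarith
        linarith
    _ = Real.exp (Y + K / 2) * X ^ η := by
        rw [Real.exp_add, Real.rpow_def_of_pos hX0, mul_comm η L]

end Pool.Agent.Helper92.GB
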