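import Pool.Agent.Helper92.GB.Defs
import Pool.Agent.Helper92.GB.P1
import Pool.Agent.Helper92.GB.P2

/-!
# Block GB-P3 (MP_b6b996_nt)
Prime sums suffice for the class (imports P1, P2).
Proof. `ext f` is multiplicative with square `μ²`. Bound: let `T` run over the subsets of the primes `≤ N`,
`n_T = ∏ T`, `c_T = ∏_{p ∈ T} f(p) χ(p) p^{it}`. Then `∑_T c_T n_T ^ (-(σ+iv)) = ∏_{p ≤ N} (1 + f(p) χ(p) p^{it - σ - iv})`,
bounded by P2 (with `t - v`). The exact Perron formula `Kern.perron_exact` (difference of the Riesz kernels at `N + 1` and `N`)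
and the interpolated bound `Kern.kernel_bound` of the kernel give the result.
-/

set_option autoImplicit false

namespace Pool.Agent.Helper92.GB

open Finset

theorem natCast_prod_cpow (T : Finset ℕ) (s : ℂ) :
    (((∏ p ∈ T, p : ℕ)) : ℂ) ^ s = ∏ p ∈ T, (p : ℂ) ^ s := by
  induction T using Finset.cons_induction with
  | empty => simp
  | cons a T ha ih =>
    rw [prod_cons, prod_cons, Nat.cast_mul, Complex.natCast_mul_natCast_cpow, ih]

theorem squarefree_prod_primes (T : Finset ℕ) (hT : ∀ p ∈ T, p.Prime) :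
    Squarefree (∏ p ∈ T, p) := by
  refine Finset.squarefree_prod_of_pairwise_isCoprime ?_ (fun p hp => (hT p hp).squarefree)
  intro p hp q hq hpq
  show IsRelPrime p q
  rw [← Nat.coprime_iff_isRelPrime]
  exact (Nat.coprime_primes (hT p hp) (hT q hq)).mpr hpq

/-- `tw (ext f)` as a sum over sets of primes. -/
theorem tw_ext_eq (f : ℕ → ℤ) {q : ℕ} (χ : DirichletCharacter ℂ q) (t : ℝ) (N : ℕ) :
    tw (ext f) χ t N = ∑ T ∈ (((Icc 1 N).filter Nat.Prime).powerset).filter (fun T => ∏ p ∈ T, p ≤ N),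
      ∏ p ∈ T, ((f p : ℂ) * χ (p : ZMod q) * npi p t) := by
  classical
  have h1 : tw (ext f) χ t N = ∑ n ∈ (Icc 1 N).filter Squarefree,
      ((ext f n : ℤ) : ℂ) * χ (n : ZMod q) * npi n t := by
    rw [tw, sum_filter]
    refine sum_congr rfl fun n hn => ?_
    by_cases h : Squarefree n
    · simp [h]
    · simp [ext, h]
  rw [h1]
  symm
  refine Finset.sum_nbij' (fun T => ∏ p ∈ T, p) (fun n => n.primeFactors) ?_ ?_ ?_ ?_ ?_
  · intro T hT
    simp only [mem_filter, mem_powerset] at hT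
    have hp : ∀ p ∈ T, p.Prime := fun p hp => (mem_filter.mp (hT.1 hp)).2
    simp only [mem_filter, mem_Icc]
    refine ⟨⟨?_, hT.2⟩, squarefree_prod_primes T hp⟩
    exact Nat.one_le_iff_ne_zero.mpr (prod_ne_zero_iff.mpr fun p hp' => (hp p hp').ne_zero)
  · intro n hn
    simp only [mem_filter, mem_Icc] at hn
    simp only [mem_filter, mem_powerset]
    refine ⟨fun p hp => ?_, ?_⟩
    · have hp' := Nat.prime_of_mem_primeFactors hp
      rw [mem_filter, mem_Icc]
      exact ⟨⟨hp'.one_le, (Nat.le_of_mem_primeFactors hp).trans hn.1.2⟩, hp'⟩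
    · rw [Nat.prod_primeFactors_of_squarefree hn.2]
      exact hn.1.2
  · intro T hT
    simp only [mem_filter, mem_powerset] at hT
    exact Nat.primeFactors_prod (fun p hp => (mem_filter.mp (hT.1 hp)).2)
  · intro n hn
    simp only [mem_filter, mem_Icc] at hn
    exact Nat.prod_primeFactors_of_squarefree hn.2
  · intro T hT
    simp only [mem_filter, mem_powerset] at hT
    have hp : ∀ p ∈ T, p.Prime := fun p hp => (mem_filter.mp (hT.1 hp)).2
    have hsq := squarefree_prod_primes T hp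
    rw [ext, if_pos hsq, Nat.primeFactors_prod hp, npi, natCast_prod_cpow, Nat.cast_prod, map_prod,
      Int.cast_prod, ← prod_mul_distrib, ← prod_mul_distrib]
    rfl

theorem ext_mul (f : ℕ → ℤ) (m n : ℕ) (h : m.Coprime n) : ext f (m * n) = ext f m * ext f n := by
  classical
  unfold ext
  by_cases hm : Squarefree m
  · by_cases hn : Squarefree n
    · have hmn : Squarefree (m * n) := (Nat.squarefree_mul h).mpr ⟨hm, hn⟩
      rw [if_pos hm, if_pos hn, if_pos hmn, h.primeFactors_mul, prod_union h.disjoint_primeFactors]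
    · have hmn : ¬ Squarefree (m * n) := fun h' => hn ((Nat.squarefree_mul h).mp h').2
      rw [if_neg hn, if_neg hmn, mul_zero]
  · have hmn : ¬ Squarefree (m * n) := fun h' => hm ((Nat.squarefree_mul h).mp h').1
    rw [if_neg hm, if_neg hmn, zero_mul]

theorem ext_sq (f : ℕ → ℤ) (hf : ∀ p : ℕ, p.Prime → f p = 1 ∨ f p = -1) (n : ℕ) :
    ext f n ^ 2 = ArithmeticFunction.moebius n ^ 2 := by
  classical
  by_cases hn : Squarefree n
  · rw [ArithmeticFunction.moebius_sq_eq_one_of_squarefree hn, ext, if_pos hn, ← prod_pow]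
    refine prod_eq_one fun p hp => ?_
    rcases hf p (Nat.prime_of_mem_primeFactors hp) with h | h <;> simp [h]
  · rw [ArithmeticFunction.moebius_eq_zero_of_not_squarefree hn, ext, if_neg hn]

theorem P3 (f : ℕ → ℤ) (hf : ∀ p : ℕ, p.Prime → f p = 1 ∨ f p = -1) (h : PS f) :
    GRHClass (ext f) := by
  refine ⟨ext_mul f, ext_sq f hf, fun ε hε => ?_⟩
  -- parameters
  set a : ℝ := min (ε / 2) 1 with ha
  have ha0 : 0 < a := lt_min (by linarith) one_pos
  have ha1 : a ≤ 1 := min_le_right _ _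
  have haε : 2 * a ≤ ε := by have := min_le_left (ε / 2) 1; linarith
  set η : ℝ := a / 2 with hη
  have hη0 : 0 < η := by rw [hη]; linarith
  obtain ⟨C1', hC1'⟩ := P2 f hf h a η ha0 hη0
  set C1 := max C1' 0 with hC1
  have hC10 : 0 ≤ C1 := le_max_right _ _
  set J : ℝ := ∫ v : ℝ, (1 + ‖v‖) ^ (-(1 + η)) with hJ
  have hint : MeasureTheory.Integrable (fun v : ℝ => (1 + ‖v‖) ^ (-(1 + η))) :=
    integrable_one_add_norm (by simp; linarith)
  have hJ0 : 0 ≤ J := MeasureTheory.integral_nonneg fun v => by positivity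
  refine ⟨C1 * 18 * J * 2 ^ η * 2 ^ (1 / 2 + 2 * a), fun q χ t N hq hN => ?_⟩
  have hq1 : (1:ℝ) ≤ q := by exact_mod_cast hq
  have hN1 : (1:ℝ) ≤ N := by exact_mod_cast hN
  set X : ℝ := (q:ℝ) * (2 + |t|) with hX
  have hX0 : 0 < X := by rw [hX]; positivity
  set σ : ℝ := 1 / 2 + a with hσ
  have hσ0 : 0 < σ := by rw [hσ]; linarith
  have hσ2 : 1 / 2 ≤ σ := by rw [hσ]; linarith
  set P := (Icc 1 N).filter Nat.Prime with hP
  set c : Finset ℕ → ℂ := fun T => ∏ p ∈ T, ((f p : ℂ) * χ (p : ZMod q) * npi p t) with hc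
  have hm : ∀ T ∈ P.powerset, 1 ≤ ∏ p ∈ T, p := by
    intro T hT
    refine Nat.one_le_iff_ne_zero.mpr (prod_ne_zero_iff.mpr fun p hp => ?_)
    exact (mem_filter.mp (mem_powerset.mp hT hp)).2.ne_zero
  have hper := Kern.perron_exact P.powerset c (fun T => ∏ p ∈ T, p) hm hσ0 hN
  rw [← tw_ext_eq f χ t N] at hper
  -- the Euler product
  have hEP : ∀ v : ℝ, ‖∑ T ∈ P.powerset, c T * (((∏ p ∈ T, p : ℕ)) : ℂ) ^ (-((σ:ℂ) + v * Complex.I))‖
      ≤ C1 * X ^ η * (1 + |v|) ^ η := by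
    intro v
    have e1 : ∑ T ∈ P.powerset, c T * (((∏ p ∈ T, p : ℕ)) : ℂ) ^ (-((σ:ℂ) + v * Complex.I))
        = ∏ p ∈ P, (1 + (f p : ℂ) * χ (p : ZMod q) * (p : ℂ) ^ (-((1 / 2 + a : ℝ) : ℂ) + ((t - v : ℝ) : ℂ) * Complex.I)) := by
      rw [prod_one_add]
      refine sum_congr rfl fun T hT => ?_
      rw [natCast_prod_cpow, hc]
      simp only
      rw [← prod_mul_distrib]
      refine prod_congr rfl fun p hp => ?_
      have hp' : (p:ℂ) ≠ 0 := by
        exact_mod_cast (mem_filter.mp (mem_powerset.mp hT hp)).2.ne_zero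
      rw [npi, mul_assoc, ← Complex.cpow_add _ _ hp', ← hσ]
      congr 2
      push_cast
      ring
    rw [e1]
    have h1 := hC1' q χ (t - v) N hq
    refine h1.trans ?_
    have h2 : (q:ℝ) * (2 + |t - v|) ≤ X * (1 + |v|) := by
      rw [hX, mul_assoc]
      refine mul_le_mul_of_nonneg_left ?_ (by linarith)
      have h3 : |t - v| ≤ |t| + |v| := abs_sub t v
      nlinarith [abs_nonneg t, abs_nonneg v, mul_nonneg (abs_nonneg t) (abs_nonneg v)]
    calc C1' * ((q:ℝ) * (2 + |t - v|)) ^ η ≤ C1 * ((q:ℝ) * (2 + |t - v|)) ^ η :=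
          mul_le_mul_of_nonneg_right (le_max_left _ _) (by positivity)
      _ ≤ C1 * (X * (1 + |v|)) ^ η :=
          mul_le_mul_of_nonneg_left (Real.rpow_le_rpow (by positivity) h2 hη0.le) hC10
      _ = C1 * X ^ η * (1 + |v|) ^ η := by
          rw [Real.mul_rpow hX0.le (by positivity)]; ring
  -- norm bound of the integral
  have hbound : ‖2 * (Real.pi : ℂ) * tw (ext f) χ t N‖ ≤
      ∫ v : ℝ, (C1 * X ^ η * (18 * ((N:ℝ) + 1) ^ (σ + a))) * (1 + ‖v‖) ^ (-(1 + η)) := by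
    rw [← hper]
    refine MeasureTheory.norm_integral_le_of_norm_le (hint.const_mul _)
      (Filter.Eventually.of_forall fun v => ?_)
    rw [norm_mul]
    have h1 := hEP v
    have h2 := Kern.kernel_bound (σ := σ) (v := v) (e := a) hσ2 ha0.le ha1 hN
    have hv : 0 < 1 + |v| := by positivity
    calc _ ≤ (C1 * X ^ η * (1 + |v|) ^ η) * (18 * ((N:ℝ) + 1) ^ (σ + a) * (1 + |v|) ^ (-(1 + a))) :=
          mul_le_mul h1 h2 (norm_nonneg _) (by positivity)
      _ = (C1 * X ^ η * (18 * ((N:ℝ) + 1) ^ (σ + a))) * ((1 + |v|) ^ η * (1 + |v|) ^ (-(1 + a))) := by ring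
      _ = (C1 * X ^ η * (18 * ((N:ℝ) + 1) ^ (σ + a))) * (1 + ‖v‖) ^ (-(1 + η)) := by
          rw [← Real.rpow_add hv, Real.norm_eq_abs]
          congr 2
          rw [hη]; ring
  rw [MeasureTheory.integral_const_mul, ← hJ] at hbound
  have hpi : (1:ℝ) ≤ 2 * Real.pi := by have := Real.pi_gt_three; linarith
  have hn2 : ‖2 * (Real.pi : ℂ) * tw (ext f) χ t N‖ = 2 * Real.pi * ‖tw (ext f) χ t N‖ := by
    rw [norm_mul, norm_mul, Complex.norm_real, Real.norm_of_nonneg Real.pi_pos.le]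
    simp
  have h3 : ‖tw (ext f) χ t N‖ ≤ C1 * X ^ η * (18 * ((N:ℝ) + 1) ^ (σ + a)) * J := by
    refine le_trans ?_ hbound
    rw [hn2]
    exact le_mul_of_one_le_left (norm_nonneg _) hpi
  refine h3.trans ?_
  -- final comparison
  set Z : ℝ := (q:ℝ) * (1 + |t|) with hZ
  have hZ1 : 1 ≤ Z := by rw [hZ]; nlinarith [abs_nonneg t]
  have hXZ : X ≤ 2 * Z := by rw [hX, hZ]; nlinarith [abs_nonneg t, mul_nonneg (by linarith : (0:ℝ) ≤ q) (abs_nonneg t)]
  have h4 : X ^ η ≤ 2 ^ η * Z ^ ε := by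
    calc X ^ η ≤ (2 * Z) ^ η := Real.rpow_le_rpow hX0.le hXZ hη0.le
      _ = 2 ^ η * Z ^ η := Real.mul_rpow (by norm_num) (by linarith)
      _ ≤ 2 ^ η * Z ^ ε := by
          refine mul_le_mul_of_nonneg_left ?_ (by positivity)
          exact Real.rpow_le_rpow_of_exponent_le hZ1 (by rw [hη]; linarith)
  have h5 : ((N:ℝ) + 1) ^ (σ + a) ≤ 2 ^ (1 / 2 + 2 * a) * ((N:ℝ) ^ ε * (N:ℝ) ^ (1 / 2 : ℝ)) := by
    have h6 : σ + a = 1 / 2 + 2 * a := by rw [hσ]; ring
    rw [h6]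
    calc ((N:ℝ) + 1) ^ (1 / 2 + 2 * a) ≤ (2 * (N:ℝ)) ^ (1 / 2 + 2 * a) :=
          Real.rpow_le_rpow (by positivity) (by linarith) (by linarith)
      _ = 2 ^ (1 / 2 + 2 * a) * (N:ℝ) ^ (1 / 2 + 2 * a) := Real.mul_rpow (by norm_num) (by positivity)
      _ ≤ 2 ^ (1 / 2 + 2 * a) * ((N:ℝ) ^ ε * (N:ℝ) ^ (1 / 2 : ℝ)) := by
          refine mul_le_mul_of_nonneg_left ?_ (by positivity)
          rw [← Real.rpow_add (by linarith : (0:ℝ) < N)]
          exact Real.rpow_le_rpow_of_exponent_le hN1 (by linarith)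
  have h7 : (Z * N) ^ ε = Z ^ ε * (N:ℝ) ^ ε := Real.mul_rpow (by linarith) (by positivity)
  rw [h7]
  have hZ0 : 0 ≤ Z ^ ε := by positivity
  calc C1 * X ^ η * (18 * ((N:ℝ) + 1) ^ (σ + a)) * J
      ≤ C1 * (2 ^ η * Z ^ ε) * (18 * (2 ^ (1 / 2 + 2 * a) * ((N:ℝ) ^ ε * (N:ℝ) ^ (1 / 2 : ℝ)))) * J := by
        gcongr
    _ = _ := by ring

end Pool.Agent.Helper92.GB
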