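import Pool.Agent.Helper92.GB.Defs

/-!
# Block GB-PAR (MP_b6b996_nt)
Parity decomposition.
Proof. For `n` squarefree let `u(n)`, `v(n)` be the numbers of primes of `L`, `B` dividing `n`; `ext (f_{s,s'}) n = s^u s'^v ext f n`. So
`(1/4) ∑_{s,s'} s s' F(ext f_{s,s'}) = ∑_{n ≤ 16 z², u, v odd} ext f n · e(n x)`. Three primes `> 3z` have product `> 27 z³ ≥ 16 z²`, so `u = v = 1`,
`n = p l m` with `p l > 9 z²`, so `m < 2`, `n = p l`, and all `p l ≤ 16 z²` occur exactly once (`L`, `B` disjoint). The norm of an average is at most the maximum.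
-/

set_option autoImplicit false

namespace Pool.Agent.Helper92.GB

open Finset

private theorem ext_congr {f g : ℕ → ℤ} {n : ℕ} (h : ∀ p ∈ n.primeFactors, f p = g p) :
    ext f n = ext g n := by
  unfold ext
  split_ifs with hs
  · exact Finset.prod_congr rfl h
  · rfl

private theorem ext_pl (f : ℕ → ℤ) {p l : ℕ} (hp : p.Prime) (hl : l.Prime) (hne : p ≠ l) :
    ext f (p * l) = f p * f l := by
  have hc : Nat.Coprime p l := (Nat.coprime_primes hp hl).2 hne
  have hsq : Squarefree (p * l) :=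
    (Nat.squarefree_mul hc).2 ⟨hp.squarefree, hl.squarefree⟩
  unfold ext
  rw [if_pos hsq, hc.primeFactors_mul, hp.primeFactors, hl.primeFactors,
    Finset.prod_union (by simpa using hne)]
  simp

theorem PAR (z : ℕ) (hz : 1 ≤ z) (L B : Finset ℕ) (hL : ∀ p ∈ L, p.Prime ∧ 3 * z < p ∧ p ≤ 4 * z)
    (hB : ∀ p ∈ B, p.Prime ∧ 3 * z < p ∧ p ≤ 4 * z) (hd : Disjoint L B) (f : ℕ → ℤ) (x : ℝ) :
    ∃ s s' : ℤˣ, ‖∑ p ∈ B, ∑ l ∈ L, (f p : ℂ) * (f l : ℂ) * e ((p * l : ℕ) * x)‖ ≤
      ‖F (ext (fun n => if n ∈ L then s * f n else if n ∈ B then s' * f n else f n))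
        (16 * z ^ 2) x‖ := by
  classical
  set φ : ℤˣ → ℤˣ → ℕ → ℤ := fun s s' n =>
    if n ∈ L then s * f n else if n ∈ B then s' * f n else f n with hφ
  set T : ℂ := ∑ p ∈ B, ∑ l ∈ L, (f p : ℂ) * (f l : ℂ) * e ((p * l : ℕ) * x) with hT
  have hBL : ∀ p ∈ B, p ∉ L := fun p hp hpL => (Finset.disjoint_left.1 hd) hpL hp
  -- the combination
  have key : F (ext (φ 1 1)) (16 * z ^ 2) x - F (ext (φ 1 (-1))) (16 * z ^ 2) x
      - F (ext (φ (-1) 1)) (16 * z ^ 2) x + F (ext (φ (-1) (-1))) (16 * z ^ 2) x = 4 * T := by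
    set H : ℕ → ℂ := fun n => ((ext (φ 1 1) n : ℂ) - (ext (φ 1 (-1)) n : ℂ)
      - (ext (φ (-1) 1) n : ℂ) + (ext (φ (-1) (-1)) n : ℂ)) * e (n * x) with hH
    have h1 : F (ext (φ 1 1)) (16 * z ^ 2) x - F (ext (φ 1 (-1))) (16 * z ^ 2) x
      - F (ext (φ (-1) 1)) (16 * z ^ 2) x + F (ext (φ (-1) (-1))) (16 * z ^ 2) x
        = ∑ n ∈ Icc 1 (16 * z ^ 2), H n := by
      simp only [F, hH]
      rw [← Finset.sum_sub_distrib, ← Finset.sum_sub_distrib, ← Finset.sum_add_distrib]
      refine Finset.sum_congr rfl fun n _ => ?_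
      ring
    have hinj : Set.InjOn (fun q : ℕ × ℕ => q.1 * q.2) (B ×ˢ L : Finset (ℕ × ℕ)) := by
      rintro ⟨p, l⟩ h ⟨p', l'⟩ h' heq
      simp only [Finset.coe_product, Set.mem_prod, Finset.mem_coe] at h h'
      simp only at heq
      have hp := (hB p h.1).1
      have hp' := (hB p' h'.1).1
      have hl' := (hL l' h'.2).1
      have hdvd : p ∣ p' * l' := by rw [← heq]; exact Dvd.intro _ rfl
      rcases (Nat.Prime.dvd_mul hp).1 hdvd with h2 | h2
      · have : p = p' := (Nat.prime_dvd_prime_iff_eq hp hp').1 h2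
        subst this
        have : l = l' := Nat.eq_of_mul_eq_mul_left hp.pos heq
        subst this
        rfl
      · have : p = l' := (Nat.prime_dvd_prime_iff_eq hp hl').1 h2
        exact absurd (this ▸ h'.2) (hBL p h.1)
    have hsub : (B ×ˢ L).image (fun q : ℕ × ℕ => q.1 * q.2) ⊆ Icc 1 (16 * z ^ 2) := by
      intro n hn
      simp only [Finset.mem_image, Finset.mem_product, Prod.exists] at hn
      obtain ⟨p, l, ⟨hp, hl⟩, rfl⟩ := hn
      have h2 := hB p hp
      have h3 := hL l hl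
      rw [Finset.mem_Icc]
      constructor
      · exact Nat.mul_pos h2.1.pos h3.1.pos
      · calc p * l ≤ (4 * z) * (4 * z) := Nat.mul_le_mul h2.2.2 h3.2.2
          _ = 16 * z ^ 2 := by ring
    have hzero : ∀ n ∈ Icc 1 (16 * z ^ 2), n ∉ (B ×ˢ L).image (fun q : ℕ × ℕ => q.1 * q.2) →
        H n = 0 := by
      intro n hn hn'
      rw [Finset.mem_Icc] at hn
      by_cases hLn : ∃ l ∈ L, l ∣ n
      · by_cases hBn : ∃ p ∈ B, p ∣ n
        · exfalso
          obtain ⟨l, hl, hln⟩ := hLn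
          obtain ⟨p, hp, hpn⟩ := hBn
          have hp2 := hB p hp
          have hl2 := hL l hl
          have hne : p ≠ l := by
            rintro rfl
            exact hBL p hp hl
          have hc : Nat.Coprime p l := (Nat.coprime_primes hp2.1 hl2.1).2 hne
          obtain ⟨m, hm⟩ := hc.mul_dvd_of_dvd_of_dvd hpn hln
          have hpl : 9 * z ^ 2 < p * l := by
            calc 9 * z ^ 2 = (3 * z) * (3 * z) := by ring
              _ < p * l := Nat.mul_lt_mul'' hp2.2.1 hl2.2.1
          have hm1 : m = 1 := by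
            rcases Nat.lt_or_ge m 1 with h | h
            · have : m = 0 := by omega
              subst this
              simp at hm
              omega
            · rcases Nat.lt_or_ge 1 m with h' | h'
              · exfalso
                have h4 : p * l * 2 ≤ n := by
                  rw [hm]
                  exact Nat.mul_le_mul_left _ h'
                omega
              · omega
          apply hn'
          simp only [Finset.mem_image, Finset.mem_product, Prod.exists]
          exact ⟨p, l, ⟨hp, hl⟩, by rw [hm, hm1, mul_one]⟩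
        · have h5 : ∀ s : ℤˣ, ext (φ s 1) n = ext (φ s (-1)) n := by
            intro s
            apply ext_congr
            intro q hq
            have hqn : q ∣ n := Nat.dvd_of_mem_primeFactors hq
            have hqB : q ∉ B := fun h => hBn ⟨q, h, hqn⟩
            simp [hφ, hqB]
          simp only [hH]
          rw [h5 1, h5 (-1)]
          ring
      · have h5 : ∀ s' : ℤˣ, ext (φ 1 s') n = ext (φ (-1) s') n := by
          intro s'
          apply ext_congr
          intro q hq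
          have hqn : q ∣ n := Nat.dvd_of_mem_primeFactors hq
          have hqL : q ∉ L := fun h => hLn ⟨q, h, hqn⟩
          simp [hφ, hqL]
        simp only [hH]
        rw [h5 1, h5 (-1)]
        ring
    rw [h1, ← Finset.sum_subset hsub (fun n hn hn' => hzero n hn hn'), Finset.sum_image hinj,
      Finset.sum_product, hT, Finset.mul_sum]
    refine Finset.sum_congr rfl fun p hp => ?_
    rw [Finset.mul_sum]
    refine Finset.sum_congr rfl fun l hl => ?_
    have hp2 := hB p hp
    have hl2 := hL l hl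
    have hne : p ≠ l := by
      rintro rfl
      exact hBL p hp hl
    simp only [hH]
    rw [ext_pl _ hp2.1 hl2.1 hne, ext_pl _ hp2.1 hl2.1 hne, ext_pl _ hp2.1 hl2.1 hne,
      ext_pl _ hp2.1 hl2.1 hne]
    simp only [hφ, hBL p hp, hp, hl, if_true, if_false]
    push_cast
    ring
  by_contra hcon
  push Not at hcon
  have a1 := hcon 1 1
  have a2 := hcon 1 (-1)
  have a3 := hcon (-1) 1
  have a4 := hcon (-1) (-1)
  have hn : ‖(4 : ℂ) * T‖ = 4 * ‖T‖ := by
    rw [norm_mul]; norm_num
  have hle : ‖(4 : ℂ) * T‖ ≤ ‖F (ext (φ 1 1)) (16 * z ^ 2) x‖ + ‖F (ext (φ 1 (-1))) (16 * z ^ 2) x‖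
      + ‖F (ext (φ (-1) 1)) (16 * z ^ 2) x‖ + ‖F (ext (φ (-1) (-1))) (16 * z ^ 2) x‖ := by
    rw [← key]
    refine (norm_add_le _ _).trans ?_
    gcongr
    refine (norm_sub_le _ _).trans ?_
    gcongr
    exact norm_sub_le _ _
  change ‖F (ext (φ 1 1)) (16 * z ^ 2) x‖ < ‖T‖ at a1
  change ‖F (ext (φ 1 (-1))) (16 * z ^ 2) x‖ < ‖T‖ at a2
  change ‖F (ext (φ (-1) 1)) (16 * z ^ 2) x‖ < ‖T‖ at a3
  change ‖F (ext (φ (-1) (-1))) (16 * z ^ 2) x‖ < ‖T‖ at a4
  rw [hn] at hle
  linarith

end Pool.Agent.Helper92.GB
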