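import Mathlib

/-!
# Block GB-SEQ (MP_b6b996_nt)
Choosing a sequence of parameters such that the `j`-th condition depends only on the first parameters.
-/

set_option autoImplicit false

namespace Pool.Agent.Helper92.GB

theorem SEQ {α : Type} [Inhabited α] (P : ℕ → (ℕ → α) → Prop)
    (hloc : ∀ (j : ℕ) (σ τ : ℕ → α), (∀ i ≤ j, σ i = τ i) → P j σ → P j τ)
    (hex : ∀ (j : ℕ) (σ : ℕ → α), ∃ a : α, P j (Function.update σ j a)) :
    ∃ σ : ℕ → α, ∀ j, P j σ := by
  choose a ha using hex
  let b : ℕ → (ℕ → α) := fun n => Nat.rec (fun _ => default)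
    (fun j s => Function.update s j (a j s)) n
  have hb : ∀ j, b (j + 1) = Function.update (b j) j (a j (b j)) := fun j => rfl
  have hstab : ∀ i n, i < n → b n i = b (i + 1) i := by
    intro i n hn
    induction n with
    | zero => omega
    | succ n ih =>
      rcases Nat.lt_succ_iff_lt_or_eq.mp hn with h | h
      · rw [hb n, Function.update_of_ne (by omega), ih h]
      · rw [h]
  refine ⟨fun i => b (i + 1) i, fun j => ?_⟩
  refine hloc j (b (j + 1)) _ (fun i hi => hstab i (j + 1) (by omega)) ?_
  rw [hb j]
  exact ha j (b j)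

end Pool.Agent.Helper92.GB
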