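import Pool.Agent.Helper92.GB.Defs

/-!
# Block GB-U1 (MP_b6b996_nt)
Twisting by `e(n β)` costs only `1 + √(|β| N)`.
Proof. Abel summation. If `β = 0` take `t = 0`, `M = N`. Otherwise cut `(0, N]` at `u_k = k² / |β|`,
`k = 0, 1, …` (only `k ≤ √(|β| N)` matter, so at most `1 + √(|β| N)` pieces). On `[u_k, u_{k+1})` write
`e(n β) = n ^ (i t) · exp(i φ(n))` with `t = 2 π β u_k` (`|t| ≤ 2 π |β| N`), `φ(u) = 2 π β u - t log u`.
-/

set_option autoImplicit false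

namespace Pool.Agent.Helper92.GB

open Finset

/-- Abel summation with complex weights. -/
theorem abel_id_c (b w : ℕ → ℂ) (Y k : ℕ) :
    ∑ n ∈ Ioc Y (Y + k + 1), b n * w n = (∑ n ∈ Icc 1 (Y + k + 1), b n) * w (Y + k + 1)
      - (∑ n ∈ Icc 1 Y, b n) * w (Y + 1)
      - ∑ n ∈ Ioc Y (Y + k), (∑ m ∈ Icc 1 n, b m) * (w (n + 1) - w n) := by
  have hIcc : ∀ j : ℕ, Icc 1 (Y + j + 1) = insert (Y + j + 1) (Icc 1 (Y + j)) := by
    intro j; ext x; simp only [mem_Icc, mem_insert]; omega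
  have hIccn : ∀ j : ℕ, (Y + j + 1) ∉ Icc 1 (Y + j) := by intro j; simp
  induction k with
  | zero =>
    have e1 : Ioc Y (Y + 0 + 1) = {Y + 1} := by
      ext x; simp only [mem_Ioc, mem_singleton]; omega
    rw [e1, sum_singleton, hIcc 0, sum_insert (hIccn 0)]
    simp
    ring
  | succ k ih =>
    have e1 : Ioc Y (Y + (k + 1) + 1) = insert (Y + (k + 1) + 1) (Ioc Y (Y + k + 1)) := by
      ext x; simp only [mem_Ioc, mem_insert]; omega
    have e2 : (Y + (k + 1) + 1) ∉ Ioc Y (Y + k + 1) := by simp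
    have e3 : Ioc Y (Y + (k + 1)) = insert (Y + (k + 1)) (Ioc Y (Y + k)) := by
      ext x; simp only [mem_Ioc, mem_insert]; omega
    have e4 : (Y + (k + 1)) ∉ Ioc Y (Y + k) := by simp
    rw [e1, sum_insert e2, ih, e3, sum_insert e4, hIcc (k + 1), sum_insert (hIccn (k + 1))]
    have : Y + k + 1 = Y + (k + 1) := by ring
    rw [this]
    ring

theorem abel_bound_c (b w : ℕ → ℂ) (A D : ℝ) (Y M : ℕ) (hYM : Y < M)
    (hA : ∀ n, n ≤ M → ‖∑ m ∈ Icc 1 n, b m‖ ≤ A) (hw : ∀ n, ‖w n‖ ≤ 1)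
    (hD : ∀ n, Y < n → n < M → ‖w (n + 1) - w n‖ ≤ D) :
    ‖∑ n ∈ Ioc Y M, b n * w n‖ ≤ A * (2 + (M - (Y + 1 : ℕ) : ℝ) * D) := by
  obtain ⟨k, rfl⟩ := Nat.exists_eq_add_of_lt hYM
  have hA0 : 0 ≤ A := (norm_nonneg _).trans (hA 0 (Nat.zero_le _))
  rw [abel_id_c]
  have h1 : ‖(∑ n ∈ Icc 1 (Y + k + 1), b n) * w (Y + k + 1)‖ ≤ A * 1 := by
    rw [norm_mul]
    exact mul_le_mul (hA _ le_rfl) (hw _) (norm_nonneg _) hA0
  have h2 : ‖(∑ n ∈ Icc 1 Y, b n) * w (Y + 1)‖ ≤ A * 1 := by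
    rw [norm_mul]
    exact mul_le_mul (hA _ hYM.le) (hw _) (norm_nonneg _) hA0
  have h3 : ‖∑ n ∈ Ioc Y (Y + k), (∑ m ∈ Icc 1 n, b m) * (w (n + 1) - w n)‖ ≤ k * (A * D) := by
    calc ‖∑ n ∈ Ioc Y (Y + k), (∑ m ∈ Icc 1 n, b m) * (w (n + 1) - w n)‖
        ≤ ∑ n ∈ Ioc Y (Y + k), ‖(∑ m ∈ Icc 1 n, b m) * (w (n + 1) - w n)‖ := norm_sum_le _ _
      _ ≤ ∑ n ∈ Ioc Y (Y + k), A * D := by
          refine sum_le_sum fun n hn => ?_
          have hn' := mem_Ioc.mp hn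
          rw [norm_mul]
          exact mul_le_mul (hA _ (by omega)) (hD n hn'.1 (by omega)) (norm_nonneg _) hA0
      _ = k * (A * D) := by rw [sum_const, Nat.card_Ioc, nsmul_eq_mul]; simp
  calc _ ≤ ‖(∑ n ∈ Icc 1 (Y + k + 1), b n) * w (Y + k + 1) - (∑ n ∈ Icc 1 Y, b n) * w (Y + 1)‖
        + ‖∑ n ∈ Ioc Y (Y + k), (∑ m ∈ Icc 1 n, b m) * (w (n + 1) - w n)‖ := norm_sub_le _ _
    _ ≤ (A * 1 + A * 1) + k * (A * D) :=
        add_le_add ((norm_sub_le _ _).trans (add_le_add h1 h2)) h3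
    _ = A * (2 + (((Y + k + 1 : ℕ) : ℝ) - (Y + 1 : ℕ) : ℝ) * D) := by push_cast; ring

/-- the weight `exp(i(2πβ n - t log n))` -/
noncomputable def wgt (β t : ℝ) (n : ℕ) : ℂ :=
  Complex.exp (Complex.I * ((2 * Real.pi * β * n - t * Real.log n : ℝ) : ℂ))

theorem norm_wgt (β t : ℝ) (n : ℕ) : ‖wgt β t n‖ = 1 := by
  unfold wgt
  rw [mul_comm]
  exact Complex.norm_exp_ofReal_mul_I _

theorem e_eq (β t : ℝ) (n : ℕ) (hn : 1 ≤ n) : e (n * β) = npi n t * wgt β t n := by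
  have hn0 : (n:ℂ) ≠ 0 := by exact_mod_cast (by omega : n ≠ 0)
  unfold e npi wgt
  rw [Complex.cpow_def_of_ne_zero hn0, ← Complex.exp_add]
  congr 1
  have : Complex.log (n:ℂ) = ((Real.log n : ℝ) : ℂ) := by
    rw [Complex.ofReal_log (Nat.cast_nonneg n)]
    simp
  rw [this]
  push_cast
  ring

theorem wgt_diff (β t : ℝ) (n : ℕ) (_hn : 1 ≤ n) :
    ‖wgt β t (n + 1) - wgt β t n‖ ≤ |2 * Real.pi * β - t * (Real.log ((n + 1 : ℕ) : ℝ) - Real.log n)| := by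
  have h1 : wgt β t (n + 1) = wgt β t n * Complex.exp (Complex.I *
      ((2 * Real.pi * β - t * (Real.log ((n + 1 : ℕ) : ℝ) - Real.log n) : ℝ) : ℂ)) := by
    unfold wgt
    rw [← Complex.exp_add]
    congr 1
    push_cast
    ring
  have h2 : wgt β t (n + 1) - wgt β t n = wgt β t n * (Complex.exp (Complex.I *
      ((2 * Real.pi * β - t * (Real.log ((n + 1 : ℕ) : ℝ) - Real.log n) : ℝ) : ℂ)) - 1) := by
    rw [h1]; ring
  rw [h2, norm_mul, norm_wgt, one_mul]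
  exact Real.norm_exp_I_mul_ofReal_sub_one_le

theorem log_diff_bounds (n : ℕ) (hn : 1 ≤ n) :
    1 / ((n:ℝ) + 1) ≤ Real.log ((n + 1 : ℕ) : ℝ) - Real.log n ∧
      Real.log ((n + 1 : ℕ) : ℝ) - Real.log n ≤ 1 / n := by
  have hn0 : (0:ℝ) < n := by exact_mod_cast hn
  have hn1 : (0:ℝ) < (n:ℝ) + 1 := by linarith
  push_cast
  constructor
  · have h := Real.add_one_le_exp (-(1 / ((n:ℝ) + 1)))
    have h2 : -(1 / ((n:ℝ) + 1)) + 1 = n / (n + 1) := by field_simp; ring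
    rw [h2] at h
    have h3 := Real.log_le_log (by positivity) h
    rw [Real.log_exp, Real.log_div hn0.ne' hn1.ne'] at h3
    linarith
  · have h := Real.log_le_sub_one_of_pos (x := ((n:ℝ) + 1) / n) (by positivity)
    rw [Real.log_div hn1.ne' hn0.ne'] at h
    have h2 : ((n:ℝ) + 1) / n - 1 = 1 / n := by field_simp; ring
    linarith

/-- one piece, `u > 0` -/
theorem piece_pos (b : ℕ → ℂ) (β A u U : ℝ) (N Y M : ℕ) (hu : 0 < u) (hUu : |β| * (U - u) ^ 2 ≤ 9 * u)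
    (hMN : M ≤ N) (huN : u ≤ N) (hn : ∀ n ∈ Ioc Y M, u ≤ n ∧ (n:ℝ) < U)
    (hA : ∀ t : ℝ, |t| ≤ 2 * Real.pi * |β| * N → ∀ M : ℕ, M ≤ N →
      ‖∑ n ∈ Icc 1 M, b n * npi n t‖ ≤ A) :
    ‖∑ n ∈ Ioc Y M, b n * e (n * β)‖ ≤ 60 * A := by
  have hA0 : 0 ≤ A := (norm_nonneg _).trans (hA 0 (by simp; positivity) 0 (Nat.zero_le _))
  rcases Nat.lt_or_ge Y M with hYM | hYM
  swap
  · rw [Ioc_eq_empty (by omega)]
    simpa using by positivity
  set t : ℝ := 2 * Real.pi * β * u with ht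
  have htb : |t| ≤ 2 * Real.pi * |β| * N := by
    rw [ht, abs_mul, abs_mul, abs_of_pos Real.two_pi_pos, abs_of_pos hu]
    exact mul_le_mul_of_nonneg_left huN (by positivity)
  have hpi : 0 < Real.pi := Real.pi_pos
  set D : ℝ := 2 * Real.pi * |β| * ((U - u) / u) with hD
  have hYM1 := hn M (mem_Ioc.mpr ⟨hYM, le_rfl⟩)
  have hY1 := hn (Y + 1) (mem_Ioc.mpr ⟨by omega, hYM⟩)
  have hUu0 : 0 < U - u := by linarith [hYM1.1, hYM1.2]
  have hab := abel_bound_c (fun n => b n * npi n t) (wgt β t) A D Y M hYM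
    (fun n hnM => hA t htb n (hnM.trans hMN)) (fun n => (norm_wgt β t n).le) (by
      intro n hYn hnM
      have hn1 : 1 ≤ n := by omega
      have hn0 : (0:ℝ) < n := by exact_mod_cast hn1
      refine (wgt_diff β t n hn1).trans ?_
      have hl := log_diff_bounds n hn1
      set l := Real.log ((n + 1 : ℕ) : ℝ) - Real.log n with hldef
      have h1 : 2 * Real.pi * β - t * l = 2 * Real.pi * β * (1 - u * l) := by rw [ht]; ring
      rw [h1, abs_mul, abs_mul, abs_of_pos Real.two_pi_pos, hD]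
      refine mul_le_mul_of_nonneg_left ?_ (by positivity)
      have hnu := hn n (mem_Ioc.mpr ⟨hYn, hnM.le⟩)
      have hn1u := hn (n + 1) (mem_Ioc.mpr ⟨by omega, hnM⟩)
      have h2 : u * l ≤ 1 := by
        calc u * l ≤ n * (1 / n) := mul_le_mul hnu.1 hl.2 (by
                have : 0 < 1 / ((n:ℝ) + 1) := by positivity
                linarith [hl.1]) hn0.le
          _ = 1 := by field_simp
      have h3 : u * (1 / ((n:ℝ) + 1)) ≤ u * l := mul_le_mul_of_nonneg_left hl.1 hu.le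
      rw [abs_of_nonneg (by linarith)]
      have h4 : ((n + 1 : ℕ) : ℝ) < U := hn1u.2
      push_cast at h4
      have h5 : 1 - u * (1 / ((n:ℝ) + 1)) = ((n:ℝ) + 1 - u) / ((n:ℝ) + 1) := by field_simp
      have h6 : ((n:ℝ) + 1 - u) / ((n:ℝ) + 1) ≤ (U - u) / u := by
        rw [div_le_div_iff₀ (by positivity) hu]
        have h7 : 0 ≤ (n:ℝ) + 1 - u := by linarith [hnu.1]
        nlinarith [hnu.1]
      linarith)
  have hsum : ∑ n ∈ Ioc Y M, b n * e (n * β) = ∑ n ∈ Ioc Y M, (b n * npi n t) * wgt β t n := by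
    refine sum_congr rfl fun n hn' => ?_
    rw [e_eq β t n (by have := (mem_Ioc.mp hn').1; omega)]
    ring
  rw [hsum]
  refine hab.trans ?_
  have h1 : (M:ℝ) - (Y + 1 : ℕ) ≤ U - u := by linarith [hYM1.2, hY1.1]
  have hD0 : 0 ≤ D := by rw [hD]; positivity
  have h2 : ((M:ℝ) - (Y + 1 : ℕ)) * D ≤ 57 := by
    calc ((M:ℝ) - (Y + 1 : ℕ)) * D ≤ (U - u) * D := mul_le_mul_of_nonneg_right h1 hD0
      _ = 2 * Real.pi * ((|β| * (U - u) ^ 2) / u) := by rw [hD]; ring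
      _ ≤ 2 * Real.pi * 9 := by
          refine mul_le_mul_of_nonneg_left ?_ (by positivity)
          rw [div_le_iff₀ hu]
          exact hUu
      _ ≤ 57 := by have := Real.pi_lt_d2; linarith
  nlinarith

/-- first piece, `t = 0` -/
theorem piece_zero (b : ℕ → ℂ) (β A : ℝ) (N M : ℕ) (hMN : M ≤ N) (hM : |β| * M ≤ 1)
    (hA : ∀ t : ℝ, |t| ≤ 2 * Real.pi * |β| * N → ∀ M : ℕ, M ≤ N →
      ‖∑ n ∈ Icc 1 M, b n * npi n t‖ ≤ A) :
    ‖∑ n ∈ Ioc 0 M, b n * e (n * β)‖ ≤ 60 * A := by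
  have h0 : |(0:ℝ)| ≤ 2 * Real.pi * |β| * N := by simp; positivity
  have hA0 : 0 ≤ A := (norm_nonneg _).trans (hA 0 h0 0 (Nat.zero_le _))
  rcases Nat.lt_or_ge 0 M with hYM | hYM
  swap
  · rw [Ioc_eq_empty (by omega)]
    simpa using by positivity
  have hpi : 0 < Real.pi := Real.pi_pos
  have hab := abel_bound_c (fun n => b n * npi n 0) (wgt β 0) A (2 * Real.pi * |β|) 0 M hYM
    (fun n hnM => hA 0 h0 n (hnM.trans hMN)) (fun n => (norm_wgt β 0 n).le) (by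
      intro n hYn hnM
      refine (wgt_diff β 0 n (by omega)).trans ?_
      rw [zero_mul, sub_zero, abs_mul, abs_of_pos Real.two_pi_pos])
  have hsum : ∑ n ∈ Ioc 0 M, b n * e (n * β) = ∑ n ∈ Ioc 0 M, (b n * npi n 0) * wgt β 0 n := by
    refine sum_congr rfl fun n hn' => ?_
    rw [e_eq β 0 n (by have := (mem_Ioc.mp hn').1; omega)]
    ring
  rw [hsum]
  refine hab.trans ?_
  have h1 : (M:ℝ) - ((0 + 1 : ℕ) : ℝ) ≤ M := by push_cast; linarith
  have h2 : ((M:ℝ) - ((0 + 1 : ℕ) : ℝ)) * (2 * Real.pi * |β|) ≤ 57 := by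
    calc ((M:ℝ) - ((0 + 1 : ℕ) : ℝ)) * (2 * Real.pi * |β|) ≤ M * (2 * Real.pi * |β|) :=
          mul_le_mul_of_nonneg_right h1 (by positivity)
      _ = 2 * Real.pi * (|β| * M) := by ring
      _ ≤ 2 * Real.pi * 1 := mul_le_mul_of_nonneg_left hM (by positivity)
      _ ≤ 57 := by have := Real.pi_lt_d2; linarith
  nlinarith

theorem U1 (b : ℕ → ℂ) (β A : ℝ) (N : ℕ)
    (hA : ∀ t : ℝ, |t| ≤ 2 * Real.pi * |β| * N → ∀ M : ℕ, M ≤ N →
      ‖∑ n ∈ Icc 1 M, b n * npi n t‖ ≤ A) :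
    ‖∑ n ∈ Icc 1 N, b n * e (n * β)‖ ≤ 100 * A * (1 + Real.sqrt (|β| * N)) := by
  have hpi : 0 < Real.pi := Real.pi_pos
  have h0 : |(0:ℝ)| ≤ 2 * Real.pi * |β| * N := by simp; positivity
  have hA0 : 0 ≤ A := (norm_nonneg _).trans (hA 0 h0 0 (Nat.zero_le _))
  have hIcc : ∀ m : ℕ, Icc 1 m = Ioc 0 m := by intro m; ext x; simp only [mem_Icc, mem_Ioc]; omega
  rcases eq_or_ne β 0 with hβ | hβ
  · subst hβ
    have h1 := piece_zero b 0 A N N le_rfl (by simp) hA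
    rw [hIcc]
    refine h1.trans ?_
    simp
    linarith
  have hβ0 : 0 < |β| := abs_pos.mpr hβ
  set s := Real.sqrt (|β| * N) with hs
  have hs0 : 0 ≤ s := Real.sqrt_nonneg _
  have hss : s ^ 2 = |β| * N := Real.sq_sqrt (by positivity)
  set K := ⌊s⌋₊ with hK
  have hKs : (K:ℝ) ≤ s := Nat.floor_le hs0
  have hKs' : s < K + 1 := Nat.lt_floor_add_one s
  -- cut points
  set m : ℕ → ℕ := fun k => min N (⌈(k:ℝ) ^ 2 / |β|⌉₊ - 1) with hm
  have hm0 : m 0 = 0 := by simp [hm]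
  have hmK : m (K + 1) = N := by
    simp only [hm]
    refine min_eq_left ?_
    have h1 : (N:ℝ) < ((K + 1 : ℕ):ℝ) ^ 2 / |β| := by
      rw [lt_div_iff₀ hβ0, mul_comm, ← hss]
      push_cast
      exact pow_lt_pow_left₀ hKs' hs0 (by norm_num)
    have h2 : N < ⌈((K + 1 : ℕ):ℝ) ^ 2 / |β|⌉₊ := Nat.lt_ceil.mpr h1
    omega
  have hmmono : ∀ k, m k ≤ m (k + 1) := by
    intro k
    simp only [hm]
    have h1 : (k:ℝ) ^ 2 / |β| ≤ ((k + 1 : ℕ):ℝ) ^ 2 / |β| := by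
      push_cast
      gcongr
      linarith
    have h2 : ⌈(k:ℝ) ^ 2 / |β|⌉₊ ≤ ⌈((k + 1 : ℕ):ℝ) ^ 2 / |β|⌉₊ := Nat.ceil_mono h1
    exact min_le_min le_rfl (by omega)
  have hmN : ∀ k, m k ≤ N := fun k => min_le_left _ _
  have hup : ∀ k n : ℕ, n ≤ m k → 1 ≤ n → (n:ℝ) < (k:ℝ) ^ 2 / |β| := by
    intro k n hn hn1
    have h1 : n ≤ ⌈(k:ℝ) ^ 2 / |β|⌉₊ - 1 := hn.trans (min_le_right _ _)
    exact Nat.lt_ceil.mp (by omega)
  have hlow : ∀ k n : ℕ, m k < n → n ≤ N → (k:ℝ) ^ 2 / |β| ≤ n := by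
    intro k n hn hnN
    have h1 : ⌈(k:ℝ) ^ 2 / |β|⌉₊ - 1 < n := by
      by_contra hcon
      push Not at hcon
      have : n ≤ m k := le_min hnN hcon
      omega
    exact Nat.ceil_le.mp (by omega)
  -- telescoping
  have htel : ∀ j : ℕ, ∑ n ∈ Ioc 0 (m j), b n * e (n * β)
      = ∑ k ∈ range j, ∑ n ∈ Ioc (m k) (m (k + 1)), b n * e (n * β) := by
    intro j
    induction j with
    | zero => simp [hm0]
    | succ j ih =>
      rw [sum_range_succ, ← ih]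
      have h1 : Ioc 0 (m (j + 1)) = Ioc 0 (m j) ∪ Ioc (m j) (m (j + 1)) := by
        have := hmmono j
        ext x; simp only [mem_Ioc, mem_union]; omega
      have h2 : Disjoint (Ioc 0 (m j)) (Ioc (m j) (m (j + 1))) := by
        rw [Finset.disjoint_left]; intro x hx hx'
        have h1 := (mem_Ioc.mp hx).2; have h2 := (mem_Ioc.mp hx').1; omega
      rw [h1, sum_union h2]
  have hpiece : ∀ k ∈ range (K + 1), ‖∑ n ∈ Ioc (m k) (m (k + 1)), b n * e (n * β)‖ ≤ 60 * A := by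
    intro k hk
    have hkK : k ≤ K := by have := mem_range.mp hk; omega
    rcases Nat.eq_zero_or_pos k with hk0 | hk0
    · subst hk0
      rw [hm0]
      refine piece_zero b β A N (m (0 + 1)) (hmN _) ?_ hA
      rcases Nat.eq_zero_or_pos (m (0 + 1)) with h1 | h1
      · rw [h1]; simp
      · have h2 := hup 1 (m (0 + 1)) le_rfl h1
        rw [lt_div_iff₀ hβ0] at h2
        rw [mul_comm]
        simpa using h2.le
    · have hkr : (1:ℝ) ≤ k := by exact_mod_cast hk0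
      refine piece_pos b β A ((k:ℝ) ^ 2 / |β|) (((k + 1 : ℕ):ℝ) ^ 2 / |β|) N (m k) (m (k + 1))
        (by positivity) ?_ (hmN _) ?_ ?_ hA
      · have h1 : ((k + 1 : ℕ):ℝ) ^ 2 / |β| - (k:ℝ) ^ 2 / |β| = (2 * k + 1) / |β| := by
          push_cast; ring
        rw [h1, div_pow]
        have h2 : |β| * ((2 * (k:ℝ) + 1) ^ 2 / |β| ^ 2) = (2 * k + 1) ^ 2 / |β| := by
          field_simp
        rw [h2, mul_div_assoc', div_le_div_iff_of_pos_right hβ0]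
        nlinarith
      · rw [div_le_iff₀ hβ0, mul_comm, ← hss]
        have h3 : (k:ℝ) ≤ s := le_trans (by exact_mod_cast hkK) hKs
        exact pow_le_pow_left₀ (by positivity) h3 2
      · intro n hn
        have hn' := mem_Ioc.mp hn
        exact ⟨hlow k n hn'.1 (hn'.2.trans (hmN _)), hup (k + 1) n hn'.2 (by omega)⟩
  have hfin : ∑ n ∈ Icc 1 N, b n * e (n * β)
      = ∑ k ∈ range (K + 1), ∑ n ∈ Ioc (m k) (m (k + 1)), b n * e (n * β) := by
    rw [hIcc, ← htel (K + 1), hmK]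
  rw [hfin]
  calc ‖∑ k ∈ range (K + 1), ∑ n ∈ Ioc (m k) (m (k + 1)), b n * e (n * β)‖
      ≤ ∑ k ∈ range (K + 1), ‖∑ n ∈ Ioc (m k) (m (k + 1)), b n * e (n * β)‖ := norm_sum_le _ _
    _ ≤ ∑ k ∈ range (K + 1), 60 * A := sum_le_sum hpiece
    _ = (K + 1) * (60 * A) := by rw [sum_const, card_range, nsmul_eq_mul]; push_cast; ring
    _ ≤ (s + 1) * (60 * A) := mul_le_mul_of_nonneg_right (by linarith) (by positivity)
    _ ≤ 100 * A * (1 + s) := by nlinarith [mul_nonneg hA0 hs0]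

end Pool.Agent.Helper92.GB
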