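import Pool.Agent.Helper92.GB.Defs

/-!
# Block GB-U2 (MP_b6b996_nt)
From characters to additive characters.
Proof. `e(n a / q)` depends on `n` mod `q`. Split `n ≤ N` by `d = gcd(n, q)`, `n = d m`, `q' = q / d`, `gcd(m, q') = 1`.
If `gcd(m, d) > 1` then `n` is not squarefree and `g n = 0` (hsq). Otherwise `g n = g d · g m`, `|g d| ≤ 1`,
`gcd(m, q) = 1`. On the units of `ZMod q'`: `e(m a / q') = ∑_χ c_χ χ(m)` with `c_χ = (1/φ(q')) ∑_u e(u a / q') conj χ(u)`,
`∑_χ |c_χ| ≤ √φ(q')` (Cauchy-Schwarz and Parseval `∑_χ |c_χ|² = 1`; orthogonality of Dirichlet characters is in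
Mathlib, `DirichletCharacter.sum_characters_eq` / `sum_char_inv_mul_char_eq`). `χ` raised to level `q`
(`DirichletCharacter.changeLevel`) is `ψ`, zero at `m` not coprime to `q`. Use hA with `M = N / d` (floor), `β' = d β`:
the total is at most `∑_{d ∣ q} √(q/d) A √(N/d) = A √(q N) ∑_{d ∣ q} 1/d ≤ A √(q N) (1 + log q)`
(`harmonic_le_one_add_log`).
-/

set_option autoImplicit false

namespace Pool.Agent.Helper92.GB

open Finset

theorem u2_expand (q : ℕ) [NeZero q] (f : (ZMod q)ˣ → ℂ) (hf : ∀ u, ‖f u‖ ≤ 1) :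
    ∃ c : DirichletCharacter ℂ q → ℂ, (∀ v : (ZMod q)ˣ, ∑ χ, c χ * χ (v : ZMod q) = f v) ∧
      ∑ χ, ‖c χ‖ ≤ Real.sqrt (q.totient) := by
  have hφ : (0:ℝ) < q.totient := by exact_mod_cast Nat.totient_pos.2 (NeZero.pos q)
  have hφc : (q.totient : ℂ) ≠ 0 := by exact_mod_cast hφ.ne'
  have hconj : ∀ (χ : DirichletCharacter ℂ q) (v : (ZMod q)ˣ),
      (starRingEnd ℂ) (χ ((v : ZMod q)⁻¹)) = χ (v : ZMod q) := by
    intro χ v
    have h1 : ((v : ZMod q)⁻¹) = ((v⁻¹ : (ZMod q)ˣ) : ZMod q) := by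
      rw [ZMod.inv_coe_unit]
    have h2 : ‖χ ((v⁻¹ : (ZMod q)ˣ) : ZMod q)‖ = 1 := DirichletCharacter.unit_norm_eq_one χ v⁻¹
    rw [h1, ← Complex.inv_eq_conj h2]
    have h3 : χ ((v⁻¹ : (ZMod q)ˣ) : ZMod q) * χ (v : ZMod q) = 1 := by
      rw [← map_mul, ← Units.val_mul]; simp
    have h4 : χ ((v⁻¹ : (ZMod q)ˣ) : ZMod q) ≠ 0 := left_ne_zero_of_mul_eq_one h3
    exact inv_eq_of_mul_eq_one_right h3
  refine ⟨fun χ => (q.totient : ℂ)⁻¹ * ∑ u : (ZMod q)ˣ, f u * χ ((u : ZMod q)⁻¹), ?_, ?_⟩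
  · intro v
    have h1 : ∀ u : (ZMod q)ˣ, ∑ χ : DirichletCharacter ℂ q, f u * χ ((u:ZMod q)⁻¹) * χ (v : ZMod q)
        = if u = v then f u * q.totient else 0 := by
      intro u
      simp_rw [mul_assoc]
      rw [← Finset.mul_sum, DirichletCharacter.sum_char_inv_mul_char_eq ℂ u.isUnit]
      simp [Units.ext_iff]
    simp only [mul_assoc, Finset.sum_mul]
    rw [← Finset.mul_sum, Finset.sum_comm]
    simp_rw [← mul_assoc, h1]
    simp
    field_simp
  · have hP : ∑ χ : DirichletCharacter ℂ q,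
        ‖(q.totient : ℂ)⁻¹ * ∑ u : (ZMod q)ˣ, f u * χ ((u : ZMod q)⁻¹)‖ ^ 2 ≤ 1 := by
      have h2 : ((∑ χ : DirichletCharacter ℂ q,
          ‖(q.totient : ℂ)⁻¹ * ∑ u : (ZMod q)ˣ, f u * χ ((u : ZMod q)⁻¹)‖ ^ 2 : ℝ) : ℂ)
          = (q.totient : ℂ)⁻¹ * ∑ u : (ZMod q)ˣ, ((‖f u‖ ^ 2 : ℝ) : ℂ) := by
        have h3 : ∀ χ : DirichletCharacter ℂ q,
            ((‖(q.totient : ℂ)⁻¹ * ∑ u : (ZMod q)ˣ, f u * χ ((u : ZMod q)⁻¹)‖ ^ 2 : ℝ) : ℂ)
            = (q.totient : ℂ)⁻¹ ^ 2 * ∑ u : (ZMod q)ˣ, ∑ v : (ZMod q)ˣ,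
              f u * (starRingEnd ℂ) (f v) * (χ ((u : ZMod q)⁻¹) * χ (v : ZMod q)) := by
          intro χ
          rw [norm_mul, mul_pow]
          push_cast
          have h4 : (‖(q.totient : ℂ)⁻¹‖ : ℂ) = (q.totient : ℂ)⁻¹ := by
            rw [norm_inv, Complex.norm_natCast]; push_cast; rfl
          rw [h4]
          congr 1
          rw [← Complex.mul_conj', map_sum, Finset.sum_mul_sum]
          refine Finset.sum_congr rfl fun u _ => Finset.sum_congr rfl fun v _ => ?_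
          rw [map_mul, hconj]
          ring
        push_cast
        simp only [Complex.ofReal_pow] at h3
        rw [Finset.sum_congr rfl fun χ _ => h3 χ, ← Finset.mul_sum, Finset.sum_comm]
        have h5 : ∀ u : (ZMod q)ˣ, ∑ χ : DirichletCharacter ℂ q, ∑ v : (ZMod q)ˣ,
            f u * (starRingEnd ℂ) (f v) * (χ ((u : ZMod q)⁻¹) * χ (v : ZMod q))
            = (q.totient : ℂ) * ((‖f u‖ : ℂ) ^ 2) := by
          intro u
          rw [Finset.sum_comm]
          have h6 : ∀ v : (ZMod q)ˣ, ∑ χ : DirichletCharacter ℂ q,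
              f u * (starRingEnd ℂ) (f v) * (χ ((u : ZMod q)⁻¹) * χ (v : ZMod q))
              = if u = v then f u * (starRingEnd ℂ) (f v) * q.totient else 0 := by
            intro v
            rw [← Finset.mul_sum, DirichletCharacter.sum_char_inv_mul_char_eq ℂ u.isUnit]
            simp [Units.ext_iff]
          rw [Finset.sum_congr rfl fun v _ => h6 v]
          simp only [Finset.sum_ite_eq, Finset.mem_univ, if_true]
          rw [Complex.mul_conj']
          ring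
        rw [Finset.sum_congr rfl fun u _ => h5 u, ← Finset.mul_sum, ← mul_assoc]
        congr 1
        field_simp
      have h7 : (∑ χ : DirichletCharacter ℂ q,
          ‖(q.totient : ℂ)⁻¹ * ∑ u : (ZMod q)ˣ, f u * χ ((u : ZMod q)⁻¹)‖ ^ 2 : ℝ)
          = (q.totient : ℝ)⁻¹ * ∑ u : (ZMod q)ˣ, ‖f u‖ ^ 2 := by
        apply Complex.ofReal_injective
        rw [h2]; push_cast; rfl
      rw [h7]
      have h8 : ∑ u : (ZMod q)ˣ, ‖f u‖ ^ 2 ≤ ∑ u : (ZMod q)ˣ, (1 : ℝ) := by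
        refine Finset.sum_le_sum fun u _ => ?_
        have := hf u
        have h0 := norm_nonneg (f u)
        nlinarith
      have h9 : ∑ u : (ZMod q)ˣ, (1 : ℝ) = q.totient := by
        rw [Finset.sum_const, Finset.card_univ, ZMod.card_units_eq_totient]; simp
      rw [h9] at h8
      calc (q.totient : ℝ)⁻¹ * ∑ u : (ZMod q)ˣ, ‖f u‖ ^ 2 ≤ (q.totient : ℝ)⁻¹ * q.totient := by gcongr
        _ = 1 := by field_simp
    have hcard : ((Finset.univ : Finset (DirichletCharacter ℂ q)).card : ℝ) = q.totient := by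
      rw [Finset.card_univ, ← Nat.card_eq_fintype_card,
        DirichletCharacter.card_eq_totient_of_hasEnoughRootsOfUnity]
    have hcs := sq_sum_le_card_mul_sum_sq (s := (Finset.univ : Finset (DirichletCharacter ℂ q)))
      (f := fun χ => ‖(q.totient : ℂ)⁻¹ * ∑ u : (ZMod q)ˣ, f u * χ ((u : ZMod q)⁻¹)‖)
    rw [hcard] at hcs
    apply Real.le_sqrt_of_sq_le
    refine hcs.trans ?_
    calc (q.totient : ℝ) * _ ≤ q.totient * 1 := by gcongr
      _ = q.totient := mul_one _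


theorem u2_norm_e (x : ℝ) : ‖e x‖ = 1 := by
  unfold e
  have : (2 * Real.pi * Complex.I * x : ℂ) = ((2 * Real.pi * x : ℝ) : ℂ) * Complex.I := by
    push_cast; ring
  rw [this, Complex.norm_exp_ofReal_mul_I]

theorem u2_e_add (x y : ℝ) : e (x + y) = e x * e y := by
  unfold e
  rw [← Complex.exp_add]
  congr 1
  push_cast; ring

theorem u2_e_int (k : ℤ) : e (k : ℝ) = 1 := by
  unfold e
  have : (2 * Real.pi * Complex.I * ((k : ℝ) : ℂ) : ℂ) = (k : ℂ) * (2 * Real.pi * Complex.I) := by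
    push_cast; ring
  rw [this, Complex.exp_int_mul_two_pi_mul_I]

theorem u2_e_mod (m q : ℕ) (hq : 1 ≤ q) (a : ℤ) :
    e (((m % q : ℕ) : ℝ) * (a / q)) = e ((m : ℝ) * (a / q)) := by
  have hq0 : (q : ℝ) ≠ 0 := by positivity
  obtain ⟨k, hk⟩ : ∃ k : ℕ, m = q * k + m % q := ⟨m / q, (Nat.div_add_mod m q).symm⟩
  have h1 : (m : ℝ) * (a / q) = ((m % q : ℕ) : ℝ) * (a / q) + (((k : ℤ) * a : ℤ) : ℝ) := by
    have h2 : (m : ℝ) = (q : ℝ) * (k : ℝ) + ((m % q : ℕ) : ℝ) := by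
      exact_mod_cast hk
    rw [h2]
    push_cast
    field_simp
    ring
  rw [h1, u2_e_add, u2_e_int, mul_one]

theorem u2_abs_g (g : ℕ → ℤ) (hsq : ∀ n : ℕ, g n ^ 2 = ArithmeticFunction.moebius n ^ 2) (n : ℕ) :
    ‖(g n : ℂ)‖ ≤ 1 := by
  rw [Complex.norm_intCast]
  have h1 : (g n) ^ 2 ≤ 1 := by
    rw [hsq]
    have := ArithmeticFunction.abs_moebius_le_one (n := n)
    have h2 := abs_le.1 this
    nlinarith [h2.1, h2.2]
  have h3 : |g n| ≤ 1 := by
    by_contra h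
    push Not at h
    have : 1 < |g n| ^ 2 := by nlinarith
    rw [sq_abs] at this
    omega
  exact_mod_cast h3

theorem u2_inner (g : ℕ → ℤ) (hmul : ∀ m n : ℕ, m.Coprime n → g (m * n) = g m * g n)
    (hsq : ∀ n : ℕ, g n ^ 2 = ArithmeticFunction.moebius n ^ 2) (d q' : ℕ) (hd : 1 ≤ d)
    (hq' : 1 ≤ q') (a : ℤ) (β A : ℝ) (N : ℕ) (hA0 : 0 ≤ A)
    (hA : ∀ (ψ : DirichletCharacter ℂ (d * q')) (M : ℕ) (β' : ℝ), M ≤ N → |β'| * M ≤ |β| * N →
      ‖∑ m ∈ Icc 1 M, (g m : ℂ) * ψ (m : ZMod (d * q')) * e (m * β')‖ ≤ A * Real.sqrt M) :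
    ‖∑ m ∈ (Icc 1 (N / d)).filter (fun m => m.Coprime q'), (g (d * m) : ℂ) *
      e (((d * m : ℕ) : ℝ) * (a / ((d * q' : ℕ) : ℝ) + β))‖
      ≤ A * Real.sqrt (((d * q' : ℕ) : ℝ) * N) * (1 / d) := by
  have : NeZero q' := ⟨by omega⟩
  have : NeZero (d * q') := ⟨by positivity⟩
  have hd0 : (0 : ℝ) < d := by positivity
  have hq0 : (0 : ℝ) < q' := by positivity
  obtain ⟨c, hc1, hc2⟩ := u2_expand q' (fun u => e (((u : ZMod q').val : ℝ) * (a / q')))
    (fun u => (u2_norm_e _).le)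
  have hdvd : q' ∣ d * q' := Dvd.intro_left d rfl
  have hg0 : ∀ m : ℕ, ¬ m.Coprime d → g (d * m) = 0 := by
    intro m hm
    have h1 : ¬ Squarefree (d * m) := by
      intro h
      exact hm (Nat.squarefree_mul_iff.1 h).1.symm
    have h2 := hsq (d * m)
    rw [ArithmeticFunction.moebius_eq_zero_of_not_squarefree h1] at h2
    simpa using h2
  have key : ∀ m ∈ Icc 1 (N / d), (if m.Coprime q' then (g (d * m) : ℂ) *
      e (((d * m : ℕ) : ℝ) * (a / ((d * q' : ℕ) : ℝ) + β)) else 0) =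
      (g d : ℂ) * ∑ χ : DirichletCharacter ℂ q', c χ * ((g m : ℂ) *
        (DirichletCharacter.changeLevel hdvd χ) (m : ZMod (d * q')) * e (m * (d * β))) := by
    intro m _
    by_cases hm : m.Coprime (d * q')
    · have hm1 : m.Coprime q' := hm.coprime_mul_left_right
      have hm2 : m.Coprime d := hm.coprime_mul_right_right
      rw [if_pos hm1, hmul d m hm2.symm]
      have h1 : ∀ χ : DirichletCharacter ℂ q',
          (DirichletCharacter.changeLevel hdvd χ) (m : ZMod (d * q')) = χ (m : ZMod q') := by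
        intro χ
        have := DirichletCharacter.changeLevel_eq_cast_of_dvd' χ hdvd (a := (m : ℤ))
          (by exact_mod_cast (Nat.isCoprime_iff_coprime.2 hm))
        simpa using this
      have h2 := hc1 (ZMod.unitOfCoprime m hm1)
      simp only [ZMod.coe_unitOfCoprime, ZMod.val_natCast] at h2
      rw [u2_e_mod m q' hq' a] at h2
      have h3 : ((d * m : ℕ) : ℝ) * (a / ((d * q' : ℕ) : ℝ) + β)
          = (m : ℝ) * (a / q') + m * (d * β) := by
        push_cast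
        field_simp
      rw [h3, u2_e_add, ← h2]
      push_cast
      simp only [h1]
      rw [Finset.sum_mul, Finset.mul_sum, Finset.mul_sum]
      refine Finset.sum_congr rfl fun χ _ => ?_
      ring
    · have h1 : ∀ χ : DirichletCharacter ℂ q',
          (DirichletCharacter.changeLevel hdvd χ) (m : ZMod (d * q')) = 0 := by
        intro χ
        apply MulChar.map_nonunit
        rw [ZMod.isUnit_iff_coprime]
        exact hm
      simp only [h1, mul_zero, zero_mul, Finset.sum_const_zero]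
      split_ifs with h2
      · have h3 : ¬ m.Coprime d := fun h => hm (Nat.Coprime.mul_right h h2)
        rw [hg0 m h3]; simp
      · rfl
  rw [Finset.sum_filter, Finset.sum_congr rfl key, ← Finset.mul_sum, Finset.sum_comm]
  simp_rw [← Finset.mul_sum]
  rw [norm_mul]
  have hM : N / d ≤ N := Nat.div_le_self _ _
  have hMr : ((N / d : ℕ) : ℝ) ≤ N / d := Nat.cast_div_le
  have hβ : |(d : ℝ) * β| * ((N / d : ℕ) : ℝ) ≤ |β| * N := by
    rw [abs_mul, abs_of_pos hd0]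
    calc (d : ℝ) * |β| * ((N / d : ℕ) : ℝ) ≤ d * |β| * (N / d) := by gcongr
      _ = |β| * N := by field_simp
  have h5 : ‖∑ χ : DirichletCharacter ℂ q', c χ * ∑ m ∈ Icc 1 (N / d), (g m : ℂ) *
        (DirichletCharacter.changeLevel hdvd χ) (m : ZMod (d * q')) * e (m * (d * β))‖
      ≤ Real.sqrt q'.totient * (A * Real.sqrt ((N / d : ℕ) : ℝ)) := by
    refine (norm_sum_le _ _).trans ?_
    calc _ ≤ ∑ χ : DirichletCharacter ℂ q', ‖c χ‖ * (A * Real.sqrt ((N / d : ℕ) : ℝ)) := by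
          refine Finset.sum_le_sum fun χ _ => ?_
          rw [norm_mul]
          exact mul_le_mul_of_nonneg_left (hA _ _ _ hM hβ) (norm_nonneg _)
      _ = (∑ χ : DirichletCharacter ℂ q', ‖c χ‖) * (A * Real.sqrt ((N / d : ℕ) : ℝ)) := by
          rw [Finset.sum_mul]
      _ ≤ _ := mul_le_mul_of_nonneg_right hc2 (by positivity)
  have h6 : Real.sqrt q'.totient * (A * Real.sqrt ((N / d : ℕ) : ℝ))
      ≤ A * Real.sqrt (((d * q' : ℕ) : ℝ) * N) * (1 / d) := by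
    have h7 : Real.sqrt (((d * q' : ℕ) : ℝ) * N) = d * Real.sqrt (q' * (N / d)) := by
      rw [← Real.sqrt_sq hd0.le, ← Real.sqrt_mul (by positivity), Real.sqrt_sq hd0.le]
      congr 1
      push_cast
      field_simp
    rw [h7, Real.sqrt_mul hq0.le]
    have h8 : Real.sqrt q'.totient ≤ Real.sqrt q' :=
      Real.sqrt_le_sqrt (by exact_mod_cast Nat.totient_le q')
    have h9 : Real.sqrt ((N / d : ℕ) : ℝ) ≤ Real.sqrt (N / d) := Real.sqrt_le_sqrt hMr
    calc Real.sqrt q'.totient * (A * Real.sqrt ((N / d : ℕ) : ℝ))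
        ≤ Real.sqrt q' * (A * Real.sqrt (N / d)) := by gcongr
      _ = A * (d * (Real.sqrt q' * Real.sqrt (N / d))) * (1 / d) := by field_simp
  calc _ ≤ 1 * (Real.sqrt q'.totient * (A * Real.sqrt ((N / d : ℕ) : ℝ))) :=
        mul_le_mul (u2_abs_g g hsq d) h5 (norm_nonneg _) zero_le_one
    _ ≤ _ := by rw [one_mul]; exact h6

theorem u2_split (h : ℕ → ℂ) (q N : ℕ) (hq : 1 ≤ q) :
    ∑ n ∈ Icc 1 N, h n = ∑ d ∈ q.divisors,
      ∑ m ∈ (Icc 1 (N / d)).filter (fun m => m.Coprime (q / d)), h (d * m) := by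
  have h1 : ∀ n ∈ Icc 1 N, n.gcd q ∈ q.divisors := by
    intro n _
    rw [Nat.mem_divisors]
    exact ⟨Nat.gcd_dvd_right n q, by omega⟩
  rw [← Finset.sum_fiberwise_of_maps_to h1]
  refine Finset.sum_congr rfl fun d hd => ?_
  obtain ⟨hdq, -⟩ := Nat.mem_divisors.1 hd
  have hd0 : 0 < d := Nat.pos_of_mem_divisors hd
  symm
  refine Finset.sum_bij (fun m _ => d * m) ?_ ?_ ?_ ?_
  · intro m hm
    rw [Finset.mem_filter, Finset.mem_Icc] at hm ⊢
    obtain ⟨⟨hm1, hm2⟩, hm3⟩ := hm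
    refine ⟨⟨?_, ?_⟩, ?_⟩
    · exact Nat.one_le_iff_ne_zero.2 (by positivity)
    · calc d * m ≤ d * (N / d) := Nat.mul_le_mul_left _ hm2
        _ ≤ N := Nat.mul_div_le N d
    · obtain ⟨r, rfl⟩ := hdq
      rw [Nat.mul_div_cancel_left _ hd0] at hm3
      rw [Nat.gcd_mul_left, hm3.gcd_eq_one, mul_one]
  · intro m1 _ m2 _ h12
    exact Nat.eq_of_mul_eq_mul_left hd0 h12
  · intro n hn
    rw [Finset.mem_filter, Finset.mem_Icc] at hn
    obtain ⟨⟨hn1, hn2⟩, hn3⟩ := hn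
    have hdn : d ∣ n := hn3 ▸ Nat.gcd_dvd_left n q
    obtain ⟨m, rfl⟩ := hdn
    refine ⟨m, ?_, rfl⟩
    rw [Finset.mem_filter, Finset.mem_Icc]
    refine ⟨⟨?_, ?_⟩, ?_⟩
    · rcases Nat.eq_zero_or_pos m with h0 | h0
      · subst h0; simp at hn1
      · exact h0
    · rw [Nat.le_div_iff_mul_le hd0, mul_comm]; exact hn2
    · obtain ⟨r, rfl⟩ := hdq
      rw [Nat.mul_div_cancel_left _ hd0]
      rw [Nat.gcd_mul_left] at hn3
      exact Nat.eq_of_mul_eq_mul_left hd0 (by rw [mul_one]; exact hn3)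
  · intro m _; rfl

theorem U2 (g : ℕ → ℤ) (hmul : ∀ m n : ℕ, m.Coprime n → g (m * n) = g m * g n)
    (hsq : ∀ n : ℕ, g n ^ 2 = ArithmeticFunction.moebius n ^ 2) (q : ℕ) (hq : 1 ≤ q) (a : ℤ)
    (β A : ℝ) (N : ℕ) (hA0 : 0 ≤ A)
    (hA : ∀ (ψ : DirichletCharacter ℂ q) (M : ℕ) (β' : ℝ), M ≤ N → |β'| * M ≤ |β| * N →
      ‖∑ m ∈ Icc 1 M, (g m : ℂ) * ψ (m : ZMod q) * e (m * β')‖ ≤ A * Real.sqrt M) :
    ‖F g N (a / q + β)‖ ≤ A * Real.sqrt (q * N) * (1 + Real.log q) := by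
  unfold F
  rw [u2_split (fun n => (g n : ℂ) * e (n * (a / q + β))) q N hq]
  have h1 : ∀ d ∈ q.divisors, ‖∑ m ∈ (Icc 1 (N / d)).filter (fun m => m.Coprime (q / d)),
      (fun n : ℕ => (g n : ℂ) * e (n * (a / q + β))) (d * m)‖
      ≤ A * Real.sqrt (q * N) * (1 / d) := by
    intro d hd
    obtain ⟨hdq, -⟩ := Nat.mem_divisors.1 hd
    have hd0 : 0 < d := Nat.pos_of_mem_divisors hd
    obtain ⟨r, rfl⟩ := hdq
    rw [Nat.mul_div_cancel_left _ hd0]
    have hr : 1 ≤ r := by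
      rcases Nat.eq_zero_or_pos r with h0 | h0
      · subst h0; simp at hq
      · exact h0
    exact u2_inner g hmul hsq d r hd0 hr a β A N hA0 hA
  refine (norm_sum_le _ _).trans ((Finset.sum_le_sum h1).trans ?_)
  rw [← Finset.mul_sum]
  apply mul_le_mul_of_nonneg_left _ (by positivity)
  have h2 : ∑ d ∈ q.divisors, (1 / (d : ℝ)) ≤ ∑ d ∈ Finset.Icc 1 q, (1 / (d : ℝ)) := by
    refine Finset.sum_le_sum_of_subset_of_nonneg ?_ (fun _ _ _ => by positivity)
    intro d hd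
    rw [Finset.mem_Icc]
    exact ⟨Nat.pos_of_mem_divisors hd, Nat.divisor_le hd⟩
  refine h2.trans ?_
  have h3 : ∑ d ∈ Finset.Icc 1 q, (1 / (d : ℝ)) = ((harmonic q : ℚ) : ℝ) := by
    rw [harmonic_eq_sum_Icc]
    push_cast
    simp
  rw [h3]
  exact harmonic_le_one_add_log q

end Pool.Agent.Helper92.GB
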