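import Pool.Agent.Helper92.GB.Defs
import Pool.Agent.Helper92.GB.U1
import Pool.Agent.Helper92.GB.U2

/-!
# Block GB-U3 (MP_b6b996_nt)
Upper bound 3/4 for the whole class (imports U1, U2).
Proof. Put `Q = ⌊√N⌋ + 1`; Dirichlet (`Real.exists_int_int_abs_mul_sub_le` or similar): `1 ≤ q ≤ Q`, `|x - a/q| ≤ 1/(q Q)` (any such bound
with `√N` instead of `Q`). With `β = x - a/q`: `|β| N ≤ √N / q`. The class gives, for every `ψ` mod `q`, `|t| ≤ 2 π |β'| M`, `M' ≤ M`,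
`‖tw g ψ t M'‖ ≤ C (q (1 + 2 π |β| N) N) ^ ε' √M`, so U1 (applied to `b n = g n ψ n`) gives hA of U2 with
`A = 100 C (q (1 + 2π |β| N) N) ^ ε' (1 + √(|β| N))`, and U2 gives
`|F| ≤ A √(q N) (1 + log q)`, where `√(q N) (1 + √(|β| N)) ≤ √N (√q + √(q |β| N)) ≤ 4 N ^ (3/4)` and the rest is `O(N ^ (4 ε'))`.
-/

set_option autoImplicit false

namespace Pool.Agent.Helper92.GB

open Finset

theorem U3_aux (g : ℕ → ℤ) (hg : GRHClass g) (C δ : ℝ) (hC : 0 ≤ C) (hδ : 0 < δ)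
    (hb : ∀ (q : ℕ) (χ : DirichletCharacter ℂ q) (t : ℝ) (N : ℕ),
      1 ≤ q → 1 ≤ N → ‖tw g χ t N‖ ≤ C * ((q : ℝ) * (1 + |t|) * N) ^ δ * (N : ℝ) ^ (1 / 2 : ℝ))
    (q N : ℕ) (hq : 1 ≤ q) (a : ℤ) (β : ℝ) :
    ‖F g N (a / q + β)‖ ≤
      (100 * C * ((q : ℝ) * (1 + 2 * Real.pi * |β| * N) * N) ^ δ * (1 + Real.sqrt (|β| * N)))
        * Real.sqrt (q * N) * (1 + Real.log q) := by
  have hq0 : (0 : ℝ) < q := by exact_mod_cast hq
  refine U2 g hg.mul hg.sq q hq a β _ N (by positivity) ?_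
  intro ψ M β' hMN hβ
  have hMN' : (M : ℝ) ≤ N := by exact_mod_cast hMN
  have h1 := U1 (fun n => (g n : ℂ) * ψ (n : ZMod q)) β'
    (C * ((q : ℝ) * (1 + 2 * Real.pi * |β| * N) * N) ^ δ * Real.sqrt M) M (by
      intro t ht M' hM'
      rcases Nat.eq_zero_or_pos M' with h0 | h0
      · subst h0
        simp
        positivity
      · have h2 := hb q ψ t M' hq h0
        unfold tw at h2
        refine h2.trans ?_
        have hM'' : (M' : ℝ) ≤ M := by exact_mod_cast hM'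
        have hM0 : (0 : ℝ) < M' := by exact_mod_cast h0
        have ht' : |t| ≤ 2 * Real.pi * |β| * N := by
          calc |t| ≤ 2 * Real.pi * |β'| * M := ht
            _ = 2 * Real.pi * (|β'| * M) := by ring
            _ ≤ 2 * Real.pi * (|β| * N) := by gcongr
            _ = 2 * Real.pi * |β| * N := by ring
        rw [Real.sqrt_eq_rpow]
        gcongr
        exact hM'.trans hMN)
  refine h1.trans ?_
  have h3 : Real.sqrt (|β'| * M) ≤ Real.sqrt (|β| * N) := Real.sqrt_le_sqrt hβ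
  calc 100 * (C * ((q : ℝ) * (1 + 2 * Real.pi * |β| * N) * N) ^ δ * Real.sqrt M)
        * (1 + Real.sqrt (|β'| * M))
      ≤ 100 * (C * ((q : ℝ) * (1 + 2 * Real.pi * |β| * N) * N) ^ δ * Real.sqrt M)
        * (1 + Real.sqrt (|β| * N)) := by gcongr
    _ = _ := by ring

theorem U3 (g : ℕ → ℤ) (hg : GRHClass g) (ε : ℝ) (hε : 0 < ε) :
    ∃ C : ℝ, ∀ N : ℕ, 1 ≤ N → ∀ x : ℝ, ‖F g N x‖ ≤ C * (N : ℝ) ^ (3 / 4 + ε) := by
  set δ : ℝ := ε / 3 with hδdef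
  have hδ : 0 < δ := by positivity
  obtain ⟨C0, hC0⟩ := hg.bound δ hδ
  set C : ℝ := max C0 0 with hCdef
  have hC : 0 ≤ C := le_max_right _ _
  have hb : ∀ (q : ℕ) (χ : DirichletCharacter ℂ q) (t : ℝ) (N : ℕ),
      1 ≤ q → 1 ≤ N → ‖tw g χ t N‖ ≤ C * ((q : ℝ) * (1 + |t|) * N) ^ δ * (N : ℝ) ^ (1 / 2 : ℝ) := by
    intro q χ t N h1 h2
    refine (hC0 q χ t N h1 h2).trans ?_
    have : C0 ≤ C := le_max_left _ _
    gcongr
  refine ⟨100 * C * 8 ^ δ * 2 * (1 + 1 / δ), ?_⟩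
  intro N hN x
  have hN1 : (1 : ℝ) ≤ N := by exact_mod_cast hN
  have hN0 : (0 : ℝ) < N := by linarith
  have hs : 0 < Nat.sqrt N := Nat.sqrt_pos.mpr hN
  obtain ⟨j, k, hk0, hkn, hjk⟩ := Real.exists_int_int_abs_mul_sub_le x hs
  obtain ⟨q, rfl⟩ : ∃ q : ℕ, k = q := ⟨k.toNat, by omega⟩
  have hq : 1 ≤ q := by omega
  have hqs : q ≤ Nat.sqrt N := by exact_mod_cast hkn
  have hq1 : (1 : ℝ) ≤ q := by exact_mod_cast hq
  have hq0 : (0 : ℝ) < q := by linarith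
  have hsq : ((Nat.sqrt N : ℕ) : ℝ) ≤ Real.sqrt N := Real.nat_sqrt_le_real_sqrt
  have hsq2 : Real.sqrt N ≤ (Nat.sqrt N : ℕ) + 1 := Real.real_sqrt_le_nat_sqrt_succ
  have hqsN : (q : ℝ) ≤ Real.sqrt N := le_trans (by exact_mod_cast hqs) hsq
  have hsqN0 : 0 < Real.sqrt N := Real.sqrt_pos.mpr hN0
  have hqN : (q : ℝ) ≤ N := by
    refine hqsN.trans ?_
    rw [Real.sqrt_le_left hN0.le]
    nlinarith
  set β : ℝ := x - j / q with hβdef
  have hx : x = (j : ℝ) / q + β := by rw [hβdef]; ring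
  have hβ1 : q * |β| * N ≤ Real.sqrt N := by
    have h1 : (q : ℝ) * |β| = |(q : ℝ) * x - j| := by
      rw [← abs_of_pos hq0, ← abs_mul, abs_of_pos hq0, hβdef]
      congr 1
      field_simp
    have h2 : (q : ℝ) * |β| ≤ 1 / Real.sqrt N := by
      rw [h1]
      have h3 : |((q : ℤ) : ℝ) * x - j| ≤ 1 / ((Nat.sqrt N : ℕ) + 1) := hjk
      simp only [Int.cast_natCast] at h3
      refine h3.trans ?_
      exact one_div_le_one_div_of_le hsqN0 hsq2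
    calc (q : ℝ) * |β| * N ≤ 1 / Real.sqrt N * N := by gcongr
      _ = Real.sqrt N := by
        rw [one_div, inv_mul_eq_div, Real.div_sqrt]
  have hβ2 : |β| * N ≤ Real.sqrt N := by
    have : |β| * N ≤ q * |β| * N := by
      have h5 : 0 ≤ |β| * N := by positivity
      nlinarith
    exact this.trans hβ1
  have hmain := U3_aux g hg C δ hC hδ hb q N hq j β
  rw [hx]
  refine hmain.trans ?_
  -- first factor
  have hf1 : ((q : ℝ) * (1 + 2 * Real.pi * |β| * N) * N) ^ δ ≤ 8 ^ δ * (N : ℝ) ^ (2 * δ) := by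
    have h1 : (q : ℝ) * (1 + 2 * Real.pi * |β| * N) * N ≤ 8 * (N : ℝ) ^ 2 := by
      have hpi : Real.pi ≤ 3.5 := by linarith [Real.pi_lt_d2]
      have h2 : 1 + 2 * Real.pi * |β| * N ≤ 8 * Real.sqrt N := by
        have h3 : 2 * Real.pi * |β| * N ≤ 7 * Real.sqrt N := by
          calc 2 * Real.pi * |β| * N = 2 * Real.pi * (|β| * N) := by ring
            _ ≤ 2 * 3.5 * Real.sqrt N := by gcongr
            _ = 7 * Real.sqrt N := by norm_num
        have h4 : 1 ≤ Real.sqrt N := by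
          rw [Real.one_le_sqrt]; exact hN1
        linarith
      calc (q : ℝ) * (1 + 2 * Real.pi * |β| * N) * N
          ≤ Real.sqrt N * (8 * Real.sqrt N) * N := by gcongr
        _ = 8 * (Real.sqrt N * Real.sqrt N) * N := by ring
        _ = 8 * (N : ℝ) ^ 2 := by rw [Real.mul_self_sqrt hN0.le]; ring
    calc ((q : ℝ) * (1 + 2 * Real.pi * |β| * N) * N) ^ δ ≤ (8 * (N : ℝ) ^ 2) ^ δ := by
          gcongr
      _ = 8 ^ δ * (N : ℝ) ^ (2 * δ) := by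
        rw [Real.mul_rpow (by norm_num) (by positivity), ← Real.rpow_natCast, ← Real.rpow_mul hN0.le]
        norm_num
  have hf2 : (1 + Real.sqrt (|β| * N)) * Real.sqrt (q * N) ≤ 2 * (N : ℝ) ^ (3 / 4 : ℝ) := by
    have e34 : Real.sqrt (Real.sqrt N * N) = (N : ℝ) ^ (3 / 4 : ℝ) := by
      rw [Real.sqrt_eq_rpow, Real.sqrt_eq_rpow, Real.mul_rpow (by positivity) hN0.le,
        ← Real.rpow_mul hN0.le, ← Real.rpow_add hN0]
      norm_num
    have h1 : Real.sqrt (q * N) ≤ (N : ℝ) ^ (3 / 4 : ℝ) := by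
      rw [← e34]
      apply Real.sqrt_le_sqrt
      gcongr
    have h2 : Real.sqrt (|β| * N) * Real.sqrt (q * N) ≤ (N : ℝ) ^ (3 / 4 : ℝ) := by
      rw [← Real.sqrt_mul (by positivity), ← e34]
      apply Real.sqrt_le_sqrt
      calc |β| * N * (q * N) = (q * |β| * N) * N := by ring
        _ ≤ Real.sqrt N * N := by gcongr
    calc (1 + Real.sqrt (|β| * N)) * Real.sqrt (q * N)
        = Real.sqrt (q * N) + Real.sqrt (|β| * N) * Real.sqrt (q * N) := by ring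
      _ ≤ (N : ℝ) ^ (3 / 4 : ℝ) + (N : ℝ) ^ (3 / 4 : ℝ) := add_le_add h1 h2
      _ = 2 * (N : ℝ) ^ (3 / 4 : ℝ) := by ring
  have hf3 : 1 + Real.log q ≤ (1 + 1 / δ) * (N : ℝ) ^ δ := by
    have h1 : Real.log q ≤ (q : ℝ) ^ δ / δ := Real.log_le_rpow_div hq0.le hδ
    have h2 : (q : ℝ) ^ δ ≤ (N : ℝ) ^ δ := by gcongr
    have h3 : (1 : ℝ) ≤ (N : ℝ) ^ δ := Real.one_le_rpow hN1 hδ.le
    calc 1 + Real.log q ≤ (N : ℝ) ^ δ + (N : ℝ) ^ δ / δ := by
          have h4 : (q : ℝ) ^ δ / δ ≤ (N : ℝ) ^ δ / δ := by gcongr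
          linarith
      _ = (1 + 1 / δ) * (N : ℝ) ^ δ := by ring
  have hlog0 : 0 ≤ Real.log q := Real.log_nonneg hq1
  calc (100 * C * ((q : ℝ) * (1 + 2 * Real.pi * |β| * N) * N) ^ δ * (1 + Real.sqrt (|β| * N)))
        * Real.sqrt (q * N) * (1 + Real.log q)
      = 100 * C * ((q : ℝ) * (1 + 2 * Real.pi * |β| * N) * N) ^ δ
        * ((1 + Real.sqrt (|β| * N)) * Real.sqrt (q * N)) * (1 + Real.log q) := by ring
    _ ≤ 100 * C * (8 ^ δ * (N : ℝ) ^ (2 * δ)) * (2 * (N : ℝ) ^ (3 / 4 : ℝ))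
        * ((1 + 1 / δ) * (N : ℝ) ^ δ) := by
        gcongr
    _ = 100 * C * 8 ^ δ * 2 * (1 + 1 / δ)
        * ((N : ℝ) ^ (2 * δ) * (N : ℝ) ^ (3 / 4 : ℝ) * (N : ℝ) ^ δ) := by ring
    _ = 100 * C * 8 ^ δ * 2 * (1 + 1 / δ) * (N : ℝ) ^ (3 / 4 + ε) := by
        rw [← Real.rpow_add hN0, ← Real.rpow_add hN0]
        congr 2
        rw [hδdef]; ring

end Pool.Agent.Helper92.GB
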