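import Pool.Agent.Helper92.GB.Defs

/-!
# Block GB-T1 (MP_b6b996_nt)
Moments of random multiplicative functions.
Proof. Expand `‖S‖^(2k) = S^k conj(S)^k` over `v ∈ (Icc 1 N)^(2k)`; `∑_ω ∏_i ext (sg ω) (v i)` is `0` unless all `v i` are squarefree and every prime occurs
an even number of times, i.e. `∏ v i` is a square, and then it is `2^(M+1)`.
-/

set_option autoImplicit false

namespace Pool.Agent.Helper92.GB

open Finset

theorem T1_square {n : ℕ} (hn : n ≠ 0) (h : ∀ p : ℕ, p.Prime → Even (n.factorization p)) :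
    IsSquare n := by
  refine ⟨n.factorization.prod fun p k => p ^ (k / 2), ?_⟩
  conv_lhs => rw [← Nat.prod_factorization_pow_eq_self hn]
  rw [← Finsupp.prod_mul]
  refine Finsupp.prod_congr fun p hp => ?_
  rw [← pow_add]
  congr 1
  have hpp : p.Prime := Nat.prime_of_mem_primeFactors (by simpa using hp)
  obtain ⟨m, hm⟩ := h p hpp
  omega

theorem T1_flip {M : ℕ} (ω : Fin (M + 1) → ℤˣ) (p : Fin (M + 1)) (q : ℕ) :
    sg (ω * Pi.mulSingle p (-1)) q = (if q = (p : ℕ) then -1 else 1) * sg ω q := by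
  unfold sg
  by_cases h : q < M + 1
  · rw [dif_pos h, dif_pos h, Pi.mul_apply]
    by_cases hq : q = (p : ℕ)
    · have : (⟨q, h⟩ : Fin (M + 1)) = p := Fin.ext hq
      rw [this, Pi.mulSingle_eq_same, if_pos hq]
      push_cast
      ring
    · have : (⟨q, h⟩ : Fin (M + 1)) ≠ p := fun h' => hq (by rw [← h'])
      rw [Pi.mulSingle_eq_of_ne this, if_neg hq]
      push_cast
      ring
  · rw [dif_neg h, dif_neg h, if_neg, one_mul]
    intro hq
    exact h (hq ▸ p.2)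

theorem T1_ext {M : ℕ} (ω : Fin (M + 1) → ℤˣ) (p : Fin (M + 1)) (hp : (p : ℕ).Prime) (n : ℕ)
    (hn : Squarefree n) :
    ext (sg (ω * Pi.mulSingle p (-1))) n = (-1) ^ (n.factorization p) * ext (sg ω) n := by
  unfold ext
  rw [if_pos hn, if_pos hn]
  have h1 : ∀ q ∈ n.primeFactors, sg (ω * Pi.mulSingle p (-1)) q =
      (if q = (p : ℕ) then -1 else 1) * sg ω q := fun q _ => T1_flip ω p q
  rw [Finset.prod_congr rfl h1, Finset.prod_mul_distrib]
  congr 1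
  rw [Finset.prod_ite_eq' n.primeFactors (p : ℕ) (fun _ => (-1 : ℤ))]
  have hn0 : n ≠ 0 := hn.ne_zero
  by_cases hpn : (p : ℕ) ∣ n
  · rw [if_pos (Nat.mem_primeFactors.2 ⟨hp, hpn, hn0⟩)]
    have h2 : n.factorization p ≤ 1 := hn.natFactorization_le_one _
    have h3 : 1 ≤ n.factorization p := (hp.dvd_iff_one_le_factorization hn0).1 hpn
    rw [le_antisymm h2 h3, pow_one]
  · rw [if_neg (fun h => hpn (Nat.dvd_of_mem_primeFactors h)),
      Nat.factorization_eq_zero_of_not_dvd hpn, pow_zero]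

theorem T1_abs {M : ℕ} (ω : Fin (M + 1) → ℤˣ) (n : ℕ) : ‖((ext (sg ω) n : ℤ) : ℂ)‖ ≤ 1 := by
  unfold ext
  split_ifs with h
  · push_cast
    rw [norm_prod]
    refine Finset.prod_le_one (fun _ _ => norm_nonneg _) fun q _ => ?_
    unfold sg
    split_ifs with h'
    · rcases Int.units_eq_one_or (ω ⟨q, h'⟩) with h1 | h1 <;> rw [h1] <;> simp
    · simp
  · simp

theorem T1_zero {M N : ℕ} (hN : N ≤ M) {ι : Type} [Fintype ι] (v : ι → ℕ)
    (hv : ∀ i, v i ∈ Icc 1 N) (hsq : ¬ IsSquare (∏ i, v i)) :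
    ∑ ω : Fin (M + 1) → ℤˣ, ∏ i, ((ext (sg ω) (v i) : ℤ) : ℂ) = 0 := by
  by_cases hall : ∀ i, Squarefree (v i)
  · have hne : ∏ i, v i ≠ 0 := Finset.prod_ne_zero_iff.2 fun i _ => by
      have := Finset.mem_Icc.1 (hv i); omega
    have : ∃ p : ℕ, p.Prime ∧ ¬ Even ((∏ i, v i).factorization p) := by
      by_contra hcon
      push Not at hcon
      exact hsq (T1_square hne hcon)
    obtain ⟨p, hp, hodd⟩ := this
    have hpN : p < M + 1 := by
      have h1 : (∏ i, v i).factorization p ≠ 0 := fun h => hodd (by rw [h]; exact ⟨0, rfl⟩)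
      have h2 : p ∣ ∏ i, v i := Nat.dvd_of_factorization_pos h1
      obtain ⟨i, _, hi⟩ := (Prime.dvd_finsetProd_iff hp.prime _).1 h2
      have h3 := Finset.mem_Icc.1 (hv i)
      have h4 := Nat.le_of_dvd (by omega) hi
      omega
    have hfac : (∏ i, v i).factorization p = ∑ i, (v i).factorization p := by
      rw [Nat.factorization_prod (fun i _ => by have := Finset.mem_Icc.1 (hv i); omega)]
      simp
    have hpt : ∀ ω : Fin (M + 1) → ℤˣ,
        ∏ i, ((ext (sg (ω * Pi.mulSingle ⟨p, hpN⟩ (-1))) (v i) : ℤ) : ℂ) =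
        - ∏ i, ((ext (sg ω) (v i) : ℤ) : ℂ) := by
      intro ω
      have h1 : ∀ i, ((ext (sg (ω * Pi.mulSingle ⟨p, hpN⟩ (-1))) (v i) : ℤ) : ℂ) =
          (-1) ^ ((v i).factorization p) * ((ext (sg ω) (v i) : ℤ) : ℂ) := by
        intro i
        rw [T1_ext ω ⟨p, hpN⟩ hp (v i) (hall i)]
        push_cast
        rfl
      rw [Finset.prod_congr rfl fun i _ => h1 i, Finset.prod_mul_distrib,
        Finset.prod_pow_eq_pow_sum, ← hfac, (Nat.not_even_iff_odd.1 hodd).neg_one_pow]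
      ring
    have hsum : ∑ ω : Fin (M + 1) → ℤˣ, ∏ i, ((ext (sg ω) (v i) : ℤ) : ℂ) =
        - ∑ ω : Fin (M + 1) → ℤˣ, ∏ i, ((ext (sg ω) (v i) : ℤ) : ℂ) := by
      conv_lhs => rw [← Equiv.sum_comp (Equiv.mulRight (Pi.mulSingle ⟨p, hpN⟩ (-1)))]
      rw [← Finset.sum_neg_distrib]
      exact Finset.sum_congr rfl fun ω _ => hpt ω
    have h2 : (2 : ℂ) * ∑ ω : Fin (M + 1) → ℤˣ, ∏ i, ((ext (sg ω) (v i) : ℤ) : ℂ) = 0 := by
      linear_combination hsum
    simpa using h2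
  · push Not at hall
    obtain ⟨i, hi⟩ := hall
    refine Finset.sum_eq_zero fun ω _ => Finset.prod_eq_zero (Finset.mem_univ i) ?_
    unfold ext
    rw [if_neg hi]
    simp

theorem T1 (M N k : ℕ) (hN : N ≤ M) (a : ℕ → ℂ) (ha : ∀ n, ‖a n‖ ≤ 1) :
    ∑ ω : Fin (M + 1) → ℤˣ, ‖∑ n ∈ Icc 1 N, (ext (sg ω) n : ℂ) * a n‖ ^ (2 * k) ≤
      2 ^ (M + 1) * (((Fintype.piFinset (fun _ : Fin (2 * k) => Icc 1 N)).filter
        (fun v => IsSquare (∏ i, v i))).card : ℝ) := by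
  classical
  let b : Fin (2 * k) → ℕ → ℂ := fun i n => if (i : ℕ) < k then a n else (starRingEnd ℂ) (a n)
  have hb : ∀ i n, ‖b i n‖ ≤ 1 := by
    intro i n
    simp only [b]
    split_ifs
    · exact ha n
    · rw [RCLike.norm_conj]; exact ha n
  have hexp : ∀ ω : Fin (M + 1) → ℤˣ,
      ((‖∑ n ∈ Icc 1 N, (ext (sg ω) n : ℂ) * a n‖ ^ (2 * k) : ℝ) : ℂ) =
      ∑ v ∈ Fintype.piFinset (fun _ : Fin (2 * k) => Icc 1 N),
        (∏ i, b i (v i)) * ∏ i, ((ext (sg ω) (v i) : ℤ) : ℂ) := by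
    intro ω
    set S : ℂ := ∑ n ∈ Icc 1 N, (ext (sg ω) n : ℂ) * a n with hS
    have h1 : ∀ i : Fin (2 * k), (∑ n ∈ Icc 1 N, b i n * ((ext (sg ω) n : ℤ) : ℂ)) =
        if (i : ℕ) < k then S else (starRingEnd ℂ) S := by
      intro i
      simp only [b]
      split_ifs with h
      · rw [hS]; exact Finset.sum_congr rfl fun n _ => mul_comm _ _
      · rw [hS, map_sum]
        refine Finset.sum_congr rfl fun n _ => ?_
        rw [map_mul, map_intCast, mul_comm]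
    have h2 : ∏ i : Fin (2 * k), (∑ n ∈ Icc 1 N, b i n * ((ext (sg ω) n : ℤ) : ℂ)) =
        ∑ v ∈ Fintype.piFinset (fun _ : Fin (2 * k) => Icc 1 N),
          ∏ i, (b i (v i) * ((ext (sg ω) (v i) : ℤ) : ℂ)) := Finset.prod_univ_sum _ _
    simp only [Finset.prod_mul_distrib] at h2
    rw [← h2, Finset.prod_congr rfl fun i _ => h1 i]
    rw [Fin.prod_univ_eq_prod_range (fun i => if i < k then S else (starRingEnd ℂ) S) (2 * k)]
    rw [two_mul, Finset.prod_range_add]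
    rw [Finset.prod_congr rfl (g := fun _ => S)
      (fun i hi => if_pos (Finset.mem_range.1 hi))]
    rw [Finset.prod_congr rfl (g := fun _ => (starRingEnd ℂ) S)
      (fun i _ => if_neg (by omega)), Finset.prod_const, Finset.prod_const, Finset.card_range,
      ← mul_pow, Complex.mul_conj', ← pow_mul]
    push_cast
    rw [two_mul]
  have hC : ((∑ ω : Fin (M + 1) → ℤˣ, ‖∑ n ∈ Icc 1 N, (ext (sg ω) n : ℂ) * a n‖ ^ (2 * k) : ℝ) : ℂ)
      = ∑ v ∈ Fintype.piFinset (fun _ : Fin (2 * k) => Icc 1 N),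
        (∏ i, b i (v i)) * ∑ ω : Fin (M + 1) → ℤˣ, ∏ i, ((ext (sg ω) (v i) : ℤ) : ℂ) := by
    rw [Complex.ofReal_sum, Finset.sum_congr rfl fun ω _ => hexp ω, Finset.sum_comm]
    exact Finset.sum_congr rfl fun v _ => (Finset.mul_sum _ _ _).symm
  have hnn : 0 ≤ ∑ ω : Fin (M + 1) → ℤˣ, ‖∑ n ∈ Icc 1 N, (ext (sg ω) n : ℂ) * a n‖ ^ (2 * k) :=
    Finset.sum_nonneg fun _ _ => by positivity
  have hnorm : ∑ ω : Fin (M + 1) → ℤˣ, ‖∑ n ∈ Icc 1 N, (ext (sg ω) n : ℂ) * a n‖ ^ (2 * k) =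
      ‖((∑ ω : Fin (M + 1) → ℤˣ,
        ‖∑ n ∈ Icc 1 N, (ext (sg ω) n : ℂ) * a n‖ ^ (2 * k) : ℝ) : ℂ)‖ := by
    rw [Complex.norm_real, Real.norm_of_nonneg hnn]
  rw [hnorm, hC]
  refine le_trans (norm_sum_le _ _) ?_
  have hterm : ∀ v ∈ Fintype.piFinset (fun _ : Fin (2 * k) => Icc 1 N),
      ‖(∏ i, b i (v i)) * ∑ ω : Fin (M + 1) → ℤˣ, ∏ i, ((ext (sg ω) (v i) : ℤ) : ℂ)‖ ≤
      if IsSquare (∏ i, v i) then (2 : ℝ) ^ (M + 1) else 0 := by
    intro v hv
    rw [Fintype.mem_piFinset] at hv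
    split_ifs with hsq
    · rw [norm_mul]
      have h1 : ‖∏ i, b i (v i)‖ ≤ 1 := by
        rw [norm_prod]
        exact Finset.prod_le_one (fun _ _ => norm_nonneg _) fun i _ => hb i _
      have h2 : ‖∑ ω : Fin (M + 1) → ℤˣ, ∏ i, ((ext (sg ω) (v i) : ℤ) : ℂ)‖ ≤ 2 ^ (M + 1) := by
        refine le_trans (norm_sum_le _ _) ?_
        refine le_trans (Finset.sum_le_card_nsmul _ _ 1 fun ω _ => ?_) ?_
        · rw [norm_prod]
          exact Finset.prod_le_one (fun _ _ => norm_nonneg _) fun i _ => T1_abs ω _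
        · simp
      calc _ ≤ 1 * (2 : ℝ) ^ (M + 1) := mul_le_mul h1 h2 (norm_nonneg _) zero_le_one
        _ = _ := one_mul _
    · rw [T1_zero hN v hv hsq, mul_zero, norm_zero]
  refine le_trans (Finset.sum_le_sum hterm) ?_
  rw [← Finset.sum_filter, Finset.sum_const, nsmul_eq_mul, mul_comm]

end Pool.Agent.Helper92.GB
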