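import Pool.Agent.Helper92.GB.Defs
import Pool.Agent.Helper7.GPC.Div

/-!
# Block GB-T2 (MP_b6b996_nt)
Counting. Proof. `∏ v i = s²`, `s ≤ N^k`; for given `m = s²` every `v i` divides `m`, so at most `d(m)^(2k) ≤ C m^(ε/(2k))` tuples
(divisor bound `d(m) ≤ C_δ m^δ`; is it in the library? grep), `m ≤ N^(2k)`. Number of `s` is at most `N^k`. (`k = 0`: one tuple.)
-/

set_option autoImplicit false

namespace Pool.Agent.Helper92.GB

open Finset

theorem T2 (k : ℕ) (ε : ℝ) (hε : 0 < ε) : ∃ C : ℝ, ∀ N : ℕ, 1 ≤ N →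
    (((Fintype.piFinset (fun _ : Fin (2 * k) => Icc 1 N)).filter
        (fun v => IsSquare (∏ i, v i))).card : ℝ) ≤ C * (N : ℝ) ^ ((k : ℝ) + ε) := by
  have hδ : 0 < ε / (4 * ((k : ℝ) + 1) ^ 2) := by positivity
  obtain ⟨C, hC1, hC⟩ := Pool.Agent.Helper7.GPC.card_divisors_le hδ
  refine ⟨C ^ (2 * k), fun N hN => ?_⟩
  have hNR : (1 : ℝ) ≤ (N : ℝ) := by exact_mod_cast hN
  have hN0 : (0 : ℝ) < (N : ℝ) := by linarith
  set S := (Fintype.piFinset (fun _ : Fin (2 * k) => Icc 1 N)).filter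
        (fun v => IsSquare (∏ i, v i)) with hS
  have hsub : S ⊆ (Icc 1 (N ^ k)).biUnion
      (fun s => Fintype.piFinset (fun _ : Fin (2 * k) => (s ^ 2).divisors)) := by
    intro v hv
    rw [hS, mem_filter, Fintype.mem_piFinset] at hv
    obtain ⟨hv1, s, hs⟩ := hv
    have hpos : 0 < ∏ i, v i := Finset.prod_pos fun i _ => (mem_Icc.1 (hv1 i)).1
    have hs0 : s ≠ 0 := by
      rintro rfl
      rw [hs] at hpos
      simp at hpos
    have hle : ∏ i, v i ≤ N ^ (2 * k) := by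
      calc ∏ i, v i ≤ ∏ _i : Fin (2 * k), N :=
            Finset.prod_le_prod' fun i _ => (mem_Icc.1 (hv1 i)).2
        _ = N ^ (2 * k) := by simp
    have hsN : s ≤ N ^ k := by
      have h1 : s ^ 2 ≤ (N ^ k) ^ 2 := by
        rw [← pow_mul, mul_comm k 2, sq, ← hs]
        exact hle
      exact (Nat.pow_le_pow_iff_left (by norm_num)).1 h1
    rw [mem_biUnion]
    refine ⟨s, mem_Icc.2 ⟨Nat.one_le_iff_ne_zero.2 hs0, hsN⟩, ?_⟩
    rw [Fintype.mem_piFinset]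
    intro i
    rw [Nat.mem_divisors]
    refine ⟨?_, pow_ne_zero 2 hs0⟩
    rw [sq, ← hs]
    exact Finset.dvd_prod_of_mem v (mem_univ i)
  have hcard : S.card ≤ ∑ s ∈ Icc 1 (N ^ k), ((s ^ 2).divisors.card) ^ (2 * k) := by
    refine (card_le_card hsub).trans (card_biUnion_le.trans ?_)
    refine Finset.sum_le_sum fun s _ => ?_
    rw [Fintype.card_piFinset]
    simp
  have hterm : ∀ s ∈ Icc 1 (N ^ k), (((s ^ 2).divisors.card : ℝ)) ^ (2 * k) ≤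
      C ^ (2 * k) * (N : ℝ) ^ ε := by
    intro s hs
    obtain ⟨hs1, hs2⟩ := mem_Icc.1 hs
    have hs0 : s ^ 2 ≠ 0 := pow_ne_zero 2 (by omega)
    have h1 := hC (s ^ 2) hs0
    have h2 : (((s ^ 2 : ℕ)) : ℝ) ≤ (N : ℝ) ^ (2 * k) := by
      have : s ^ 2 ≤ N ^ (2 * k) := by
        calc s ^ 2 ≤ (N ^ k) ^ 2 := Nat.pow_le_pow_left hs2 2
          _ = N ^ (2 * k) := by rw [← pow_mul, mul_comm k 2]
      exact_mod_cast this
    have h3 : (((s ^ 2 : ℕ)) : ℝ) ^ (ε / (4 * ((k : ℝ) + 1) ^ 2)) ≤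
        ((N : ℝ) ^ (2 * k)) ^ (ε / (4 * ((k : ℝ) + 1) ^ 2)) :=
      Real.rpow_le_rpow (by positivity) h2 hδ.le
    have h4 : (((s ^ 2).divisors.card : ℝ)) ≤
        C * ((N : ℝ) ^ (2 * k)) ^ (ε / (4 * ((k : ℝ) + 1) ^ 2)) :=
      h1.trans (mul_le_mul_of_nonneg_left h3 (by linarith))
    have h5 := pow_le_pow_left₀ (by positivity) h4 (2 * k)
    refine h5.trans ?_
    rw [mul_pow]
    refine mul_le_mul_of_nonneg_left ?_ (by positivity)
    rw [← Real.rpow_natCast (N : ℝ) (2 * k), ← Real.rpow_mul hN0.le,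
      ← Real.rpow_natCast _ (2 * k), ← Real.rpow_mul hN0.le]
    refine Real.rpow_le_rpow_of_exponent_le hNR ?_
    push_cast
    have hk : (0 : ℝ) ≤ (k : ℝ) := Nat.cast_nonneg k
    rw [show (2 * (k : ℝ)) * (ε / (4 * ((k : ℝ) + 1) ^ 2)) * (2 * (k : ℝ)) =
      ε * ((4 * (k : ℝ) ^ 2) / (4 * ((k : ℝ) + 1) ^ 2)) by ring]
    have h6 : (4 * (k : ℝ) ^ 2) / (4 * ((k : ℝ) + 1) ^ 2) ≤ 1 := by
      rw [div_le_one (by positivity)]
      nlinarith
    calc ε * ((4 * (k : ℝ) ^ 2) / (4 * ((k : ℝ) + 1) ^ 2)) ≤ ε * 1 :=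
          mul_le_mul_of_nonneg_left h6 hε.le
      _ = ε := mul_one ε
  calc (S.card : ℝ) ≤ ∑ s ∈ Icc 1 (N ^ k), (((s ^ 2).divisors.card : ℝ)) ^ (2 * k) := by
        exact_mod_cast hcard
    _ ≤ ∑ _s ∈ Icc 1 (N ^ k), C ^ (2 * k) * (N : ℝ) ^ ε := Finset.sum_le_sum hterm
    _ = (N : ℝ) ^ k * (C ^ (2 * k) * (N : ℝ) ^ ε) := by
        rw [Finset.sum_const, Nat.card_Icc, nsmul_eq_mul]
        push_cast
        ring
    _ = C ^ (2 * k) * (N : ℝ) ^ ((k : ℝ) + ε) := by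
        rw [Real.rpow_add hN0, Real.rpow_natCast]
        ring

end Pool.Agent.Helper92.GB
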