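import Pool.Agent.Helper92.GB.Defs
import Pool.Agent.Helper92.GB.T1
import Pool.Agent.Helper92.GB.T2
import Pool.Agent.Helper92.GB.P3
import Pool.Agent.Helper92.GB.U2
import Pool.Agent.Helper92.GB.RB

/-!
# Block GB-HALF (MP_b6b996_nt)
Existence of a member of the class with exponent 1/2 (imports T1, T2).
Proof. For `m ≥ 1` and `N` let `Bad(m, N)` be the set of sign functions `f` for which `g = ext f` violates `sup_x ‖F g N x‖ ≤ 2 N^(1/2+1/m)` or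
`‖tw g χ t N‖ ≤ 2 (q(1+|t|)N)^(1/m) N^(1/2)` for some `q ≥ 1, χ, t`. It depends only on `f p`, `p ≤ N`. Only `q (1+|t|) ≤ N^m` matters (else the bound is trivial, `N`). Grids
of step `N^(-3)` in `x ∈ [0,1]` and of step `N^(-3)` in `t` (`|n^{it} - n^{it'}| ≤ |t-t'| log n`): at most `N^(5m+20)` test vectors `a`, `‖a‖_∞ ≤ 1`.
T1 + T2 + Markov with `k = k(m)` large: proportion of `Bad(m, N)` is at most `2^(-m-2) N^(-2)` for `N ≥ N_m`. So for every `M` some signs on the primes `≤ M` avoid all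
`Bad(m, N)`, `m ≤ M`, `N_m ≤ N ≤ M`. Compactness (König / nested nonempty closed subsets of `ℕ → ℤˣ`; or the product measure on `ℕ → ℤˣ` from the start): one `f` avoids all `Bad(m, N)`, `N ≥ N_m`.
For `N < N_m` the constants absorb everything.
-/

set_option autoImplicit false

namespace Pool.Agent.Helper92.GB

open Finset

namespace HALFaux

/-- The sign function given by a sequence of booleans. -/
def sgn (b : ℕ → Bool) (n : ℕ) : ℤ := if b n then 1 else -1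

theorem sgn_mem (b : ℕ → Bool) (n : ℕ) : sgn b n = 1 ∨ sgn b n = -1 := by
  unfold sgn
  by_cases h : b n <;> simp [h]

/-- Markov's inequality with the moments of `T1`. -/
theorem markov (k M N : ℕ) (hN : N ≤ M) (a : ℕ → ℂ) (ha : ∀ n, ‖a n‖ ≤ 1) (X D : ℝ) (hX : 0 ≤ X)
    (hD : (((Fintype.piFinset (fun _ : Fin (2 * k) => Icc 1 N)).filter
        (fun v => IsSquare (∏ i, v i))).card : ℝ) ≤ D) :
    open Classical in
    ((univ.filter (fun ω : Fin (M + 1) → ℤˣ =>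
      X < ‖∑ n ∈ Icc 1 N, (ext (sg ω) n : ℂ) * a n‖)).card : ℝ) * X ^ (2 * k) ≤ 2 ^ (M + 1) * D := by
  classical
  have h1 := T1 M N k hN a ha
  have h2 : ((univ.filter (fun ω : Fin (M + 1) → ℤˣ =>
      X < ‖∑ n ∈ Icc 1 N, (ext (sg ω) n : ℂ) * a n‖)).card : ℝ) * X ^ (2 * k) ≤
      ∑ ω : Fin (M + 1) → ℤˣ, ‖∑ n ∈ Icc 1 N, (ext (sg ω) n : ℂ) * a n‖ ^ (2 * k) := by
    rw [← nsmul_eq_mul, ← Finset.sum_const]
    refine le_trans (Finset.sum_le_sum (g := fun ω : Fin (M + 1) → ℤˣ =>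
      ‖∑ n ∈ Icc 1 N, (ext (sg ω) n : ℂ) * a n‖ ^ (2 * k)) fun ω hω => ?_) ?_
    · exact pow_le_pow_left₀ hX (mem_filter.1 hω).2.le _
    · exact Finset.sum_le_sum_of_subset_of_nonneg (Finset.filter_subset _ _)
        fun _ _ _ => by positivity
  exact h2.trans (h1.trans (mul_le_mul_of_nonneg_left hD (by positivity)))

/-- The exponent `1/2 + 1/(m+1)`. -/
noncomputable def ex (m : ℕ) : ℝ := 1 / 2 + 1 / ((m : ℝ) + 1)

/-- For large `N` the bad sign vectors are few. -/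
theorem few (A : ℕ → Finset (ℕ → ℂ)) (hA : ∀ N, ∀ a ∈ A N, ∀ n, ‖a n‖ ≤ 1) (m K : ℕ) (B : ℝ)
    (hK : ∀ N, 1 ≤ N → ((A N).card : ℝ) ≤ B * (N : ℝ) ^ K) :
    ∃ N₀ : ℕ, ∀ N, N₀ ≤ N → 1 ≤ N → ∀ M, N ≤ M →
      open Classical in
      ((univ.filter (fun ω : Fin (M + 1) → ℤˣ => ∃ a ∈ A N,
        (N : ℝ) ^ (ex m) < ‖∑ n ∈ Icc 1 N, (ext (sg ω) n : ℂ) * a n‖)).card : ℝ) ≤
      2 ^ (M + 1) * ((1 / 2) ^ m / 8 * ((N : ℝ) ^ 2)⁻¹) := by
  classical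
  set k : ℕ := (m + 1) * (K + 2) with hk
  obtain ⟨C, hC⟩ := T2 k 1 one_pos
  obtain ⟨N₀, hN₀⟩ := exists_nat_ge (8 * 2 ^ m * (|B| * |C|))
  refine ⟨N₀, fun N h0 h1 M hM => ?_⟩
  have hNR : (1 : ℝ) ≤ N := by exact_mod_cast h1
  have hNpos : (0 : ℝ) < N := by linarith
  have hB : ((A N).card : ℝ) ≤ |B| * (N : ℝ) ^ K :=
    (hK N h1).trans (mul_le_mul_of_nonneg_right (le_abs_self B) (by positivity))
  have hX : ((N : ℝ) ^ (ex m)) ^ (2 * k) = (N : ℝ) ^ k * (N : ℝ) ^ (2 * (K + 2)) := by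
    rw [← pow_add, ← Real.rpow_natCast _ (2 * k), ← Real.rpow_mul hNpos.le, ← Real.rpow_natCast]
    congr 1
    rw [ex, hk]
    have : ((m : ℝ) + 1) ≠ 0 := by positivity
    push_cast
    field_simp
  have hone : ∀ a ∈ A N, ((univ.filter (fun ω : Fin (M + 1) → ℤˣ =>
      (N : ℝ) ^ (ex m) < ‖∑ n ∈ Icc 1 N, (ext (sg ω) n : ℂ) * a n‖)).card : ℝ) ≤
      2 ^ (M + 1) * (|C| * ((N : ℝ) ^ (K + 3))⁻¹) := by
    intro a ha
    have h2 := markov k M N hM a (hA N a ha) ((N : ℝ) ^ (ex m)) (|C| * (N : ℝ) ^ (k + 1))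
      (by positivity) (by
        refine (hC N h1).trans ?_
        rw [show ((k : ℝ) + 1) = ((k + 1 : ℕ) : ℝ) by push_cast; ring, Real.rpow_natCast]
        exact mul_le_mul_of_nonneg_right (le_abs_self C) (by positivity))
    rw [hX] at h2
    have h3 : (0 : ℝ) < (N : ℝ) ^ k * (N : ℝ) ^ (2 * (K + 2)) := by positivity
    rw [← le_div_iff₀ h3] at h2
    refine h2.trans ?_
    rw [mul_div_assoc]
    refine mul_le_mul_of_nonneg_left ?_ (by positivity)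
    rw [mul_div_assoc]
    refine mul_le_mul_of_nonneg_left ?_ (abs_nonneg C)
    rw [div_le_iff₀ h3]
    have h4 : (N : ℝ) ^ (k + 1) * (N : ℝ) ^ (K + 3) ≤ (N : ℝ) ^ k * (N : ℝ) ^ (2 * (K + 2)) := by
      rw [← pow_add, ← pow_add]
      exact pow_le_pow_right₀ hNR (by omega)
    calc (N : ℝ) ^ (k + 1) = ((N : ℝ) ^ (K + 3))⁻¹ * ((N : ℝ) ^ (k + 1) * (N : ℝ) ^ (K + 3)) := by
          field_simp
      _ ≤ _ := mul_le_mul_of_nonneg_left h4 (by positivity)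
  have hsub : (univ.filter (fun ω : Fin (M + 1) → ℤˣ => ∃ a ∈ A N,
        (N : ℝ) ^ (ex m) < ‖∑ n ∈ Icc 1 N, (ext (sg ω) n : ℂ) * a n‖)) ⊆
      (A N).biUnion (fun a => univ.filter (fun ω : Fin (M + 1) → ℤˣ =>
        (N : ℝ) ^ (ex m) < ‖∑ n ∈ Icc 1 N, (ext (sg ω) n : ℂ) * a n‖)) := by
    intro ω hω
    obtain ⟨a, ha, h⟩ := (mem_filter.1 hω).2
    exact mem_biUnion.2 ⟨a, ha, mem_filter.2 ⟨mem_univ _, h⟩⟩
  have h5 : ((univ.filter (fun ω : Fin (M + 1) → ℤˣ => ∃ a ∈ A N,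
        (N : ℝ) ^ (ex m) < ‖∑ n ∈ Icc 1 N, (ext (sg ω) n : ℂ) * a n‖)).card : ℝ) ≤
      ((A N).card : ℝ) * (2 ^ (M + 1) * (|C| * ((N : ℝ) ^ (K + 3))⁻¹)) := by
    refine (Nat.cast_le.2 ((card_le_card hsub).trans card_biUnion_le)).trans ?_
    push_cast
    refine (Finset.sum_le_sum hone).trans ?_
    rw [Finset.sum_const, nsmul_eq_mul]
  refine h5.trans ?_
  have h6 : ((A N).card : ℝ) * (2 ^ (M + 1) * (|C| * ((N : ℝ) ^ (K + 3))⁻¹)) ≤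
      (|B| * (N : ℝ) ^ K) * (2 ^ (M + 1) * (|C| * ((N : ℝ) ^ (K + 3))⁻¹)) :=
    mul_le_mul_of_nonneg_right hB (by positivity)
  refine h6.trans ?_
  have h7 : (|B| * (N : ℝ) ^ K) * (2 ^ (M + 1) * (|C| * ((N : ℝ) ^ (K + 3))⁻¹)) =
      2 ^ (M + 1) * ((|B| * |C|) * (N : ℝ)⁻¹ * ((N : ℝ) ^ 2)⁻¹) := by
    rw [pow_add]
    field_simp
    try ring
  rw [h7]
  refine mul_le_mul_of_nonneg_left (mul_le_mul_of_nonneg_right ?_ (by positivity)) (by positivity)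
  have h8 : 8 * 2 ^ m * (|B| * |C|) ≤ (N : ℝ) := hN₀.trans (by exact_mod_cast h0)
  rw [← div_eq_mul_inv, div_le_iff₀ hNpos]
  have h9 : (1 / 2 : ℝ) ^ m / 8 * (N : ℝ) ≥ (1 / 2 : ℝ) ^ m / 8 * (8 * 2 ^ m * (|B| * |C|)) :=
    mul_le_mul_of_nonneg_left h8 (by positivity)
  have h10 : (1 / 2 : ℝ) ^ m / 8 * (8 * 2 ^ m * (|B| * |C|)) = |B| * |C| := by
    rw [one_div, inv_pow]
    field_simp
  linarith

/-- Signs on `[0, J]` avoiding all bad events up to `J`. -/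
theorem avoid (A : ℕ → ℕ → Finset (ℕ → ℂ)) (Nm : ℕ → ℕ)
    (hfew : ∀ m N, Nm m ≤ N → 1 ≤ N → ∀ M, N ≤ M →
      open Classical in
      ((univ.filter (fun ω : Fin (M + 1) → ℤˣ => ∃ a ∈ A m N,
        (N : ℝ) ^ (ex m) < ‖∑ n ∈ Icc 1 N, (ext (sg ω) n : ℂ) * a n‖)).card : ℝ) ≤
      2 ^ (M + 1) * ((1 / 2) ^ m / 8 * ((N : ℝ) ^ 2)⁻¹)) (J : ℕ) :
    ∃ ω : Fin (J + 1) → ℤˣ, ∀ m < J, ∀ N, Nm m ≤ N → N ≤ J → 1 ≤ N → ∀ a ∈ A m N,
      ‖∑ n ∈ Icc 1 N, (ext (sg ω) n : ℂ) * a n‖ ≤ (N : ℝ) ^ (ex m) := by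
  classical
  by_contra hcon
  push Not at hcon
  set P := ((range J) ×ˢ (Icc 1 J)).filter (fun p : ℕ × ℕ => Nm p.1 ≤ p.2) with hP
  have hsub : (univ : Finset (Fin (J + 1) → ℤˣ)) ⊆ P.biUnion (fun p =>
      univ.filter (fun ω : Fin (J + 1) → ℤˣ => ∃ a ∈ A p.1 p.2,
        (p.2 : ℝ) ^ (ex p.1) < ‖∑ n ∈ Icc 1 p.2, (ext (sg ω) n : ℂ) * a n‖)) := by
    intro ω _
    obtain ⟨m, hm, N, h1, h2, h3, a, ha, h4⟩ := hcon ω
    refine mem_biUnion.2 ⟨(m, N), mem_filter.2 ⟨mem_product.2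
      ⟨mem_range.2 hm, mem_Icc.2 ⟨h3, h2⟩⟩, h1⟩, mem_filter.2 ⟨mem_univ _, a, ha, h4⟩⟩
  have h1 : ((univ : Finset (Fin (J + 1) → ℤˣ)).card : ℝ) ≤ ∑ p ∈ P,
      2 ^ (J + 1) * ((1 / 2 : ℝ) ^ p.1 / 8 * ((p.2 : ℝ) ^ 2)⁻¹) := by
    refine (Nat.cast_le.2 ((card_le_card hsub).trans card_biUnion_le)).trans ?_
    push_cast
    refine Finset.sum_le_sum fun p hp => ?_
    obtain ⟨hp1, hp2⟩ := mem_filter.1 hp
    obtain ⟨_, hp4⟩ := mem_product.1 hp1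
    obtain ⟨h5, h6⟩ := mem_Icc.1 hp4
    exact hfew p.1 p.2 hp2 h5 J h6
  have h2 : ∑ p ∈ P, 2 ^ (J + 1) * ((1 / 2 : ℝ) ^ p.1 / 8 * ((p.2 : ℝ) ^ 2)⁻¹) ≤
      ∑ p ∈ (range J) ×ˢ (Icc 1 J), 2 ^ (J + 1) * ((1 / 2 : ℝ) ^ p.1 / 8 * ((p.2 : ℝ) ^ 2)⁻¹) :=
    Finset.sum_le_sum_of_subset_of_nonneg (Finset.filter_subset _ _) fun _ _ _ => by positivity
  have h3 : ∑ p ∈ (range J) ×ˢ (Icc 1 J), 2 ^ (J + 1) * ((1 / 2 : ℝ) ^ p.1 / 8 * ((p.2 : ℝ) ^ 2)⁻¹)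
      = 2 ^ (J + 1) / 8 * ((∑ m ∈ range J, (1 / 2 : ℝ) ^ m) * ∑ N ∈ Icc 1 J, ((N : ℝ) ^ 2)⁻¹) := by
    rw [Finset.sum_mul_sum, ← Finset.sum_product', Finset.mul_sum]
    refine Finset.sum_congr rfl fun p _ => ?_
    ring
  have h4 : ∑ m ∈ range J, (1 / 2 : ℝ) ^ m ≤ 2 := sum_geometric_two_le J
  have h5 : ∑ N ∈ Icc 1 J, ((N : ℝ) ^ 2)⁻¹ ≤ 2 := by
    have h6 := sum_Ioo_inv_sq_le (α := ℝ) 0 (J + 1)
    have h7 : Icc 1 J = Ioo 0 (J + 1) := by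
      ext x
      simp only [mem_Icc, mem_Ioo]
      omega
    rw [h7]
    refine h6.trans ?_
    norm_num
  have h6 : 0 ≤ ∑ N ∈ Icc 1 J, ((N : ℝ) ^ 2)⁻¹ := Finset.sum_nonneg fun _ _ => by positivity
  have h7 : (∑ m ∈ range J, (1 / 2 : ℝ) ^ m) * ∑ N ∈ Icc 1 J, ((N : ℝ) ^ 2)⁻¹ ≤ 2 * 2 :=
    mul_le_mul h4 h5 h6 (by norm_num)
  have h8 : ((univ : Finset (Fin (J + 1) → ℤˣ)).card : ℝ) = 2 ^ (J + 1) := by
    rw [Finset.card_univ]
    simp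
  have h9 : (0 : ℝ) < 2 ^ (J + 1) := by positivity
  have h10 := h1.trans (h2.trans h3.le)
  rw [h8] at h10
  nlinarith [mul_le_mul_of_nonneg_left h7 (by positivity : (0 : ℝ) ≤ 2 ^ (J + 1) / 8)]

theorem cont_ext (n : ℕ) : Continuous fun b : ℕ → Bool => ((ext (sgn b) n : ℤ) : ℂ) := by
  by_cases h : Squarefree n
  · have : (fun b : ℕ → Bool => ((ext (sgn b) n : ℤ) : ℂ)) =
        fun b : ℕ → Bool => ∏ p ∈ n.primeFactors, ((sgn b p : ℤ) : ℂ) := by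
      funext b
      rw [ext, if_pos h]
      push_cast
      rfl
    rw [this]
    refine continuous_finsetProd _ fun p _ => ?_
    exact (continuous_of_discreteTopology (f := fun c : Bool =>
      (((if c then 1 else -1 : ℤ)) : ℂ))).comp (continuous_apply p)
  · have : (fun b : ℕ → Bool => ((ext (sgn b) n : ℤ) : ℂ)) = fun _ => 0 := by
      funext b
      rw [ext, if_neg h]
      simp
    rw [this]
    exact continuous_const

/-- Random signs: one sign function that is good for countably many test families. -/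
theorem core (A : ℕ → ℕ → Finset (ℕ → ℂ)) (hA : ∀ m N, ∀ a ∈ A m N, ∀ n, ‖a n‖ ≤ 1) (K : ℕ → ℕ)
    (B : ℕ → ℝ) (hK : ∀ m N, 1 ≤ N → ((A m N).card : ℝ) ≤ B m * (N : ℝ) ^ (K m)) :
    ∃ f : ℕ → ℤ, (∀ n, f n = 1 ∨ f n = -1) ∧ ∀ m, ∃ N₀ : ℕ, ∀ N, N₀ ≤ N → 1 ≤ N →
      ∀ a ∈ A m N, ‖∑ n ∈ Icc 1 N, (ext f n : ℂ) * a n‖ ≤ (N : ℝ) ^ (ex m) := by
  classical
  choose Nm hNm using fun m => few (A m) (hA m) m (K m) (B m) (hK m)
  let S : ℕ → Set (ℕ → Bool) := fun J => {b | ∀ m < J, ∀ N, Nm m ≤ N → N ≤ J → 1 ≤ N →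
    ∀ a ∈ A m N, ‖∑ n ∈ Icc 1 N, (ext (sgn b) n : ℂ) * a n‖ ≤ (N : ℝ) ^ (ex m)}
  have hS1 : ∀ J, S (J + 1) ⊆ S J := fun J b hb m hm N h1 h2 h3 a ha =>
    hb m (by omega) N h1 (by omega) h3 a ha
  have hS2 : ∀ J, (S J).Nonempty := by
    intro J
    obtain ⟨ω, hω⟩ := avoid A Nm hNm J
    refine ⟨fun n => if h : n < J + 1 then decide (ω ⟨n, h⟩ = 1) else true, ?_⟩
    have hsg : sgn (fun n => if h : n < J + 1 then decide (ω ⟨n, h⟩ = 1) else true) = sg ω := by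
      funext n
      unfold sgn sg
      by_cases h : n < J + 1
      · simp only [h, dite_true]
        rcases Int.units_eq_one_or (ω ⟨n, h⟩) with h1 | h1
        · rw [h1]; simp
        · rw [h1]; simp
      · simp only [h, dite_false, if_true]
    intro m hm N h1 h2 h3 a ha
    rw [hsg]
    exact hω m hm N h1 h2 h3 a ha
  have hS3 : ∀ J, IsClosed (S J) := by
    intro J
    simp only [S, Set.ofPred_forall]
    refine isClosed_iInter fun m => isClosed_iInter fun _ => isClosed_iInter fun N =>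
      isClosed_iInter fun _ => isClosed_iInter fun _ => isClosed_iInter fun _ =>
      isClosed_iInter fun a => isClosed_iInter fun _ => isClosed_le ?_ continuous_const
    refine continuous_norm.comp (continuous_finsetSum _ fun n _ => ?_)
    exact (cont_ext n).mul continuous_const
  obtain ⟨b, hb⟩ := IsCompact.nonempty_iInter_of_sequence_nonempty_isCompact_isClosed S hS1 hS2
    (hS3 0).isCompact hS3
  rw [Set.mem_iInter] at hb
  refine ⟨sgn b, sgn_mem b, fun m => ⟨Nm m, fun N h1 h2 a ha => ?_⟩⟩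
  exact hb (max (m + 1) N) m (by omega) N h1 (by omega) h2 a ha

/-- Test vectors for `F`. -/
noncomputable def ax (N j : ℕ) (n : ℕ) : ℂ := e (n * ((j : ℝ) / (N : ℝ) ^ 2))

/-- Test vectors for `tw`. -/
noncomputable def atv (N r : ℕ) (χ : DirichletCharacter ℂ (r + 1)) (j : ℤ) (n : ℕ) : ℂ :=
  χ (n : ZMod (r + 1)) * npi n ((j : ℝ) / (N : ℝ) ^ 2)

open Classical in
/-- The finite family of test vectors. -/
noncomputable def fam (m N : ℕ) : Finset (ℕ → ℂ) :=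
  (range (N ^ 2)).image (ax N) ∪ (range (N ^ (m + 1))).biUnion (fun r =>
    (univ : Finset (DirichletCharacter ℂ (r + 1))).biUnion (fun χ =>
      (Icc (-((N ^ (m + 3) : ℕ) : ℤ)) ((N ^ (m + 3) : ℕ) : ℤ)).image (atv N r χ)))

theorem fam_norm (m N : ℕ) : ∀ a ∈ fam m N, ∀ n, ‖a n‖ ≤ 1 := by
  classical
  intro a ha n
  unfold fam at ha
  rcases mem_union.1 ha with h | h
  · obtain ⟨j, _, rfl⟩ := mem_image.1 h
    rw [ax, u2_norm_e]
  · obtain ⟨r, _, h2⟩ := mem_biUnion.1 h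
    obtain ⟨χ, _, h3⟩ := mem_biUnion.1 h2
    obtain ⟨j, _, rfl⟩ := mem_image.1 h3
    rw [atv, norm_mul]
    exact mul_le_one₀ (χ.norm_le_one _) (norm_nonneg _) (RBaux.npi_norm _ _)

theorem fam_card (m N : ℕ) (hN : 1 ≤ N) : ((fam m N).card : ℝ) ≤ 4 * (N : ℝ) ^ (3 * m + 5) := by
  classical
  have hNR : (1 : ℝ) ≤ N := by exact_mod_cast hN
  have h1 : (fam m N).card ≤ N ^ 2 + ∑ r ∈ range (N ^ (m + 1)),
      Fintype.card (DirichletCharacter ℂ (r + 1)) * (2 * N ^ (m + 3) + 1) := by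
    unfold fam
    refine (card_union_le _ _).trans (Nat.add_le_add (card_image_le.trans (card_range _).le) ?_)
    refine card_biUnion_le.trans (Finset.sum_le_sum fun r _ => ?_)
    refine card_biUnion_le.trans ?_
    refine (Finset.sum_le_card_nsmul _ _ (2 * N ^ (m + 3) + 1) fun χ _ => ?_).trans ?_
    · refine card_image_le.trans ?_
      rw [Int.card_Icc]
      omega
    · rw [Finset.card_univ, smul_eq_mul]
  have h2 : ((fam m N).card : ℝ) ≤ (N : ℝ) ^ 2 + ∑ r ∈ range (N ^ (m + 1)),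
      (N : ℝ) ^ (m + 1) * (2 * (N : ℝ) ^ (m + 3) + 1) := by
    refine (Nat.cast_le.2 h1).trans ?_
    push_cast
    refine add_le_add_right (Finset.sum_le_sum fun r hr => ?_) _
    refine mul_le_mul_of_nonneg_right ((UR.card_char r).trans ?_) (by positivity)
    have h3 : r + 1 ≤ N ^ (m + 1) := mem_range.1 hr
    exact_mod_cast h3
  rw [Finset.sum_const, card_range, nsmul_eq_mul] at h2
  refine h2.trans ?_
  push_cast
  have e1 : (N : ℝ) ^ 2 ≤ (N : ℝ) ^ (3 * m + 5) := pow_le_pow_right₀ hNR (by omega)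
  have e2 : (N : ℝ) ^ (m + 1) * ((N : ℝ) ^ (m + 1) * (2 * (N : ℝ) ^ (m + 3) + 1)) =
      2 * (N : ℝ) ^ (3 * m + 5) + (N : ℝ) ^ (2 * m + 2) := by
    ring
  have e3 : (N : ℝ) ^ (2 * m + 2) ≤ (N : ℝ) ^ (3 * m + 5) := pow_le_pow_right₀ hNR (by omega)
  rw [e2]
  linarith

theorem e_lip (x y : ℝ) : ‖e x - e y‖ ≤ 2 * Real.pi * |x - y| := by
  have h1 : e x - e y = e y * (e (x - y) - 1) := by
    rw [mul_sub, mul_one, ← u2_e_add]
    congr 2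
    ring
  rw [h1, norm_mul, u2_norm_e, one_mul]
  have h2 : e (x - y) = Complex.exp (Complex.I * ((2 * Real.pi * (x - y) : ℝ) : ℂ)) := by
    unfold e
    congr 1
    push_cast
    ring
  rw [h2]
  refine (Real.norm_exp_I_mul_ofReal_sub_one_le).trans ?_
  rw [Real.norm_eq_abs, abs_mul, abs_of_pos (by positivity)]

/-- Comparison of two weighted sums. -/
theorem compare (g : ℕ → ℤ) (hg : ∀ n, ‖(g n : ℂ)‖ ≤ 1) (N : ℕ) (u v : ℕ → ℂ) (δ : ℝ)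
    (h : ∀ n ∈ Icc 1 N, ‖u n - v n‖ ≤ δ) :
    ‖∑ n ∈ Icc 1 N, (g n : ℂ) * u n‖ ≤ ‖∑ n ∈ Icc 1 N, (g n : ℂ) * v n‖ + N * δ := by
  have h1 : ∑ n ∈ Icc 1 N, (g n : ℂ) * u n = ∑ n ∈ Icc 1 N, (g n : ℂ) * v n +
      ∑ n ∈ Icc 1 N, (g n : ℂ) * (u n - v n) := by
    rw [← Finset.sum_add_distrib]
    exact Finset.sum_congr rfl fun n _ => by ring
  rw [h1]
  refine (norm_add_le _ _).trans (add_le_add_right ?_ _)
  refine (norm_sum_le _ _).trans ?_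
  refine (Finset.sum_le_card_nsmul _ _ δ fun n hn => ?_).trans ?_
  · rw [norm_mul]
    calc ‖(g n : ℂ)‖ * ‖u n - v n‖ ≤ 1 * δ :=
          mul_le_mul (hg n) (h n hn) (norm_nonneg _) zero_le_one
      _ = δ := one_mul _
  · rw [Nat.card_Icc, nsmul_eq_mul]
    simp

/-- The sum `F` at an arbitrary point. -/
theorem F_le (g : ℕ → ℤ) (hg : ∀ n, ‖(g n : ℂ)‖ ≤ 1) (m N : ℕ) (hN : 1 ≤ N)
    (h : ∀ a ∈ fam m N, ‖∑ n ∈ Icc 1 N, (g n : ℂ) * a n‖ ≤ (N : ℝ) ^ (ex m)) (x : ℝ) :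
    ‖F g N x‖ ≤ 8 * (N : ℝ) ^ (ex m) := by
  classical
  have hNR : (1 : ℝ) ≤ N := by exact_mod_cast hN
  have hNpos : (0 : ℝ) < N := by linarith
  have hL : (0 : ℝ) < (N : ℝ) ^ 2 := by positivity
  have hLn : 0 < N ^ 2 := by positivity
  set z : ℤ := ⌊x * (N : ℝ) ^ 2⌋ with hz
  set j : ℕ := (z % ((N ^ 2 : ℕ) : ℤ)).toNat with hj
  have hLz : ((N ^ 2 : ℕ) : ℤ) ≠ 0 := by positivity
  have hmod : 0 ≤ z % ((N ^ 2 : ℕ) : ℤ) := Int.emod_nonneg _ hLz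
  have hjz : ((j : ℕ) : ℤ) = z % ((N ^ 2 : ℕ) : ℤ) := Int.toNat_of_nonneg hmod
  have hjlt : j < N ^ 2 := by
    have := Int.emod_lt_of_pos z (by positivity : (0 : ℤ) < ((N ^ 2 : ℕ) : ℤ))
    omega
  have hmem : ax N j ∈ fam m N := by
    unfold fam
    exact mem_union_left _ (mem_image_of_mem _ (mem_range.2 hjlt))
  have hax : ∀ n : ℕ, ax N j n = e (n * ((z : ℝ) / (N : ℝ) ^ 2)) := by
    intro n
    have h1 : (z : ℝ) = (j : ℝ) + (N : ℝ) ^ 2 * ((z / ((N ^ 2 : ℕ) : ℤ) : ℤ) : ℝ) := by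
      have h2 : z = (j : ℤ) + ((N ^ 2 : ℕ) : ℤ) * (z / ((N ^ 2 : ℕ) : ℤ)) := by
        rw [hjz]
        exact (Int.emod_add_mul_ediv z _).symm
      have h3 : ((z : ℤ) : ℝ) = (((j : ℤ) + ((N ^ 2 : ℕ) : ℤ) * (z / ((N ^ 2 : ℕ) : ℤ)) : ℤ) : ℝ) := by
        exact_mod_cast h2
      rw [h3]
      push_cast
      ring
    have h4 : (n : ℝ) * ((z : ℝ) / (N : ℝ) ^ 2) = (n : ℝ) * ((j : ℝ) / (N : ℝ) ^ 2) +
        (((n : ℤ) * (z / ((N ^ 2 : ℕ) : ℤ)) : ℤ) : ℝ) := by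
      rw [h1]
      push_cast
      field_simp
    rw [h4, u2_e_add, u2_e_int, mul_one]
    rfl
  have hcmp := compare g hg N (fun n => e (n * x)) (ax N j) (2 * Real.pi / N) (by
    intro n hn
    obtain ⟨hn1, hn2⟩ := mem_Icc.1 hn
    rw [hax]
    refine (e_lip _ _).trans ?_
    rw [mul_div_assoc]
    rw [← mul_sub, abs_mul, abs_of_nonneg (Nat.cast_nonneg n : (0 : ℝ) ≤ (n : ℝ))]
    have h5 : |x - (z : ℝ) / (N : ℝ) ^ 2| ≤ 1 / (N : ℝ) ^ 2 := by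
      have h6 : (z : ℝ) ≤ x * (N : ℝ) ^ 2 := Int.floor_le _
      have h7 : x * (N : ℝ) ^ 2 < z + 1 := Int.lt_floor_add_one _
      have h8 : x - (z : ℝ) / (N : ℝ) ^ 2 = (x * (N : ℝ) ^ 2 - z) / (N : ℝ) ^ 2 := by
        field_simp
      rw [h8, abs_div, abs_of_pos hL, abs_of_nonneg (by linarith)]
      exact div_le_div_of_nonneg_right (by linarith) hL.le
    have h9 : (n : ℝ) ≤ N := by exact_mod_cast hn2
    have h10 : (n : ℝ) * |x - (z : ℝ) / (N : ℝ) ^ 2| ≤ 1 / N := by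
      calc (n : ℝ) * |x - (z : ℝ) / (N : ℝ) ^ 2| ≤ N * (1 / (N : ℝ) ^ 2) :=
            mul_le_mul h9 h5 (abs_nonneg _) hNpos.le
        _ = 1 / N := by field_simp
    calc 2 * Real.pi * ((n : ℝ) * |x - (z : ℝ) / (N : ℝ) ^ 2|) ≤ 2 * Real.pi * (1 / N) :=
          mul_le_mul_of_nonneg_left h10 (by positivity)
      _ = 2 * (Real.pi / N) := by ring)
  have h11 : (N : ℝ) * (2 * Real.pi / N) = 2 * Real.pi := by field_simp
  rw [h11] at hcmp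
  have h12 : (1 : ℝ) ≤ (N : ℝ) ^ (ex m) := Real.one_le_rpow hNR (by unfold ex; positivity)
  have h13 : 2 * Real.pi ≤ 7 := by linarith [Real.pi_lt_d2]
  have h14 := h _ hmem
  unfold F
  linarith

/-- The sum `tw` at an arbitrary point. -/
theorem tw_le (g : ℕ → ℤ) (hg : ∀ n, ‖(g n : ℂ)‖ ≤ 1) (m N : ℕ) (hN : 1 ≤ N)
    (h : ∀ a ∈ fam m N, ‖∑ n ∈ Icc 1 N, (g n : ℂ) * a n‖ ≤ (N : ℝ) ^ (ex m)) (q : ℕ) (hq : 1 ≤ q)
    (χ : DirichletCharacter ℂ q) (t : ℝ) :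
    ‖tw g χ t N‖ ≤ 2 * (((q : ℝ) * (1 + |t|) * N) ^ (1 / ((m : ℝ) + 1)) * (N : ℝ) ^ (1 / 2 : ℝ)) := by
  classical
  have hNR : (1 : ℝ) ≤ N := by exact_mod_cast hN
  have hNpos : (0 : ℝ) < N := by linarith
  have hL : (0 : ℝ) < (N : ℝ) ^ 2 := by positivity
  have hqR : (1 : ℝ) ≤ q := by exact_mod_cast hq
  have hm1 : (0 : ℝ) < 1 / ((m : ℝ) + 1) := by positivity
  have ht0 : (1 : ℝ) ≤ 1 + |t| := by linarith [abs_nonneg t]
  have hqt : (1 : ℝ) ≤ (q : ℝ) * (1 + |t|) := by nlinarith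
  have htw : tw g χ t N = ∑ n ∈ Icc 1 N, (g n : ℂ) * (χ (n : ZMod q) * npi n t) := by
    unfold tw
    exact Finset.sum_congr rfl fun n _ => mul_assoc _ _ _
  have hex : (N : ℝ) ^ (ex m) = (N : ℝ) ^ (1 / ((m : ℝ) + 1)) * (N : ℝ) ^ (1 / 2 : ℝ) := by
    rw [ex, add_comm, Real.rpow_add hNpos]
  have hle : (N : ℝ) ^ (ex m) ≤
      ((q : ℝ) * (1 + |t|) * N) ^ (1 / ((m : ℝ) + 1)) * (N : ℝ) ^ (1 / 2 : ℝ) := by
    rw [hex]
    refine mul_le_mul_of_nonneg_right (Real.rpow_le_rpow hNpos.le ?_ hm1.le) (by positivity)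
    nlinarith
  by_cases hbig : (q : ℝ) * (1 + |t|) ≤ (N : ℝ) ^ (m + 1)
  · obtain ⟨r, rfl⟩ : ∃ r, q = r + 1 := ⟨q - 1, by omega⟩
    have hq2 : ((r + 1 : ℕ) : ℝ) ≤ (N : ℝ) ^ (m + 1) := by
      refine le_trans ?_ hbig
      nlinarith
    have hr : r < N ^ (m + 1) := by
      have : r + 1 ≤ N ^ (m + 1) := by exact_mod_cast hq2
      omega
    have ht2 : |t| ≤ (N : ℝ) ^ (m + 1) := by
      have : |t| ≤ ((r + 1 : ℕ) : ℝ) * (1 + |t|) := by nlinarith [abs_nonneg t]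
      linarith
    set j : ℤ := ⌊t * (N : ℝ) ^ 2⌋ with hj
    have hjm : j ∈ Icc (-((N ^ (m + 3) : ℕ) : ℤ)) ((N ^ (m + 3) : ℕ) : ℤ) := by
      have h1 : t * (N : ℝ) ^ 2 ≤ ((N ^ (m + 3) : ℕ) : ℝ) := by
        push_cast
        calc t * (N : ℝ) ^ 2 ≤ |t| * (N : ℝ) ^ 2 := mul_le_mul_of_nonneg_right (le_abs_self t) hL.le
          _ ≤ (N : ℝ) ^ (m + 1) * (N : ℝ) ^ 2 := mul_le_mul_of_nonneg_right ht2 hL.le
          _ = _ := by ring
      have h2 : -((N ^ (m + 3) : ℕ) : ℝ) ≤ t * (N : ℝ) ^ 2 := by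
        push_cast
        have : -|t| ≤ t := neg_abs_le t
        calc -(N : ℝ) ^ (m + 3) = -((N : ℝ) ^ (m + 1)) * (N : ℝ) ^ 2 := by ring
          _ ≤ -|t| * (N : ℝ) ^ 2 := mul_le_mul_of_nonneg_right (by linarith) hL.le
          _ ≤ t * (N : ℝ) ^ 2 := mul_le_mul_of_nonneg_right this hL.le
      rw [mem_Icc]
      constructor
      · rw [hj, Int.le_floor]
        push_cast at h2 ⊢
        exact h2
      · have h3 : ((j : ℤ) : ℝ) ≤ (((N ^ (m + 3) : ℕ) : ℤ) : ℝ) := by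
          rw [Int.cast_natCast]
          exact (Int.floor_le _).trans h1
        exact_mod_cast h3
    have hmem : atv N r χ j ∈ fam m N := by
      unfold fam
      refine mem_union_right _ (mem_biUnion.2 ⟨r, mem_range.2 hr, mem_biUnion.2
        ⟨χ, mem_univ _, mem_image_of_mem _ hjm⟩⟩)
    have hcmp := compare g hg N (fun n => χ (n : ZMod (r + 1)) * npi n t) (atv N r χ j) (1 / N) (by
      intro n hn
      obtain ⟨hn1, hn2⟩ := mem_Icc.1 hn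
      simp only [atv]
      rw [← mul_sub, norm_mul]
      have h5 : |t - (j : ℝ) / (N : ℝ) ^ 2| ≤ 1 / (N : ℝ) ^ 2 := by
        have h6 : (j : ℝ) ≤ t * (N : ℝ) ^ 2 := Int.floor_le _
        have h7 : t * (N : ℝ) ^ 2 < j + 1 := Int.lt_floor_add_one _
        have h8 : t - (j : ℝ) / (N : ℝ) ^ 2 = (t * (N : ℝ) ^ 2 - j) / (N : ℝ) ^ 2 := by
          field_simp
        rw [h8, abs_div, abs_of_pos hL, abs_of_nonneg (by linarith)]
        exact div_le_div_of_nonneg_right (by linarith) hL.le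
      have h9 : Real.log n ≤ N := by
        have : Real.log n ≤ n := (Real.log_le_sub_one_of_pos (by exact_mod_cast hn1)).trans
          (by linarith)
        have h10 : (n : ℝ) ≤ N := by exact_mod_cast hn2
        linarith
      have h11 := RBaux.npi_lip n hn1 t ((j : ℝ) / (N : ℝ) ^ 2)
      have h12 : Real.log n * |t - (j : ℝ) / (N : ℝ) ^ 2| ≤ 1 / N := by
        calc Real.log n * |t - (j : ℝ) / (N : ℝ) ^ 2| ≤ N * (1 / (N : ℝ) ^ 2) :=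
              mul_le_mul h9 h5 (abs_nonneg _) hNpos.le
          _ = 1 / N := by field_simp
      calc ‖χ (n : ZMod (r + 1))‖ * ‖npi n t - npi n ((j : ℝ) / (N : ℝ) ^ 2)‖ ≤ 1 * (1 / N) :=
            mul_le_mul (χ.norm_le_one _) (h11.trans h12) (norm_nonneg _) zero_le_one
        _ = 1 / N := one_mul _)
    have h13 : (N : ℝ) * (1 / N) = 1 := by field_simp
    rw [h13] at hcmp
    have h14 : (1 : ℝ) ≤ (N : ℝ) ^ (ex m) := Real.one_le_rpow hNR (by unfold ex; positivity)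
    have h15 := h _ hmem
    rw [htw]
    linarith
  · push Not at hbig
    have h1 : ‖tw g χ t N‖ ≤ N := by
      rw [htw]
      refine (norm_sum_le _ _).trans ?_
      refine (Finset.sum_le_card_nsmul _ _ 1 fun n _ => ?_).trans ?_
      · rw [norm_mul, norm_mul]
        exact mul_le_one₀ (hg n) (by positivity)
          (mul_le_one₀ (χ.norm_le_one _) (norm_nonneg _) (RBaux.npi_norm _ _))
      · rw [Nat.card_Icc, nsmul_eq_mul]
        simp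
    have h2 : (N : ℝ) ≤ ((q : ℝ) * (1 + |t|) * N) ^ (1 / ((m : ℝ) + 1)) := by
      have h3 : ((N : ℝ) ^ (m + 1)) ≤ (q : ℝ) * (1 + |t|) * N := by
        have : (q : ℝ) * (1 + |t|) ≤ (q : ℝ) * (1 + |t|) * N := by nlinarith
        linarith
      calc (N : ℝ) = ((N : ℝ) ^ (m + 1)) ^ (1 / ((m : ℝ) + 1)) := by
            rw [← Real.rpow_natCast, ← Real.rpow_mul hNpos.le]
            push_cast
            rw [mul_one_div_cancel (by positivity), Real.rpow_one]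
        _ ≤ _ := Real.rpow_le_rpow (by positivity) h3 hm1.le
    have h3 : (1 : ℝ) ≤ (N : ℝ) ^ (1 / 2 : ℝ) := Real.one_le_rpow hNR (by norm_num)
    have h4 : (0 : ℝ) ≤ ((q : ℝ) * (1 + |t|) * N) ^ (1 / ((m : ℝ) + 1)) := by positivity
    nlinarith

end HALFaux

open HALFaux in
theorem HALF : ∃ g : ℕ → ℤ, GRHClass g ∧ ∀ ε : ℝ, 0 < ε → ∃ C : ℝ, ∀ N : ℕ, 1 ≤ N →
    ∀ x : ℝ, ‖F g N x‖ ≤ C * (N : ℝ) ^ (1 / 2 + ε) := by
  obtain ⟨f, hf, hcore⟩ := core fam fam_norm (fun m => 3 * m + 5) (fun _ => 4)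
    (fun m N hN => fam_card m N hN)
  have hsq := ext_sq f (fun p _ => hf p)
  have hg : ∀ n, ‖((ext f n : ℤ) : ℂ)‖ ≤ 1 := fun n => u2_abs_g (ext f) hsq n
  have hexm : ∀ ε : ℝ, 0 < ε → ∃ m : ℕ, 1 / ((m : ℝ) + 1) ≤ ε := by
    intro ε hε
    obtain ⟨m, hm⟩ := exists_nat_one_div_lt hε
    exact ⟨m, hm.le⟩
  refine ⟨ext f, ⟨ext_mul f, hsq, ?_⟩, ?_⟩
  · intro ε hε
    obtain ⟨m, hm⟩ := hexm ε hε
    obtain ⟨N₀, hN₀⟩ := hcore m
    refine ⟨2 + N₀, fun q χ t N hq hN => ?_⟩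
    have hNR : (1 : ℝ) ≤ N := by exact_mod_cast hN
    have hqR : (1 : ℝ) ≤ q := by exact_mod_cast hq
    have ht0 : (1 : ℝ) ≤ 1 + |t| := by linarith [abs_nonneg t]
    have hqt : (1 : ℝ) ≤ (q : ℝ) * (1 + |t|) := by nlinarith
    have hqtN : (1 : ℝ) ≤ (q : ℝ) * (1 + |t|) * N := by nlinarith
    have h1 : (1 : ℝ) ≤ ((q : ℝ) * (1 + |t|) * N) ^ ε := Real.one_le_rpow hqtN hε.le
    have h2 : (1 : ℝ) ≤ (N : ℝ) ^ (1 / 2 : ℝ) := Real.one_le_rpow hNR (by norm_num)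
    have h3 : (0 : ℝ) ≤ (N₀ : ℝ) := Nat.cast_nonneg _
    have hprod : (1 : ℝ) ≤ ((q : ℝ) * (1 + |t|) * N) ^ ε * (N : ℝ) ^ (1 / 2 : ℝ) := by nlinarith
    rw [mul_assoc (2 + (N₀ : ℝ))]
    by_cases hlt : N₀ ≤ N
    · have h4 := tw_le (ext f) hg m N hN (hN₀ N hlt hN) q hq χ t
      have h5 : ((q : ℝ) * (1 + |t|) * N) ^ (1 / ((m : ℝ) + 1)) ≤ ((q : ℝ) * (1 + |t|) * N) ^ ε :=
        Real.rpow_le_rpow_of_exponent_le hqtN hm
      have h6 : ((q : ℝ) * (1 + |t|) * N) ^ (1 / ((m : ℝ) + 1)) * (N : ℝ) ^ (1 / 2 : ℝ) ≤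
          ((q : ℝ) * (1 + |t|) * N) ^ ε * (N : ℝ) ^ (1 / 2 : ℝ) :=
        mul_le_mul_of_nonneg_right h5 (by positivity)
      nlinarith
    · push Not at hlt
      have h7 : ‖tw (ext f) χ t N‖ ≤ N := by
        unfold tw
        refine (norm_sum_le _ _).trans ?_
        refine (Finset.sum_le_card_nsmul _ _ 1 fun n _ => ?_).trans ?_
        · rw [norm_mul, norm_mul]
          exact mul_le_one₀ (mul_le_one₀ (hg n) (norm_nonneg _) (χ.norm_le_one _))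
            (norm_nonneg _) (RBaux.npi_norm _ _)
        · rw [Nat.card_Icc, nsmul_eq_mul]
          simp
      have h8 : (N : ℝ) ≤ N₀ := by exact_mod_cast hlt.le
      nlinarith
  · intro ε hε
    obtain ⟨m, hm⟩ := hexm ε hε
    obtain ⟨N₀, hN₀⟩ := hcore m
    refine ⟨8 + N₀, fun N hN x => ?_⟩
    have hNR : (1 : ℝ) ≤ N := by exact_mod_cast hN
    have h2 : (1 : ℝ) ≤ (N : ℝ) ^ (1 / 2 + ε : ℝ) := Real.one_le_rpow hNR (by positivity)
    have h3 : (0 : ℝ) ≤ (N₀ : ℝ) := Nat.cast_nonneg _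
    by_cases hlt : N₀ ≤ N
    · have h4 := F_le (ext f) hg m N hN (hN₀ N hlt hN) x
      have h5 : (N : ℝ) ^ (ex m) ≤ (N : ℝ) ^ (1 / 2 + ε : ℝ) :=
        Real.rpow_le_rpow_of_exponent_le hNR (by unfold ex; linarith)
      nlinarith
    · push Not at hlt
      have h7 : ‖F (ext f) N x‖ ≤ N := by
        unfold F
        refine (norm_sum_le _ _).trans ?_
        refine (Finset.sum_le_card_nsmul _ _ 1 fun n _ => ?_).trans ?_
        · rw [norm_mul, u2_norm_e, mul_one]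
          exact hg n
        · rw [Nat.card_Icc, nsmul_eq_mul]
          simp
      have h8 : (N : ℝ) ≤ N₀ := by exact_mod_cast hlt.le
      nlinarith

end Pool.Agent.Helper92.GB
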