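import Pool.Agent.Helper92.GB.Defs
import Pool.Agent.Helper92.GB.PV

/-!
# Growth exponents (MP_b6b996_nt)
Parseval lower bound, and the passage from explicit bounds to the growth exponent.
-/

set_option autoImplicit false

namespace Pool.Agent.Helper92.GB

open Finset

/-- The growth exponent of the sup norm of the exponential sums of `g`. -/
noncomputable def theta (g : ℕ → ℤ) : ℝ :=
  sInf {a : ℝ | 0 ≤ a ∧ ∃ C : ℝ, ∀ N : ℕ, 1 ≤ N → ∀ x : ℝ, x ∈ Set.Icc (0 : ℝ) 1 →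
    ‖F g N x‖ ≤ C * (N : ℝ) ^ a}

lemma sum_inv_sq (N : ℕ) (hN : 2 ≤ N) :
    ∑ d ∈ Icc 2 N, (1 : ℝ) / (d : ℝ) ^ 2 ≤ 3 / 4 - 1 / N := by
  induction N, hN using Nat.le_induction with
  | base => norm_num
  | succ n hn ih =>
    rw [← Finset.insert_Icc_right_eq_Icc_add_one (by omega), Finset.sum_insert (by simp)]
    have hn0 : (0 : ℝ) < n := by
      have : 0 < n := by omega
      exact_mod_cast this
    have key : (1 : ℝ) / (((n + 1 : ℕ) : ℝ)) ^ 2 ≤ 1 / n - 1 / ((n + 1 : ℕ) : ℝ) := by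
      push_cast
      rw [div_sub_div _ _ hn0.ne' (by positivity), div_le_div_iff₀ (by positivity) (by positivity)]
      nlinarith
    linarith

lemma card_sqfree (N : ℕ) : (N : ℝ) / 4 ≤ (((Icc 1 N).filter Squarefree).card : ℝ) := by
  rcases Nat.lt_or_ge N 2 with h | h
  · interval_cases N
    · simp
    · have : ((Icc 1 1).filter (fun n : ℕ => Squarefree n)) = {1} := by
        ext n
        simp only [Finset.mem_filter, Finset.mem_Icc, Finset.mem_singleton]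
        constructor
        · rintro ⟨⟨h1, h2⟩, _⟩; omega
        · rintro rfl; exact ⟨⟨le_refl _, le_refl _⟩, squarefree_one⟩
      rw [this]
      norm_num
  · have hsub : (Icc 1 N).filter (fun n => ¬ Squarefree n) ⊆
        (Icc 2 N).biUnion (fun d => (Ioc 0 N).filter (fun n => d ^ 2 ∣ n)) := by
      intro n hn
      simp only [Finset.mem_filter, Finset.mem_Icc] at hn
      obtain ⟨⟨h1, h2⟩, h3⟩ := hn
      rw [Squarefree] at h3
      push Not at h3
      obtain ⟨d, hd, hu⟩ := h3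
      have hd0 : d ≠ 0 := by
        rintro rfl
        simp at hd
        omega
      have hd1 : d ≠ 1 := by
        rintro rfl
        exact hu isUnit_one
      have hdn : d * d ≤ n := Nat.le_of_dvd (by omega) hd
      simp only [Finset.mem_biUnion, Finset.mem_Icc, Finset.mem_filter, Finset.mem_Ioc]
      refine ⟨d, ⟨by omega, by nlinarith [Nat.pos_of_ne_zero hd0]⟩, ⟨by omega, h2⟩, ?_⟩
      rw [sq]
      exact hd
    have hcard : (((Icc 1 N).filter (fun n => ¬ Squarefree n)).card : ℝ) ≤ 3 / 4 * N := by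
      calc (((Icc 1 N).filter (fun n => ¬ Squarefree n)).card : ℝ)
          ≤ (((Icc 2 N).biUnion (fun d => (Ioc 0 N).filter (fun n => d ^ 2 ∣ n))).card : ℝ) := by
            exact_mod_cast Finset.card_le_card hsub
        _ ≤ ((∑ d ∈ Icc 2 N, ((Ioc 0 N).filter (fun n => d ^ 2 ∣ n)).card : ℕ) : ℝ) := by
            exact_mod_cast Finset.card_biUnion_le
        _ = ∑ d ∈ Icc 2 N, ((N / d ^ 2 : ℕ) : ℝ) := by
            push_cast
            refine Finset.sum_congr rfl fun d _ => ?_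
            rw [Nat.Ioc_filter_dvd_card_eq_div]
        _ ≤ ∑ d ∈ Icc 2 N, (N : ℝ) * (1 / (d : ℝ) ^ 2) := by
            refine Finset.sum_le_sum fun d _ => ?_
            refine Nat.cast_div_le.trans ?_
            push_cast
            rw [mul_one_div]
        _ = (N : ℝ) * ∑ d ∈ Icc 2 N, (1 / (d : ℝ) ^ 2) := by rw [Finset.mul_sum]
        _ ≤ (N : ℝ) * (3 / 4 - 1 / N) := by
            gcongr
            exact sum_inv_sq N h
        _ ≤ 3 / 4 * N := by
            have : (0 : ℝ) < N := by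
              have : 0 < N := by omega
              exact_mod_cast this
            field_simp
            linarith
    have htot := Finset.card_filter_add_card_filter_not (s := Icc 1 N) (fun n => Squarefree n)
    rw [Nat.card_Icc, Nat.add_sub_cancel] at htot
    have : (((Icc 1 N).filter (fun n => Squarefree n)).card : ℝ) +
        (((Icc 1 N).filter (fun n => ¬ Squarefree n)).card : ℝ) = N := by exact_mod_cast htot
    linarith

lemma exists_large (g : ℕ → ℤ) (hsq : ∀ n : ℕ, g n ^ 2 = ArithmeticFunction.moebius n ^ 2) (N : ℕ) :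
    ∃ x : ℝ, x ∈ Set.Icc (0 : ℝ) 1 ∧ Real.sqrt N / 2 ≤ ‖F g N x‖ := by
  have hpar := PV_parseval (N + 1) (Icc 1 N) (fun p hp => by
    have := Finset.mem_Icc.mp hp
    omega) (fun n => (g n : ℂ))
  have hF : ∀ l : ZMod (N + 1), ∑ p ∈ Icc 1 N, ((g p : ℤ) : ℂ) *
      ZMod.stdAddChar ((p : ZMod (N + 1)) * l) = F g N ((l.val : ℝ) / ((N + 1 : ℕ) : ℝ)) := by
    intro l
    unfold F
    refine Finset.sum_congr rfl fun p _ => ?_
    congr 1
    have h := PV_exp (N + 1) p l.val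
    rw [ZMod.natCast_zmod_val] at h
    rw [h]
    unfold e
    congr 1
    push_cast
    ring
  have hsum : ∑ p ∈ Icc 1 N, ‖((g p : ℤ) : ℂ)‖ ^ 2 = (((Icc 1 N).filter Squarefree).card : ℝ) := by
    rw [Finset.card_filter]
    push_cast
    refine Finset.sum_congr rfl fun n _ => ?_
    have h1 : ‖((g n : ℤ) : ℂ)‖ ^ 2 = (((g n ^ 2 : ℤ)) : ℝ) := by
      rw [Complex.norm_intCast]
      push_cast
      exact sq_abs _
    rw [h1, hsq]
    by_cases hs : Squarefree n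
    · have := ArithmeticFunction.moebius_sq_eq_one_of_squarefree hs
      rw [this, if_pos hs]
      simp
    · rw [ArithmeticFunction.moebius_eq_zero_of_not_squarefree hs, if_neg hs]
      simp
  by_contra hcon
  push Not at hcon
  have hlt : ∀ l : ZMod (N + 1), ‖F g N ((l.val : ℝ) / ((N + 1 : ℕ) : ℝ))‖ ^ 2 < (N : ℝ) / 4 := by
    intro l
    have hmem : ((l.val : ℝ) / ((N + 1 : ℕ) : ℝ)) ∈ Set.Icc (0 : ℝ) 1 := by
      constructor
      · positivity
      · rw [div_le_one (by positivity)]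
        exact_mod_cast (ZMod.val_lt l).le
    have h := hcon _ hmem
    have h2 : ‖F g N ((l.val : ℝ) / ((N + 1 : ℕ) : ℝ))‖ ^ 2 < (Real.sqrt N / 2) ^ 2 :=
      pow_lt_pow_left₀ h (norm_nonneg _) (by norm_num)
    rw [div_pow, Real.sq_sqrt (Nat.cast_nonneg N)] at h2
    linarith
  have hle : ∑ l : ZMod (N + 1), ‖∑ p ∈ Icc 1 N, ((g p : ℤ) : ℂ) *
      ZMod.stdAddChar ((p : ZMod (N + 1)) * l)‖ ^ 2 < ((N + 1 : ℕ) : ℝ) * ((N : ℝ) / 4) := by
    calc ∑ l : ZMod (N + 1), ‖∑ p ∈ Icc 1 N, ((g p : ℤ) : ℂ) *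
      ZMod.stdAddChar ((p : ZMod (N + 1)) * l)‖ ^ 2
        < ∑ l : ZMod (N + 1), (N : ℝ) / 4 := by
          refine Finset.sum_lt_sum_of_nonempty ⟨0, Finset.mem_univ _⟩ fun l _ => ?_
          rw [hF l]
          exact hlt l
      _ = ((N + 1 : ℕ) : ℝ) * ((N : ℝ) / 4) := by
          rw [Finset.sum_const, Finset.card_univ, ZMod.card, nsmul_eq_mul]
  rw [hpar, hsum] at hle
  have := card_sqfree N
  have hpos : (0 : ℝ) < ((N + 1 : ℕ) : ℝ) := by positivity
  have := mul_le_mul_of_nonneg_left this hpos.le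
  linarith

lemma half_le_theta (g : ℕ → ℤ) (hsq : ∀ n : ℕ, g n ^ 2 = ArithmeticFunction.moebius n ^ 2)
    (hne : ∃ a : ℝ, 0 ≤ a ∧ ∃ C : ℝ, ∀ N : ℕ, 1 ≤ N → ∀ x : ℝ, x ∈ Set.Icc (0 : ℝ) 1 →
      ‖F g N x‖ ≤ C * (N : ℝ) ^ a) : 1 / 2 ≤ theta g := by
  refine le_csInf hne ?_
  rintro a ⟨ha0, C, hC⟩
  by_contra hlt
  push Not at hlt
  have hb : 0 < 1 / 2 - a := by linarith
  have hlim : Filter.Tendsto (fun N : ℕ => ((N : ℝ)) ^ (1 / 2 - a)) Filter.atTop Filter.atTop :=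
    (tendsto_rpow_atTop hb).comp tendsto_natCast_atTop_atTop
  obtain ⟨N, hN1, hN2⟩ := ((hlim.eventually (Filter.eventually_gt_atTop (2 * C))).and
    (Filter.eventually_ge_atTop 1)).exists
  obtain ⟨x, hx, hlow⟩ := exists_large g hsq N
  have h := hlow.trans (hC N hN2 x hx)
  have hNpos : (0 : ℝ) < N := by exact_mod_cast hN2
  have e1 : Real.sqrt N = (N : ℝ) ^ (1 / 2 - a) * (N : ℝ) ^ a := by
    rw [← Real.rpow_add hNpos, Real.sqrt_eq_rpow]
    congr 1
    ring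
  rw [e1] at h
  have hpos : (0 : ℝ) < (N : ℝ) ^ a := Real.rpow_pos_of_pos hNpos a
  have : (N : ℝ) ^ (1 / 2 - a) / 2 ≤ C := by
    by_contra hc
    push Not at hc
    have := mul_lt_mul_of_pos_right hc hpos
    linarith
  linarith

lemma theta_le (g : ℕ → ℤ) (b : ℝ) (hb : 0 ≤ b)
    (h : ∀ ε : ℝ, 0 < ε → ∃ C : ℝ, ∀ N : ℕ, 1 ≤ N → ∀ x : ℝ, ‖F g N x‖ ≤ C * (N : ℝ) ^ (b + ε)) :
    theta g ≤ b := by
  refine le_of_forall_pos_le_add fun ε hε => ?_
  obtain ⟨C, hC⟩ := h ε hε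
  exact csInf_le ⟨0, fun a ha => ha.1⟩ ⟨by linarith, C, fun N hN x _ => hC N hN x⟩

lemma le_theta (g : ℕ → ℤ) (b : ℝ)
    (hne : ∃ a : ℝ, 0 ≤ a ∧ ∃ C : ℝ, ∀ N : ℕ, 1 ≤ N → ∀ x : ℝ, x ∈ Set.Icc (0 : ℝ) 1 →
      ‖F g N x‖ ≤ C * (N : ℝ) ^ a)
    (h : ∀ ε : ℝ, 0 < ε → ∀ N₀ : ℕ, ∃ N : ℕ, N₀ ≤ N ∧
      ∃ x : ℝ, x ∈ Set.Icc (0 : ℝ) 1 ∧ (N : ℝ) ^ (b - ε) ≤ ‖F g N x‖) : b ≤ theta g := by
  refine le_csInf hne ?_
  rintro a ⟨ha0, C, hC⟩
  by_contra hlt
  push Not at hlt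
  have hb : 0 < (b - a) / 2 := by linarith
  have hlim : Filter.Tendsto (fun N : ℕ => ((N : ℝ)) ^ ((b - a) / 2)) Filter.atTop Filter.atTop :=
    (tendsto_rpow_atTop hb).comp tendsto_natCast_atTop_atTop
  obtain ⟨N₁, hN₁⟩ := Filter.eventually_atTop.mp
    ((hlim.eventually (Filter.eventually_gt_atTop C)).and (Filter.eventually_ge_atTop 1))
  obtain ⟨N, hN, x, hx, hlow⟩ := h ((b - a) / 2) hb N₁
  obtain ⟨hN1, hN2⟩ := hN₁ N hN
  have h := hlow.trans (hC N hN2 x hx)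
  have hNpos : (0 : ℝ) < N := by exact_mod_cast hN2
  have e1 : (N : ℝ) ^ (b - (b - a) / 2) = (N : ℝ) ^ ((b - a) / 2) * (N : ℝ) ^ a := by
    rw [← Real.rpow_add hNpos]
    congr 1
    ring
  rw [e1] at h
  have hpos : (0 : ℝ) < (N : ℝ) ^ a := Real.rpow_pos_of_pos hNpos a
  have := mul_lt_mul_of_pos_right hN1 hpos
  linarith

end Pool.Agent.Helper92.GB
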