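import Pool.Agent.Helper92.GB.Defs
import Pool.Agent.Helper92.GB.UR

/-!
# Block GB-NS (MP_b6b996_nt)
Good signs off the special set (imports UR).
Proof. For every `k` with `2^k ≥ M₀` apply UR with `M = 2^k`, `S` = the primes in the block off `E` (subtype of a Finset, card `≤ 2^k`), `h = 0`,
`w_s = χ(s) s^{it} 1_{s ≤ y}`, `V = 2^k`, Lipschitz constant `log(2^(k+1)) ≤ M^4`; the total weight is `1 > 2^(-10 k)`, so good signs exist. `√(log M) ≤ k + 1`.
For `y > 4M` replace `y` by `4M`. For the finitely many small `k` use the trivial bound `2^k` and `log(q(2+|t|)) ≥ log 2`.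
-/

set_option autoImplicit false

namespace Pool.Agent.Helper92.GB

open Finset

private theorem npi_eq {n : ℕ} (hn : 0 < n) (t : ℝ) :
    npi n t = Complex.exp (Complex.I * ((Real.log n * t : ℝ) : ℂ)) := by
  have h : (n : ℂ) ≠ 0 := by exact_mod_cast hn.ne'
  rw [npi, Complex.cpow_def_of_ne_zero h, ← Complex.natCast_log]
  push_cast
  congr 1
  ring

private theorem norm_npi_le (n : ℕ) (t : ℝ) : ‖npi n t‖ ≤ 1 := by
  rcases Nat.eq_zero_or_pos n with h | h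
  · subst h
    rw [npi]
    by_cases ht : (t : ℂ) * Complex.I = 0
    · rw [ht]; simp
    · rw [Nat.cast_zero, Complex.zero_cpow ht]; simp
  · rw [npi_eq h, mul_comm, Complex.norm_exp_ofReal_mul_I]

private theorem npi_lip {n : ℕ} (hn : 0 < n) (t t' : ℝ) :
    ‖npi n t - npi n t'‖ ≤ n * |t - t'| := by
  rw [npi_eq hn, npi_eq hn]
  have e1 : Complex.exp (Complex.I * ((Real.log n * t : ℝ) : ℂ)) -
      Complex.exp (Complex.I * ((Real.log n * t' : ℝ) : ℂ)) =
      Complex.exp (Complex.I * ((Real.log n * t' : ℝ) : ℂ)) *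
        (Complex.exp (Complex.I * ((Real.log n * (t - t') : ℝ) : ℂ)) - 1) := by
    rw [mul_sub, ← Complex.exp_add, mul_one]
    congr 2
    push_cast
    ring
  rw [e1, norm_mul]
  have e2 : ‖Complex.exp (Complex.I * ((Real.log n * t' : ℝ) : ℂ))‖ = 1 := by
    rw [mul_comm, Complex.norm_exp_ofReal_mul_I]
  rw [e2, one_mul]
  refine (Real.norm_exp_I_mul_ofReal_sub_one_le).trans ?_
  rw [Real.norm_eq_abs, abs_mul]
  have h1 : |Real.log n| ≤ n := by
    have hn1 : (1 : ℝ) ≤ n := by exact_mod_cast hn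
    rw [abs_of_nonneg (Real.log_nonneg hn1)]
    exact (Real.log_le_sub_one_of_pos (by linarith)).trans (by linarith)
  exact mul_le_mul_of_nonneg_right h1 (abs_nonneg _)

private theorem sum_wt_zero (S : Type) [Fintype S] [DecidableEq S] :
    ∑ η : S → ℤˣ, wt (fun _ => 0) η = 1 := by
  have h : ∀ η : S → ℤˣ, wt (fun _ => (0 : ℝ)) η = (1 / 2 : ℝ) ^ Fintype.card S := by
    intro η
    simp [wt]
  rw [Finset.sum_congr rfl (fun η _ => h η), Finset.sum_const, Finset.card_univ, Fintype.card_fun,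
    Fintype.card_units_int, nsmul_eq_mul]
  push_cast
  rw [← mul_pow]
  norm_num

private theorem log_X {q : ℕ} (hq : 1 ≤ q) (t : ℝ) : Real.log 2 ≤ Real.log (q * (2 + |t|)) := by
  apply Real.log_le_log (by norm_num)
  have h1 : (1 : ℝ) ≤ q := by exact_mod_cast hq
  have h2 := abs_nonneg t
  nlinarith

private theorem block_large (A : ℝ) (M₀ : ℕ) (hA : 0 < A) (hM₀ : 2 ≤ M₀)
    (hUR : ∀ M : ℕ, M₀ ≤ M →
    ∀ (S : Type) [Fintype S] [DecidableEq S], Fintype.card S ≤ M → ∀ h : S → ℝ,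
    (∀ s, |h s| ≤ 1) → ∀ V : ℝ, 1 ≤ V → V ≤ (M : ℝ) ^ 4 →
    ∀ w : (q : ℕ) → DirichletCharacter ℂ q → ℝ → ℕ → S → ℂ,
    (∀ q χ t y, ∑ s, ‖w q χ t y s‖ ^ 2 ≤ V) →
    (∀ q χ t t' y s, ‖w q χ t y s - w q χ t' y s‖ ≤ (M : ℝ) ^ 4 * |t - t'|) →
    open Classical in
    ∑ η : S → ℤˣ, wt h η *
        (if ∃ (q : ℕ) (χ : DirichletCharacter ℂ q) (t : ℝ) (y : ℕ), 1 ≤ q ∧ y ≤ 4 * M ∧
          A * Real.sqrt V * Real.sqrt (Real.log (q * (2 + |t|)) * Real.log M) <
            ‖∑ s, ((((η s : ℤ) : ℝ) - h s : ℝ) : ℂ) * w q χ t y s‖ then 1 else 0)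
      ≤ 1 / (M : ℝ) ^ 10) (k : ℕ) (hk : M₀ ≤ 2 ^ k) (E : Set ℕ) :
    ∃ f : ℕ → ℤ, (∀ n, f n = 1 ∨ f n = -1) ∧
    ∀ (q : ℕ) (χ : DirichletCharacter ℂ q) (t : ℝ) (y : ℕ), 1 ≤ q →
      open Classical in
      ‖∑ p ∈ (Ioc (2 ^ k) (2 ^ (k + 1))).filter (fun p => p.Prime ∧ p ∉ E ∧ p ≤ y),
          (f p : ℂ) * χ (p : ZMod q) * npi p t‖ ≤
        A * Real.sqrt (2 ^ k) * (k + 1) * Real.sqrt (Real.log (q * (2 + |t|))) := by
  classical
  set B : Finset ℕ := (Ioc (2 ^ k) (2 ^ (k + 1))).filter (fun p => p.Prime ∧ p ∉ E) with hB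
  have hmem : ∀ p ∈ B, 2 ^ k < p ∧ p ≤ 2 ^ (k + 1) := by
    intro p hp
    rw [hB, mem_filter, mem_Ioc] at hp
    exact hp.1
  have hcard : Fintype.card B ≤ 2 ^ k := by
    rw [Fintype.card_coe]
    refine (card_filter_le _ _).trans ?_
    rw [Nat.card_Ioc, pow_succ]
    omega
  have h2k : (2 : ℝ) ≤ 2 ^ k := by
    have : (2 : ℕ) ≤ 2 ^ k := hM₀.trans hk
    exact_mod_cast this
  set w : (q : ℕ) → DirichletCharacter ℂ q → ℝ → ℕ → B → ℂ :=
    fun q χ t y s => if (s : ℕ) ≤ y then χ ((s : ℕ) : ZMod q) * npi s t else 0 with hw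
  have hw1 : ∀ q χ t y s, ‖w q χ t y s‖ ≤ 1 := by
    intro q χ t y s
    simp only [hw]
    split_ifs
    · rw [norm_mul]
      calc ‖χ ((s : ℕ) : ZMod q)‖ * ‖npi s t‖ ≤ 1 * 1 :=
            mul_le_mul (χ.norm_le_one _) (norm_npi_le _ _) (norm_nonneg _) zero_le_one
        _ = 1 := one_mul 1
    · simp
  have hsum : ∀ q χ t y, ∑ s, ‖w q χ t y s‖ ^ 2 ≤ (2 : ℝ) ^ k := by
    intro q χ t y
    calc ∑ s, ‖w q χ t y s‖ ^ 2 ≤ ∑ _s : B, (1 : ℝ) :=
          sum_le_sum fun s _ => pow_le_one₀ (norm_nonneg _) (hw1 q χ t y s)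
      _ = Fintype.card B := by simp
      _ ≤ (2 : ℝ) ^ k := by exact_mod_cast hcard
  have hlip : ∀ q χ t t' y s, ‖w q χ t y s - w q χ t' y s‖ ≤
      (((2 ^ k : ℕ) : ℝ)) ^ 4 * |t - t'| := by
    intro q χ t t' y s
    have hs := hmem s s.2
    have hs0 : 0 < (s : ℕ) := lt_of_le_of_lt (Nat.zero_le _) hs.1
    simp only [hw]
    split_ifs
    · rw [← mul_sub, norm_mul]
      have h1 : ‖χ ((s : ℕ) : ZMod q)‖ ≤ 1 := χ.norm_le_one _
      have h2 := npi_lip hs0 t t'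
      have h3 : ((s : ℕ) : ℝ) ≤ (((2 ^ k : ℕ) : ℝ)) ^ 4 := by
        have h4 : ((s : ℕ) : ℝ) ≤ 2 ^ (k + 1) := by exact_mod_cast hs.2
        push_cast
        rw [pow_succ] at h4
        nlinarith [pow_le_pow_left₀ (by norm_num : (0 : ℝ) ≤ 2) h2k 3,
          pow_le_pow_left₀ (by norm_num : (0 : ℝ) ≤ 2) h2k 2]
      calc ‖χ ((s : ℕ) : ZMod q)‖ * ‖npi s t - npi s t'‖ ≤ 1 * (s * |t - t'|) :=
            mul_le_mul h1 h2 (norm_nonneg _) zero_le_one
        _ = s * |t - t'| := one_mul _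
        _ ≤ _ := mul_le_mul_of_nonneg_right h3 (abs_nonneg _)
    · simp only [sub_self, norm_zero]
      positivity
  have hmain := hUR (2 ^ k) hk B hcard (fun _ => 0) (fun _ => by simp) ((2 : ℝ) ^ k)
    (by linarith) (by push_cast; nlinarith [pow_le_pow_left₀ (by norm_num : (0 : ℝ) ≤ 2) h2k 3,
          pow_le_pow_left₀ (by norm_num : (0 : ℝ) ≤ 2) h2k 2]) w hsum hlip
  -- a good sign vector
  obtain ⟨η, hη⟩ : ∃ η : B → ℤˣ, ¬ ∃ (q : ℕ) (χ : DirichletCharacter ℂ q) (t : ℝ) (y : ℕ),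
      1 ≤ q ∧ y ≤ 4 * 2 ^ k ∧
      A * Real.sqrt (2 ^ k) * Real.sqrt (Real.log (q * (2 + |t|)) * Real.log (2 ^ k : ℕ)) <
        ‖∑ s, ((((η s : ℤ) : ℝ) - 0 : ℝ) : ℂ) * w q χ t y s‖ := by
    by_contra hcon
    push Not at hcon
    have h1 : (1 : ℝ) ≤ 1 / ((2 ^ k : ℕ) : ℝ) ^ 10 := by
      refine le_trans (le_of_eq ?_) hmain
      refine (sum_wt_zero B).symm.trans ?_
      refine sum_congr rfl fun η _ => ?_
      rw [if_pos (hcon η), mul_one]
    have h2 : (1 : ℝ) < ((2 ^ k : ℕ) : ℝ) ^ 10 := by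
      apply one_lt_pow₀ _ (by norm_num)
      push_cast
      linarith
    rw [le_div_iff₀ (by linarith), one_mul] at h1
    linarith
  push Not at hη
  refine ⟨fun n => if h : n ∈ B then (η ⟨n, h⟩ : ℤ) else 1, ?_, ?_⟩
  · intro n
    dsimp only
    split_ifs with h
    · rcases Int.units_eq_one_or (η ⟨n, h⟩) with h1 | h1
      · left; rw [h1]; rfl
      · right; rw [h1]; rfl
    · left; rfl
  · intro q χ t y hq
    have e1 : ∑ p ∈ (Ioc (2 ^ k) (2 ^ (k + 1))).filter (fun p => p.Prime ∧ p ∉ E ∧ p ≤ y),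
        (((if h : p ∈ B then (η ⟨p, h⟩ : ℤ) else 1 : ℤ) : ℂ)) * χ (p : ZMod q) * npi p t =
        ∑ s : B, ((((η s : ℤ) : ℝ) - 0 : ℝ) : ℂ) * w q χ t (min y (4 * 2 ^ k)) s := by
      have e2 : (Ioc (2 ^ k) (2 ^ (k + 1))).filter (fun p => p.Prime ∧ p ∉ E ∧ p ≤ y) =
          B.filter (fun p => p ≤ y) := by
        rw [hB, filter_filter]
        congr 1
        ext p
        tauto
      rw [e2, sum_filter, ← sum_coe_sort B]
      refine sum_congr rfl fun s _ => ?_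
      have hs := hmem s s.2
      have h4 : (s : ℕ) ≤ 4 * 2 ^ k := by
        have := hs.2
        rw [pow_succ] at this
        omega
      simp only [hw]
      by_cases hy : (s : ℕ) ≤ y
      · rw [if_pos hy, if_pos (le_min hy h4), dif_pos s.2]
        push_cast
        ring
      · rw [if_neg hy, if_neg (fun h => hy (h.trans (min_le_left _ _))), mul_zero]
    have h5 := hη q χ t (min y (4 * 2 ^ k)) hq (min_le_right _ _)
    rw [← e1] at h5
    refine h5.trans ?_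
    have hL : 0 ≤ Real.log (q * (2 + |t|)) := (Real.log_nonneg (by norm_num)).trans (log_X hq t)
    rw [Real.sqrt_mul hL]
    have h6 : Real.sqrt (Real.log ((2 ^ k : ℕ) : ℝ)) ≤ (k : ℝ) + 1 := by
      rw [Real.sqrt_le_left (by positivity)]
      push_cast
      rw [Real.log_pow]
      have : Real.log 2 ≤ 1 := by
        have := Real.log_two_lt_d9
        linarith
      have hk0 : (0 : ℝ) ≤ k := by positivity
      nlinarith
    have h7 : 0 ≤ A * Real.sqrt (2 ^ k) := by positivity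
    calc A * Real.sqrt (2 ^ k) * (Real.sqrt (Real.log (q * (2 + |t|))) *
          Real.sqrt (Real.log ((2 ^ k : ℕ) : ℝ)))
        ≤ A * Real.sqrt (2 ^ k) * (Real.sqrt (Real.log (q * (2 + |t|))) * ((k : ℝ) + 1)) :=
          mul_le_mul_of_nonneg_left (mul_le_mul_of_nonneg_left h6 (Real.sqrt_nonneg _)) h7
      _ = _ := by ring

theorem NS : ∃ C : ℝ, 0 < C ∧ ∀ E : Set ℕ, ∃ f : ℕ → ℤ, (∀ n, f n = 1 ∨ f n = -1) ∧
    ∀ (k q : ℕ) (χ : DirichletCharacter ℂ q) (t : ℝ) (y : ℕ), 1 ≤ q →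
      open Classical in
      ‖∑ p ∈ (Ioc (2 ^ k) (2 ^ (k + 1))).filter (fun p => p.Prime ∧ p ∉ E ∧ p ≤ y),
          (f p : ℂ) * χ (p : ZMod q) * npi p t‖ ≤
        C * Real.sqrt (2 ^ k) * (k + 1) * Real.sqrt (Real.log (q * (2 + |t|))) := by
  classical
  obtain ⟨A, M₀, hA, hM₀, hUR⟩ := UR
  have hl2 : 0 < Real.log 2 := Real.log_pos (by norm_num)
  have hsl : 0 < Real.sqrt (Real.log 2) := Real.sqrt_pos.2 hl2
  refine ⟨A + Real.sqrt M₀ / Real.sqrt (Real.log 2), by positivity, fun E => ?_⟩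
  -- block by block
  have hblock : ∀ k : ℕ, ∃ f : ℕ → ℤ, (∀ n, f n = 1 ∨ f n = -1) ∧
      ∀ (q : ℕ) (χ : DirichletCharacter ℂ q) (t : ℝ) (y : ℕ), 1 ≤ q →
      ‖∑ p ∈ (Ioc (2 ^ k) (2 ^ (k + 1))).filter (fun p => p.Prime ∧ p ∉ E ∧ p ≤ y),
          (f p : ℂ) * χ (p : ZMod q) * npi p t‖ ≤
        (A + Real.sqrt M₀ / Real.sqrt (Real.log 2)) * Real.sqrt (2 ^ k) * (k + 1) *
          Real.sqrt (Real.log (q * (2 + |t|))) := by
    intro k
    by_cases hk : M₀ ≤ 2 ^ k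
    · obtain ⟨f, hf1, hf2⟩ := block_large A M₀ hA hM₀ hUR k hk E
      refine ⟨f, hf1, fun q χ t y hq => (hf2 q χ t y hq).trans ?_⟩
      have h1 : 0 ≤ Real.sqrt (2 ^ k) * ((k : ℝ) + 1) * Real.sqrt (Real.log (q * (2 + |t|))) := by
        positivity
      have h2 : 0 ≤ Real.sqrt M₀ / Real.sqrt (Real.log 2) := by positivity
      nlinarith [mul_nonneg h2 h1]
    · push Not at hk
      refine ⟨fun _ => 1, fun _ => Or.inl rfl, fun q χ t y hq => ?_⟩
      have h1 : ‖∑ p ∈ (Ioc (2 ^ k) (2 ^ (k + 1))).filter (fun p => p.Prime ∧ p ∉ E ∧ p ≤ y),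
          ((1 : ℤ) : ℂ) * χ (p : ZMod q) * npi p t‖ ≤ (2 : ℝ) ^ k := by
        refine (norm_sum_le _ _).trans ?_
        calc ∑ p ∈ (Ioc (2 ^ k) (2 ^ (k + 1))).filter (fun p => p.Prime ∧ p ∉ E ∧ p ≤ y),
              ‖((1 : ℤ) : ℂ) * χ (p : ZMod q) * npi p t‖
            ≤ ∑ _p ∈ (Ioc (2 ^ k) (2 ^ (k + 1))).filter (fun p => p.Prime ∧ p ∉ E ∧ p ≤ y),
              (1 : ℝ) := by
              refine sum_le_sum fun p _ => ?_
              rw [Int.cast_one, one_mul, norm_mul]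
              calc ‖χ (p : ZMod q)‖ * ‖npi p t‖ ≤ 1 * 1 :=
                    mul_le_mul (χ.norm_le_one _) (norm_npi_le _ _) (norm_nonneg _) zero_le_one
                _ = 1 := one_mul 1
          _ = (((Ioc (2 ^ k) (2 ^ (k + 1))).filter
              (fun p => p.Prime ∧ p ∉ E ∧ p ≤ y)).card : ℝ) := by simp
          _ ≤ (2 : ℝ) ^ k := by
              have : ((Ioc (2 ^ k) (2 ^ (k + 1))).filter
                  (fun p => p.Prime ∧ p ∉ E ∧ p ≤ y)).card ≤ 2 ^ k := by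
                refine (card_filter_le _ _).trans ?_
                rw [Nat.card_Ioc, pow_succ]
                omega
              exact_mod_cast this
      refine h1.trans ?_
      have hS : (0 : ℝ) ≤ 2 ^ k := by positivity
      have h2 : (2 : ℝ) ^ k = Real.sqrt (2 ^ k) * Real.sqrt (2 ^ k) :=
        (Real.mul_self_sqrt hS).symm
      have h3 : Real.sqrt ((2 : ℝ) ^ k) ≤ Real.sqrt M₀ := by
        apply Real.sqrt_le_sqrt
        exact_mod_cast hk.le
      have h4 : Real.sqrt (Real.log 2) ≤ Real.sqrt (Real.log (q * (2 + |t|))) :=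
        Real.sqrt_le_sqrt (log_X hq t)
      have h5 : (1 : ℝ) ≤ (k : ℝ) + 1 := by
        have : (0 : ℝ) ≤ k := by positivity
        linarith
      have h6 : Real.sqrt M₀ ≤ (A + Real.sqrt M₀ / Real.sqrt (Real.log 2)) *
          Real.sqrt (Real.log (q * (2 + |t|))) := by
        calc Real.sqrt M₀ = Real.sqrt M₀ / Real.sqrt (Real.log 2) * Real.sqrt (Real.log 2) := by
              field_simp
          _ ≤ (A + Real.sqrt M₀ / Real.sqrt (Real.log 2)) * Real.sqrt (Real.log 2) := by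
              apply mul_le_mul_of_nonneg_right _ hsl.le
              linarith
          _ ≤ _ := by
              apply mul_le_mul_of_nonneg_left h4
              positivity
      calc (2 : ℝ) ^ k = Real.sqrt (2 ^ k) * Real.sqrt (2 ^ k) := h2
        _ ≤ Real.sqrt (2 ^ k) * ((A + Real.sqrt M₀ / Real.sqrt (Real.log 2)) *
            Real.sqrt (Real.log (q * (2 + |t|)))) :=
            mul_le_mul_of_nonneg_left (h3.trans h6) (Real.sqrt_nonneg _)
        _ = (A + Real.sqrt M₀ / Real.sqrt (Real.log 2)) * Real.sqrt (2 ^ k) * 1 *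
            Real.sqrt (Real.log (q * (2 + |t|))) := by ring
        _ ≤ _ := by
            apply mul_le_mul_of_nonneg_right _ (Real.sqrt_nonneg _)
            apply mul_le_mul_of_nonneg_left h5
            positivity
  choose F hF1 hF2 using hblock
  refine ⟨fun n => F (Nat.log 2 (n - 1)) n, fun n => hF1 _ n, fun k q χ t y hq => ?_⟩
  have e : ∑ p ∈ (Ioc (2 ^ k) (2 ^ (k + 1))).filter (fun p => p.Prime ∧ p ∉ E ∧ p ≤ y),
      (F (Nat.log 2 (p - 1)) p : ℂ) * χ (p : ZMod q) * npi p t =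
      ∑ p ∈ (Ioc (2 ^ k) (2 ^ (k + 1))).filter (fun p => p.Prime ∧ p ∉ E ∧ p ≤ y),
      (F k p : ℂ) * χ (p : ZMod q) * npi p t := by
    refine sum_congr rfl fun p hp => ?_
    rw [mem_filter, mem_Ioc] at hp
    have h1 : Nat.log 2 (p - 1) = k := by
      rw [Nat.log_eq_iff (Or.inr ⟨by norm_num, by have := hp.1.1; have := Nat.one_le_two_pow (n := k); omega⟩)]
      have := hp.1.1
      have := hp.1.2
      omega
    rw [h1]
  rw [e]
  exact hF2 k q χ t y hq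

end Pool.Agent.Helper92.GB
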