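import Pool.Agent.Helper92.GB.P3
import Pool.Agent.Helper92.GB.RB
import Pool.Agent.Helper92.GB.PAR
import Pool.Agent.Helper92.GB.SEQ
import Pool.Agent.Helper92.GB.NS
import Pool.Agent.Helper92.GB.SC
import Pool.Agent.Helper92.GB.GLU

/-!
# Block GB-EX (MP_b6b996_nt)
A member of the class with exponent exactly 3/4: assembly of the construction.
-/

set_option autoImplicit false

namespace Pool.Agent.Helper92.GB

open Finset

/-- The function glued from the blocks. -/
noncomputable def glue (idx : ℕ → ℕ) (L B : ℕ → Finset ℕ) (f : ℕ → ℕ → ℤ) (f₀ : ℕ → ℤ)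
    (σ : ℕ → ℤˣ × ℤˣ) (n : ℕ) : ℤ :=
  if n ∈ L (idx n) then ((σ (idx n)).1 : ℤ) * f (idx n) n
  else if n ∈ B (idx n) then ((σ (idx n)).2 : ℤ) * f (idx n) n else f₀ n

lemma norm_unit_mul (s : ℤˣ) (z : ℂ) : ‖((s : ℤ) : ℂ) * z‖ = ‖z‖ := by
  rcases Int.units_eq_one_or s with h | h <;> simp [h]

lemma split_card (S : Finset ℕ) (x : ℝ) (hx : 1 < x) (h : x ≤ S.card) :
    ∃ L B : Finset ℕ, L ∪ B = S ∧ Disjoint L B ∧ x ≤ 4 * L.card ∧ x ≤ 4 * B.card := by
  obtain ⟨L, hL, hc⟩ := Finset.exists_subset_card_eq (s := S) (n := S.card / 2) (by omega)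
  have hS : 2 ≤ S.card := by
    have : (1 : ℝ) < S.card := lt_of_lt_of_le hx h
    have : 1 < S.card := by exact_mod_cast this
    omega
  have hB : (S \ L).card = S.card - S.card / 2 := by
    rw [Finset.card_sdiff_of_subset hL, hc]
  refine ⟨L, S \ L, Finset.union_sdiff_of_subset hL, Finset.disjoint_sdiff, ?_, ?_⟩
  · rw [hc]
    have : S.card ≤ 4 * (S.card / 2) := by omega
    have : (S.card : ℝ) ≤ 4 * ((S.card / 2 : ℕ) : ℝ) := by exact_mod_cast this
    linarith
  · rw [hB]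
    have : S.card ≤ 4 * (S.card - S.card / 2) := by omega
    have : (S.card : ℝ) ≤ 4 * ((S.card - S.card / 2 : ℕ) : ℝ) := by exact_mod_cast this
    linarith

theorem EX : ∃ g : ℕ → ℤ, GRHClass g ∧ ∀ ε : ℝ, 0 < ε → ∀ N₀ : ℕ, ∃ N : ℕ, N₀ ≤ N ∧
    ∃ x : ℝ, x ∈ Set.Icc (0 : ℝ) 1 ∧ (N : ℝ) ^ (3 / 4 - ε) ≤ ‖F g N x‖ := by
  classical
  obtain ⟨CR, hCR0, hRB⟩ := RB
  obtain ⟨CN, hCN0, hNS⟩ := NS
  have hδ0 : ∀ j : ℕ, (0 : ℝ) < 1 / ((j : ℝ) + 10) := fun j => by positivity
  have hδ1 : ∀ j : ℕ, (1 : ℝ) / ((j : ℝ) + 10) ≤ 1 / 10 := fun j => by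
    apply one_div_le_one_div_of_le (by norm_num)
    have : (0 : ℝ) ≤ j := Nat.cast_nonneg j
    linarith
  choose z₀ hz₀ using fun j : ℕ => hRB (1 / ((j : ℝ) + 10)) (hδ0 j) (hδ1 j)
  obtain ⟨z, hz1, hz2, hz3, hz4⟩ := SC z₀
  have hsplit : ∀ j, ∃ L B : Finset ℕ, L ∪ B = (Ioc (3 * z j) (4 * z j)).filter Nat.Prime ∧
      Disjoint L B ∧ (z j : ℝ) ^ (1 - 1 / ((j : ℝ) + 10)) ≤ 4 * L.card ∧
      (z j : ℝ) ^ (1 - 1 / ((j : ℝ) + 10)) ≤ 4 * B.card := by
    intro j
    apply split_card _ _ _ (hz4 j)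
    apply Real.one_lt_rpow
    · have := hz3 j
      have : (16 : ℝ) ≤ z j := by exact_mod_cast this
      linarith
    · have := hδ1 j
      linarith
  choose L B hLB hdis hLc hBc using hsplit
  have hLP : ∀ j, ∀ p ∈ L j, p.Prime ∧ 3 * z j < p ∧ p ≤ 4 * z j := by
    intro j p hp
    have : p ∈ (Ioc (3 * z j) (4 * z j)).filter Nat.Prime := by
      rw [← hLB j]; exact Finset.mem_union_left _ hp
    simp only [Finset.mem_filter, Finset.mem_Ioc] at this
    exact ⟨this.2, this.1.1, this.1.2⟩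
  have hBP : ∀ j, ∀ p ∈ B j, p.Prime ∧ 3 * z j < p ∧ p ≤ 4 * z j := by
    intro j p hp
    have : p ∈ (Ioc (3 * z j) (4 * z j)).filter Nat.Prime := by
      rw [← hLB j]; exact Finset.mem_union_right _ hp
    simp only [Finset.mem_filter, Finset.mem_Ioc] at this
    exact ⟨this.2, this.1.1, this.1.2⟩
  choose f hf1 hf2 hf3 hf4 using fun j : ℕ => hz₀ j (z j) (hz2 j) (L j) (B j)
    (fun p hp => Finset.mem_Ioc.mpr (hLP j p hp).2)
    (fun p hp => Finset.mem_Ioc.mpr (hBP j p hp).2) (hdis j) (hLc j) (hBc j)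
  obtain ⟨f₀, hf₀1, hf₀2⟩ := hNS {n : ℕ | ∃ j, 3 * z j < n ∧ n ≤ 4 * z j}
  -- monotonicity of the scales
  have hzlt : ∀ j, z j < z (j + 1) := by
    intro j
    have h1 := hz1 j
    have h3 := hz3 j
    nlinarith
  have hzmono : StrictMono z := strictMono_nat_of_lt_succ hzlt
  have hzj : ∀ j, j ≤ z j := fun j => hzmono.id_le j
  have hsep : ∀ i j, i < j → 16 * z i ^ 2 < z j := by
    intro i j hij
    exact lt_of_lt_of_le (hz1 i) (hzmono.monotone hij)
  have huniq : ∀ i j n, (3 * z i < n ∧ n ≤ 4 * z i) → (3 * z j < n ∧ n ≤ 4 * z j) → i = j := by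
    intro i j n hi hj
    rcases lt_trichotomy i j with h | h | h
    · exfalso
      have h1 := hsep i j h
      have h3 := hz3 i
      nlinarith
    · exact h
    · exfalso
      have h1 := hsep j i h
      have h3 := hz3 j
      nlinarith
  let idx : ℕ → ℕ := fun n => if h : ∃ j, 3 * z j < n ∧ n ≤ 4 * z j then h.choose else 0
  have hidx : ∀ j n, (3 * z j < n ∧ n ≤ 4 * z j) → idx n = j := by
    intro j n hn
    have hex : ∃ j, 3 * z j < n ∧ n ≤ 4 * z j := ⟨j, hn⟩
    have : idx n = hex.choose := dif_pos hex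
    rw [this]
    exact huniq _ _ n hex.choose_spec hn
  let G : (ℕ → ℤˣ × ℤˣ) → ℕ → ℤ := glue idx L B f f₀
  have hGL : ∀ σ j n, n ∈ L j → G σ n = ((σ j).1 : ℤ) * f j n := by
    intro σ j n hn
    have h1 : idx n = j := hidx j n (hLP j n hn).2
    show glue idx L B f f₀ σ n = _
    unfold glue
    rw [h1, if_pos hn]
  have hGB : ∀ σ j n, n ∈ B j → G σ n = ((σ j).2 : ℤ) * f j n := by
    intro σ j n hn
    have h1 : idx n = j := hidx j n (hBP j n hn).2
    have h2 : n ∉ L j := fun h => (Finset.disjoint_left.mp (hdis j) h) hn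
    show glue idx L B f f₀ σ n = _
    unfold glue
    rw [h1, if_neg h2, if_pos hn]
  have hGO : ∀ σ n, (∀ j, n ∉ L j) → (∀ j, n ∉ B j) → G σ n = f₀ n := by
    intro σ n h1 h2
    show glue idx L B f f₀ σ n = _
    unfold glue
    rw [if_neg (h1 _), if_neg (h2 _)]
  have hGpm : ∀ σ n, G σ n = 1 ∨ G σ n = -1 := by
    intro σ n
    have key : ∀ (s : ℤˣ) (a : ℤ), (a = 1 ∨ a = -1) → ((s : ℤ) * a = 1 ∨ (s : ℤ) * a = -1) := by
      intro s a ha
      rcases Int.units_eq_one_or s with h | h <;> rcases ha with h' | h' <;> simp [h, h']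
    show glue idx L B f f₀ σ n = 1 ∨ glue idx L B f f₀ σ n = -1
    unfold glue
    split_ifs
    · exact key _ _ (hf1 _ _)
    · exact key _ _ (hf1 _ _)
    · exact hf₀1 n
  have hPS : ∀ σ, PS (G σ) := by
    intro σ
    have hmax0 : 0 ≤ max CR CN := le_trans hCR0.le (le_max_left _ _)
    refine GLU z hz1 hz3 L B hLB hdis (G σ) (max CR CN) ?_ ?_ ?_
    · intro j q χ t y hq
      have h := hf2 j q χ t y hq
      have e1 : ∑ p ∈ (L j).filter (· ≤ y), (G σ p : ℂ) * χ (p : ZMod q) * npi p t =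
          (((σ j).1 : ℤ) : ℂ) * ∑ p ∈ (L j).filter (· ≤ y), (f j p : ℂ) * χ (p : ZMod q) * npi p t := by
        rw [Finset.mul_sum]
        apply Finset.sum_congr rfl
        intro p hp
        rw [hGL σ j p (Finset.mem_filter.mp hp).1]
        push_cast
        ring
      rw [e1, norm_unit_mul]
      refine h.trans ?_
      gcongr
      exact le_max_left _ _
    · intro j q χ t y hq
      have h := hf3 j q χ t y hq
      have e1 : ∑ p ∈ (B j).filter (· ≤ y), (G σ p : ℂ) * χ (p : ZMod q) * npi p t =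
          (((σ j).2 : ℤ) : ℂ) * ∑ p ∈ (B j).filter (· ≤ y), (f j p : ℂ) * χ (p : ZMod q) * npi p t := by
        rw [Finset.mul_sum]
        apply Finset.sum_congr rfl
        intro p hp
        rw [hGB σ j p (Finset.mem_filter.mp hp).1]
        push_cast
        ring
      rw [e1, norm_unit_mul]
      refine h.trans ?_
      gcongr
      exact le_max_left _ _
    · intro k q χ t y hq
      have h := hf₀2 k q χ t y hq
      have e1 : ∀ S : Finset ℕ, (∀ p ∈ S, p ∉ {n : ℕ | ∃ j, 3 * z j < n ∧ n ≤ 4 * z j}) →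
          ∑ p ∈ S, (G σ p : ℂ) * χ (p : ZMod q) * npi p t =
          ∑ p ∈ S, (f₀ p : ℂ) * χ (p : ZMod q) * npi p t := by
        intro S hS
        apply Finset.sum_congr rfl
        intro p hp
        rw [hGO σ p (fun j hj => hS p hp ⟨j, (hLP j p hj).2⟩)
          (fun j hj => hS p hp ⟨j, (hBP j p hj).2⟩)]
      rw [e1 _ (fun p hp => (Finset.mem_filter.mp hp).2.2.1)]
      refine h.trans ?_
      gcongr
      exact le_max_right _ _
  -- the conditions
  let P : ℕ → (ℕ → ℤˣ × ℤˣ) → Prop := fun j σ =>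
    (z j : ℝ) ^ (3 / 2 - 4 * (1 / ((j : ℝ) + 10))) ≤
      ‖F (ext (G σ)) (16 * z j ^ 2) (1 / (4 * z j + 1))‖
  have hFcongr : ∀ (a b : ℕ → ℤ) (N : ℕ) (x : ℝ), (∀ n, n ≤ N → a n = b n) →
      F (ext a) N x = F (ext b) N x := by
    intro a b N x hab
    unfold F
    apply Finset.sum_congr rfl
    intro n hn
    congr 2
    unfold ext
    split_ifs
    · apply Finset.prod_congr rfl
      intro p hp
      apply hab
      have hn1 : 0 < n := (Finset.mem_Icc.mp hn).1
      exact (Nat.le_of_dvd hn1 (Nat.dvd_of_mem_primeFactors hp)).trans (Finset.mem_Icc.mp hn).2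
    · rfl
  have hloc : ∀ (j : ℕ) (σ τ : ℕ → ℤˣ × ℤˣ), (∀ i ≤ j, σ i = τ i) → P j σ → P j τ := by
    intro j σ τ hst h
    have hG : ∀ n, n ≤ 16 * z j ^ 2 → G σ n = G τ n := by
      intro n hn
      by_cases hE : ∃ i, 3 * z i < n ∧ n ≤ 4 * z i
      · obtain ⟨i, hi⟩ := hE
        have hij : i ≤ j := by
          by_contra hcon
          push Not at hcon
          have := hsep j i hcon
          omega
        by_cases h1 : n ∈ L i
        · rw [hGL σ i n h1, hGL τ i n h1, hst i hij]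
        · by_cases h2 : n ∈ B i
          · rw [hGB σ i n h2, hGB τ i n h2, hst i hij]
          · have h3 : ∀ k, n ∉ L k := fun k hk => by
              have := huniq k i n (hLP k n hk).2 hi
              exact h1 (this ▸ hk)
            have h4 : ∀ k, n ∉ B k := fun k hk => by
              have := huniq k i n (hBP k n hk).2 hi
              exact h2 (this ▸ hk)
            rw [hGO σ n h3 h4, hGO τ n h3 h4]
      · have h3 : ∀ k, n ∉ L k := fun k hk => hE ⟨k, (hLP k n hk).2⟩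
        have h4 : ∀ k, n ∉ B k := fun k hk => hE ⟨k, (hBP k n hk).2⟩
        rw [hGO σ n h3 h4, hGO τ n h3 h4]
    show _ ≤ ‖F (ext (G τ)) (16 * z j ^ 2) (1 / (4 * z j + 1))‖
    rw [← hFcongr _ _ _ _ hG]
    exact h
  have hex : ∀ (j : ℕ) (σ : ℕ → ℤˣ × ℤˣ), ∃ a : ℤˣ × ℤˣ, P j (Function.update σ j a) := by
    intro j σ
    obtain ⟨s, s', hss⟩ := PAR (z j) (by have := hz3 j; omega) (L j) (B j) (hLP j) (hBP j)
      (hdis j) (G (Function.update σ j (1, 1))) (1 / (4 * z j + 1))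
    refine ⟨(s, s'), ?_⟩
    have e1 : (fun n => if n ∈ L j then (s : ℤ) * G (Function.update σ j (1, 1)) n
        else if n ∈ B j then (s' : ℤ) * G (Function.update σ j (1, 1)) n
        else G (Function.update σ j (1, 1)) n) = G (Function.update σ j (s, s')) := by
      funext n
      by_cases h1 : n ∈ L j
      · simp only [if_pos h1]
        rw [hGL _ j n h1, hGL _ j n h1]
        simp
      · by_cases h2 : n ∈ B j
        · simp only [if_neg h1, if_pos h2]
          rw [hGB _ j n h2, hGB _ j n h2]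
          simp
        · simp only [if_neg h1, if_neg h2]
          show glue idx L B f f₀ _ n = glue idx L B f f₀ _ n
          unfold glue
          by_cases hi : idx n = j
          · rw [hi]
            simp only [if_neg h1, if_neg h2]
          · rw [Function.update_of_ne hi, Function.update_of_ne hi]
    have e2 : ∑ p ∈ B j, ∑ l ∈ L j, (G (Function.update σ j (1, 1)) p : ℂ) *
        (G (Function.update σ j (1, 1)) l : ℂ) * e ((p * l : ℕ) * (1 / (4 * z j + 1))) =
        ∑ p ∈ B j, ∑ l ∈ L j, (f j p : ℂ) * (f j l : ℂ) *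
          e ((p * l : ℕ) * (1 / (4 * z j + 1))) := by
      apply Finset.sum_congr rfl
      intro p hp
      apply Finset.sum_congr rfl
      intro l hl
      rw [hGB _ j p hp, hGL _ j l hl]
      simp
    rw [e1, e2] at hss
    exact (hf4 j).trans hss
  obtain ⟨σ, hσ⟩ := SEQ P hloc hex
  refine ⟨ext (G σ), P3 (G σ) (fun p _ => hGpm σ p) (hPS σ), ?_⟩
  intro ε hε N₀
  -- choose j
  have hlim : Filter.Tendsto (fun j : ℕ => ((z j : ℝ)) ^ ε) Filter.atTop Filter.atTop := by
    apply (tendsto_rpow_atTop hε).comp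
    exact tendsto_natCast_atTop_atTop.comp hzmono.tendsto_atTop
  obtain ⟨j, hj1, hj2, hj3⟩ : ∃ j : ℕ, (8 : ℝ) ≤ (z j : ℝ) ^ ε ∧ N₀ ≤ j ∧ 4 / ε ≤ (j : ℝ) := by
    have h1 := hlim.eventually (Filter.eventually_ge_atTop (8 : ℝ))
    have h2 := Filter.eventually_ge_atTop N₀
    have h3 := (tendsto_natCast_atTop_atTop (R := ℝ)).eventually
      (Filter.eventually_ge_atTop (4 / ε))
    obtain ⟨j, hj⟩ := (h1.and (h2.and h3)).exists
    exact ⟨j, hj.1, hj.2.1, hj.2.2⟩
  have hzpos : (0 : ℝ) < z j := by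
    have := hz3 j
    have : (16 : ℝ) ≤ z j := by exact_mod_cast this
    linarith
  refine ⟨16 * z j ^ 2, ?_, 1 / (4 * z j + 1), ?_, ?_⟩
  · have := hzj j
    have h3 := hz3 j
    nlinarith
  · constructor
    · positivity
    · rw [div_le_one (by positivity)]
      linarith
  · refine le_trans ?_ (hσ j)
    have hd : 4 * (1 / ((j : ℝ) + 10)) ≤ ε := by
      rw [mul_one_div, div_le_iff₀ (by positivity)]
      rw [div_le_iff₀ hε] at hj3
      nlinarith
    have hone : (1 : ℝ) ≤ z j := by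
      have := hz3 j
      have : (16 : ℝ) ≤ z j := by exact_mod_cast this
      linarith
    have h16 : ((16 * z j ^ 2 : ℕ) : ℝ) = 16 * (z j : ℝ) ^ (2 : ℕ) := by push_cast; ring
    rw [h16, Real.mul_rpow (by norm_num) (by positivity)]
    have e1 : ((z j : ℝ) ^ (2 : ℕ)) ^ (3 / 4 - ε) = (z j : ℝ) ^ (3 / 2 - 2 * ε) := by
      rw [← Real.rpow_natCast, ← Real.rpow_mul hzpos.le]
      congr 1
      push_cast
      ring
    have e2 : (16 : ℝ) ^ (3 / 4 - ε) ≤ 8 := by
      have h8 : (16 : ℝ) ^ (3 / 4 : ℝ) = 8 := by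
        rw [show (16 : ℝ) = 2 ^ (4 : ℝ) by norm_num, ← Real.rpow_mul (by norm_num)]
        norm_num
      rw [← h8]
      apply Real.rpow_le_rpow_of_exponent_le (by norm_num)
      linarith
    rw [e1]
    calc (16 : ℝ) ^ (3 / 4 - ε) * (z j : ℝ) ^ (3 / 2 - 2 * ε)
        ≤ (z j : ℝ) ^ ε * (z j : ℝ) ^ (3 / 2 - 2 * ε) := by
          gcongr
          exact e2.trans hj1
      _ = (z j : ℝ) ^ (3 / 2 - ε) := by
          rw [← Real.rpow_add hzpos]
          congr 1
          ring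
      _ ≤ (z j : ℝ) ^ (3 / 2 - 4 * (1 / ((j : ℝ) + 10))) := by
          apply Real.rpow_le_rpow_of_exponent_le hone
          linarith

end Pool.Agent.Helper92.GB
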